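import Pool.Agent.P.MP_318c20_al.UB.Iface

/-!
Existence of the tree of copies.
-/

namespace Pool.Agent.P.MP_318c20_al.UB

open Set Filter Topology

noncomputable section

namespace CONSTR

variable {A Λ : Type} [MetricSpace A] (D : Gt A Λ)

inductive Pre : Type
  | pc (w : Rw Λ) (a : A) : Pre
  | cy (w : Rw Λ) (L : Λ) (m : A) (h : ℝ) (hm : m ∈ D.M L) (hh : h ∈ Icc 0 (D.e L)) : Pre

open Pre

open Classical in
/-- Height over the piece `u` and gate in it, for a point of the piece `w`. -/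
def hp (u : Rw Λ) : Rw Λ → A → ℝ × A :=
  (wf_toward u).fix fun w ih a =>
    if h : ∃ L, u ∈ Far w L then
      ((ih (mv h.choose w) ⟨_, h.choose_spec, rfl⟩ (D.g h.choose a)).1
          + dist a (D.g h.choose a) + D.e h.choose,
        (ih (mv h.choose w) ⟨_, h.choose_spec, rfl⟩ (D.g h.choose a)).2)
    else (0, a)

theorem hp_self (u : Rw Λ) (a : A) : hp D u u a = (0, a) := by
  rw [hp, WellFounded.fix_eq]
  exact dif_neg fun ⟨L, h⟩ => self_not_far u L h

theorem hp_far {u w : Rw Λ} {L : Λ} (h : u ∈ Far w L) (a : A) :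
    hp D u w a = ((hp D u (mv L w) (D.g L a)).1 + dist a (D.g L a) + D.e L,
      (hp D u (mv L w) (D.g L a)).2) := by
  have h' : ∃ L, u ∈ Far w L := ⟨L, h⟩
  have e : h'.choose = L := far_uniq h'.choose_spec h
  conv_lhs => rw [hp, WellFounded.fix_eq]
  rw [← e]
  exact dif_pos h'

theorem hp_lip (u w : Rw Λ) : ∀ a b, (hp D u w a).1 - (hp D u w b).1
    + dist (hp D u w a).2 (hp D u w b).2 ≤ dist a b := by
  refine tree_ind u (fun w => ∀ a b, (hp D u w a).1 - (hp D u w b).1
    + dist (hp D u w a).2 (hp D u w b).2 ≤ dist a b) ?_ ?_ w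
  · intro a b; simp [hp_self]
  · intro w L h ih a b
    rw [hp_far D h a, hp_far D h b]
    linarith [ih (D.g L a) (D.g L b), D.g_lip L a b]

theorem hp_mem {w u : Rw Λ} {L : Λ} (h : u ∈ Far w L) : ∀ a, (hp D w u a).2 ∈ D.M L := by
  revert h
  refine tree_ind w (fun u => u ∈ Far w L → ∀ a, (hp D w u a).2 ∈ D.M L) ?_ ?_ u
  · intro h; exact absurd h (self_not_far w L)
  · intro u K hK ih h a
    rw [hp_far D hK a]
    rcases far_step h K with e | ⟨rfl, rfl⟩
    · exact ih e _
    · rw [mv_mv, hp_self]; exact D.g_mem _ _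

variable {D}

open Classical in
def HP (u : Rw Λ) : Pre D → ℝ × A
  | pc w a => hp D u w a
  | cy w L m h _ _ =>
    if u ∈ Far w L then ((hp D u (mv L w) m).1 + (D.e L - h), (hp D u (mv L w) m).2)
    else ((hp D u w m).1 + h, (hp D u w m).2)

structure Adm (f : Pre D → ℝ) : Prop where
  pp : ∀ w a b, f (pc w a) - f (pc w b) ≤ dist a b
  cc : ∀ w L m h hm hh m' h' hm' hh',
    f (cy w L m h hm hh) - f (cy w L m' h' hm' hh') ≤ dist m m' + |h - h'|
  cp : ∀ w L m hm hh, f (cy w L m 0 hm hh) = f (pc w m)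
  fl : ∀ w L m h hm hh h' hh', h + h' = D.e L →
    f (cy (mv L w) L m h' hm hh') = f (cy w L m h hm hh)

theorem Adm.neg {f : Pre D → ℝ} (h : Adm f) : Adm fun p => -f p where
  pp w a b := by linarith [h.pp w b a, dist_comm a b]
  cc w L m x hm hh m' x' hm' hh' := by
    linarith [h.cc w L m' x' hm' hh' m x hm hh, dist_comm m m', abs_sub_comm x x']
  cp w L m hm hh := by rw [h.cp]
  fl w L m x hm hh x' hh' e := by rw [h.fl w L m x hm hh x' hh' e]

theorem adm_zero : Adm fun _ : Pre D => (0 : ℝ) :=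
  ⟨fun _ _ _ => by simp, fun _ _ _ _ _ _ _ _ _ _ => by rw [sub_zero]; positivity,
    fun _ _ _ _ _ => rfl, fun _ _ _ _ _ _ _ _ _ => rfl⟩

theorem adm_HP (u : Rw Λ) {φ : A → ℝ} (hφ : ∀ a b, φ a - φ b ≤ dist a b) :
    Adm fun p : Pre D => (HP u p).1 + φ (HP u p).2 where
  pp w a b := by
    simp only [HP]
    linarith [hp_lip D u w a b, hφ (hp D u w a).2 (hp D u w b).2]
  cc w L m x hm hh m' x' hm' hh' := by
    simp only [HP]
    split_ifs
    · linarith [hp_lip D u (mv L w) m m', hφ (hp D u (mv L w) m).2 (hp D u (mv L w) m').2,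
        neg_abs_le (x - x')]
    · linarith [hp_lip D u w m m', hφ (hp D u w m).2 (hp D u w m').2, le_abs_self (x - x')]
  cp w L m hm hh := by
    simp only [HP]
    split_ifs with h
    · rw [hp_far D h m, D.g_of_mem hm]; simp
    · simp
  fl w L m x hm hh x' hh' e := by
    simp only [HP, mv_mv]
    by_cases h : u ∈ Far w L
    · rw [if_pos h, if_neg fun h' => (far_back w L u).1 h' h, ← e]; ring_nf
    · rw [if_neg h, if_pos ((far_back w L u).2 h), ← e]; ring_nf

theorem Adm.top {f : Pre D → ℝ} (hf : Adm f) (w : Rw Λ) {L : Λ} {m : A} (hm : m ∈ D.M L) :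
    f (cy w L m (D.e L) hm (D.e_mem L)) = f (pc (mv L w) m) := by
  rw [← hf.fl w L m _ hm (D.e_mem L) 0 (D.zero_mem L) (add_zero _), hf.cp]

theorem Adm.ub_pc {f : Pre D → ℝ} (hf : Adm f) (u : Rw Λ) (a : A) (w : Rw Λ) :
    ∀ b, f (pc w b) - f (pc u a) ≤ (hp D u w b).1 + dist (hp D u w b).2 a := by
  refine tree_ind u (fun w => ∀ b, f (pc w b) - f (pc u a)
    ≤ (hp D u w b).1 + dist (hp D u w b).2 a) ?_ ?_ w
  · intro b; simpa [hp_self] using hf.pp u b a
  · intro w L h ih b
    rw [hp_far D h b]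
    have h1 := hf.pp w b (D.g L b)
    have h2 := hf.cc w L _ 0 (D.g_mem L b) (D.zero_mem L) _ _ (D.g_mem L b) (D.e_mem L)
    rw [hf.cp, hf.top, dist_self, zero_sub, abs_neg, abs_of_pos (D.e_pos L)] at h2
    linarith [ih (D.g L b)]

theorem Adm.ub {f : Pre D → ℝ} (hf : Adm f) (u : Rw Λ) (a : A) (p : Pre D) :
    f p - f (pc u a) ≤ (HP u p).1 + dist (HP u p).2 a := by
  cases p with
  | pc w b => exact hf.ub_pc u a w b
  | cy w L m x hm hh =>
    simp only [HP]
    split_ifs
    · have h2 := hf.cc w L m x hm hh m _ hm (D.e_mem L)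
      rw [hf.top, dist_self, abs_of_nonpos (by linarith [hh.2])] at h2
      linarith [hf.ub_pc u a (mv L w) m]
    · have h2 := hf.cc w L m x hm hh m 0 hm (D.zero_mem L)
      rw [hf.cp, dist_self, sub_zero, abs_of_nonneg hh.1] at h2
      linarith [hf.ub_pc u a w m]

def dd (p q : Pre D) : ℝ := sSup {c | ∃ f, Adm f ∧ c = f p - f q}

theorem le_dd {f : Pre D → ℝ} (hf : Adm f) (p q : Pre D) : f p - f q ≤ dd p q := by
  refine le_csSup ⟨(HP root p).1 + dist (HP root p).2 (HP root q).2 + (HP root q).1, ?_⟩ ⟨f, hf, rfl⟩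
  rintro _ ⟨f, hf, rfl⟩
  have h1 := hf.ub root (HP root q).2 p
  have h2 := hf.neg.ub root (HP root q).2 q
  rw [dist_self] at h2
  linarith

theorem dd_le {p q : Pre D} {c : ℝ} (h : ∀ f, Adm f → f p - f q ≤ c) : dd p q ≤ c :=
  csSup_le ⟨_, _, adm_zero, rfl⟩ (by rintro _ ⟨f, hf, rfl⟩; exact h f hf)

instance : PseudoMetricSpace (Pre D) where
  dist := dd
  dist_self p := le_antisymm (dd_le fun _ _ => by simp) (by simpa using le_dd adm_zero p p)
  dist_comm p q := le_antisymm (dd_le fun f hf => by linarith [le_dd hf.neg q p])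
    (dd_le fun f hf => by linarith [le_dd hf.neg p q])
  dist_triangle p q r := dd_le fun f hf => by linarith [le_dd hf p q, le_dd hf q r]

theorem le_dist {f : Pre D → ℝ} (hf : Adm f) (p q : Pre D) : f p - f q ≤ dist p q := le_dd hf p q

theorem dist_le {p q : Pre D} {c : ℝ} (h : ∀ f, Adm f → f p - f q ≤ c) : dist p q ≤ c := dd_le h

theorem dist_zero {p q : Pre D} (h : ∀ f, Adm f → f p = f q) : dist p q = 0 :=
  le_antisymm (dist_le fun f hf => by rw [h f hf, sub_self]) dist_nonneg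

theorem gate (u : Rw Λ) (p : Pre D) (a : A) : dist p (pc u a) = (HP u p).1 + dist (HP u p).2 a := by
  refine le_antisymm (dist_le fun f hf => hf.ub u a p) ?_
  have := le_dist (adm_HP u (φ := fun b => dist b a) fun b c => by
    linarith [dist_triangle b c a]) p (pc u a)
  simpa [HP, hp_self] using this

theorem cyl (w : Rw Λ) (L : Λ) (m : A) (h : ℝ) (hm hh) (m' : A) (h' : ℝ) (hm' hh') :
    dist (cy w L m h hm hh : Pre D) (cy w L m' h' hm' hh') = dist m m' + |h - h'| := by
  refine le_antisymm (dist_le fun f hf => hf.cc ..) ?_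
  have k : ∀ (m : A) (h : ℝ) (hm hh) (m' : A) (h' : ℝ) (hm' hh'),
      dist m m' + (h - h') ≤ dist (cy w L m h hm hh : Pre D) (cy w L m' h' hm' hh') := by
    intro m h hm hh m' h' hm' hh'
    have := le_dist (adm_HP w (φ := fun b => dist b m') fun b c => by
      linarith [dist_triangle b c m']) (cy w L m h hm hh) (cy w L m' h' hm' hh')
    simp only [HP, self_not_far, if_false, hp_self, dist_self] at this
    linarith
  rcases le_total h h' with e | e
  · have := k m' h' hm' hh' m h hm hh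
    rw [dist_comm m', dist_comm (cy w L m' h' hm' hh')] at this
    rw [abs_of_nonpos (by linarith)]; linarith
  · rw [abs_of_nonneg (by linarith)]; exact k ..

theorem adm_dist (p : Pre D) : Adm fun q => dist p q := by
  have A : ∀ q q' : Pre D, dist p q - dist p q' ≤ dist q q' := fun q q' => by
    linarith [dist_triangle_right p q q', dist_triangle p q' q, dist_comm q q']
  have B : ∀ q q' : Pre D, dist q q' = 0 → dist p q = dist p q' := fun q q' h => by
    have h1 := A q q'
    have h2 := A q' q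
    rw [dist_comm q'] at h2
    linarith
  exact ⟨fun w a b => (A _ _).trans (dist_le fun f hf => hf.pp w a b),
    fun _ _ _ _ _ _ _ _ _ _ => (A _ _).trans (cyl ..).le,
    fun w L m hm hh => B _ _ (dist_zero fun f hf => hf.cp ..),
    fun w L m x hm hh x' hh' e => B _ _ (dist_zero fun f hf => hf.fl w L m x hm hh x' hh' e)⟩

theorem HP_eq (u : Rw Λ) {p q : Pre D} (h : dist p q = 0) : HP u p = HP u q := by
  have e : ∀ a, dist p (pc u a) = dist q (pc u a) := fun a => by
    have h1 := dist_triangle p q (pc u a)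
    have h2 := dist_triangle q p (pc u a)
    rw [dist_comm q p] at h2
    linarith
  have h1 := e (HP u p).2
  have h2 := e (HP u q).2
  simp only [gate, dist_self] at h1 h2
  rw [dist_comm] at h1
  exact Prod.ext (by linarith) (dist_eq_zero.1 (by linarith))

def Nr (w : Rw Λ) (L : Λ) : Pre D → Prop
  | pc u _ => u ∉ Far w L
  | cy u L' _ _ _ _ => u ∉ Far w L ∧ mv L' u ∉ Far w L

theorem edge_eq {w u : Rw Λ} {L L' : Λ} (h : u ∉ Far w L) (h' : mv L' u ∈ Far w L) :
    u = w ∧ L' = L := by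
  rcases far_step h' L' with e | ⟨e, rfl⟩
  · rw [mv_mv] at e; exact absurd e h
  · exact ⟨by rw [← mv_mv L' u, e, mv_mv], rfl⟩

theorem HP_mem {w : Rw Λ} {L : Λ} {q : Pre D} (hq : ¬ Nr w L q) : (HP w q).2 ∈ D.M L := by
  cases q with
  | pc u a => exact hp_mem D (not_not.1 hq) a
  | cy u L' m x hm hh =>
    simp only [HP]
    by_cases h1 : u ∈ Far w L
    · split_ifs with h
      · rcases far_step h1 L' with e | ⟨rfl, rfl⟩
        · exact hp_mem D e m
        · rw [mv_mv, hp_self]; exact hm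
      · exact hp_mem D h1 m
    · have h2 : mv L' u ∈ Far w L := by by_contra e; exact hq ⟨h1, e⟩
      obtain ⟨rfl, rfl⟩ := edge_eq h1 h2
      rw [if_neg (self_not_far _ _), hp_self]; exact hm

theorem sep {w : Rw Λ} {L : Λ} {p q : Pre D} (hp' : Nr w L p) (hq : ¬ Nr w L q) :
    dist p q = dist p (pc w (HP w q).2) + (HP w q).1 := by
  classical
  refine le_antisymm ?_ ?_
  · have := dist_triangle_right p q (pc w (HP w q).2)
    rwa [gate w q, dist_self, add_zero] at this
  have F := adm_HP (D := D) w (φ := fun a => dist p (pc w a)) ((adm_dist p).pp w)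
  have N := adm_dist p
  have hf : Adm fun x : Pre D =>
      if Nr w L x then dist p x else (HP w x).1 + dist p (pc w (HP w x).2) := by
    refine ⟨fun u a b => ?_, fun u K m x hm hh m' x' hm' hh' => ?_, fun u K m hm hh => ?_,
      fun u K m x hm hh x' hh' e => ?_⟩
    · by_cases h : u ∉ Far w L
      · rw [if_pos (show Nr w L (pc u a) from h), if_pos (show Nr w L (pc u b) from h)]
        exact N.pp ..
      · rw [if_neg (show ¬ Nr w L (pc u a) from h), if_neg (show ¬ Nr w L (pc u b) from h)]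
        exact F.pp ..
    · by_cases h : u ∉ Far w L ∧ mv K u ∉ Far w L
      · rw [if_pos (show Nr w L (cy u K m x hm hh) from h),
          if_pos (show Nr w L (cy u K m' x' hm' hh') from h)]
        exact N.cc ..
      · rw [if_neg (show ¬ Nr w L (cy u K m x hm hh) from h),
          if_neg (show ¬ Nr w L (cy u K m' x' hm' hh') from h)]
        exact F.cc ..
    · by_cases h : u ∉ Far w L ∧ mv K u ∉ Far w L
      · rw [if_pos (show Nr w L (cy u K m 0 hm hh) from h), if_pos (show Nr w L (pc u m) from h.1)]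
        exact N.cp ..
      · rw [if_neg (show ¬ Nr w L (cy u K m 0 hm hh) from h), F.cp u K m hm hh]
        split_ifs with h1
        · obtain ⟨rfl, rfl⟩ := edge_eq h1 (L' := K) (by by_contra e; exact h ⟨h1, e⟩)
          simp [HP, hp_self]
        · rfl
    · by_cases h : u ∉ Far w L ∧ mv K u ∉ Far w L
      · rw [if_pos (show Nr w L (cy u K m x hm hh) from h),
          if_pos (show Nr w L (cy (mv K u) K m x' hm hh') from ⟨h.2, by rw [mv_mv]; exact h.1⟩)]
        exact N.fl u K m x hm hh x' hh' e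
      · rw [if_neg (show ¬ Nr w L (cy u K m x hm hh) from h),
          if_neg (show ¬ Nr w L (cy (mv K u) K m x' hm hh') from
            fun h' => h ⟨by simpa only [mv_mv] using h'.2, h'.1⟩)]
        exact F.fl u K m x hm hh x' hh' e
  have := le_dist hf q p
  rw [if_neg hq, if_pos hp', dist_self, dist_comm q p] at this
  linarith

/-! ### The quotient -/

abbrev Sp (D : Gt A Λ) : Type := SeparationQuotient (Pre D)

open SeparationQuotient in
theorem mk_eq' {p q : Pre D} (h : ∀ f, Adm f → f p = f q) : (mk p : Sp D) = mk q :=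
  mk_eq_mk.2 (Metric.inseparable_iff.2 (dist_zero h))

open Classical in
def EE (w : Rw Λ) (L : Λ) (m : A) (h : ℝ) : Sp D :=
  if c : m ∈ D.M L ∧ h ∈ Icc 0 (D.e L) then SeparationQuotient.mk (cy w L m h c.1 c.2)
  else SeparationQuotient.mk (pc w m)

theorem EE_eq (w : Rw Λ) {L : Λ} {m : A} (hm : m ∈ D.M L) {h : ℝ} (hh : h ∈ Icc 0 (D.e L)) :
    (EE w L m h : Sp D) = SeparationQuotient.mk (cy w L m h hm hh) := dif_pos ⟨hm, hh⟩

def HQ (u : Rw Λ) : Sp D → ℝ × A :=
  SeparationQuotient.lift (HP u) fun _ _ h => HP_eq u (Metric.inseparable_iff.1 h)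

open SeparationQuotient in
def ts (D : Gt A Λ) : TS D (Sp D) where
  ι w a := mk (pc w a)
  E := EE
  H u x := (HQ u x).1
  π u x := (HQ u x).2
  cover x := by
    obtain ⟨p, rfl⟩ := surjective_mk x
    cases p with
    | pc w a => exact Or.inl ⟨w, a, rfl⟩
    | cy w L m h hm hh => exact Or.inr ⟨w, L, m, hm, h, hh, (EE_eq w hm hh).symm⟩
  E_zero w L m hm := by rw [EE_eq w hm (D.zero_mem L)]; exact mk_eq' fun f hf => hf.cp ..
  E_flip w L m hm h hh := by
    rw [EE_eq w hm hh, EE_eq _ hm ⟨by linarith [hh.2], by linarith [hh.1]⟩]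
    exact mk_eq' fun f hf => hf.fl w L m h hm hh _ _ (by ring)
  gate w x a := by
    obtain ⟨p, rfl⟩ := surjective_mk x
    exact gate w p a
  cyl w L m hm m' hm' h hh h' hh' := by
    rw [EE_eq w hm hh, EE_eq w hm' hh']; exact cyl ..
  sep w L x hx y hy := by
    obtain ⟨p, rfl, hp'⟩ : ∃ p : Pre D, x = SeparationQuotient.mk p ∧ Nr w L p := by
      obtain ⟨u, hu, ⟨a, rfl⟩ | ⟨K, hK, m, hm, h, hh, rfl⟩⟩ := hx
      · exact ⟨_, rfl, hu⟩
      · exact ⟨_, EE_eq u hm hh, hu, hK⟩
    obtain ⟨q, rfl, hq⟩ : ∃ q : Pre D, y = SeparationQuotient.mk q ∧ ¬ Nr w L q := by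
      obtain ⟨u, hu, ⟨a, rfl⟩ | ⟨K, m, hm, h, hh, rfl⟩⟩ := hy
      · exact ⟨_, rfl, not_not.2 hu⟩
      · exact ⟨_, EE_eq u hm hh, fun h => h.1 hu⟩
    exact ⟨HP_mem hq, sep hp' hq⟩

/-! ### The action -/

variable {Γ : Type} [Group Γ] [MulAction Γ A] [MulAction Γ Λ]

def act (hE : D.Equi Γ) (g : Gp Γ Λ) : Pre D → Pre D
  | pc w a => pc (g.1.2 w) (g.1.1 • a)
  | cy w L m h hm hh => cy (g.1.2 w) (g.1.1 • L) (g.1.1 • m) h (hE.mem _ _ _ hm) (by rwa [hE.e])

theorem cy_congr {w w' : Rw Λ} {L L' : Λ} {m m' : A} {h : ℝ} {hm hh hm' hh'} (e1 : w = w')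
    (e2 : L = L') (e3 : m = m') : (cy w L m h hm hh : Pre D) = cy w' L' m' h hm' hh' := by
  subst e1 e2 e3; rfl

@[reducible] def mulAct (hE : D.Equi Γ) : MulAction (Gp Γ Λ) (Pre D) where
  smul := act hE
  one_smul p := by
    cases p with
    | pc w a => exact congrArg (pc w) (one_smul Γ a)
    | cy w L m h hm hh => exact cy_congr rfl (one_smul Γ L) (one_smul Γ m)
  mul_smul g g' p := by
    cases p with
    | pc w a => exact congrArg (pc _) (mul_smul _ _ a)
    | cy w L m h hm hh => exact cy_congr rfl (mul_smul _ _ L) (mul_smul _ _ m)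

theorem Adm.comp_act (hE : D.Equi Γ) (g : Gp Γ Λ) {f : Pre D → ℝ} (hf : Adm f) :
    Adm fun p => f (act hE g p) where
  pp w a b := (hf.pp ..).trans_eq ((hE.iso _).dist_eq a b)
  cc w L m x hm hh m' x' hm' hh' := (hf.cc ..).trans_eq (by rw [(hE.iso _).dist_eq m m'])
  cp w L m hm hh := hf.cp ..
  fl w L m x hm hh x' hh' e := by
    simp only [act]
    rw [cy_congr (Gp_mv g L w) rfl rfl (hm' := hE.mem _ _ _ hm) (hh' := by rwa [hE.e])]
    exact hf.fl _ _ _ _ _ _ _ _ (by rw [hE.e, e])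

theorem act_le (hE : D.Equi Γ) (g : Gp Γ Λ) (p q : Pre D) :
    dist (act hE g p) (act hE g q) ≤ dist p q :=
  dist_le fun _ hf => le_dist (hf.comp_act hE g) p q

end CONSTR

open CONSTR in
theorem CONSTR : S_CONSTR := by
  intro A Λ Γ _ _ _ _ D hE
  let _ := mulAct hE
  have iso : ∀ g : Gp Γ Λ, Isometry fun p : Pre D => g • p := fun g =>
    Isometry.of_dist_eq fun p q => le_antisymm (act_le hE g p q) (by
      have := act_le hE g⁻¹ (g • p) (g • q)
      change dist (g⁻¹ • g • p) (g⁻¹ • g • q) ≤ _ at this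
      rwa [inv_smul_smul, inv_smul_smul] at this)
  have : ContinuousConstSMul (Gp Γ Λ) (Pre D) := ⟨fun g => (iso g).continuous⟩
  refine ⟨Sp D, inferInstance, inferInstance, ts D, fun g => Isometry.of_dist_eq fun x y => ?_,
    fun g w a => rfl, fun g w L m hm h hh => ?_⟩
  · obtain ⟨p, rfl⟩ := SeparationQuotient.surjective_mk x
    obtain ⟨q, rfl⟩ := SeparationQuotient.surjective_mk y
    exact (iso g).dist_eq p q
  · change g • EE w L m h = EE _ _ _ h
    rw [EE_eq w hm hh, EE_eq _ (hE.mem _ _ _ hm) (by rwa [hE.e])]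
    rfl

end

end Pool.Agent.P.MP_318c20_al.UB
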