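import Pool.Agent.P.MP_318c20_al.UB.Gen
import Pool.Agent.P.MP_318c20_al.UB.Constr

/-!
Assembly of the spaces and of the main statement from the steps.
-/

namespace Pool.Agent.P.MP_318c20_al.UB

open Set Filter Topology

theorem MOD (hT : S_TRAY) (hD : S_DIAG) : S_MOD := by
  intro l
  obtain ⟨T, mT, aT, S0, e0⟩ := CONSTR Unit Col Unit (unitGt l)
    ⟨fun _ => Isometry.of_dist_eq fun _ _ => rfl, fun _ _ _ _ => mem_univ _, fun _ _ => rfl⟩
  have := good_unit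
  have gT : Good T := S0.good
  obtain ⟨τ, rfl⟩ := hT l T S0
  obtain ⟨D, hd, hE⟩ := hD l T τ e0
  obtain ⟨X, mX, aX, S, e1⟩ := CONSTR (T × T) Ln W2 D hE
  have gX : Good X := S.good
  have cT := τ.S.cov () cov_punit
  refine ⟨⟨T, mT, gT, τ, D, hd, X, mX, gX, S⟩, aX,
    ⟨gX.proper, fun ι x r _ h => gX.helly ι x r h, ?_⟩,
    S.geometric e1 (τ.r, τ.r) (PGEOM.2 T (τ.S.geometric e0 () PGEOM.1))⟩
  exact finiteCombDim_of gX.helly (S.cov (τ.r, τ.r) (cT.prod cT)).dimH_le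

theorem main_of (hM : S_MOD) (hF : S_FINAL) (hA : S_ARITH) :
    ∃ (G : Type) (_ : Group G) (X : ℝ → Type) (_ : ∀ t, MetricSpace (X t))
      (_ : ∀ t, MulAction G (X t)),
      (∀ t, Admissible (X t) ∧ Geometric G (X t) ∧
        ∃ σ : X t → X t → ℝ → X t, IsConvexBicombing σ) ∧
      ∀ s t, s ≠ t → ∀ (σ : X s → X s → ℝ → X s) (τ : X t → X t → ℝ → X t),
        IsConvexBicombing σ → IsConvexBicombing τ → ∀ (o : X s) (o' : X t),
          IsEmpty (Boundary σ o ≃ₜ Boundary τ o') := by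
  choose m a h using fun t => hM (len t)
  refine ⟨G, inferInstance, fun t => (m t).X, inferInstance, a,
    fun t => ⟨(h t).1, (h t).2, _, geo_bicombing⟩, fun s t hst σ τ hσ hτ o o' => ⟨fun φ => ?_⟩⟩
  obtain ⟨ρ, hρ⟩ := hF _ _ (m s) (m t) o o' (((bdHomeo hσ o).symm.trans φ).trans (bdHomeo hτ o'))
  exact hst (hA s t ρ hρ)

end Pool.Agent.P.MP_318c20_al.UB
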