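import Pool.Agent.P.MP_318c20_al.UB.Core

namespace Pool.Agent.P.MP_318c20_al.UB

open Set Filter Topology

section Chg

variable {X : Type} [MetricSpace X] [Good X]

theorem cls_cls (o o' : X) {r : ℝ → X} (hr : IsRay r) : cls o' (cls o hr).ray = cls o' hr :=
  cls_eq_cls _ _ (D := dist o (r 0)) fun T =>
    ⟨max T 0, le_max_left _ _, cls_dist o hr (le_max_right _ _)⟩

theorem cls_congr (o : X) {r r' : ℝ → X} (hr : IsRay r) (hr' : IsRay r')
    (h : ∀ t, 0 ≤ t → r t = r' t) : cls o hr = cls o hr' :=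
  cls_eq_cls _ _ (D := 0) fun T => ⟨max T 0, le_max_left _ _, by
    rw [h _ (le_max_right _ _), dist_self]⟩

/-- classes depend continuously on rays whose points depend continuously on a parameter -/
theorem continuous_cls {P : Type} [TopologicalSpace P] (o : X) {r : P → ℝ → X}
    (hr : ∀ p, IsRay (r p)) (hc : ∀ t, 0 ≤ t → Continuous fun p => r p t) :
    Continuous fun p => cls o (hr p) := by
  refine continuous_iff_continuousAt.2 fun p => ?_
  refine tendsto_cls hr (D := dist o (r p 0) + 1) ?_ fun T => ⟨max T 0, le_max_left _ _, ?_⟩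
  · filter_upwards [Metric.tendsto_nhds.1 (hc 0 le_rfl).continuousAt.tendsto 1 one_pos] with q hq
    linarith [dist_triangle_right o (r q 0) (r p 0)]
  · filter_upwards [Metric.tendsto_nhds.1 (hc (max T 0) (le_max_right _ _)).continuousAt.tendsto
      1 one_pos] with q hq
    have := cls_dist o (hr p) (t := max T 0) (le_max_right _ _)
    linarith [dist_triangle_right (r q (max T 0)) ((cls o (hr p)).pt (max T 0)) (r p (max T 0))]

/-- change of base point -/
noncomputable def chg (o o' : X) : Bd o ≃ₜ Bd o' where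
  toFun c := cls o' c.ray
  invFun c := cls o c.ray
  left_inv c := by simp only [cls_cls, cls_self]
  right_inv c := by simp only [cls_cls, cls_self]
  continuous_toFun := continuous_cls o' (fun c : Bd o => c.ray) fun t _ => Bd.cont_pt t
  continuous_invFun := continuous_cls o (fun c : Bd o' => c.ray) fun t _ => Bd.cont_pt t

theorem chg_apply (o o' : X) (c : Bd o) : chg o o' c = cls o' c.ray := rfl

theorem chg_symm (o o' : X) : (chg o o').symm = chg o' o := rfl

theorem chg_cls (o o' : X) {r : ℝ → X} (hr : IsRay r) : chg o o' (cls o hr) = cls o' hr :=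
  cls_cls o o' hr

theorem chg_dist (o o' : X) (c : Bd o) {t : ℝ} (ht : 0 ≤ t) :
    dist ((chg o o' c).pt t) (c.pt t) ≤ dist o' o := by
  have := cls_dist o' c.ray ht
  rwa [c.zero] at this

theorem cls_mem_bd_iff {o : X} {r : ℝ → X} (hr : IsRay r) {A : Set X} :
    cls o hr ∈ bd o A ↔ ∃ D : ℝ, ∀ T : ℝ, ∃ s, T ≤ s ∧ ∃ a ∈ A, dist (r s) a ≤ D := by
  constructor
  · rintro ⟨D, hD⟩
    refine ⟨D + dist o (r 0), fun T => ?_⟩
    obtain ⟨s, hs, a, ha, h1⟩ := hD (max T 0)
    refine ⟨s, (le_max_left _ _).trans hs, a, ha, ?_⟩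
    have := cls_dist o hr ((le_max_right _ _).trans hs)
    linarith [dist_triangle_left (r s) a ((cls o hr).pt s)]
  · rintro ⟨D, hD⟩
    refine ⟨D + dist o (r 0), fun T => ?_⟩
    obtain ⟨s, hs, a, ha, h1⟩ := hD (max T 0)
    refine ⟨s, (le_max_left _ _).trans hs, a, ha, ?_⟩
    have := cls_dist o hr ((le_max_right _ _).trans hs)
    linarith [dist_triangle ((cls o hr).pt s) (r s) a]

theorem chg_mem_bd (o o' : X) (c : Bd o) (A : Set X) : chg o o' c ∈ bd o' A ↔ c ∈ bd o A :=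
  cls_mem_bd_iff c.ray

theorem chg_image_bd (o o' : X) (A : Set X) : chg o o' '' bd o A = bd o' A := by
  ext c
  constructor
  · rintro ⟨c, hc, rfl⟩
    exact (chg_mem_bd o o' c A).2 hc
  · intro hc
    refine ⟨(chg o o').symm c, ?_, (chg o o').apply_symm_apply c⟩
    rw [← chg_mem_bd o o', Homeomorph.apply_symm_apply]
    exact hc

/-- a ray from `o` follows the straight segments from `o` -/
theorem Bd.pt_eq_geo {o : X} (c : Bd o) {T s : ℝ} (hT : 0 ≤ T) (hs : s ∈ Icc (0 : ℝ) 1) :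
    c.pt (T * s) = geo o (c.pt T) s := by
  have h1 := c.ray.2.affine (J := Icc 0 1) T 0 (convex_Icc 0 1) (by
    intro u hu; rw [add_zero]; exact mul_nonneg hT hu.1)
  have := Str.uniq (Good.li (X := X)) h1 (geo_str o (c.pt T)) (by simp [Bd.zero, geo_zero])
    (by simp [geo_one]) hs
  simpa using this

/-- two rays from `o` through a common point agree up to that point -/
theorem Bd.pt_eq_of_eq {o : X} {c c' : Bd o} {T t : ℝ} (h : c.pt T = c'.pt T) (ht : 0 ≤ t)
    (hT : t ≤ T) : c.pt t = c'.pt t := by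
  have := ray_mono c.ray c'.ray (by rw [Bd.zero, Bd.zero]) ht hT
  rw [h, dist_self] at this
  exact dist_le_zero.1 this

omit [Good X] in
theorem IsRay.shift {r : ℝ → X} (hr : IsRay r) {a : ℝ} (ha : 0 ≤ a) : IsRay fun t => r (t + a) := by
  refine ⟨fun s t hs ht => ?_, ?_⟩
  · rw [hr.1 _ _ (by linarith) (by linarith)]; congr 1; ring
  · have := hr.2.affine (J := Ici 0) 1 a (convex_Ici 0) (by
      intro t ht; have : (0 : ℝ) ≤ t := ht; change (0 : ℝ) ≤ _; linarith)
    simpa using this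

theorem cls_shift (o : X) {r : ℝ → X} (hr : IsRay r) {a : ℝ} (ha : 0 ≤ a) :
    cls o (IsRay.shift hr ha) = cls o hr :=
  cls_eq_cls _ _ (D := a) fun T => ⟨max T 0, le_max_left _ _, by
    rw [hr.1 _ _ (by linarith [le_max_right T 0]) (le_max_right _ _)]
    simp [abs_of_nonneg ha]⟩

/-- asymptotic rays that meet agree from then on -/
theorem ray_eq_of_meet {r r' : ℝ → X} (hr : IsRay r) (hr' : IsRay r') (h0 : r 0 = r' 0) {D : ℝ}
    (h : ∀ T : ℝ, ∃ s, T ≤ s ∧ dist (r s) (r' s) ≤ D) {t : ℝ} (ht : 0 ≤ t) : r t = r' t := by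
  have := ConvexOn.le_init (conv2 (Good.li (X := X)) hr.2 hr'.2) h ht
  simpa [h0] using this

end Chg

section Emb

variable {A X : Type} [MetricSpace A] [MetricSpace X]

/-- gated isometric embedding -/
def GEmb (ι : A → X) : Prop :=
  (∀ a b, dist (ι a) (ι b) = dist a b) ∧
    ∀ x, ∃ g : A, ∀ a, dist x (ι a) = dist x (ι g) + dist g a

theorem GEmb.isometry {ι : A → X} (h : GEmb ι) : Isometry ι := Isometry.of_dist_eq h.1

theorem GEmb.comp {Y : Type} [MetricSpace Y] {ι : A → X} {κ : X → Y} (h : GEmb ι) (h' : GEmb κ) :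
    GEmb (κ ∘ ι) := by
  refine ⟨fun a b => by simp only [Function.comp, h'.1, h.1], fun y => ?_⟩
  obtain ⟨g, hg⟩ := h'.2 y
  obtain ⟨g', hg'⟩ := h.2 g
  refine ⟨g', fun a => ?_⟩
  simp only [Function.comp]
  rw [hg (ι a), hg (ι g'), hg' a]; ring

theorem GEmb.of_equiv (e : A ≃ᵢ X) : GEmb e :=
  ⟨e.dist_eq, fun x => ⟨e.symm x, fun a => by
    rw [e.apply_symm_apply, dist_self, zero_add, ← e.dist_eq, e.apply_symm_apply]⟩⟩

theorem GEmb.str {ι : A → X} (h : GEmb ι) {I : Set ℝ} {γ : ℝ → A} (hγ : Str I γ) :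
    Str I fun t => ι (γ t) := by
  refine ⟨h.isometry.continuous.comp_continuousOn hγ.1, fun z => ?_⟩
  obtain ⟨g, hg⟩ := h.2 z
  exact ((convexOn_const (dist z (ι g)) (hγ.2 g).1).add (hγ.2 g)).congr
    fun t _ => (hg (γ t)).symm

theorem GEmb.str_of {ι : A → X} (h : GEmb ι) {I : Set ℝ} {γ : ℝ → A}
    (hγ : Str I fun t => ι (γ t)) : Str I γ := by
  refine ⟨h.isometry.isEmbedding.isInducing.continuousOn_iff.2 hγ.1, fun z => ?_⟩
  simpa only [h.1] using hγ.2 (ι z)

theorem GEmb.ray {ι : A → X} (h : GEmb ι) {r : ℝ → A} (hr : IsRay r) :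
    IsRay fun t => ι (r t) :=
  ⟨fun s t hs ht => by rw [h.1, hr.1 s t hs ht], h.str hr.2⟩

theorem GEmb.ray_of {ι : A → X} (h : GEmb ι) {r : ℝ → A} (hr : IsRay fun t => ι (r t)) :
    IsRay r :=
  ⟨fun s t hs ht => by rw [← h.1, hr.1 s t hs ht], h.str_of hr.2⟩

theorem GEmb.isClosed_range [CompleteSpace A] {ι : A → X} (h : GEmb ι) : IsClosed (range ι) :=
  h.isometry.isClosedEmbedding.isClosed_range

/-- points between two points of a gated subspace lie in it -/
theorem GEmb.mem_of_between {ι : A → X} (h : GEmb ι) {a b : A} {x : X}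
    (hx : dist (ι a) x + dist x (ι b) ≤ dist a b) : x ∈ range ι := by
  obtain ⟨g, hg⟩ := h.2 x
  have h1 := hg a
  have h2 := hg b
  have h3 := dist_triangle_left a b g
  rw [dist_comm (ι a)] at hx
  have : dist x (ι g) ≤ 0 := by linarith
  exact ⟨g, (dist_le_zero.1 this).symm⟩

variable [Good A] [Good X]

theorem GEmb.geo {ι : A → X} (h : GEmb ι) (a b : A) {t : ℝ} (ht : t ∈ Icc (0 : ℝ) 1) :
    geo (ι a) (ι b) t = ι (geo a b t) :=
  Str.uniq (Good.li (X := X)) (geo_str _ _) (h.str (geo_str a b)) (by simp [geo_zero])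
    (by simp [geo_one]) ht

theorem GEmb.cvx {ι : A → X} (h : GEmb ι) : Cvx (range ι) := by
  rintro _ ⟨a, rfl⟩ _ ⟨b, rfl⟩ t ht
  exact ⟨_, (h.geo a b ht).symm⟩

/-- the boundary of a gated subspace inside the boundary of the space -/
noncomputable def GEmb.bdm {ι : A → X} (h : GEmb ι) (a : A) (o : X) (c : Bd a) : Bd o :=
  cls o (h.ray c.ray)

omit [Good A] in
theorem GEmb.bdm_continuous {ι : A → X} (h : GEmb ι) (a : A) (o : X) :
    Continuous (h.bdm a o) :=
  continuous_cls o (fun c : Bd a => h.ray c.ray) fun t _ =>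
    h.isometry.continuous.comp (Bd.cont_pt t)

omit [Good A] in
theorem GEmb.bdm_dist {ι : A → X} (h : GEmb ι) (a : A) (o : X) (c : Bd a) {t : ℝ} (ht : 0 ≤ t) :
    dist ((h.bdm a o c).pt t) (ι (c.pt t)) ≤ dist o (ι a) := by
  have := cls_dist o (h.ray c.ray) ht
  rwa [c.zero] at this

omit [Good A] in
theorem GEmb.bdm_pt {ι : A → X} (h : GEmb ι) (a : A) (c : Bd a) {t : ℝ} (ht : 0 ≤ t) :
    (h.bdm a (ι a) c).pt t = ι (c.pt t) := by
  have := h.bdm_dist a (ι a) c ht
  rw [dist_self] at this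
  exact dist_le_zero.1 this

theorem GEmb.bdm_injective {ι : A → X} (h : GEmb ι) (a : A) (o : X) :
    Function.Injective (h.bdm a o) := by
  intro c c' he
  refine Bd.eq_of_bdd (D := 2 * dist o (ι a)) fun T => ⟨max T 0, le_max_left _ _, ?_⟩
  have := dist_le_of_cls_eq _ _ he (le_max_right T 0)
  simp only [Bd.zero, h.1] at this
  linarith

theorem GEmb.bdm_cls {ι : A → X} (h : GEmb ι) (a : A) (o : X) {r : ℝ → A} (hr : IsRay r) :
    h.bdm a o (cls a hr) = cls o (h.ray hr) :=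
  cls_eq_cls _ _ (D := dist a (r 0)) fun T => ⟨max T 0, le_max_left _ _, by
    rw [h.1]; exact cls_dist a hr (le_max_right _ _)⟩

omit [Good A] in
theorem GEmb.chg_bdm {ι : A → X} (h : GEmb ι) (a : A) (o o' : X) (c : Bd a) :
    chg o o' (h.bdm a o c) = h.bdm a o' c := chg_cls _ _ _

theorem GEmb.bdm_chg {ι : A → X} (h : GEmb ι) (a a' : A) (o : X) (c : Bd a) :
    h.bdm a' o (chg a a' c) = h.bdm a o c := h.bdm_cls a' o c.ray

omit [Good A] in
theorem GEmb.bdm_mem_bd {ι : A → X} (h : GEmb ι) (a : A) (o : X) (c : Bd a) (S : Set A) :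
    h.bdm a o c ∈ bd o (ι '' S) ↔ c ∈ bd a S := by
  rw [GEmb.bdm, cls_mem_bd_iff]
  refine exists_congr fun D => forall_congr' fun T => exists_congr fun s => and_congr_right
    fun _ => ?_
  constructor
  · rintro ⟨_, ⟨b, hb, rfl⟩, h1⟩
    exact ⟨b, hb, by rwa [h.1] at h1⟩
  · rintro ⟨b, hb, h1⟩
    exact ⟨_, ⟨b, hb, rfl⟩, by rwa [h.1]⟩

/-- a ray from a point of the subspace towards its boundary stays in it -/
theorem GEmb.pt_mem {ι : A → X} (h : GEmb ι) {a : A} {c : Bd (ι a)}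
    (hc : c ∈ bd (ι a) (range ι)) {t : ℝ} (ht : 0 ≤ t) : c.pt t ∈ range ι := by
  have := (mem_bd_iff h.cvx ⟨ι a, a, rfl⟩).1 hc t ht
  rw [Metric.infDist_zero_of_mem (mem_range_self a)] at this
  exact (h.isClosed_range.mem_iff_infDist_zero ⟨ι a, a, rfl⟩).2
    (le_antisymm this Metric.infDist_nonneg)

theorem GEmb.range_bdm {ι : A → X} (h : GEmb ι) (a : A) (o : X) :
    range (h.bdm a o) = bd o (range ι) := by
  ext c
  constructor
  · rintro ⟨c, rfl⟩
    exact cls_mem_bd _ fun t _ => mem_range_self _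
  · intro hc
    have h1 := (chg_mem_bd o (ι a) c _).2 hc
    have h2 : ∀ t, ∃ b : A, 0 ≤ t → ι b = (chg o (ι a) c).pt t := by
      intro t
      by_cases ht : 0 ≤ t
      · obtain ⟨b, hb⟩ := h.pt_mem h1 ht
        exact ⟨b, fun _ => hb⟩
      · exact ⟨a, fun h => absurd h ht⟩
    choose r hr using h2
    have hray : IsRay r := h.ray_of ((chg o (ι a) c).ray.congr fun t ht => (hr t ht).symm)
    have h0 : r 0 = a := h.isometry.injective (by rw [hr 0 le_rfl, Bd.zero])
    refine ⟨mkBd r hray h0, ?_⟩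
    refine (eq_cls _ (D := dist (ι a) o) fun T => ⟨max T 0, le_max_left _ _, ?_⟩).symm
    rw [mkBd_pt _ _ _ (le_max_right _ _), hr _ (le_max_right _ _), dist_comm]
    exact chg_dist o (ι a) c (le_max_right _ _)

theorem GEmb.bdm_closedEmbedding {ι : A → X} (h : GEmb ι) (a : A) (o : X) :
    IsClosedEmbedding (h.bdm a o) :=
  (h.bdm_continuous a o).isClosedEmbedding (h.bdm_injective a o)

theorem GEmb.image_bdm {ι : A → X} (h : GEmb ι) (a : A) (o : X) (S : Set A) :
    h.bdm a o '' bd a S = bd o (ι '' S) := by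
  ext c
  constructor
  · rintro ⟨c, hc, rfl⟩
    exact (h.bdm_mem_bd a o c S).2 hc
  · intro hc
    obtain ⟨c, rfl⟩ : c ∈ range (h.bdm a o) := by
      rw [h.range_bdm]; exact bd_mono (image_subset_range _ _) hc
    exact ⟨c, (h.bdm_mem_bd a o c S).1 hc, rfl⟩

/-- the homeomorphism of boundaries given by an isometry -/
noncomputable def bdIso (e : A ≃ᵢ X) (a : A) (o : X) : Bd a ≃ₜ Bd o :=
  (Equiv.ofBijective ((GEmb.of_equiv e).bdm a o) ⟨(GEmb.of_equiv e).bdm_injective a o, by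
    rw [← range_eq_univ, (GEmb.of_equiv e).range_bdm, e.surjective.range_eq]
    exact eq_univ_of_forall fun c => ⟨0, fun T => ⟨T, le_rfl, c.pt T, mem_univ _,
      (dist_self _).le⟩⟩⟩).toHomeomorphOfContinuousClosed
    ((GEmb.of_equiv e).bdm_continuous a o) ((GEmb.of_equiv e).bdm_closedEmbedding a o).isClosedMap

theorem bdIso_apply (e : A ≃ᵢ X) (a : A) (o : X) (c : Bd a) :
    bdIso e a o c = (GEmb.of_equiv e).bdm a o c := rfl

theorem bdIso_cls (e : A ≃ᵢ X) (a : A) (o : X) {r : ℝ → A} (hr : IsRay r) :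
    bdIso e a o (cls a hr) = cls o ((GEmb.of_equiv e).ray hr) :=
  (GEmb.of_equiv e).bdm_cls a o hr

theorem bdIso_image_bd (e : A ≃ᵢ X) (a : A) (o : X) (S : Set A) :
    bdIso e a o '' bd a S = bd o (e '' S) :=
  (GEmb.of_equiv e).image_bdm a o S

end Emb

theorem TS.gemb {A Λ X : Type} [MetricSpace A] [MetricSpace X] {D : Gt A Λ} (S : TS D X)
    (w : Rw Λ) : GEmb (S.ι w) :=
  ⟨S.dist_ι w, fun x => ⟨S.π w x, fun a => by rw [S.gate, ← S.H_eq]⟩⟩

theorem TS.jb_eq {A Λ X : Type} [MetricSpace A] [MetricSpace X] {D : Gt A Λ} (S : TS D X)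
    [Good X] (w : Rw Λ) (o : X) (a : A) : S.jb w o (a0 := a) = (S.gemb w).bdm a o := rfl

end Pool.Agent.P.MP_318c20_al.UB
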