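import Pool.Agent.P.MP_318c20_al.UB.Words
import Pool.Agent.P.MP_318c20_al.Rays
import Pool.Agent.P.MP_318c20_al.Inv

/-!
Trees of copies of a space joined by cylinders over gated subsets: interface and toolbox.
-/

namespace Pool.Agent.P.MP_318c20_al.UB

open Set Filter Topology

noncomputable section

/-! ### Gated sets -/

def Gated {X : Type} [MetricSpace X] (S : Set X) : Prop :=
  ∀ x, ∃ g ∈ S, ∀ s ∈ S, dist x s = dist x g + dist g s

section gated
variable {X : Type} [MetricSpace X] {S : Set X}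

theorem Gated.isClosed (h : Gated S) : IsClosed S := by
  rw [← closure_subset_iff_isClosed]
  intro x hx
  obtain ⟨g, hg, e⟩ := h x
  have : dist x g ≤ 0 := le_of_forall_pos_le_add fun ε hε => by
    obtain ⟨s, hs, h1⟩ := Metric.mem_closure_iff.1 hx ε hε
    have := e s hs
    linarith [dist_nonneg (x := g) (y := s)]
  rwa [dist_le_zero.1 this]

/-- Every point between two points of a gated set lies in it. -/
theorem Gated.between (h : Gated S) {x a b : X} (ha : a ∈ S) (hb : b ∈ S)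
    (hx : dist a x + dist x b ≤ dist a b) : x ∈ S := by
  obtain ⟨g, hg, e⟩ := h x
  have h1 := e a ha
  have h2 := e b hb
  have h3 := dist_triangle_left a b g
  rw [dist_comm a x] at hx
  have : dist x g ≤ 0 := by linarith
  rwa [dist_le_zero.1 this]

theorem geo_dist_left [Good X] (x y : X) {t : ℝ} (ht : t ∈ Icc (0 : ℝ) 1) :
    dist x (geo x y t) = t * dist x y := by
  have := geo_dist x y 0 ⟨le_rfl, zero_le_one⟩ t ht
  rwa [geo_zero, zero_sub, abs_neg, abs_of_nonneg ht.1] at this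

theorem geo_dist_right [Good X] (x y : X) {t : ℝ} (ht : t ∈ Icc (0 : ℝ) 1) :
    dist (geo x y t) y = (1 - t) * dist x y := by
  have := geo_dist x y t ht 1 ⟨zero_le_one, le_rfl⟩
  rwa [geo_one, abs_sub_comm, abs_of_nonneg (by linarith [ht.2])] at this

theorem Gated.cvx [Good X] (h : Gated S) : Cvx S := fun x hx y hy t ht =>
  h.between hx hy (by rw [geo_dist_left x y ht, geo_dist_right x y ht]; linarith)

theorem Gated.nonempty (h : Gated S) (x : X) : S.Nonempty := (h x).imp fun _ h => h.1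

/-- A path in a space covered by two closed sets meets their intersection. -/
theorem cross_gen {Y : Type} [TopologicalSpace Y] {A C : Set Y} (hA : IsClosed A) (hC : IsClosed C)
    (hU : A ∪ C = univ) {γ : ℝ → Y} {a b : ℝ} (hab : a ≤ b) (hγ : ContinuousOn γ (Icc a b))
    (ha : γ a ∈ A) (hb : γ b ∈ C) : ∃ t ∈ Icc a b, γ t ∈ A ∧ γ t ∈ C := by
  obtain ⟨_, ⟨t, ht, rfl⟩, h⟩ := isPreconnected_closed_iff.1 (isPreconnected_Icc.image γ hγ) A C hA hC
    (hU ▸ subset_univ _) ⟨_, ⟨a, ⟨le_rfl, hab⟩, rfl⟩, ha⟩ ⟨_, ⟨b, ⟨hab, le_rfl⟩, rfl⟩, hb⟩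
  exact ⟨t, ht, h⟩

/-- An initial segment of a ray is the straight segment. -/
theorem IsRay.geo_eq [Good X] {r : ℝ → X} (hr : IsRay r) {T θ : ℝ} (hT : 0 ≤ T)
    (hθ : θ ∈ Icc (0 : ℝ) 1) : geo (r 0) (r T) θ = r (θ * T) := by
  have h := Str.uniq (Good.li (X := X)) (geo_str (r 0) (r T))
    (hr.2.affine T 0 (convex_Icc 0 1) fun t ht => by
      simpa using mul_nonneg hT ht.1) (by simp [geo_zero]) (by simp [geo_one]) hθ
  simpa [mul_comm] using h

/-- Two rays with the same origin that meet agree before. -/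
theorem Bd.agree [Good X] {o : X} {c c' : Bd o} {T t : ℝ} (h : c.pt T = c'.pt T) (ht : 0 ≤ t)
    (hT : t ≤ T) : c.pt t = c'.pt t := by
  have := ray_mono c.ray c'.ray (by rw [Bd.zero, Bd.zero]) ht hT
  rw [h, dist_self] at this
  exact dist_le_zero.1 this

theorem cls_self [Good X] {o : X} (c : Bd o) : cls o c.ray = c :=
  (eq_cls c.ray (D := 0) fun T => ⟨T, le_rfl, by simp⟩).symm

/-- A straight isometric line. -/
def IsLine (lm : ℝ → X) : Prop :=
  (∀ s t, dist (lm s) (lm t) = |s - t|) ∧ ∀ z, ConvexOn ℝ univ fun t => dist z (lm t)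

theorem IsLine.pos {lm : ℝ → X} (h : IsLine lm) : IsRay lm :=
  isRay_of (fun s t _ _ => h.1 s t) fun z => (h.2 z).subset (subset_univ _) (convex_Ici 0)

theorem IsLine.rev {lm : ℝ → X} (h : IsLine lm) : IsLine fun t => lm (-t) := by
  refine ⟨fun s t => by rw [h.1, ← abs_neg]; congr 1; ring, fun z => ⟨convex_univ, ?_⟩⟩
  intro x _ y _ a b ha hb hab
  have := (h.2 z).2 (mem_univ (-x)) (mem_univ (-y)) ha hb hab
  simp only [smul_eq_mul] at this ⊢
  rwa [show a * -x + b * -y = -(a * x + b * y) by ring] at this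

theorem convexOn_add_abs (c s0 : ℝ) : ConvexOn ℝ univ fun t : ℝ => c + |t - s0| := by
  refine ⟨convex_univ, fun x _ y _ a b ha hb hab => ?_⟩
  simp only [smul_eq_mul]
  have h1 : a * x + b * y - s0 = a * (x - s0) + b * (y - s0) := by
    have : b = 1 - a := by linarith
    subst this; ring
  have h2 := abs_add_le (a * (x - s0)) (b * (y - s0))
  rw [abs_mul, abs_mul, abs_of_nonneg ha, abs_of_nonneg hb] at h2
  have h3 : c = a * c + b * c := by rw [← add_mul, hab, one_mul]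
  rw [h1]; linarith

/-- A parametrised gated line is a straight isometric line. -/
theorem isLine_of_gate {lm : ℝ → X}
    (h : ∀ p, ∃ s0, ∀ s, dist p (lm s) = dist p (lm s0) + |s - s0|) : IsLine lm := by
  refine ⟨fun s t => ?_, fun z => ?_⟩
  · obtain ⟨s0, h0⟩ := h (lm s)
    have h1 := h0 s
    rw [dist_self] at h1
    have h2 := dist_nonneg (x := lm s) (y := lm s0)
    have h3 := abs_nonneg (s - s0)
    have h4 : s = s0 := sub_eq_zero.1 (abs_eq_zero.1 (by linarith))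
    rw [h0 t, ← h4, dist_self, zero_add, abs_sub_comm]
  · obtain ⟨s0, h0⟩ := h z
    exact (convexOn_add_abs (dist z (lm s0)) s0).congr fun t _ => (h0 t).symm

end gated

/-! ### The interface -/

/-- A locally finite family of gated tree-like subsets with widths. -/
structure Gt (A Λ : Type) [MetricSpace A] where
  M : Λ → Set A
  g : Λ → A → A
  e : Λ → ℝ
  g_mem : ∀ L a, g L a ∈ M L
  gate : ∀ L a, ∀ m ∈ M L, dist a m = dist a (g L a) + dist (g L a) m
  four : ∀ L, ∀ a ∈ M L, ∀ b ∈ M L, ∀ c ∈ M L, ∀ d ∈ M L,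
    dist a b + dist c d ≤ max (dist a c + dist b d) (dist a d + dist b c)
  lo : ∃ ε, 0 < ε ∧ ∀ L, ε ≤ e L
  hi : ∃ B, ∀ L, e L ≤ B
  lf : ∀ a R, {L | dist a (g L a) ≤ R}.Finite

variable {A Λ X : Type} [MetricSpace A] [MetricSpace X]

theorem Gt.e_pos (D : Gt A Λ) (L : Λ) : 0 < D.e L := by
  obtain ⟨ε, h0, h⟩ := D.lo; exact h0.trans_le (h L)

theorem Gt.g_of_mem (D : Gt A Λ) {L : Λ} {m : A} (hm : m ∈ D.M L) : D.g L m = m := by
  have h := D.gate L m m hm
  rw [dist_self, dist_comm m] at h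
  exact dist_eq_zero.1 (by linarith [dist_nonneg (x := D.g L m) (y := m)])

theorem Gt.g_lip (D : Gt A Λ) (L : Λ) (a a' : A) :
    dist a (D.g L a) - dist a' (D.g L a') + dist (D.g L a) (D.g L a') ≤ dist a a' := by
  have h := D.gate L a _ (D.g_mem L a')
  linarith [dist_triangle a a' (D.g L a')]

theorem Gt.zero_mem (D : Gt A Λ) (L : Λ) : (0 : ℝ) ∈ Icc 0 (D.e L) := ⟨le_rfl, (D.e_pos L).le⟩
theorem Gt.e_mem (D : Gt A Λ) (L : Λ) : D.e L ∈ Icc 0 (D.e L) := ⟨(D.e_pos L).le, le_rfl⟩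

/-- The group acts by isometries and permutes the gated sets. -/
structure Gt.Equi (D : Gt A Λ) (Γ : Type) [Group Γ] [MulAction Γ A] [MulAction Γ Λ] : Prop where
  iso : ∀ γ : Γ, Isometry fun a : A => γ • a
  mem : ∀ (γ : Γ) L, ∀ m ∈ D.M L, γ • m ∈ D.M (γ • L)
  e : ∀ (γ : Γ) L, D.e (γ • L) = D.e L

/-- The cylinder from the piece `u` across `L`. -/
def CylR (D : Gt A Λ) (E : Rw Λ → Λ → A → ℝ → X) (u : Rw Λ) (L : Λ) : Set X :=
  {x | ∃ m ∈ D.M L, ∃ h ∈ Icc 0 (D.e L), x = E u L m h}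

def SideR (D : Gt A Λ) (ι : Rw Λ → A → X) (E : Rw Λ → Λ → A → ℝ → X) (w : Rw Λ) (L : Λ) : Set X :=
  {x | ∃ u ∈ Far w L, x ∈ range (ι u) ∨ ∃ L', x ∈ CylR D E u L'}

def NearR (D : Gt A Λ) (ι : Rw Λ → A → X) (E : Rw Λ → Λ → A → ℝ → X) (w : Rw Λ) (L : Λ) : Set X :=
  {x | ∃ u, u ∉ Far w L ∧ (x ∈ range (ι u) ∨ ∃ L', mv L' u ∉ Far w L ∧ x ∈ CylR D E u L')}

/-- A tree of copies of `A` joined by cylinders with the sum metric. -/
structure TS (D : Gt A Λ) (X : Type) [MetricSpace X] where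
  ι : Rw Λ → A → X
  E : Rw Λ → Λ → A → ℝ → X
  H : Rw Λ → X → ℝ
  π : Rw Λ → X → A
  cover : ∀ x, (∃ w, x ∈ range (ι w)) ∨ ∃ w L, x ∈ CylR D E w L
  E_zero : ∀ w L, ∀ m ∈ D.M L, E w L m 0 = ι w m
  E_flip : ∀ w L, ∀ m ∈ D.M L, ∀ h ∈ Icc 0 (D.e L), E (mv L w) L m (D.e L - h) = E w L m h
  gate : ∀ w x a, dist x (ι w a) = H w x + dist (π w x) a
  cyl : ∀ w L, ∀ m ∈ D.M L, ∀ m' ∈ D.M L, ∀ h ∈ Icc 0 (D.e L), ∀ h' ∈ Icc 0 (D.e L),
    dist (E w L m h) (E w L m' h') = dist m m' + |h - h'|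
  sep : ∀ w L, ∀ p ∈ NearR D ι E w L, ∀ q ∈ SideR D ι E w L,
    π w q ∈ D.M L ∧ dist p q = dist p (ι w (π w q)) + H w q

structure TS.Equi {D : Gt A Λ} (S : TS D X) (Γ : Type) [Group Γ] [MulAction Γ A] [MulAction Γ Λ]
    [MulAction (Gp Γ Λ) X] : Prop where
  iso : ∀ g : Gp Γ Λ, Isometry fun x : X => g • x
  ι : ∀ (g : Gp Γ Λ) w a, g • S.ι w a = S.ι (g.1.2 w) (g.1.1 • a)
  E : ∀ (g : Gp Γ Λ) w L, ∀ m ∈ D.M L, ∀ h ∈ Icc 0 (D.e L),
    g • S.E w L m h = S.E (g.1.2 w) (g.1.1 • L) (g.1.1 • m) h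

namespace TS
variable {D : Gt A Λ} (S : TS D X)

def Cyl (w : Rw Λ) (L : Λ) : Set X := CylR D S.E w L
/-- The cylinder `(w, L)` and everything beyond it. -/
def Side (w : Rw Λ) (L : Λ) : Set X := SideR D S.ι S.E w L
/-- The piece `w` and everything that is not beyond the cylinder `(w, L)`. -/
def Near (w : Rw Λ) (L : Λ) : Set X := NearR D S.ι S.E w L
/-- The piece. -/
def Pc (w : Rw Λ) : Set X := range (S.ι w)
/-- The gated set inside the piece. -/
def Mr (w : Rw Λ) (L : Λ) : Set X := S.ι w '' D.M L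

theorem H_eq (w : Rw Λ) (x : X) : S.H w x = dist x (S.ι w (S.π w x)) := by simp [S.gate]

theorem H_nonneg (w : Rw Λ) (x : X) : 0 ≤ S.H w x := by rw [H_eq]; exact dist_nonneg

theorem H_le (w : Rw Λ) (x : X) (a : A) : S.H w x ≤ dist x (S.ι w a) := by
  rw [S.gate]; linarith [dist_nonneg (x := S.π w x) (y := a)]

theorem gate_uniq {w : Rw Λ} {x : X} {h : ℝ} {a0 : A}
    (e : ∀ a, dist x (S.ι w a) = h + dist a0 a) : S.H w x = h ∧ S.π w x = a0 := by
  have h1 := e (S.π w x)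
  have h2 := e a0
  rw [S.gate] at h1 h2
  rw [dist_self] at h1 h2
  rw [dist_comm a0] at h1
  exact ⟨by linarith, dist_eq_zero.1 (by linarith)⟩

theorem H_π_ι (w : Rw Λ) (a : A) : S.H w (S.ι w a) = 0 ∧ S.π w (S.ι w a) = a := by
  have h := S.gate w (S.ι w a) a
  rw [dist_self] at h
  have h1 := S.H_nonneg w (S.ι w a)
  have h2 := dist_nonneg (x := S.π w (S.ι w a)) (y := a)
  exact ⟨by linarith, dist_eq_zero.1 (by linarith)⟩

theorem H_ι (w : Rw Λ) (a : A) : S.H w (S.ι w a) = 0 := (S.H_π_ι w a).1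
theorem π_ι (w : Rw Λ) (a : A) : S.π w (S.ι w a) = a := (S.H_π_ι w a).2

theorem dist_ι (w : Rw Λ) (a b : A) : dist (S.ι w a) (S.ι w b) = dist a b := by
  rw [S.gate, H_ι, π_ι, zero_add]

theorem isometry_ι (w : Rw Λ) : Isometry (S.ι w) := Isometry.of_dist_eq (S.dist_ι w)

theorem mem_Pc_iff {w : Rw Λ} {x : X} : x ∈ S.Pc w ↔ S.H w x = 0 := by
  constructor
  · rintro ⟨a, rfl⟩; exact S.H_ι w a
  · intro h
    rw [H_eq, dist_eq_zero] at h
    exact ⟨_, h.symm⟩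

/-- Height and gate form a nonexpanding map to the sum metric. -/
theorem Hπ_lip (w : Rw Λ) (x y : X) :
    S.H w x - S.H w y + dist (S.π w x) (S.π w y) ≤ dist x y := by
  have h := S.gate w x (S.π w y)
  have h2 := S.H_eq w y
  linarith [dist_triangle x y (S.ι w (S.π w y))]

theorem π_lip (w : Rw Λ) (x y : X) : dist (S.π w x) (S.π w y) ≤ dist x y := by
  have h1 := S.Hπ_lip w x y
  have h2 := S.Hπ_lip w y x
  rw [dist_comm y x, dist_comm (S.π w y)] at h2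
  linarith

theorem E_top (w : Rw Λ) (L : Λ) {m : A} (hm : m ∈ D.M L) :
    S.E w L m (D.e L) = S.ι (mv L w) m := by
  rw [← S.E_flip w L m hm _ (D.e_mem L), sub_self, S.E_zero _ _ _ hm]

theorem E_mem_Cyl (w : Rw Λ) {L : Λ} {m : A} (hm : m ∈ D.M L) {h : ℝ} (hh : h ∈ Icc 0 (D.e L)) :
    S.E w L m h ∈ S.Cyl w L := ⟨m, hm, h, hh, rfl⟩

theorem Cyl_mv (w : Rw Λ) (L : Λ) : S.Cyl (mv L w) L = S.Cyl w L := by
  have A : ∀ w, S.Cyl w L ⊆ S.Cyl (mv L w) L := by
    rintro w _ ⟨m, hm, h, hh, rfl⟩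
    exact ⟨m, hm, D.e L - h, ⟨by linarith [hh.2], by linarith [hh.1]⟩, (S.E_flip w L m hm h hh).symm⟩
  exact subset_antisymm (by simpa only [mv_mv] using A (mv L w)) (A w)

theorem Pc_subset_Side {w u : Rw Λ} {L : Λ} (h : u ∈ Far w L) : S.Pc u ⊆ S.Side w L :=
  fun _ hx => ⟨u, h, Or.inl hx⟩

theorem Pc_subset_Near {w u : Rw Λ} {L : Λ} (h : u ∉ Far w L) : S.Pc u ⊆ S.Near w L :=
  fun _ hx => ⟨u, h, Or.inl hx⟩

theorem ι_mem_Near (w : Rw Λ) (L : Λ) (a : A) : S.ι w a ∈ S.Near w L :=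
  S.Pc_subset_Near (self_not_far w L) ⟨a, rfl⟩

theorem Cyl_subset_Side' {w u : Rw Λ} {L : Λ} (h : u ∈ Far w L) (L' : Λ) :
    S.Cyl u L' ⊆ S.Side w L := fun _ hx => ⟨u, h, Or.inr ⟨L', hx⟩⟩

theorem Cyl_subset_Side (w : Rw Λ) (L : Λ) : S.Cyl w L ⊆ S.Side w L :=
  S.Cyl_mv w L ▸ S.Cyl_subset_Side' (mv_far w L) L

theorem Cyl_subset_Near {w u : Rw Λ} {L L' : Λ} (h : u ∉ Far w L) (h' : mv L' u ∉ Far w L) :
    S.Cyl u L' ⊆ S.Near w L := fun _ hx => ⟨u, h, Or.inr ⟨L', h', hx⟩⟩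

theorem Mr_subset_Cyl (w : Rw Λ) (L : Λ) : S.Mr w L ⊆ S.Cyl w L := by
  rintro _ ⟨m, hm, rfl⟩
  exact ⟨m, hm, 0, D.zero_mem L, (S.E_zero w L m hm).symm⟩

theorem Mr_subset_Pc (w : Rw Λ) (L : Λ) : S.Mr w L ⊆ S.Pc w := image_subset_range _ _

theorem near_or_side (w : Rw Λ) (L : Λ) (x : X) : x ∈ S.Near w L ∨ x ∈ S.Side w L := by
  rcases S.cover x with ⟨u, hu⟩ | ⟨u, L', hu⟩
  · by_cases h : u ∈ Far w L
    · exact Or.inr (S.Pc_subset_Side h hu)
    · exact Or.inl (S.Pc_subset_Near h hu)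
  · by_cases h : u ∈ Far w L
    · exact Or.inr (S.Cyl_subset_Side' h L' hu)
    · by_cases h' : mv L' u ∈ Far w L
      · exact Or.inr (S.Cyl_subset_Side' h' L' (by rw [Cyl_mv]; exact hu))
      · exact Or.inl (S.Cyl_subset_Near h h' hu)

theorem near_union_side (w : Rw Λ) (L : Λ) : S.Near w L ∪ S.Side w L = univ :=
  eq_univ_of_forall (S.near_or_side w L)

theorem π_mem {w : Rw Λ} {L : Λ} {q : X} (hq : q ∈ S.Side w L) : S.π w q ∈ D.M L :=
  (S.sep w L _ (S.ι_mem_Near w L (S.π w q)) q hq).1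

theorem sep' {w : Rw Λ} {L : Λ} {p q : X} (hp : p ∈ S.Near w L) (hq : q ∈ S.Side w L) :
    dist p q = dist p (S.ι w (S.π w q)) + S.H w q := (S.sep w L p hp q hq).2

/-- The additive distance formula. -/
theorem add {w : Rw Λ} {L : Λ} {p q : X} (hp : p ∈ S.Near w L) (hq : q ∈ S.Side w L) :
    dist p q = S.H w p + dist (S.π w p) (S.π w q) + S.H w q := by
  rw [S.sep' hp hq, S.gate]

theorem H_π_E (w : Rw Λ) {L : Λ} {m : A} (hm : m ∈ D.M L) {h : ℝ} (hh : h ∈ Icc 0 (D.e L)) :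
    S.H w (S.E w L m h) = h ∧ S.π w (S.E w L m h) = m := by
  have hq := S.Cyl_subset_Side w L (S.E_mem_Cyl w hm hh)
  have h0 := S.π_mem hq
  have h1 := S.cyl w L m hm _ h0 h hh 0 (D.zero_mem L)
  have h2 := S.cyl w L m hm m hm h hh 0 (D.zero_mem L)
  rw [S.E_zero _ _ _ h0, ← S.H_eq, sub_zero, abs_of_nonneg hh.1] at h1
  rw [S.E_zero _ _ _ hm, S.gate, dist_self, sub_zero, abs_of_nonneg hh.1, dist_comm] at h2
  have h3 := dist_nonneg (x := m) (y := S.π w (S.E w L m h))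
  exact ⟨by linarith, (dist_eq_zero.1 (by linarith)).symm⟩

theorem H_E (w : Rw Λ) {L : Λ} {m : A} (hm : m ∈ D.M L) {h : ℝ} (hh : h ∈ Icc 0 (D.e L)) :
    S.H w (S.E w L m h) = h := (S.H_π_E w hm hh).1
theorem π_E (w : Rw Λ) {L : Λ} {m : A} (hm : m ∈ D.M L) {h : ℝ} (hh : h ∈ Icc 0 (D.e L)) :
    S.π w (S.E w L m h) = m := (S.H_π_E w hm hh).2

/-- Distance from the near side to a point of the cylinder. -/
theorem dist_E {w : Rw Λ} {L : Λ} {p : X} (hp : p ∈ S.Near w L) {m : A} (hm : m ∈ D.M L) {h : ℝ}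
    (hh : h ∈ Icc 0 (D.e L)) : dist p (S.E w L m h) = dist p (S.ι w m) + h := by
  rw [S.sep' hp (S.Cyl_subset_Side w L (S.E_mem_Cyl w hm hh)), S.H_E w hm hh, S.π_E w hm hh]

theorem near_inter_side (w : Rw Λ) (L : Λ) : S.Near w L ∩ S.Side w L = S.Mr w L := by
  refine subset_antisymm (fun x hx => ?_) fun x hx =>
    ⟨S.Pc_subset_Near (self_not_far w L) (S.Mr_subset_Pc w L hx),
      S.Cyl_subset_Side w L (S.Mr_subset_Cyl w L hx)⟩
  have h := S.sep' hx.1 hx.2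
  rw [dist_self, ← S.H_eq] at h
  have h0 : dist x (S.ι w (S.π w x)) = 0 := by rw [← S.H_eq]; linarith
  exact ⟨_, S.π_mem hx.2, (dist_eq_zero.1 h0).symm⟩

theorem near_mv_subset_side (w : Rw Λ) (L : Λ) : S.Near (mv L w) L ⊆ S.Side w L := by
  rintro x ⟨u, hu, h⟩
  have hu' : u ∈ Far w L := by by_contra e; exact hu ((far_back w L u).2 e)
  exact ⟨u, hu', h.imp id fun ⟨L', _, h⟩ => ⟨L', h⟩⟩

theorem near_subset_side_mv (w : Rw Λ) (L : Λ) : S.Near w L ⊆ S.Side (mv L w) L := by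
  simpa only [mv_mv] using S.near_mv_subset_side (mv L w) L

theorem side_union_side (w : Rw Λ) (L : Λ) : S.Side w L ∪ S.Side (mv L w) L = univ :=
  eq_univ_of_forall fun x => (S.near_or_side w L x).symm.imp id fun h => S.near_subset_side_mv w L h

/-- The side consists of the cylinder and the near side of the next piece. -/
theorem side_cases {w : Rw Λ} {L : Λ} {x : X} (hx : x ∈ S.Side w L) :
    x ∈ S.Cyl w L ∨ x ∈ S.Near (mv L w) L := by
  obtain ⟨u, hu, h⟩ := hx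
  have hu' : u ∉ Far (mv L w) L := fun e => (far_back w L u).1 e hu
  rcases h with h | ⟨L', h⟩
  · exact Or.inr (S.Pc_subset_Near hu' h)
  · rcases far_step hu L' with e | ⟨rfl, rfl⟩
    · exact Or.inr (S.Cyl_subset_Near hu' (fun e' => (far_back w L _).1 e' e) h)
    · exact Or.inl (S.Cyl_mv w L' ▸ h)

theorem trichotomy (w : Rw Λ) (L : Λ) (x : X) :
    x ∈ S.Near w L ∨ x ∈ S.Cyl w L ∨ x ∈ S.Near (mv L w) L :=
  (S.near_or_side w L x).imp id S.side_cases

theorem side_subset_near (w : Rw Λ) {L L' : Λ} (h : L ≠ L') : S.Side w L ⊆ S.Near w L' := by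
  rintro x ⟨u, hu, hx⟩
  have hu' : u ∉ Far w L' := fun e => h (far_uniq hu e)
  refine ⟨u, hu', hx.imp id fun ⟨L'', hx⟩ => ⟨L'', fun e => ?_, hx⟩⟩
  rcases far_step hu L'' with e' | ⟨rfl, rfl⟩
  · exact h (far_uniq e' e)
  · rw [mv_mv] at e; exact self_not_far _ _ e

theorem near_subset_near_mv (w : Rw Λ) {L L' : Λ} (h : L ≠ L') : S.Near w L ⊆ S.Near (mv L w) L' :=
  (S.near_subset_side_mv w L).trans (S.side_subset_near _ h)

theorem side_mv_subset_side (w : Rw Λ) {L L' : Λ} (h : L' ≠ L) : S.Side (mv L w) L' ⊆ S.Side w L :=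
  (S.side_subset_near _ h).trans (S.near_mv_subset_side w L)

/-- Sides are nested like the far sets. -/
theorem side_subset_side {w u : Rw Λ} {L L' : Λ} (hu : u ∈ Far w L) (hw : w ∉ Far u L') :
    S.Side u L' ⊆ S.Side w L := by
  rintro x ⟨y, hy, hx⟩
  refine ⟨y, ?_, hx⟩
  revert L
  refine tree_ind u (fun w => ∀ {L}, w ∉ Far u L' → u ∈ Far w L → y ∈ Far w L) ?_ ?_ w hw
  · intro L _ h; exact absurd h (self_not_far u L)
  · intro z K hK ih L hz hL
    obtain rfl := far_uniq hK hL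
    by_cases e : u = mv K z
    · subst e
      refine far_nest (fun e' => hz ?_) hy
      rw [e']; exact self_far_mv z K
    · obtain ⟨K', h2⟩ := exists_far e
      have h3 : K' ≠ K := fun e' => (far_back z K u).1 (e' ▸ h2) hK
      refine far_nest h3 (ih (fun e' => ?_) h2)
      rcases far_step e' K with e'' | ⟨e1, e2⟩
      · rw [mv_mv] at e''; exact hz e''
      · have : z = u := by
          have e3 := congrArg (mv K) e1
          rw [mv_mv, e2, mv_mv] at e3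
          exact e3
        exact self_not_far u K (this ▸ hK)

theorem pc_or_side (w : Rw Λ) (x : X) : x ∈ S.Pc w ∨ ∃ L, x ∈ S.Side w L := by
  rcases S.cover x with ⟨u, hu⟩ | ⟨u, L', hu⟩
  · by_cases h : u = w
    · exact Or.inl (h ▸ hu)
    · obtain ⟨L, hL⟩ := exists_far h
      exact Or.inr ⟨L, S.Pc_subset_Side hL hu⟩
  · by_cases h : u = w
    · exact Or.inr ⟨L', S.Cyl_subset_Side w L' (h ▸ hu)⟩
    · obtain ⟨L, hL⟩ := exists_far h
      exact Or.inr ⟨L, S.Cyl_subset_Side' hL L' hu⟩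

/-- Height and gate seen from the next piece. -/
theorem step {w : Rw Λ} {L : Λ} {p : X} (hp : p ∈ S.Near w L) :
    S.H (mv L w) p = S.H w p + dist (S.π w p) (D.g L (S.π w p)) + D.e L ∧
      S.π (mv L w) p = D.g L (S.π w p) := by
  have hs := S.near_subset_side_mv w L hp
  have h0 := S.π_mem hs
  have key : ∀ m ∈ D.M L, dist p (S.ι (mv L w) m)
      = S.H w p + dist (S.π w p) (D.g L (S.π w p)) + D.e L + dist (D.g L (S.π w p)) m := by
    intro m hm
    rw [← S.E_top w L hm, S.dist_E hp hm (D.e_mem L), S.gate, D.gate L _ m hm]; ring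
  have h1 := key _ h0
  have h2 := key _ (D.g_mem L (S.π w p))
  rw [← S.H_eq] at h1
  rw [S.gate, dist_self, dist_comm (S.π (mv L w) p)] at h2
  have h3 := dist_nonneg (x := D.g L (S.π w p)) (y := S.π (mv L w) p)
  exact ⟨by linarith, (dist_eq_zero.1 (by linarith)).symm⟩

theorem gated_Pc (w : Rw Λ) : Gated (S.Pc w) := fun x =>
  ⟨_, ⟨S.π w x, rfl⟩, by rintro _ ⟨a, rfl⟩; rw [S.gate, ← S.H_eq, S.dist_ι]⟩

theorem gated_Mr (w : Rw Λ) (L : Λ) : Gated (S.Mr w L) := fun x =>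
  ⟨_, ⟨D.g L (S.π w x), D.g_mem _ _, rfl⟩, by
    rintro _ ⟨m, hm, rfl⟩
    rw [S.gate, S.gate, S.dist_ι, D.gate L _ m hm]; ring⟩

theorem gated_Near (w : Rw Λ) (L : Λ) : Gated (S.Near w L) := fun x => by
  rcases S.near_or_side w L x with h | h
  · exact ⟨x, h, fun s _ => by simp⟩
  · refine ⟨_, S.ι_mem_Near w L (S.π w x), fun s hs => ?_⟩
    rw [dist_comm x s, S.sep' hs h, ← S.H_eq, dist_comm s]; ring

theorem gated_Side (w : Rw Λ) (L : Λ) : Gated (S.Side w L) := fun x => by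
  rcases S.near_or_side w L x with h | h
  · refine ⟨S.ι w (D.g L (S.π w x)),
      S.Cyl_subset_Side w L (S.Mr_subset_Cyl w L ⟨_, D.g_mem _ _, rfl⟩), fun s hs => ?_⟩
    rw [S.add h hs, S.add (S.ι_mem_Near w L _) hs, S.gate, S.H_ι, S.π_ι, D.gate L _ _ (S.π_mem hs)]
    ring
  · exact ⟨x, h, fun s _ => by simp⟩

theorem str_ι (w : Rw Λ) {I : Set ℝ} {γ : ℝ → A} (h : Str I γ) : Str I fun t => S.ι w (γ t) := by
  refine ⟨(S.isometry_ι w).continuous.comp_continuousOn h.1, fun z => ?_⟩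
  simp only [S.gate]
  exact (convexOn_const _ (h.2 (γ 0)).1).add (h.2 _)

theorem isRay_ι (w : Rw Λ) {r : ℝ → A} (h : IsRay r) : IsRay fun t => S.ι w (r t) :=
  ⟨fun s t hs ht => by rw [S.dist_ι, h.1 s t hs ht], S.str_ι w h.2⟩

theorem isLine_ι (w : Rw Λ) {r : ℝ → A} (h : IsLine r) : IsLine fun t => S.ι w (r t) := by
  refine ⟨fun s t => by rw [S.dist_ι, h.1], fun z => ?_⟩
  simp only [S.gate]
  exact (convexOn_const _ convex_univ).add (h.2 _)

theorem geo_ι [Good A] [Good X] (w : Rw Λ) (a b : A) {t : ℝ} (ht : t ∈ Icc (0 : ℝ) 1) :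
    geo (S.ι w a) (S.ι w b) t = S.ι w (geo a b t) :=
  Str.uniq (Good.li (X := X)) (geo_str _ _) (S.str_ι w (geo_str a b)) (by simp [geo_zero])
    (by simp [geo_one]) ht

/-- The boundary map of a piece. -/
def jb [Good X] (w : Rw Λ) (o : X) {a0 : A} (c : Bd a0) : Bd o := cls o (S.isRay_ι w c.ray)

theorem jb_pt [Good X] (w : Rw Λ) {a0 : A} (c : Bd a0) {t : ℝ} (ht : 0 ≤ t) :
    (S.jb w (S.ι w a0) c).pt t = S.ι w (c.pt t) := by
  have := cls_dist (S.ι w a0) (S.isRay_ι w c.ray) ht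
  simp only [c.zero, dist_self] at this
  exact dist_le_zero.1 this

end TS

/-- Countably many Lipschitz images of `E` cover `X`. -/
def Cov (E X : Type) [PseudoMetricSpace E] [PseudoMetricSpace X] : Prop :=
  ∃ (κ : Type) (_ : Countable κ) (f : κ → E → X),
    (∀ k, ∃ C, LipschitzWith C (f k)) ∧ ∀ x, ∃ k e, f k e = x

end

end Pool.Agent.P.MP_318c20_al.UB
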