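import Pool.Agent.P.MP_318c20_al.UB.Iface

/-!
Clopen sets crossed by at most three line ends are shadows.
-/

namespace Pool.Agent.P.MP_318c20_al.UB

open Set Filter Topology

namespace CUT3

variable {K : Type} [TopologicalSpace K] {k : KD K} {U : Set K}

def Pure (k : KD K) (U : Set K) (x : V) (i : Col) : Prop := k.Sh x i ⊆ U ∨ k.Sh x i ⊆ Uᶜ

theorem child_sub (h : KS k) (x : V) {i j : Col} (e : j ≠ i) : k.Sh (mv i x) j ⊆ k.Sh x i := by
  intro ξ hξ
  by_contra n
  exact disjoint_left.1 (h.disj (mv i x) j i e) hξ (by rw [h.compl]; exact n)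

theorem child_cov (h : KS k) {x : V} {i : Col} {ξ : K} (hξ : ξ ∈ k.Sh x i) :
    ∃ j, j ≠ i ∧ ξ ∈ k.Sh (mv i x) j := by
  obtain ⟨j, hj⟩ := h.cover (mv i x) ξ
  refine ⟨j, ?_, hj⟩
  rintro rfl
  rw [h.compl] at hj
  exact hj hξ

theorem col_ne (h : KS k) {u : V} {a c : Col} (ha : k.Sh u a ⊆ U) (hc : k.Sh u c ⊆ Uᶜ) :
    a ≠ c := by
  rintro rfl
  have := h.en_mem u a (a + 1) (TT.col_ne_succ a)
  exact hc this (ha this)

theorem cross (h : KS k) {u : V} {a c : Col} (ha : k.Sh u a ⊆ U) (hc : k.Sh u c ⊆ Uᶜ) :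
    k.en u a c ∈ k.cr U :=
  have e := col_ne h ha hc
  ⟨ha (h.en_mem u a c e), _, hc (h.en_mem u c a e.symm), u, a, c, e, rfl, rfl⟩

theorem cross_inj (hU : S_UNIQ) (h : KS k) {u : V} {a b c d : Col} (ha : k.Sh u a ⊆ U)
    (hb : k.Sh u b ⊆ U) (hc : k.Sh u c ⊆ Uᶜ) (hd : k.Sh u d ⊆ Uᶜ)
    (e : k.en u a c = k.en u b d) : a = b ∧ c = d :=
  (((hU K k h).2.1 u a c u b d (col_ne h ha hc) (col_ne h hb hd) e).2).resolve_right
    fun e' => col_ne h ha hd e'.1

theorem four {S : Set K} {p q r s : K} (hp : p ∈ S) (hq : q ∈ S) (hr : r ∈ S) (hs : s ∈ S)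
    (h1 : p ≠ q) (h2 : p ≠ r) (h3 : p ≠ s) (h4 : q ≠ r) (h5 : q ≠ s) (h6 : r ≠ s) :
    ¬ S.encard ≤ 3 := by
  intro h
  have e : ({p, q, r, s} : Set K).encard = 4 := by
    rw [encard_insert_of_notMem (by simp [h1, h2, h3]), encard_insert_of_notMem (by simp [h4, h5]),
      encard_pair h6]
    rfl
  have := (encard_le_encard (show ({p, q, r, s} : Set K) ⊆ S by
    simp [insert_subset_iff, hp, hq, hr, hs])).trans h
  rw [e] at this
  exact absurd this (by decide)

/-- An impure edge all of whose children are pure. -/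
def Last (k : KD K) (U : Set K) (y : V) (j : Col) : Prop :=
  ¬ Pure k U y j ∧ ∀ c, c ≠ j → Pure k U (mv j y) c

theorem claimA (h : KS k) {N : ℕ}
    (hN : ∀ y j, hd y ≠ some j → N ≤ y.1.length → Pure k U y j) (x : V) (i : Col)
    (hx : ¬ Pure k U x i) : ∃ y j, k.Sh y j ⊆ k.Sh x i ∧ Last k U y j := by
  have step : ∀ x i, ¬ Pure k U x i → (∀ c, c ≠ i → ¬ Pure k U (mv i x) c →
      ∃ y j, k.Sh y j ⊆ k.Sh (mv i x) c ∧ Last k U y j) →
      ∃ y j, k.Sh y j ⊆ k.Sh x i ∧ Last k U y j := by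
    intro x i hx ih
    by_cases a : ∀ c, c ≠ i → Pure k U (mv i x) c
    · exact ⟨x, i, subset_rfl, hx, a⟩
    · push Not at a
      obtain ⟨c, hc, a⟩ := a
      obtain ⟨y, j, s, l⟩ := ih c hc a
      exact ⟨y, j, s.trans (child_sub h x hc), l⟩
  have out : ∀ n, ∀ x i, hd x ≠ some i → N ≤ x.1.length + n → ¬ Pure k U x i →
      ∃ y j, k.Sh y j ⊆ k.Sh x i ∧ Last k U y j := by
    intro n
    induction n with
    | zero => exact fun x i o l p => absurd (hN x i o l) p
    | succ n ih =>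
      intro x i o l p
      refine step x i p fun c hc a => ih _ c ?_ ?_ a
      · rw [hd_mv_out o]
        exact fun e => hc (Option.some.inj e).symm
      · rw [mv_out o, List.length_cons]
        omega
  have all : ∀ n, ∀ x : V, ∀ i, x.1.length ≤ n → ¬ Pure k U x i →
      ∃ y j, k.Sh y j ⊆ k.Sh x i ∧ Last k U y j := by
    intro n
    induction n with
    | zero =>
      intro x i l p
      refine out N x i (fun o => ?_) (by omega) p
      rw [mv_in o, List.length_cons] at l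
      omega
    | succ n ih =>
      intro x i l p
      by_cases o : hd x = some i
      · refine step x i p fun c _ a => ih _ c ?_ a
        rw [mv_in o, List.length_cons] at l
        omega
      · exact out N x i o (by omega) p
  exact all _ x i le_rfl hx

theorem third : ∀ j a c : Col, ∃ b, b ≠ j ∧ b ≠ a ∧ b ≠ c := by decide

theorem claimB (hU : S_UNIQ) (h : KS k) {y : V} {j : Col} (l : Last k U y j) :
    ∃ p q, p ≠ q ∧ p ∈ k.cr U ∧ q ∈ k.cr U ∧ p ∈ k.Sh y j ∧ q ∈ k.Sh y j := by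
  obtain ⟨n1, n2⟩ := not_or.1 l.1
  obtain ⟨ξ, m1, m2⟩ := not_subset.1 n2
  obtain ⟨η, m3, m4⟩ := not_subset.1 n1
  obtain ⟨a, aj, ha⟩ := child_cov h m1
  obtain ⟨c, cj, hc⟩ := child_cov h m3
  have sa := (l.2 a aj).resolve_right fun e => m2 (e ha)
  have sc := (l.2 c cj).resolve_left fun e => m4 (e hc)
  obtain ⟨b, bj, ba, bc⟩ := third j a c
  have ma := child_sub h y aj (h.en_mem _ a c (col_ne h sa sc))
  rcases l.2 b bj with sb | sb
  · exact ⟨_, _, fun e => ba (cross_inj hU h sa sb sc sc e).1.symm, cross h sa sc, cross h sb sc,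
      ma, child_sub h y bj (h.en_mem _ b c bc)⟩
  · exact ⟨_, _, fun e => bc (cross_inj hU h sa sa sc sb e).2.symm, cross h sa sc, cross h sa sb,
      ma, child_sub h y aj (h.en_mem _ a b ba.symm)⟩

end CUT3

open CUT3 in
theorem CUT3 (hF : S_KFAR) (hU : S_UNIQ) : S_CUT3 := by
  intro K _ k h U hc ⟨ξ, hξ⟩ ⟨η, hη⟩
  constructor
  · intro h3
    obtain ⟨N, hN⟩ := (hF K k h).2.2.2.2 U hc
    obtain ⟨u, hu⟩ : ∃ u, ∀ c, Pure k U u c := by
      by_cases a : ∀ c, Pure k U root c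
      · exact ⟨root, a⟩
      · obtain ⟨i, a⟩ := not_forall.1 a
        obtain ⟨y, j, -, l⟩ := claimA h hN root i a
        refine ⟨mv j y, fun c => ?_⟩
        by_cases e : c = j
        · subst e
          by_contra b
          obtain ⟨y', j', s, l'⟩ := claimA h hN _ _ b
          obtain ⟨p, q, pq, p1, q1, p2, q2⟩ := claimB hU h l
          obtain ⟨p', q', pq', p1', q1', p2', q2'⟩ := claimB hU h l'
          rw [h.compl] at s
          exact four p1 q1 p1' q1' pq (fun e => s p2' (e ▸ p2)) (fun e => s q2' (e ▸ p2))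
            (fun e => s p2' (e ▸ q2)) (fun e => s q2' (e ▸ q2)) pq' h3
        · exact l.2 c e
    obtain ⟨a, ha⟩ := h.cover u ξ
    obtain ⟨c, hc'⟩ := h.cover u η
    have sa := (hu a).resolve_right fun e => e ha hξ
    have sc := (hu c).resolve_left fun e => hη (e hc')
    by_cases e1 : ∀ b, b ≠ a → k.Sh u b ⊆ Uᶜ
    · refine ⟨u, a, Subset.antisymm (fun ζ hζ => ?_) sa⟩
      obtain ⟨b, hb⟩ := h.cover u ζ
      by_cases e : b = a
      · exact e ▸ hb
      · exact absurd hζ (e1 b e hb)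
    by_cases e2 : ∀ d, d ≠ c → k.Sh u d ⊆ U
    · refine ⟨mv c u, c, ?_⟩
      rw [h.compl]
      refine Subset.antisymm (fun ζ hζ m => sc m hζ) fun ζ hζ => ?_
      obtain ⟨d, hd⟩ := h.cover u ζ
      exact e2 d (fun e => hζ (e ▸ hd)) hd
    push Not at e1 e2
    obtain ⟨b, ba, sb⟩ := e1
    obtain ⟨d, dc, sd⟩ := e2
    have sb := (hu b).resolve_right sb
    have sd := (hu d).resolve_left sd
    exact absurd h3 (four (cross h sa sc) (cross h sa sd) (cross h sb sc) (cross h sb sd)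
      (fun e => dc (cross_inj hU h sa sa sc sd e).2.symm)
      (fun e => ba (cross_inj hU h sa sb sc sc e).1.symm)
      (fun e => ba (cross_inj hU h sa sb sc sd e).1.symm)
      (fun e => ba (cross_inj hU h sa sb sd sc e).1.symm)
      (fun e => ba (cross_inj hU h sa sb sd sd e).1.symm)
      fun e => dc (cross_inj hU h sb sb sc sd e).2.symm)
  · rintro ⟨x, i, rfl⟩
    have s : k.cr (k.Sh x i) ⊆ k.en x i '' (Finset.univ.erase i : Finset Col) := by
      rintro ζ ⟨m, ζ', m', ep⟩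
      obtain ⟨j, hj⟩ := h.cover x ζ'
      have e : j ≠ i := fun e => m' (e ▸ hj)
      exact ⟨j, by simpa using e, ((hU K k h).2.2 x i j ζ ζ' e.symm ep m hj).1.symm⟩
    refine (encard_le_encard s).trans ((encard_image_le _ _).trans ?_)
    rw [encard_coe_eq_coe_finsetCard]
    simp

end Pool.Agent.P.MP_318c20_al.UB
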