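import Pool.Agent.P.MP_318c20_al.UB.Iface

/-!
The diagonal lines form a locally finite invariant family of gated lines in the square of the tree.
-/

namespace Pool.Agent.P.MP_318c20_al.UB

open Set Filter Topology

namespace DIAG

theorem ind (l : Len) {α : Type} (m : Col → α → α) (Q : α → Col → Col → ℝ → Prop)
    (base : ∀ p i j, i ≠ j → ∀ s ∈ Icc 0 (l.1 i), Q p i j s)
    (step : ∀ p i j, i ≠ j → ∀ s, Q (m i p) j i s → Q p i j (s + l.1 i))
    (flip : ∀ p i j, i ≠ j → ∀ s, Q p j i s → Q p i j (-s)) :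
    ∀ p i j, i ≠ j → ∀ s, Q p i j s := by
  have key : ∀ n : ℕ, ∀ p i j, i ≠ j → ∀ s : ℝ, 0 ≤ s → s ≤ n → Q p i j s := by
    intro n
    induction n with
    | zero =>
      intro p i j h s h0 h1
      refine base p i j h s ⟨h0, ?_⟩
      have := l.2 i
      push_cast at h1
      linarith
    | succ n ih =>
      intro p i j h s h0 h1
      rcases le_total s (l.1 i) with h2 | h2
      · exact base p i j h s ⟨h0, h2⟩
      · have h3 := l.2 i
        push_cast at h1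
        have := step p i j h (s - l.1 i) (ih _ j i h.symm _ (by linarith) (by linarith))
        rwa [sub_add_cancel] at this
  intro p i j h s
  rcases le_total 0 s with h0 | h0
  · exact key ⌈s⌉₊ p i j h s h0 (Nat.le_ceil s)
  · have := flip p i j h (-s) (key ⌈-s⌉₊ p j i h.symm (-s) (by linarith) (Nat.le_ceil _))
    rwa [neg_neg] at this

variable {l : Len} {T : Type} [MetricSpace T] (τ : TT l T)

theorem dg_sl (p : V × V) {i j : Col} (h : i ≠ j) (s : ℝ) :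
    τ.dg (mv2 i p) j i s = τ.dg p i j (s + l.1 i) :=
  Prod.ext (τ.lam_sl _ h s) (τ.lam_sl _ h s)

theorem dg_flip (p : V × V) {i j : Col} (h : i ≠ j) (s : ℝ) :
    τ.dg p j i s = τ.dg p i j (-s) :=
  Prod.ext (τ.lam_flip _ i j h s) (τ.lam_flip _ i j h s)

theorem dg_mv (p : V × V) {i j : Col} (h : i ≠ j) (s : ℝ) :
    τ.dg (mv2 i p) i j s = τ.dg p i j (l.1 i - s) :=
  Prod.ext (τ.lam_mv _ i j h s) (τ.lam_mv _ i j h s)

/-- The set of points of a diagonal line. -/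
def M : Ln → Set (T × T) :=
  Quot.lift (fun d : LnP => range (τ.dg d.1.1 d.1.2.1 d.1.2.2)) (by
    rintro _ _ (⟨p, i, j, h⟩ | ⟨p, i, j, h⟩)
    · ext z
      constructor
      · rintro ⟨s, rfl⟩
        exact ⟨l.1 i - s, by rw [dg_mv τ p h, sub_sub_cancel]⟩
      · rintro ⟨s, rfl⟩
        exact ⟨l.1 i - s, (dg_mv τ p h s).symm⟩
    · ext z
      constructor
      · rintro ⟨s, rfl⟩
        exact ⟨-s, by rw [dg_flip τ p h, neg_neg]⟩
      · rintro ⟨s, rfl⟩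
        exact ⟨-s, (dg_flip τ p h s).symm⟩)

theorem M_ln (p : V × V) (i j : Col) (h : i ≠ j) : M τ (ln p i j h) = range (τ.dg p i j) := rfl

theorem max_abs (h1 h2 s1 s2 s : ℝ) : max (h1 + |s - s1|) (h2 + |s - s2|) =
    (max (h1 - s1) (h2 - s2) + max (h1 + s1) (h2 + s2)) / 2 +
      |s - (max (h1 + s1) (h2 + s2) - max (h1 - s1) (h2 - s2)) / 2| := by
  simp only [max_def, abs_eq_max_neg]
  split_ifs <;> linarith

theorem gate (L : Ln) (a : T × T) :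
    ∃ g ∈ M τ L, ∀ m ∈ M τ L, dist a m = dist a g + dist g m := by
  obtain ⟨p, i, j, h, rfl⟩ := exists_ln L
  obtain ⟨s1, e1⟩ := τ.lam_gate p.1 i j h a.1
  obtain ⟨s2, e2⟩ := τ.lam_gate p.2 i j h a.2
  have e : ∀ s, dist a (τ.dg p i j s) =
      max (dist a.1 (τ.lam p.1 i j s1) + |s - s1|) (dist a.2 (τ.lam p.2 i j s2) + |s - s2|) := by
    intro s
    rw [Prod.dist_eq, ← e1, ← e2]
    rfl
  generalize dist a.1 (τ.lam p.1 i j s1) = h1 at e
  generalize dist a.2 (τ.lam p.2 i j s2) = h2 at e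
  refine ⟨_, ⟨(max (h1 + s1) (h2 + s2) - max (h1 - s1) (h2 - s2)) / 2, rfl⟩, ?_⟩
  rintro _ ⟨s, rfl⟩
  rw [(τ.isLine_dg p h).1, e, e, max_abs, max_abs, sub_self, abs_zero, add_zero, abs_sub_comm s]

theorem four (a b c d : ℝ) : |a - b| + |c - d| ≤ max (|a - c| + |b - d|) (|a - d| + |b - c|) := by
  simp only [max_def, abs_eq_max_neg]
  split_ifs <;> linarith

theorem red (p : V × V) (i j : Col) (h : i ≠ j) (s : ℝ) :
    ∃ p' i' j' h', ∃ s' ∈ Icc 0 (l.1 i'), ln p' i' j' h' = ln p i j h ∧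
      τ.dg p' i' j' s' = τ.dg p i j s := by
  refine ind l mv2 (fun p i j s => ∀ h : i ≠ j, ∃ p' i' j' h', ∃ s' ∈ Icc 0 (l.1 i'),
    ln p' i' j' h' = ln p i j h ∧ τ.dg p' i' j' s' = τ.dg p i j s) ?_ ?_ ?_ p i j h s h
  · intro p i j _ s hs h
    exact ⟨p, i, j, h, s, hs, rfl, rfl⟩
  · intro p i j _ s ih h
    obtain ⟨p', i', j', h', s', hs, e1, e2⟩ := ih h.symm
    exact ⟨p', i', j', h', s', hs, by rw [e1, ln_sw _ i j h, ln_mv], by rw [e2, dg_sl τ p h]⟩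
  · intro p i j _ s ih h
    obtain ⟨p', i', j', h', s', hs, e1, e2⟩ := ih h.symm
    exact ⟨p', i', j', h', s', hs, by rw [e1, ln_sw _ i j h], by rw [e2, dg_flip τ p h]⟩

theorem near (x : V) {i j : Col} (h : i ≠ j) {s : ℝ} (hs : s ∈ Icc 0 (l.1 i)) (a : T) {R : ℝ}
    (ha : dist a (τ.lam x i j s) ≤ R) : τ.S.H x a ≤ R + ∑ i, l.1 i := by
  have h1 : τ.S.H x a ≤ dist a (τ.vx x) := τ.S.H_le x a ()
  have h2 := dist_triangle a (τ.lam x i j s) (τ.lam x i j 0)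
  rw [(τ.isLine x h).1, τ.lam_zero x h, sub_zero, abs_of_nonneg hs.1] at h2
  have h3 : l.1 i ≤ ∑ i, l.1 i :=
    Finset.single_le_sum (fun j _ => zero_le_one.trans (l.2 j)) (Finset.mem_univ i)
  linarith [hs.2]

theorem lf (hF : S_FIN) (a : T × T) (R : ℝ) : {L | ∃ m ∈ M τ L, dist a m ≤ R}.Finite := by
  have f1 := hF Unit Col T (unitGt l) τ.S a.1 (R + ∑ i, l.1 i)
  have f2 := hF Unit Col T (unitGt l) τ.S a.2 (R + ∑ i, l.1 i)
  have f3 := (f1.prod f2).prod (finite_univ (α := Col × Col))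
  have f4 : (Subtype.val ⁻¹' _ : Set LnP).Finite := f3.preimage Subtype.val_injective.injOn
  refine (f4.image (Quot.mk LnR)).subset ?_
  rintro L ⟨m, hm, hd⟩
  obtain ⟨p, i, j, h, rfl⟩ := exists_ln L
  obtain ⟨s, rfl⟩ := hm
  obtain ⟨p', i', j', h', s', hs, e1, e2⟩ := red τ p i j h s
  rw [← e2, Prod.dist_eq, max_le_iff] at hd
  exact ⟨⟨(p', i', j'), h'⟩, ⟨⟨near τ _ h' hs _ hd.1, near τ _ h' hs _ hd.2⟩, mem_univ _⟩, e1⟩

theorem smul_lam [MulAction W T] (hE : τ.S.Equi Unit) (g : W) (x : V) (i j : Col) (h : i ≠ j)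
    (s : ℝ) : g • τ.lam x i j s = τ.lam (g.1.2 x) i j s := by
  refine ind l mv (fun x i j s => g • τ.lam x i j s = τ.lam (g.1.2 x) i j s) ?_ ?_ ?_ x i j h s
  · intro x i j h s hs
    rw [τ.lam_edge x i j h s hs, τ.lam_edge _ i j h s hs]
    exact hE.E g x i () (mem_univ _) s hs
  · intro x i j h s ih
    rw [← τ.lam_sl x h, ← τ.lam_sl _ h, ih, W_mv]
  · intro x i j h s ih
    rw [← τ.lam_flip x i j h, ← τ.lam_flip _ i j h, ih]

end DIAG

theorem DIAG (hF : S_FIN) : S_DIAG := by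
  intro l T _ _ τ hE
  choose g hg1 hg2 using DIAG.gate τ
  refine ⟨⟨DIAG.M τ, g, fun _ => 1, hg1, hg2, ?_, ⟨1, one_pos, fun _ => le_rfl⟩,
    ⟨1, fun _ => le_rfl⟩, ?_⟩, fun p i j h => rfl, ?_, ?_, fun _ _ => rfl⟩
  · intro L
    obtain ⟨p, i, j, h, rfl⟩ := exists_ln L
    rintro _ ⟨a, rfl⟩ _ ⟨b, rfl⟩ _ ⟨c, rfl⟩ _ ⟨d, rfl⟩
    simp only [(τ.isLine_dg p h).1]
    exact DIAG.four a b c d
  · intro a R
    exact (DIAG.lf τ hF a R).subset fun L hL => ⟨_, hg1 L a, hL⟩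
  · intro γ
    refine Isometry.of_dist_eq fun a b => ?_
    rw [W2.smul_def, W2.smul_def, Prod.dist_eq, Prod.dist_eq]
    simp only
    rw [(hE.iso γ.1).dist_eq, (hE.iso γ.2).dist_eq]
  · intro γ L
    obtain ⟨p, i, j, h, rfl⟩ := exists_ln L
    rintro _ ⟨s, rfl⟩
    refine ⟨s, ?_⟩
    rw [W2.smul_def]
    exact Prod.ext (DIAG.smul_lam τ hE γ.1 p.1 i j h s).symm
      (DIAG.smul_lam τ hE γ.2 p.2 i j h s).symm

end Pool.Agent.P.MP_318c20_al.UB
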