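import Pool.Agent.P.MP_318c20_al.UB.Base

namespace Pool.Agent.P.MP_318c20_al.UB

open Set Filter Topology

variable {X : Type} [MetricSpace X]

theorem IsLine.str {l : ℝ → X} (h : IsLine l) : Str univ l :=
  ⟨(Isometry.of_dist_eq fun s t => by rw [h.1, Real.dist_eq]).continuous.continuousOn, h.2⟩

theorem IsLine.shift {l : ℝ → X} (h : IsLine l) (a : ℝ) : IsLine fun t => l (t + a) := by
  refine ⟨fun s t => by rw [h.1]; congr 1; ring, fun z => ?_⟩
  simpa using (h.str.affine (J := univ) 1 a convex_univ fun _ _ => trivial).2 z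

theorem IsLine.isClosed_image [CompleteSpace X] {l : ℝ → X} (h : IsLine l) {I : Set ℝ}
    (hI : IsClosed I) : IsClosed (l '' I) :=
  (Isometry.of_dist_eq (f := l) fun s t => by
    rw [h.1, Real.dist_eq]).isClosedEmbedding.isClosedMap _ hI

variable [Good X]

theorem IsLine.cls_shift {l : ℝ → X} (h : IsLine l) (o : X) (a : ℝ) :
    cls o (h.shift a).pos = cls o h.pos :=
  cls_eq_cls _ _ (D := |a|) fun T => ⟨T, le_rfl, by rw [h.1]; simp⟩

theorem IsLine.ends_ne {l : ℝ → X} (h : IsLine l) (o : X) : cls o h.pos ≠ cls o h.rev.pos := by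
  intro e
  have h0 := dist_nonneg (x := o) (y := l 0)
  have := dist_le_of_cls_eq _ _ e (t := dist o (l 0) + 1) (by linarith)
  rw [h.1, abs_of_nonneg (by linarith), neg_zero] at this
  linarith

theorem IsLine.bd_range {l : ℝ → X} (h : IsLine l) (o : X) :
    bd o (range l) = {cls o h.pos, cls o h.rev.pos} := by
  refine subset_antisymm ?_ ?_
  · rintro c ⟨D, hD⟩
    by_contra hc
    simp only [mem_insert_iff, mem_singleton_iff, not_or] at hc
    have A : ∀ {l : ℝ → X} (h : IsLine l), c ≠ cls o h.pos → ∃ T, 0 ≤ T ∧ ∀ s, T ≤ s → ∀ u, 0 ≤ u →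
        ¬ dist (c.pt s) (l u) ≤ D := by
      intro l h hne
      by_contra hcon
      push Not at hcon
      refine hne (eq_cls _ (D := 2 * D + dist o (l 0)) fun T => ?_)
      obtain ⟨s, hs, u, hu, h1⟩ := hcon (max T 0) (le_max_right _ _)
      have s0 : 0 ≤ s := (le_max_right _ _).trans hs
      refine ⟨s, (le_max_left _ _).trans hs, ?_⟩
      have e1 := c.dist_o s0
      have e2 := h.1 0 u
      rw [zero_sub, abs_neg, abs_of_nonneg hu] at e2
      have e3 := h.1 u s
      have t1 := dist_triangle (c.pt s) (l u) (l s)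
      have t2 := dist_triangle4 o (l 0) (l u) (c.pt s)
      have t3 := dist_triangle4 (l 0) o (c.pt s) (l u)
      rw [dist_comm (l u) (c.pt s)] at t2
      rw [dist_comm (l 0) o] at t3
      have : |u - s| ≤ D + dist o (l 0) := by rw [abs_le]; constructor <;> linarith
      linarith
    obtain ⟨T1, -, h1⟩ := A h hc.1
    obtain ⟨T2, -, h2⟩ := A h.rev hc.2
    obtain ⟨s, hs, _, ⟨u, rfl⟩, h3⟩ := hD (max T1 T2)
    rcases le_total 0 u with hu | hu
    · exact h1 s ((le_max_left _ _).trans hs) u hu h3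
    · exact h2 s ((le_max_right _ _).trans hs) (-u) (by linarith) (by simpa using h3)
  · rintro c (rfl | rfl)
    · exact cls_mem_bd _ fun t _ => mem_range_self _
    · exact cls_mem_bd _ fun t _ => mem_range_self _

/-- a point of one side is closer to the wall than to any point of the other side -/
theorem exists_wall {N F : Set X} (hN : IsClosed N) (hF : IsClosed F) (hU : N ∪ F = univ) {x y : X}
    (hx : x ∈ N) (hy : y ∈ F) : ∃ z ∈ N ∩ F, dist x z ≤ dist x y := by
  obtain ⟨t, ht, h⟩ := cross_gen hN hF hU zero_le_one (geo_str x y).1 (by rwa [geo_zero])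
    (by rwa [geo_one])
  refine ⟨_, h, ?_⟩
  rw [geo_dist_left x y ht]
  nlinarith [ht.2, dist_nonneg (x := x) (y := y)]

theorem bd_inter {N F : Set X} (hN : Gated N) (hF : Gated F) (hU : N ∪ F = univ) (o : X) :
    bd o N ∩ bd o F = bd o (N ∩ F) := by
  refine subset_antisymm ?_
    (subset_inter (bd_mono inter_subset_left) (bd_mono inter_subset_right))
  rintro c ⟨h1, h2⟩
  rw [mem_bd_iff hN.cvx (hN.nonempty o)] at h1
  rw [mem_bd_iff hF.cvx (hF.nonempty o)] at h2
  have n1 := Metric.infDist_nonneg (x := o) (s := N)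
  have n2 := Metric.infDist_nonneg (x := o) (s := F)
  refine ⟨Metric.infDist o N + Metric.infDist o F + 1, fun T => ⟨max T 0, le_max_left _ _, ?_⟩⟩
  have hx : c.pt (max T 0) ∈ N ∪ F := hU ▸ mem_univ _
  rcases hx with hx | hx
  · obtain ⟨y, hy, h3⟩ := (Metric.infDist_lt_iff (hF.nonempty o)).1
      ((h2 _ (le_max_right T 0)).trans_lt (lt_add_one _))
    obtain ⟨z, hz, h4⟩ := exists_wall hN.isClosed hF.isClosed hU hx hy
    exact ⟨z, hz, by linarith⟩
  · obtain ⟨y, hy, h3⟩ := (Metric.infDist_lt_iff (hN.nonempty o)).1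
      ((h1 _ (le_max_right T 0)).trans_lt (lt_add_one _))
    obtain ⟨z, hz, h4⟩ := exists_wall hF.isClosed hN.isClosed (by rwa [union_comm]) hx hy
    exact ⟨z, hz.symm, by linarith⟩

/-- a ray from the near side to the boundary of the far side crosses the wall or follows it -/
theorem cross_or {N F : Set X} (hN : Gated N) (hF : Gated F) (hU : N ∪ F = univ) {o : X}
    (ho : o ∈ N) {c : Bd o} (hc : c ∈ bd o F) :
    (∃ t, 0 ≤ t ∧ c.pt t ∈ N ∩ F) ∨ c ∈ bd o (N ∩ F) := by
  by_cases h : ∃ t, 0 ≤ t ∧ c.pt t ∈ F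
  · obtain ⟨t, ht, h⟩ := h
    obtain ⟨s, hs, h1⟩ := cross_gen hN.isClosed hF.isClosed hU ht
      (c.ray.2.1.mono fun u hu => hu.1) (by rwa [c.zero]) h
    exact Or.inl ⟨s, hs.1, h1⟩
  · push Not at h
    right
    rw [← bd_inter hN hF hU]
    refine ⟨?_, hc⟩
    rw [← cls_self c]
    exact cls_mem_bd _ fun t ht =>
      (show c.pt t ∈ N ∪ F from hU ▸ mem_univ _).resolve_right (h t ht)

/-- rays that meet a half line, together with its end -/
def Eset (o : X) {l : ℝ → X} (h : IsLine l) : Set (Bd o) :=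
  {c | (∃ t, 0 ≤ t ∧ ∃ s, 0 ≤ s ∧ c.pt t = l s) ∨ c = cls o h.pos}

theorem isClosed_Eset (o : X) {l : ℝ → X} (h : IsLine l) : IsClosed (Eset o h) := by
  rw [← isOpen_compl_iff, isOpen_iff_mem_nhds]
  intro c hc
  simp only [Eset, mem_compl_iff, mem_ofPred_eq, not_or] at hc
  obtain ⟨T, T0, hT⟩ : ∃ T, 0 ≤ T ∧ 2 * dist o (l 0) < dist (c.pt T) ((cls o h.pos).pt T) := by
    by_contra hcon
    push Not at hcon
    exact hc.2 (Bd.eq_of_bdd fun T => ⟨max T 0, le_max_left _ _, hcon _ (le_max_right _ _)⟩)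
  have o1 : IsOpen {c' : Bd o | 2 * dist o (l 0) < dist (c'.pt T) ((cls o h.pos).pt T)} :=
    isOpen_lt continuous_const ((Bd.cont_pt T).dist continuous_const)
  have hj : Continuous fun p : Icc (0 : ℝ) T × Bd o => p.2.pt p.1 := by
    unfold Bd.pt; fun_prop
  have c2 : IsClosed (Prod.snd '' {p : Icc (0 : ℝ) T × Bd o | p.2.pt p.1 ∈ l '' Ici 0}) :=
    isClosedMap_snd_of_compactSpace _ ((h.isClosed_image isClosed_Ici).preimage hj)
  filter_upwards [o1.mem_nhds hT, c2.isOpen_compl.mem_nhds (x := c) (by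
    rintro ⟨⟨t, c'⟩, ⟨s, hs, e⟩, rfl⟩
    exact hc.1 ⟨t, t.2.1, s, hs, e.symm⟩)] with c' h1 h2
  rintro (⟨t, ht, s, hs, e⟩ | rfl)
  · rcases le_total t T with h3 | h3
    · exact h2 ⟨(⟨t, ht, h3⟩, c'), ⟨s, hs, e.symm⟩, rfl⟩
    · have m := ray_mono c'.ray (cls o h.pos).ray (by rw [Bd.zero, Bd.zero]) T0 h3
      have e1 := c'.dist_o ht
      have e2 := h.1 0 s
      rw [zero_sub, abs_neg, abs_of_nonneg hs] at e2
      have e3 := h.1 s t
      have e4 := cls_dist o h.pos ht
      rw [e] at m e1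
      have t1 := dist_triangle_right (l s) ((cls o h.pos).pt t) (l t)
      have t2 := dist_triangle o (l 0) (l s)
      have t3 := dist_triangle_left (l 0) (l s) o
      have : |s - t| ≤ dist o (l 0) := by rw [abs_le]; constructor <;> linarith
      have h1' : 2 * dist o (l 0) < dist (c'.pt T) ((cls o h.pos).pt T) := h1
      linarith
  · have h1' : 2 * dist o (l 0) < dist ((cls o h.pos).pt T) ((cls o h.pos).pt T) := h1
    rw [dist_self] at h1'
    linarith [dist_nonneg (x := o) (y := l 0)]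

/-- a ray that meets a line and goes to its positive end follows it -/
theorem follow_line {o : X} {l : ℝ → X} (h : IsLine l) {t s : ℝ} (ht : 0 ≤ t)
    (e : (cls o h.pos).pt t = l s) {u : ℝ} (hu : 0 ≤ u) :
    (cls o h.pos).pt (u + t) = l (u + s) := by
  refine ray_eq_of_meet (IsRay.shift (cls o h.pos).ray ht) (h.shift s).pos (by simpa using e)
    (D := dist o (l 0) + |t - s|) (fun T => ⟨max T 0, le_max_left _ _, ?_⟩) hu
  have e1 := cls_dist o h.pos (t := max T 0 + t) (by linarith [le_max_right T 0])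
  have e2 := h.1 (max T 0 + t) (max T 0 + s)
  rw [add_sub_add_left_eq_sub] at e2
  linarith [dist_triangle ((cls o h.pos).pt (max T 0 + t)) (l (max T 0 + t)) (l (max T 0 + s))]

/-- a ray that meets a line twice follows it in between -/
theorem between_line {o : X} {l : ℝ → X} (h : IsLine l) (c : Bd o) {t t' s s' : ℝ} (ht : 0 ≤ t)
    (htt : t ≤ t') (hs : s ≤ s') (e : c.pt t = l s) (e' : c.pt t' = l s') {u : ℝ}
    (hu : u ∈ Icc 0 (s' - s)) : c.pt (u + t) = l (u + s) := by
  have d := c.ray.1 t t' ht (ht.trans htt)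
  rw [e, e', h.1, abs_of_nonpos (by linarith), abs_of_nonpos (by linarith)] at d
  exact Str.uniq (Good.li (X := X))
    ((IsRay.shift c.ray ht).2.mono (fun u hu => hu.1) (convex_Icc 0 (s' - s)))
    ((h.shift s).str.mono (subset_univ _) (convex_Icc 0 (s' - s))) (by simpa using e)
    (by rw [show s' - s + t = t' by linarith, e']; simp) hu

theorem pass_of_mem {o : X} {l : ℝ → X} (h : IsLine l) {c : Bd o} (h1 : c ∈ Eset o h)
    (h2 : c ∈ Eset o h.rev) : ∃ t, 0 ≤ t ∧ c.pt t = l 0 := by
  rcases h1 with ⟨t, ht, s, hs, e⟩ | rfl <;> rcases h2 with ⟨t', ht', s', hs', e'⟩ | e'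
  · rcases le_total t t' with k | k
    · have := between_line h.rev c (s := -s) (s' := s') ht k (by linarith) (by simpa using e) e'
        (u := s) ⟨hs, by linarith⟩
      exact ⟨s + t, by linarith, by simpa using this⟩
    · have := between_line h c (s := -s') (s' := s) ht' k (by linarith) e' e
        (u := s') ⟨hs', by linarith⟩
      exact ⟨s' + t', by linarith, by simpa using this⟩
  · subst e'
    have := follow_line h.rev (s := -s) ht (by simpa using e) hs
    exact ⟨s + t, by linarith, by simpa using this⟩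
  · have := follow_line h ht' e' hs'
    exact ⟨s' + t', by linarith, by simpa using this⟩
  · exact absurd e' (h.ends_ne o)

/-- every point of the wall lies on a ray into a connected part of the far boundary that
contains both ends of the wall -/
theorem exit_gen {N F : Set X} (hN : Gated N) (hF : Gated F) (hU : N ∪ F = univ) {l : ℝ → X}
    (h : IsLine l) (hl : N ∩ F = range l) {o : X} (ho : o ∈ N) {B : Set (Bd o)}
    (hB : IsPreconnected B) (hBF : B ⊆ bd o F) (hBl : bd o (range l) ⊆ B) (s : ℝ) :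
    ∃ c ∈ B, ∃ t, 0 ≤ t ∧ c.pt t = l s := by
  have h' := h.shift s
  have hr : range (fun t => l (t + s)) = range l :=
    (add_right_surjective s).range_comp l
  rw [← hr] at hl hBl
  obtain ⟨c, hc, h1, h2⟩ := isPreconnected_closed_iff.1 hB _ _ (isClosed_Eset o h')
    (isClosed_Eset o h'.rev) (by
      intro c hc
      rcases cross_or hN hF hU ho (hBF hc) with ⟨t, ht, k⟩ | k
      · rw [hl] at k
        obtain ⟨u, hu⟩ := k
        rcases le_total 0 u with k | k
        · exact Or.inl (Or.inl ⟨t, ht, u, k, hu.symm⟩)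
        · exact Or.inr (Or.inl ⟨t, ht, -u, by linarith, by simpa using hu.symm⟩)
      · rw [hl, h'.bd_range] at k
        rcases k with k | k
        · exact Or.inl (Or.inr k)
        · exact Or.inr (Or.inr k))
    ⟨_, hBl (by rw [h'.bd_range]; exact Or.inl rfl), Or.inr rfl⟩
    ⟨_, hBl (by rw [h'.bd_range]; exact Or.inr rfl), Or.inr rfl⟩
  obtain ⟨t, ht, e⟩ := pass_of_mem h' h1 h2
  exact ⟨c, hc, t, ht, by simpa using e⟩

end Pool.Agent.P.MP_318c20_al.UB
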