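import Pool.Agent.P.MP_318c20_al.UB.Iface

/-! A homeomorphism of boundaries compares the edge lengths. -/

namespace Pool.Agent.P.MP_318c20_al.UB

open Set Filter Topology

namespace FINAL

/-- One coordinate of a family. -/
structure Sq {K : Type} [TopologicalSpace K] (L : Col → ℝ) (k : KD K) (u : ℕ → V) (i e : Col)
    (ξ : K) (a : ℝ) : Prop where
  hang : ∀ᶠ n in atTop, hd (u n) ≠ some i ∧ hd (u n) ≠ some e
  pos : Tendsto (fun n => k.en (u n) i e) atTop (𝓝 ξ)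
  neg : Tendsto (fun n => k.en (u n) e i) atTop (𝓝 ξ)
  hts : ∃ C, ∀ n : ℕ, |ht L (u n) - n * a| ≤ C

theorem lim_div {s : ℕ → ℝ} {a C : ℝ} (h : ∀ n : ℕ, |s n - n * a| ≤ C) :
    Tendsto (fun n : ℕ => s n / n) atTop (𝓝 a) := by
  have h0 : Tendsto (fun n : ℕ => (s n - n * a) / n) atTop (𝓝 0) := by
    refine squeeze_zero_norm (a := fun n : ℕ => C / n) (fun n => ?_)
      (tendsto_const_div_atTop_nhds_zero_nat C)
    rw [Real.norm_eq_abs, abs_div, Nat.abs_cast]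
    exact div_le_div_of_nonneg_right (h n) (Nat.cast_nonneg n)
  have h1 := h0.add_const a
  rw [zero_add] at h1
  refine h1.congr' ?_
  filter_upwards [eventually_ge_atTop 1] with n hn
  have : (n : ℝ) ≠ 0 := by positivity
  field_simp
  ring

theorem an_div (s t : ℝ) {c : ℝ} (hc : 0 < c) : an (s / c) (t / c) = an s t := by
  unfold an
  rw [max_div_div_right hc.le, ← sub_div, div_div_div_cancel_right₀ hc.ne']

theorem Sq.fam {K : Type} [TopologicalSpace K] {L : Col → ℝ} {k : KD K} {u v : ℕ → V} {i e : Col}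
    {ξ η : K} {a b : ℝ} (hu : Sq L k u i e ξ a) (hv : Sq L k v i e η b) (ha : 0 < a) :
    Fam L k (fun n => (u n, v n)) i e (ξ, η) (an a b) := by
  obtain ⟨C, hC⟩ := hu.hts
  obtain ⟨C', hC'⟩ := hv.hts
  refine ⟨hu.hang.and hv.hang, hu.pos.prodMk_nhds hv.pos, hu.neg.prodMk_nhds hv.neg, ?_, ?_⟩
  · have h1 : Tendsto (fun n : ℕ => (n : ℝ) * a + -C) atTop atTop :=
      tendsto_atTop_add_const_right _ _ (tendsto_natCast_atTop_atTop.atTop_mul_const ha)
    refine tendsto_atTop_mono (fun n => ?_) h1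
    refine le_trans ?_ (le_max_left _ _)
    linarith [(abs_le.1 (hC n)).1]
  · have h1 := lim_div hC
    have h2 := lim_div hC'
    have h3 : Tendsto (fun n : ℕ => an (ht L (u n) / n) (ht L (v n) / n)) atTop (𝓝 (an a b)) :=
      (h2.sub h1).div (h1.max h2) (lt_max_of_lt_left ha).ne'
    refine h3.congr' ?_
    filter_upwards [eventually_ge_atTop 1] with n hn
    exact an_div _ _ (by positivity)

/-- The output of the word lemma. -/
def Wd {K : Type} [TopologicalSpace K] (k : KD K) (i j c e : Col) (a : (Col → ℝ) → ℝ)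
    (x : ℕ → V) : Prop :=
  (∀ n, 1 ≤ n → hd (x n) = some j ∨ hd (x n) = some c) ∧
    (∀ n, n ≤ (x n).1.length) ∧ (∀ (l : Col → ℝ) (n : ℕ), ht l (x n) = n * a l) ∧
    Tendsto (fun n => k.en (x n) i e) atTop (𝓝 (k.en root i j)) ∧
    Tendsto (fun n => k.en (x n) e i) atTop (𝓝 (k.en root i j))

theorem Wd.sq {K : Type} [TopologicalSpace K] {k : KD K} {i j c e : Col} {a : (Col → ℝ) → ℝ}
    {x : ℕ → V} (h : Wd k i j c e a x) (hij : i ≠ j) (hic : i ≠ c) (hje : j ≠ e) (hce : c ≠ e)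
    (L : Col → ℝ) : Sq L k x i e (k.en root i j) (a L) := by
  refine ⟨?_, h.2.2.2.1, h.2.2.2.2, 0, fun n => by rw [h.2.2.1]; simp⟩
  filter_upwards [eventually_ge_atTop 1] with n hn
  rcases h.1 n hn with e1 | e1 <;> rw [e1]
  · exact ⟨fun e2 => hij (Option.some.inj e2).symm, fun e2 => hje (Option.some.inj e2)⟩
  · exact ⟨fun e2 => hic (Option.some.inj e2).symm, fun e2 => hce (Option.some.inj e2)⟩

theorem Wd.sq' (hP : S_PSI) {K K' : Type} [TopologicalSpace K] [TopologicalSpace K'] {k : KD K}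
    {k' : KD K'} {i j c e : Col} {a : (Col → ℝ) → ℝ}
    {x : ℕ → V} (h : Wd k i j c e a x) (hij : i ≠ j) (hic : i ≠ c) (hie : i ≠ e) (hje : j ≠ e)
    (hce : c ≠ e) {Ψ : V → V} {σ : Equiv.Perm Col} {ψ : K → K'} (hψ : Continuous ψ)
    (hT : TI k k' Ψ σ ψ) (L : Col → ℝ) :
    Sq L k' (fun n => Ψ (x n)) (σ i) (σ e) (ψ (k.en root i j)) (a (L ∘ σ)) := by
  obtain ⟨⟨N, hN⟩, hH⟩ := hP Ψ σ hT.1
  obtain ⟨C, hC⟩ := hH L
  refine ⟨?_, ?_, ?_, C, fun n => ?_⟩
  · filter_upwards [(h.sq hij hic hje hce L).hang, eventually_ge_atTop N] with n hn hn'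
    rw [hN _ (hn'.trans (h.2.1 n))]
    cases e1 : hd (x n) with
    | none => simp
    | some d =>
      rw [e1] at hn
      simpa using hn
  · simpa only [Function.comp_def, hT.2 _ _ _ hie] using (hψ.tendsto _).comp h.2.2.2.1
  · have := (hψ.tendsto _).comp h.2.2.2.2
    simpa only [Function.comp_def, hT.2 _ _ _ hie.symm] using this
  · rw [← h.2.2.1]; exact hC _

theorem fourth : ∀ i j c : Col, ∃ e, i ≠ e ∧ j ≠ e ∧ c ≠ e := by decide

theorem an_le {h H : ℝ} (hh : h ≤ H) : an h H = (H - h) / H := by rw [an, max_eq_right hh]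

theorem an_ge {h H : ℝ} (hh : h ≤ H) : an H h = (h - H) / H := by rw [an, max_eq_left hh]

end FINAL

open FINAL in
theorem FINAL (hI : S_INTER) (hK : S_KSM) (hM : S_MONO) (h1 : S_PROD1) (h2 : S_PROD2) (hP : S_PSI)
    (hW : S_WORDS) : S_FINAL := by
  intro l l' m m' o o' φ
  obtain ⟨w', hw⟩ := m.S.image_piece m'.S (hI l m).1 (hI l' m').1 φ root
  obtain ⟨ψ₁, ψ₂, b, hφ⟩ := h1 l l' m m' o o' φ root w' hw
  obtain ⟨Ψ₁, Ψ₂, σ, T1, T2⟩ := h2 l l' m m' o o' φ root w' hw ψ₁ ψ₂ b hφ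
  refine ⟨σ, fun i j c hij hic hjc p q hpq => ?_⟩
  obtain ⟨e, hie, hje, hce⟩ := fourth i j c
  have hie' : σ i ≠ σ e := fun h => hie (σ.injective h)
  have ks : KS m.k := hK l m.T m.τ
  set L' : Col → ℝ := l'.1 ∘ σ with hL'
  have g1 : ∀ d, 1 ≤ l.1 d := l.2
  have g2 : ∀ d, 1 ≤ L' d := fun d => l'.2 _
  obtain ⟨γ, hγ⟩ := exists_nat_ge ((p + 2 : ℝ) + (l.1 i + l.1 j + q * (l.1 i + l.1 c)) +
    (L' i + L' j + q * (L' i + L' c)))
  have p0 : (0 : ℝ) ≤ p := Nat.cast_nonneg p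
  have q0 : (0 : ℝ) ≤ q := Nat.cast_nonneg q
  have b1 : 0 ≤ (q : ℝ) * (l.1 i + l.1 c) := mul_nonneg q0 (by linarith [g1 i, g1 c])
  have b2 : 0 ≤ (q : ℝ) * (L' i + L' c) := mul_nonneg q0 (by linarith [g2 i, g2 c])
  have A1 : 2 ≤ l.1 i + l.1 j := by linarith [g1 i, g1 j]
  have A2 : 2 ≤ L' i + L' j := by linarith [g2 i, g2 j]
  have γ1 : 1 ≤ γ := by
    have : (1 : ℝ) ≤ γ := by linarith
    exact_mod_cast this
  obtain ⟨x1, w1⟩ := hW m.K m.k ks i j c e hij hic hie hje hce 1 q le_rfl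
  obtain ⟨x2, w2⟩ := hW m.K m.k ks i j c e hij hic hie hje hce (1 + p) 0 (by omega)
  obtain ⟨y, w3⟩ := hW m.K m.k ks i j c e hij hic hie hje hce γ 0 γ1
  have v1 : Wd m.k i j c e (fun L => L i + L j + q * (L i + L c)) x1 :=
    ⟨w1.1, w1.2.1, fun L n => by rw [w1.2.2.1]; push_cast; ring, w1.2.2.2⟩
  have v2 : Wd m.k i j c e (fun L => (1 + p) * (L i + L j)) x2 :=
    ⟨w2.1, w2.2.1, fun L n => by rw [w2.2.2.1]; push_cast; ring, w2.2.2.2⟩
  have v3 : Wd m.k i j c e (fun L => γ * (L i + L j)) y :=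
    ⟨w3.1, w3.2.1, fun L n => by rw [w3.2.2.1]; push_cast; ring, w3.2.2.2⟩
  have s1 := v1.sq hij hic hje hce l.1
  have s2 := v2.sq hij hic hje hce l.1
  have s3 := v3.sq hij hic hje hce l.1
  have t1 := v1.sq' hP hij hic hie hje hce ψ₁.continuous T1 l'.1
  have t2 := v2.sq' hP hij hic hie hje hce ψ₁.continuous T1 l'.1
  have t3 := v3.sq' hP hij hic hie hje hce ψ₂.continuous T2 l'.1
  rw [← hL'] at t1 t2 t3
  beta_reduce at s1 s2 s3 t1 t2 t3
  have img : ∀ u v : V, φ '' m.Pr o root (ln (u, v) i e hie) =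
      m'.Pr o' w' (ln (sw b (Ψ₁ u, Ψ₂ v)) (σ i) (σ e) hie') := by
    intro u v
    rw [(hI l m).2, (hI l' m').2, image_pair, hφ, hφ]
    simp only [KD.en2, T1.2 _ _ _ hie, T2.2 _ _ _ hie, T1.2 _ _ _ hie.symm, T2.2 _ _ _ hie.symm]
    cases b <;> rfl
  generalize l.1 i + l.1 j = A at *
  generalize L' i + L' j = A' at *
  generalize (q : ℝ) * (l.1 i + l.1 c) = B at *
  generalize (q : ℝ) * (L' i + L' c) = B' at *
  have γ2 : (p : ℝ) + 2 ≤ γ := by linarith
  have k1 : A + B ≤ γ * A := by nlinarith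
  have k2 : (1 + p) * A ≤ γ * A := by nlinarith
  have k3 : A' + B' ≤ γ * A' := by nlinarith
  have k4 : (1 + p) * A' < γ * A' := by nlinarith
  have H1 : 0 < γ * A := by nlinarith
  have H2 : 0 < γ * A' := by nlinarith
  have r1 : 0 < (1 + (p : ℝ)) * A := by nlinarith
  have r2 : 0 < (1 + (p : ℝ)) * A' := by nlinarith
  have src : an (A + B) (γ * A) ∈ uIcc (an ((1 + p) * A) (γ * A)) 0 := by
    rw [an_le k1, an_le k2]
    refine mem_uIcc_of_ge (div_nonneg (by linarith) H1.le) ?_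
    exact div_le_div_of_nonneg_right (by linarith) H1.le
  have f1 := s1.fam s3 (by linarith)
  have f2 := s2.fam s3 r1
  cases b with
  | false =>
    have := hM l l' m m' o o' φ root w' hw _ _ _ _ i e (σ i) (σ e) hie hie' _ _ _ _ _ _ f1 f2
      (t1.fam t3 (by linarith)) (t2.fam t3 r2) (fun n => img _ _) (fun n => img _ _) src
    rw [an_le k3, an_le k4.le, uIcc_of_ge (div_nonneg (by linarith) H2.le)] at this
    have := (div_le_div_iff_of_pos_right H2).1 this.2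
    linarith
  | true =>
    have := hM l l' m m' o o' φ root w' hw _ _ _ _ i e (σ i) (σ e) hie hie' _ _ _ _ _ _ f1 f2
      (t3.fam t1 H2) (t3.fam t2 H2) (fun n => img _ _) (fun n => img _ _) src
    rw [an_ge k3, an_ge k4.le, uIcc_of_le (div_nonpos_of_nonpos_of_nonneg (by linarith) H2.le)]
      at this
    have := (div_le_div_iff_of_pos_right H2).1 this.1
    linarith

end Pool.Agent.P.MP_318c20_al.UB
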