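import Pool.Agent.P.MP_318c20_al.UB.THelly

namespace Pool.Agent.P.MP_318c20_al.UB

open Set Filter Topology

variable {A Λ X : Type} [MetricSpace A] [MetricSpace X]

theorem Gt.gated (D : Gt A Λ) (L : Λ) : Gated (D.M L) := fun a => ⟨_, D.g_mem L a, D.gate L a⟩

theorem Gt.g_lip' (D : Gt A Λ) (L : Λ) (a a' : A) : dist (D.g L a) (D.g L a') ≤ dist a a' := by
  have h1 := D.g_lip L a a'
  have h2 := D.g_lip L a' a
  rw [dist_comm a' a, dist_comm (D.g L a')] at h2
  linarith

theorem Gt.countable (D : Gt A Λ) (a : A) : Countable Λ := by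
  rw [← countable_univ_iff]
  refine (countable_iUnion fun n : ℕ => (D.lf a n).countable).mono fun L _ => ?_
  exact mem_iUnion.2 (exists_nat_ge (dist a (D.g L a)))

theorem li_real : LI ℝ := by
  intro a b
  rcases lt_trichotomy a b with h | h | h
  · refine ⟨(b - a) / 2, by linarith, fun x y hx hy => ?_⟩
    rw [Real.dist_eq, abs_lt] at hx hy
    simp only [Real.dist_eq]
    rw [abs_of_nonpos (by linarith), abs_of_nonpos (by linarith), abs_of_nonpos (by linarith),
      abs_of_nonpos (by linarith)]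
    linarith
  · refine ⟨1, one_pos, fun x y _ _ => ?_⟩
    rw [h, dist_self]
    linarith [dist_triangle x b y]
  · refine ⟨(a - b) / 2, by linarith, fun x y hx hy => ?_⟩
    rw [Real.dist_eq, abs_lt] at hx hy
    simp only [Real.dist_eq]
    rw [abs_of_nonneg (by linarith), abs_of_nonneg (by linarith), abs_of_nonneg (by linarith),
      abs_of_nonneg (by linarith)]
    linarith

theorem Cov.prod {E F Y Z : Type} [PseudoMetricSpace E] [PseudoMetricSpace F] [PseudoMetricSpace Y]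
    [PseudoMetricSpace Z] (h : Cov E Y) (h' : Cov F Z) : Cov (E × F) (Y × Z) := by
  obtain ⟨κ, _, f, hf, cf⟩ := h
  obtain ⟨κ', _, f', hf', cf'⟩ := h'
  refine ⟨κ × κ', inferInstance, fun k p => (f k.1 p.1, f' k.2 p.2), fun k => ?_, fun x => ?_⟩
  · obtain ⟨C, hC⟩ := hf k.1
    obtain ⟨C', hC'⟩ := hf' k.2
    exact ⟨_, (hC.comp LipschitzWith.prod_fst).prodMk (hC'.comp LipschitzWith.prod_snd)⟩
  · obtain ⟨k, e, h1⟩ := cf x.1
    obtain ⟨k', e', h2⟩ := cf' x.2
    exact ⟨(k, k'), (e, e'), Prod.ext h1 h2⟩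

theorem cov_punit : Cov ℝ PUnit :=
  ⟨PUnit, inferInstance, fun _ _ => PUnit.unit, fun _ => ⟨0, LipschitzWith.const _⟩,
    fun _ => ⟨PUnit.unit, 0, rfl⟩⟩

theorem Cov.dimH_le {E : Type} [NormedAddCommGroup E] [NormedSpace ℝ E] [FiniteDimensional ℝ E]
    (h : Cov E X) : dimH (univ : Set X) ≤ (Module.finrank ℝ E : ℕ) := by
  obtain ⟨κ, _, f, hf, cf⟩ := h
  have : (univ : Set X) = ⋃ k, range (f k) := (eq_univ_of_forall fun x => by
    obtain ⟨k, e, h⟩ := cf x
    exact mem_iUnion.2 ⟨k, e, h⟩).symm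
  rw [this, dimH_iUnion]
  refine iSup_le fun k => ?_
  obtain ⟨C, hC⟩ := hf k
  exact hC.dimH_range_le.trans (Real.dimH_univ_eq_finrank E).le

namespace TS

variable {D : Gt A Λ} (S : TS D X)

theorem H_lip (w : Rw Λ) (x y : X) : |S.H w x - S.H w y| ≤ dist x y := by
  have h1 := S.Hπ_lip w x y
  have h2 := S.Hπ_lip w y x
  have h3 := dist_nonneg (x := S.π w x) (y := S.π w y)
  rw [dist_comm y x, dist_comm (S.π w y)] at h2
  rw [abs_le]; constructor <;> linarith

theorem continuous_H (w : Rw Λ) : Continuous (S.H w) :=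
  (LipschitzWith.of_dist_le_mul (K := 1) fun x y => by
    rw [Real.dist_eq, NNReal.coe_one, one_mul]; exact S.H_lip w x y).continuous

theorem continuous_π (w : Rw Λ) : Continuous (S.π w) :=
  (LipschitzWith.of_dist_le_mul (K := 1) fun x y => by
    rw [NNReal.coe_one, one_mul]; exact S.π_lip w x y).continuous

theorem dist_ι_E (w : Rw Λ) {L : Λ} {m : A} (hm : m ∈ D.M L) {h : ℝ} (hh : h ∈ Icc 0 (D.e L)) :
    dist (S.ι w m) (S.E w L m h) = h := by
  rw [S.dist_E (S.ι_mem_Near w L m) hm hh, dist_self, zero_add]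

theorem finite_aux (u : Rw Λ) (a : A) {ε : ℝ} (he : ∀ L, ε ≤ D.e L) (n : ℕ) :
    {w | S.H w (S.ι u a) < n * ε}.Finite := by
  induction n with
  | zero => simp only [Nat.cast_zero, zero_mul, (S.H_nonneg _ _).not_gt, ofPred_false, finite_empty]
  | succ n ih =>
    refine ((ih.biUnion fun w _ => (D.lf (S.π w (S.ι u a)) ((n + 1) * ε)).image
      fun L => mv L w).insert u).subset fun w hw => ?_
    by_cases e : u = w
    · exact Or.inl e.symm
    · obtain ⟨L, hL⟩ := exists_far e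
      have hn : S.ι u a ∈ S.Near (mv L w) L :=
        S.Pc_subset_Near (fun h => (far_back w L u).1 h hL) ⟨a, rfl⟩
      have h1 := (S.step hn).1
      rw [mv_mv] at h1
      have h2 : S.H w (S.ι u a) < ((n + 1 : ℕ) : ℝ) * ε := hw
      push_cast at h2
      have h3 := he L
      have h4 := D.e_pos L
      have h5 := S.H_nonneg (mv L w) (S.ι u a)
      have h6 := dist_nonneg (x := S.π (mv L w) (S.ι u a)) (y := D.g L (S.π (mv L w) (S.ι u a)))
      refine Or.inr (mem_biUnion (x := mv L w) ?_ ⟨L, ?_, mv_mv L w⟩)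
      · rw [mem_ofPred_eq]; linarith
      · rw [mem_ofPred_eq]; linarith

theorem finite_pieces (x : X) (R : ℝ) : {w | S.H w x ≤ R}.Finite := by
  obtain ⟨ε, hε, he⟩ := D.lo
  obtain ⟨n, hn⟩ := exists_nat_gt ((R + S.H root x) / ε)
  rw [div_lt_iff₀ hε] at hn
  refine (S.finite_aux root (S.π root x) he n).subset fun w hw => ?_
  have h1 := (abs_le.1 (S.H_lip w x (S.ι root (S.π root x)))).1
  rw [← S.H_eq] at h1
  have h2 : S.H w x ≤ R := hw
  rw [mem_ofPred_eq]; linarith

include S in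
theorem proper [ProperSpace A] : ProperSpace X := by
  obtain ⟨B, hB⟩ := D.hi
  refine ⟨fun x R => ?_⟩
  have c1 : IsCompact (⋃ w ∈ {w | S.H w x ≤ R}, S.ι w '' Metric.closedBall (S.π w x) R) :=
    (S.finite_pieces x R).isCompact_biUnion fun w _ =>
      (isCompact_closedBall _ _).image (S.isometry_ι w).continuous
  have c2 : IsCompact (⋃ w ∈ {w | S.H w x ≤ R + B},
      ⋃ L ∈ {L | dist (S.π w x) (D.g L (S.π w x)) ≤ R + B},
        (fun p : A × ℝ => S.E w L p.1 p.2) ''
          ((Metric.closedBall (S.π w x) (R + B) ∩ D.M L) ×ˢ Icc 0 (D.e L))) := by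
    refine (S.finite_pieces x _).isCompact_biUnion fun w _ =>
      (D.lf _ _).isCompact_biUnion fun L _ => IsCompact.image_of_continuousOn
        (((isCompact_closedBall _ _).inter_right (D.gated L).isClosed).prod isCompact_Icc) ?_
    refine (LipschitzOnWith.of_dist_le_mul (K := 2) fun p hp q hq => ?_).continuousOn
    rw [S.cyl w L _ hp.1.2 _ hq.1.2 _ hp.2 _ hq.2, ← Real.dist_eq, Prod.dist_eq]
    have := le_max_left (dist p.1 q.1) (dist p.2 q.2)
    have := le_max_right (dist p.1 q.1) (dist p.2 q.2)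
    push_cast; linarith
  refine (c1.union c2).of_isClosed_subset Metric.isClosed_closedBall fun y hy => ?_
  rw [Metric.mem_closedBall, dist_comm] at hy
  rcases S.cover y with ⟨w, a, rfl⟩ | ⟨w, L, m, hm, h, hh, rfl⟩
  · rw [S.gate] at hy
    have := S.H_nonneg w x
    have := dist_nonneg (x := S.π w x) (y := a)
    refine Or.inl (mem_biUnion (x := w) (by rw [mem_ofPred_eq]; linarith) ⟨a, ?_, rfl⟩)
    rw [Metric.mem_closedBall, dist_comm]; linarith
  · have h1 := dist_triangle_right x (S.ι w m) (S.E w L m h)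
    rw [S.dist_ι_E w hm hh, S.gate] at h1
    have h2 := D.gate L (S.π w x) m hm
    have := S.H_nonneg w x
    have := dist_nonneg (x := S.π w x) (y := m)
    have := dist_nonneg (x := D.g L (S.π w x)) (y := m)
    have := hh.2.trans (hB L)
    refine Or.inr (mem_biUnion (x := w) (by rw [mem_ofPred_eq]; linarith) (mem_biUnion (x := L)
      (by rw [mem_ofPred_eq]; linarith) ⟨(m, h), ⟨⟨?_, hm⟩, hh⟩, rfl⟩))
    rw [Metric.mem_closedBall, dist_comm]; linarith

/-- the pseudometric seen from a piece -/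
def rho (w : Rw Λ) (x y : X) : ℝ := dist (S.H w x) (S.H w y) + dist (S.π w x) (S.π w y)

theorem rho_le (w : Rw Λ) (x y : X) : S.rho w x y ≤ dist x y := by
  have h1 := S.Hπ_lip w x y
  have h2 := S.Hπ_lip w y x
  rw [dist_comm y x, dist_comm (S.π w y)] at h2
  rw [rho, Real.dist_eq]
  rcases abs_cases (S.H w x - S.H w y) with ⟨c, -⟩ | ⟨c, -⟩ <;> rw [c] <;> linarith

theorem rho_cyl {w : Rw Λ} {L : Λ} {y : X} (hy : y ∈ S.Near (mv L w) L) {m : A} (hm : m ∈ D.M L)
    {h : ℝ} (hh : h ∈ Icc 0 (D.e L)) : dist (S.E w L m h) y = S.rho w (S.E w L m h) y := by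
  have s := S.step hy
  rw [mv_mv] at s
  have := S.H_nonneg (mv L w) y
  have := dist_nonneg (x := S.π (mv L w) y) (y := D.g L (S.π (mv L w) y))
  rw [rho, S.H_E w hm hh, S.π_E w hm hh, Real.dist_eq, s.1, s.2, abs_of_nonpos (by linarith [hh.2]),
    ← S.E_flip w L m hm h hh, dist_comm,
    S.dist_E hy hm ⟨by linarith [hh.2], by linarith [hh.1]⟩, S.gate, D.gate L _ m hm, dist_comm m]
  ring

theorem exists_rho {B : ℝ} (hB : ∀ L, D.e L ≤ B) (B0 : 0 ≤ B) (x y : X) :
    ∃ w, S.H w x ≤ B ∧ dist x y = S.rho w x y := by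
  rcases S.cover x with ⟨w, a, rfl⟩ | ⟨w, L, m, hm, h, hh, rfl⟩
  · refine ⟨w, by rw [S.H_ι]; exact B0, ?_⟩
    rw [rho, S.H_ι, S.π_ι, dist_comm, S.gate, Real.dist_eq, zero_sub, abs_neg,
      abs_of_nonneg (S.H_nonneg w y), dist_comm]
  · have hh' : D.e L - h ∈ Icc 0 (D.e L) := ⟨by linarith [hh.2], by linarith [hh.1]⟩
    rcases S.trichotomy w L y with hy | ⟨m', hm', h', hh', rfl⟩ | hy
    · rw [← S.E_flip w L m hm h hh]
      exact ⟨mv L w, by rw [S.H_E _ hm hh']; exact hh'.2.trans (hB L),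
        S.rho_cyl (by rwa [mv_mv]) hm hh'⟩
    · refine ⟨w, by rw [S.H_E _ hm hh]; exact hh.2.trans (hB L), ?_⟩
      rw [rho, S.H_E w hm hh, S.π_E w hm hh, S.H_E w hm' hh', S.π_E w hm' hh',
        S.cyl w L m hm m' hm' h hh h' hh', Real.dist_eq, add_comm]
    · exact ⟨w, by rw [S.H_E _ hm hh]; exact hh.2.trans (hB L), S.rho_cyl hy hm hh⟩

include S in
theorem li (hA : LI A) : LI X := by
  intro x0 y0
  obtain ⟨B, hB⟩ := D.hi
  have key : ∀ w, ∀ᶠ p in 𝓝 (x0, y0), dist p.1 p.2 = S.rho w p.1 p.2 →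
      dist x0 y0 + dist p.1 p.2 ≤ dist x0 p.2 + dist p.1 y0 := by
    intro w
    rcases (S.rho_le w x0 y0).eq_or_lt with e | e
    · obtain ⟨δ, hδ, h1⟩ := hA (S.π w x0) (S.π w y0)
      obtain ⟨δ', hδ', h2⟩ := li_real (S.H w x0) (S.H w y0)
      filter_upwards [Metric.ball_mem_nhds (x0, y0) (lt_min hδ hδ')] with p hp e'
      rw [Metric.mem_ball, Prod.dist_eq, max_lt_iff, lt_min_iff, lt_min_iff] at hp
      have a1 := h1 (S.π w p.1) (S.π w p.2) ((S.π_lip w _ _).trans_lt hp.1.1)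
        ((S.π_lip w _ _).trans_lt hp.2.1)
      have a2 := h2 (S.H w p.1) (S.H w p.2) ((S.H_lip w _ _).trans_lt hp.1.2)
        ((S.H_lip w _ _).trans_lt hp.2.2)
      have a3 := S.rho_le w x0 p.2
      have a4 := S.rho_le w p.1 y0
      rw [← e, e']
      simp only [rho] at a3 a4 ⊢
      linarith
    · have c : Continuous fun p : X × X => S.rho w p.1 p.2 :=
        (((S.continuous_H w).comp continuous_fst).dist ((S.continuous_H w).comp continuous_snd)).add
          (((S.continuous_π w).comp continuous_fst).dist ((S.continuous_π w).comp continuous_snd))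
      filter_upwards [(isOpen_lt c continuous_dist).mem_nhds (x := (x0, y0)) e] with p hp e'
      exact absurd e' (ne_of_gt hp)
  obtain ⟨δ, hδ, h⟩ := Metric.eventually_nhds_iff.1
    (((S.finite_pieces x0 (max B 0 + 1)).eventually_all (l := 𝓝 (x0, y0))).2 fun w _ => key w)
  refine ⟨min δ 1, lt_min hδ one_pos, fun x y hx hy => ?_⟩
  rw [lt_min_iff] at hx hy
  obtain ⟨w, h1, h2⟩ := S.exists_rho (fun L => (hB L).trans (le_max_left B 0)) (le_max_right _ _) x y
  refine h (y := (x, y)) (by rw [Prod.dist_eq]; exact max_lt hx.1 hy.1) w ?_ h2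
  have := (abs_le.1 (S.H_lip w x x0)).1
  rw [mem_ofPred_eq]; linarith

include S in
theorem good [h : Good A] : Good X :=
  have := S.proper
  ⟨this, S.helly h.helly, S.li h.li⟩

include S in
theorem cov {E : Type} [PseudoMetricSpace E] (a : A) (h : Cov E A) : Cov (E × ℝ) X := by
  obtain ⟨κ, _, f, hf, cf⟩ := h
  have := D.countable a
  refine ⟨Rw Λ × Option Λ × κ, inferInstance, fun k p => match k.2.1 with
    | none => S.ι k.1 (f k.2.2 p.1)
    | some L => S.E k.1 L (D.g L (f k.2.2 p.1)) (projIcc 0 (D.e L) (D.e_pos L).le p.2), ?_, ?_⟩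
  · rintro ⟨w, _ | L, k⟩
    · obtain ⟨C, hC⟩ := hf k
      exact ⟨_, (S.isometry_ι w).lipschitz.comp (hC.comp LipschitzWith.prod_fst)⟩
    · obtain ⟨C, hC⟩ := hf k
      refine ⟨C + 1, LipschitzWith.of_dist_le_mul fun p q => ?_⟩
      simp only
      rw [S.cyl w L _ (D.g_mem _ _) _ (D.g_mem _ _) _ (projIcc _ _ _ _).2 _ (projIcc _ _ _ _).2]
      have a1 := D.g_lip' L (f k p.1) (f k q.1)
      have a2 := hC.dist_le_mul p.1 q.1
      have a3 := abs_projIcc_sub_projIcc (D.e_pos L).le (c := p.2) (d := q.2)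
      have a4 : dist p.1 q.1 ≤ dist p q := le_max_left _ _
      have a5 : |p.2 - q.2| ≤ dist p q := le_max_right _ _
      have a6 := mul_le_mul_of_nonneg_left a4 C.2
      simp only [NNReal.val_eq_coe] at a6
      rw [NNReal.coe_add, NNReal.coe_one]
      linarith
  · intro x
    rcases S.cover x with ⟨w, b, rfl⟩ | ⟨w, L, m, hm, h, hh, rfl⟩
    · obtain ⟨k, e, rfl⟩ := cf b
      exact ⟨(w, none, k), (e, 0), rfl⟩
    · obtain ⟨k, e, rfl⟩ := cf m
      refine ⟨(w, some L, k), (e, h), ?_⟩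
      simp only
      rw [D.g_of_mem hm, projIcc_of_mem _ hh]

theorem geometric [ProperSpace A] {Γ : Type} [Group Γ] [MulAction Γ A] [MulAction Γ Λ]
    [MulAction (Gp Γ Λ) X] (hE : S.Equi Γ) (a : A) (hA : Geometric Γ A) :
    Geometric (Gp Γ Λ) X := by
  have := S.proper
  refine ⟨hE.iso, fun K hK => ?_, ?_⟩
  · obtain ⟨R, hR⟩ := hK.isBounded.subset_closedBall (S.ι root a)
    have f : (⋃ w ∈ {w | S.H w (S.ι root a) ≤ 2 * R},
        {γ : Γ | ∃ x ∈ insert a (Metric.closedBall (S.π w (S.ι root a)) (2 * R)),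
          γ • x ∈ insert a (Metric.closedBall (S.π w (S.ι root a)) (2 * R))} ×ˢ {w}).Finite :=
      (S.finite_pieces _ _).biUnion fun w _ =>
        (hA.2.1 _ ((isCompact_closedBall _ _).insert a)).prod (finite_singleton w)
    refine (f.preimage (f := fun g : Gp Γ Λ => (g.1.1, g.1.2 root)) fun g _ g' _ e =>
      Gp_ext (Prod.ext_iff.1 e).1 (Prod.ext_iff.1 e).2).subset ?_
    rintro g ⟨x, hx, hg⟩
    have h1 := Metric.mem_closedBall.1 (hR hx)
    have h2 := Metric.mem_closedBall.1 (hR hg)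
    have h3 := (hE.iso g).dist_eq x (S.ι root a)
    have h4 := dist_triangle_left (S.ι root a) (g • S.ι root a) (g • x)
    rw [h3, hE.ι, S.gate] at h4
    have := S.H_nonneg (g.1.2 root) (S.ι root a)
    have := dist_nonneg (x := S.π (g.1.2 root) (S.ι root a)) (y := g.1.1 • a)
    refine mem_biUnion (x := g.1.2 root) (by rw [mem_ofPred_eq]; linarith)
      ⟨⟨a, mem_insert _ _, Or.inr ?_⟩, rfl⟩
    rw [Metric.mem_closedBall, dist_comm]; linarith
  · obtain ⟨K, hK, hc⟩ := hA.2.2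
    obtain ⟨R, hR⟩ := hK.isBounded.subset_closedBall a
    obtain ⟨B, hB⟩ := D.hi
    refine ⟨_, isCompact_closedBall (S.ι root a) (R + max B 0), fun x => ?_⟩
    obtain ⟨w, b, hb⟩ : ∃ w b, dist (S.ι w b) x ≤ max B 0 := by
      rcases S.cover x with ⟨w, b, rfl⟩ | ⟨w, L, m, hm, h, hh, rfl⟩
      · exact ⟨w, b, by rw [dist_self]; exact le_max_right _ _⟩
      · exact ⟨w, m, by rw [S.dist_ι_E w hm hh]; exact (hh.2.trans (hB L)).trans (le_max_left _ _)⟩
    obtain ⟨γ, hγ⟩ := hc b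
    obtain ⟨g, h1, h2⟩ := exists_Gp (Λ := Λ) γ w root
    refine ⟨g, ?_⟩
    have h3 := (hE.iso g).dist_eq (S.ι w b) x
    rw [hE.ι, h1, h2] at h3
    have h4 := dist_triangle_left (g • x) (S.ι root a) (S.ι root (γ • b))
    rw [h3, S.dist_ι] at h4
    have h5 := Metric.mem_closedBall.1 (hR hγ)
    rw [Metric.mem_closedBall]; linarith

end TS

end Pool.Agent.P.MP_318c20_al.UB
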