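import Pool.Agent.P.MP_318c20_al.UB.Iface
import Pool.Agent.P.MP_318c20_al.UB.TGood
import Pool.Agent.P.MP_318c20_al.Proper

namespace Pool.Agent.P.MP_318c20_al.UB

open Set Filter Topology

theorem FIN : S_FIN := fun _ _ _ _ _ _ S x R => S.finite_pieces x R

theorem PROPER : S_PROPER := fun _ _ _ _ _ _ _ S => S.proper

theorem LI' : S_LI := fun _ _ _ _ _ _ S h => S.li h

theorem COV : S_COV := by
  refine ⟨fun E A Λ X _ _ _ _ D S h => ?_, fun _ _ _ _ h => h.prod h, cov_punit,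
    fun E X _ _ _ _ h hH => finiteCombDim_of hH h.dimH_le⟩
  rcases isEmpty_or_nonempty A with hA | ⟨⟨a⟩⟩
  · refine ⟨Empty, inferInstance, fun k => k.elim, fun k => k.elim, fun x => ?_⟩
    rcases S.cover x with ⟨_, a, _⟩ | ⟨_, _, a, _⟩ <;> exact isEmptyElim a
  · exact S.cov a h

theorem GEOM : S_GEOM := fun _ _ _ _ _ _ _ _ h _ _ _ _ _ S hE hA =>
  h.elim fun a => S.geometric hE a hA

theorem good_unit : Good Unit :=
  ⟨inferInstance, fun _ x r h => ⟨(), fun i => by have := h i i; simp at this ⊢; linarith⟩,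
    fun _ _ => ⟨1, one_pos, fun _ _ _ _ => by simp⟩⟩

theorem PGEOM : S_PGEOM := by
  refine ⟨⟨fun _ => Isometry.of_dist_eq fun _ _ => rfl, fun _ _ => toFinite _,
    univ, isCompact_univ, fun _ => ⟨(), trivial⟩⟩, fun T _ _ h => ⟨fun g => ?_, fun K hK => ?_, ?_⟩⟩
  · exact (h.1 g.1).prodMap (h.1 g.2)
  · refine ((h.2.1 _ (hK.image continuous_fst)).prod (h.2.1 _ (hK.image continuous_snd))).subset ?_
    rintro g ⟨x, hx, hg⟩
    exact ⟨⟨x.1, ⟨x, hx, rfl⟩, _, hg, rfl⟩, x.2, ⟨x, hx, rfl⟩, _, hg, rfl⟩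
  · obtain ⟨K, hK, hc⟩ := h.2.2
    refine ⟨K ×ˢ K, hK.prod hK, fun x => ?_⟩
    obtain ⟨g, hg⟩ := hc x.1
    obtain ⟨g', hg'⟩ := hc x.2
    exact ⟨(g, g'), hg, hg'⟩

end Pool.Agent.P.MP_318c20_al.UB
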