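import Pool.Agent.P.MP_318c20_al.UB.Model

/-!
Statements of the steps.
-/

namespace Pool.Agent.P.MP_318c20_al.UB

open Set Filter Topology

/-! ### Trees of copies -/

def S_CONSTR : Prop := ∀ (A Λ Γ : Type) [MetricSpace A] [Group Γ] [MulAction Γ A] [MulAction Γ Λ]
  (D : Gt A Λ), D.Equi Γ →
  ∃ (X : Type) (_ : MetricSpace X) (_ : MulAction (Gp Γ Λ) X) (S : TS D X), S.Equi Γ

def S_FIN : Prop := ∀ (A Λ X : Type) [MetricSpace A] [MetricSpace X] (D : Gt A Λ) (S : TS D X)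
  (x : X) (R : ℝ), {w | S.H w x ≤ R}.Finite

def S_PROPER : Prop := ∀ (A Λ X : Type) [MetricSpace A] [MetricSpace X] [ProperSpace A]
  (D : Gt A Λ) (_ : TS D X), ProperSpace X

def S_HELLY : Prop := ∀ (A Λ X : Type) [MetricSpace A] [MetricSpace X] [Nonempty A]
  (D : Gt A Λ) (_ : TS D X), Helly A → Helly X

def S_LI : Prop := ∀ (A Λ X : Type) [MetricSpace A] [MetricSpace X]
  (D : Gt A Λ) (_ : TS D X), LI A → LI X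

def S_COV : Prop :=
  (∀ (E A Λ X : Type) [MetricSpace E] [MetricSpace A] [MetricSpace X] [Countable Λ]
    (D : Gt A Λ) (_ : TS D X), Cov E A → Cov (E × ℝ) X) ∧
  (∀ (E A : Type) [MetricSpace E] [MetricSpace A], Cov E A → Cov (E × E) (A × A)) ∧
  Cov ℝ Unit ∧
  ∀ (E X : Type) [NormedAddCommGroup E] [NormedSpace ℝ E] [FiniteDimensional ℝ E] [MetricSpace X],
    Cov E X → Helly X → FiniteCombDim X

def S_GEOM : Prop := ∀ (A Λ X Γ : Type) [MetricSpace A] [MetricSpace X] [ProperSpace A]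
  [ProperSpace X] [Nonempty A] [Group Γ] [MulAction Γ A] [MulAction Γ Λ] [MulAction (Gp Γ Λ) X]
  (D : Gt A Λ) (S : TS D X), S.Equi Γ → Geometric Γ A → Geometric (Gp Γ Λ) X

def S_PGEOM : Prop := Geometric Unit Unit ∧ ∀ (T : Type) [MetricSpace T] [MulAction W T],
  Geometric W T → Geometric W2 (T × T)

/-! ### The tree and its square -/

def S_TRAY : Prop := ∀ (l : Len) (T : Type) [MetricSpace T] (S : TS (unitGt l) T),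
  ∃ τ : TT l T, τ.S = S

def S_DIAG : Prop := ∀ (l : Len) (T : Type) [MetricSpace T] [MulAction W T] (τ : TT l T),
  τ.S.Equi Unit → ∃ D : Gt (T × T) Ln, IsDiag τ D ∧ D.Equi W2

def S_KSM : Prop := ∀ (l : Len) (T : Type) [MetricSpace T] [Good T] (τ : TT l T), KS τ.kd

/-- The ray from the root to the end of a line runs along the line; lines with a common end
differ by a shift. -/
def S_THRU : Prop := ∀ (l : Len) (T : Type) [MetricSpace T] [Good T] (τ : TT l T),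
  (∀ x i j, i ≠ j → hd x ≠ some i → ∀ s, 0 ≤ s →
    (τ.en x i j).pt (ht l.1 x + s) = τ.lam x i j s) ∧
  ∀ x i j y a b, i ≠ j → a ≠ b → τ.en x i j = τ.en y a b →
    ∃ c, ∀ s, τ.lam y a b s = τ.lam x i j (s + c)

def S_INTER : Prop := ∀ (l : Len) (m : Mod l), LnD m.D (m.τ.r, m.τ.r) ∧
  ∀ (o : m.X) w p i j h, m.Pr o w (ln p i j h) =
    {m.J o w (m.k.en2 p i j) 0, m.J o w (m.k.en2 p j i) 0}

/-! ### Combinatorics of the boundary of the tree -/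

def S_KFAR : Prop := ∀ (K : Type) [TopologicalSpace K] (k : KD K), KS k →
  (∀ x i y j, y ∈ Far x i → x ∉ Far y j → k.Sh y j ⊆ k.Sh x i) ∧
  (∀ x i y j, k.Sh y j ⊆ k.Sh x i → (y = x ∧ j = i) ∨ (y ∈ Far x i ∧ x ∉ Far y j)) ∧
  (∀ ξ N, ∃ y j, hd y ≠ some j ∧ N ≤ y.1.length ∧ ξ ∈ k.Sh y j) ∧
  (∀ ξ, ∀ U ∈ 𝓝 ξ, ∃ N, ∀ y j, hd y ≠ some j → N ≤ y.1.length → ξ ∈ k.Sh y j → k.Sh y j ⊆ U) ∧
  ∀ U, IsClopen U → ∃ N, ∀ y j, hd y ≠ some j → N ≤ y.1.length → k.Sh y j ⊆ U ∨ k.Sh y j ⊆ Uᶜ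

def S_KTOP : Prop := ∀ (K : Type) [TopologicalSpace K] (k : KD K), KS k →
  (∀ ξ : K, (𝓝[≠] ξ).NeBot) ∧ TotallyDisconnectedSpace K ∧ Nontrivial K ∧
  Dense {ξ : K × K | ∃ p i j, i ≠ j ∧ ξ = k.en2 p i j}

def S_UNIQ : Prop := ∀ (K : Type) [TopologicalSpace K] (k : KD K), KS k →
  (∀ x i j y a b, i ≠ j → a ≠ b → k.en x i j = k.en y a b →
    ∃ n n', Sl^[n] (x, i, j) = Sl^[n'] (y, a, b)) ∧
  (∀ x i j y a b, i ≠ j → a ≠ b → k.en x i j = k.en y a b →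
    k.en x j i = k.en y b a ∧ ((i = a ∧ j = b) ∨ (i = b ∧ j = a))) ∧
  ∀ x i j ξ η, i ≠ j → k.EP ξ η → ξ ∈ k.Sh x i → η ∈ k.Sh x j → ξ = k.en x i j ∧ η = k.en x j i

def S_CUT3 : Prop := ∀ (K : Type) [TopologicalSpace K] (k : KD K), KS k →
  ∀ U, IsClopen U → U.Nonempty → Uᶜ.Nonempty → ((k.cr U).encard ≤ 3 ↔ ∃ x i, U = k.Sh x i)

def S_TREEISO : Prop := ∀ (K K' : Type) [TopologicalSpace K] [TopologicalSpace K'] (k : KD K)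
  (k' : KD K'), KS k → KS k' → ∀ ψ : K ≃ₜ K', (∀ ξ η, k.EP ξ η ↔ k'.EP (ψ ξ) (ψ η)) →
  ∃ Ψ σ, TI k k' Ψ σ ψ

def S_PSI : Prop := ∀ (Ψ : V → V) (σ : Equiv.Perm Col), (∀ i x, Ψ (mv i x) = mv (σ i) (Ψ x)) →
  (∃ N, ∀ x : V, N ≤ x.1.length → hd (Ψ x) = (hd x).map σ) ∧
  ∀ l : Col → ℝ, ∃ C, ∀ x, |ht l (Ψ x) - ht (l ∘ σ) x| ≤ C

def S_WORDS : Prop := ∀ (K : Type) [TopologicalSpace K] (k : KD K), KS k →
  ∀ i j c e : Col, i ≠ j → i ≠ c → i ≠ e → j ≠ e → c ≠ e → ∀ α β : ℕ, 1 ≤ α →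
  ∃ x : ℕ → V, (∀ n, 1 ≤ n → hd (x n) = some j ∨ hd (x n) = some c) ∧
    (∀ n, n ≤ (x n).1.length) ∧
    (∀ (l : Col → ℝ) n, ht l (x n) = n * (α * (l i + l j) + β * (l i + l c))) ∧
    Tendsto (fun n => k.en (x n) i e) atTop (𝓝 (k.en root i j)) ∧
    Tendsto (fun n => k.en (x n) e i) atTop (𝓝 (k.en root i j))

def S_ARITH : Prop := ∀ (t t' : ℝ) (σ : Equiv.Perm Col),
  Rel (len t).1 ((len t').1 ∘ σ) → t = t'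

/-! ### Slopes -/

/-- Rays from the origin of a piece that pass through far points of the piece. -/
def S_LIM : Prop := ∀ (l : Len) (m : Mod l) (w : Rw Ln) (z : ℕ → Bd (m.org w))
  (η : ℕ → m.K × m.K) (a b : ℕ → ℝ) (ξ : m.K × m.K) (θ : ℝ),
  (∀ᶠ n in atTop, 0 ≤ a n ∧ 0 ≤ b n ∧
    (z n).pt (max (a n) (b n)) = m.S.ι w ((η n).1.pt (a n), (η n).2.pt (b n))) →
  Tendsto (fun n => max (a n) (b n)) atTop atTop → Tendsto η atTop (𝓝 ξ) →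
  Tendsto (fun n => an (a n) (b n)) atTop (𝓝 θ) →
  Tendsto z atTop (𝓝 (m.J (m.org w) w ξ θ))

def S_LOW : Prop := ∀ (l : Len) (m : Mod l) (o : m.X) (w : Rw Ln) (p : ℕ → V × V) (i j : Col)
  (h : i ≠ j) (ξ : m.K × m.K) (θ0 : ℝ), Fam l.1 m.k p i j ξ θ0 → ∀ u : ℕ → Rw Ln,
  (∀ n, u n ≠ w ∧ m.Pr o w (ln (p n) i j h) ⊆ m.Pb o (u n)) → ∀ θ ∈ uIcc θ0 0,
  ∃ z : ℕ → Bd o, (∀ n, z n ∈ m.Pb o (u n)) ∧ Tendsto z atTop (𝓝 (m.J o w ξ θ))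

def S_UP : Prop := ∀ (l : Len) (m : Mod l) (o : m.X) (w : Rw Ln) (p : ℕ → V × V) (i j : Col)
  (h : i ≠ j) (ξ : m.K × m.K) (θ0 : ℝ), Fam l.1 m.k p i j ξ θ0 → ∀ (z : ℕ → Bd o) (z0 : Bd o),
  (∀ n, z n ∈ m.Sd o w (ln (p n) i j h)) → Tendsto z atTop (𝓝 z0) →
  ∃ θ ∈ uIcc θ0 0, z0 = m.J o w ξ θ

def S_MONO : Prop := ∀ (l l' : Len) (m : Mod l) (m' : Mod l') (o : m.X) (o' : m'.X)
  (φ : Bd o ≃ₜ Bd o') (w w' : Rw Ln), φ '' m.Pb o w = m'.Pb o' w' →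
  ∀ (p q p' q' : ℕ → V × V) (i j i' j' : Col) (h : i ≠ j) (h' : i' ≠ j') (ξ : m.K × m.K)
    (ξ' : m'.K × m'.K) (θp θq θp' θq' : ℝ),
  Fam l.1 m.k p i j ξ θp → Fam l.1 m.k q i j ξ θq →
  Fam l'.1 m'.k p' i' j' ξ' θp' → Fam l'.1 m'.k q' i' j' ξ' θq' →
  (∀ n, φ '' m.Pr o w (ln (p n) i j h) = m'.Pr o' w' (ln (p' n) i' j' h')) →
  (∀ n, φ '' m.Pr o w (ln (q n) i j h) = m'.Pr o' w' (ln (q' n) i' j' h')) →
  θp ∈ uIcc θq 0 → θp' ∈ uIcc θq' 0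

def S_PROD1 : Prop := ∀ (l l' : Len) (m : Mod l) (m' : Mod l') (o : m.X) (o' : m'.X)
  (φ : Bd o ≃ₜ Bd o') (w w' : Rw Ln), φ '' m.Pb o w = m'.Pb o' w' →
  ∃ (ψ₁ ψ₂ : m.K ≃ₜ m'.K) (b : Bool),
    ∀ ξ : m.K × m.K, φ (m.J o w ξ 0) = m'.J o' w' (sw b (ψ₁ ξ.1, ψ₂ ξ.2)) 0

def S_PROD2 : Prop := ∀ (l l' : Len) (m : Mod l) (m' : Mod l') (o : m.X) (o' : m'.X)
  (φ : Bd o ≃ₜ Bd o') (w w' : Rw Ln), φ '' m.Pb o w = m'.Pb o' w' →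
  ∀ (ψ₁ ψ₂ : m.K ≃ₜ m'.K) (b : Bool),
    (∀ ξ : m.K × m.K, φ (m.J o w ξ 0) = m'.J o' w' (sw b (ψ₁ ξ.1, ψ₂ ξ.2)) 0) →
  ∃ Ψ₁ Ψ₂ σ, TI m.k m'.k Ψ₁ σ ψ₁ ∧ TI m.k m'.k Ψ₂ σ ψ₂

def S_FINAL : Prop := ∀ (l l' : Len) (m : Mod l) (m' : Mod l') (o : m.X) (o' : m'.X)
  (_ : Bd o ≃ₜ Bd o'), ∃ σ : Equiv.Perm Col, Rel l.1 (l'.1 ∘ σ)

def S_MOD : Prop := ∀ l : Len, ∃ (m : Mod l) (_ : MulAction G m.X),
  Admissible m.X ∧ Geometric G m.X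

end Pool.Agent.P.MP_318c20_al.UB
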