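import Pool.Agent.P.MP_318c20_al.UB.Iface

/-! Ends of the diagonal lines. -/

namespace Pool.Agent.P.MP_318c20_al.UB

open Set Filter Topology

namespace INTER

variable {l : Len} {T : Type} [MetricSpace T] [Good T] (τ : TT l T)

theorem cls_pos (p : V × V) {i j : Col} (h : i ≠ j) :
    cls (τ.r, τ.r) (τ.isLine_dg p h).pos = JP (τ.en p.1 i j) (τ.en p.2 i j) 0 := by
  symm
  refine eq_cls _ (D := max (dist τ.r (τ.lam p.1 i j 0)) (dist τ.r (τ.lam p.2 i j 0))) fun T =>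
    ⟨max T 0, le_max_left _ _, ?_⟩
  rw [JP_pt_zero _ _ (le_max_right _ _), Prod.dist_eq, τ.en_eq _ h, τ.en_eq _ h]
  exact max_le_max (cls_dist _ _ (le_max_right _ _)) (cls_dist _ _ (le_max_right _ _))

theorem cls_rev (p : V × V) {i j : Col} (h : i ≠ j) :
    cls (τ.r, τ.r) (τ.isLine_dg p h).rev.pos = JP (τ.en p.1 j i) (τ.en p.2 j i) 0 := by
  rw [← cls_pos τ p h.symm]
  congr 1
  funext s
  simp only [TT.dg, τ.lam_flip _ i j h]

theorem bd_dg (p : V × V) {i j : Col} (h : i ≠ j) :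
    bd (τ.r, τ.r) (range (τ.dg p i j)) =
      {JP (τ.en p.1 i j) (τ.en p.2 i j) 0, JP (τ.en p.1 j i) (τ.en p.2 j i) 0} := by
  rw [(τ.isLine_dg p h).bd_range, cls_pos τ p h, cls_rev τ p h]

end INTER

open INTER in
theorem INTER (hK : S_KSM) (hT : S_KTOP) : S_INTER := by
  intro l m
  have ks : KS m.k := hK l m.T m.τ
  have kt := hT m.K m.k ks
  refine ⟨⟨fun L => ?_, fun F hF => ?_, ?_⟩, fun o w p i j h => ?_⟩
  · obtain ⟨p, i, j, h, rfl⟩ := exists_ln L
    exact ⟨_, m.τ.isLine_dg p h, (m.diag p i j h).symm⟩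
  · exact preconnected_compl_finite (m.τ.en root 0 1) (m.τ.en root 0 1) kt.1 kt.1 hF
  · refine ⟨ln (root, root) 0 1 (by decide), ln (root, root) 2 3 (by decide), fun e => ?_⟩
    rw [m.diag, m.diag, bd_dg m.τ _ (by decide), bd_dg m.τ _ (by decide)] at e
    have h1 : JP (m.τ.en root 0 1) (m.τ.en root 0 1) 0 ∈
        ({JP (m.τ.en root 2 3) (m.τ.en root 2 3) 0, JP (m.τ.en root 3 2) (m.τ.en root 3 2) 0} :
          Set (Bd (m.τ.r, m.τ.r))) := e ▸ mem_insert _ _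
    have a0 : m.τ.en root 0 1 ∈ m.k.Sh root 0 := ks.en_mem root 0 1 (by decide)
    have a2 : m.τ.en root 2 3 ∈ m.k.Sh root 2 := ks.en_mem root 2 3 (by decide)
    have a3 : m.τ.en root 3 2 ∈ m.k.Sh root 3 := ks.en_mem root 3 2 (by decide)
    rcases h1 with h1 | h1
    · rw [(JP_zero_inj h1).1] at a0
      exact disjoint_left.1 (ks.disj root 0 2 (by decide)) a0 a2
    · rw [(JP_zero_inj h1).1] at a0
      exact disjoint_left.1 (ks.disj root 0 3 (by decide)) a0 a3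
  · rw [Mod.Pr, ← m.S.image_jb o w (m.τ.r, m.τ.r), m.diag, bd_dg m.τ p h, image_pair]
    rfl

end Pool.Agent.P.MP_318c20_al.UB
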