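import Pool.Agent.P.MP_318c20_al.UB.Iface

namespace Pool.Agent.P.MP_318c20_al.UB

open Set Filter Topology

namespace KFAR

variable {K : Type} [TopologicalSpace K] {k : KD K}

theorem step (h : KS k) (x : V) {i j : Col} (hj : j ≠ i) : k.Sh (mv i x) j ⊆ k.Sh x i := by
  intro ξ hξ
  have := Set.disjoint_left.1 (h.disj (mv i x) j i hj) hξ
  rwa [h.compl, mem_compl_iff, not_not] at this

theorem ne (h : KS k) (x : V) (i : Col) : (k.Sh x i).Nonempty :=
  ⟨_, h.en_mem x i (i + 1) (TT.col_ne_succ i)⟩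

theorem eq_of_subset (h : KS k) {x y : V} {i i' j : Col} (h1 : k.Sh y j ⊆ k.Sh x i)
    (h2 : k.Sh y j ⊆ k.Sh x i') : i = i' := by
  by_contra e
  obtain ⟨ξ, hξ⟩ := ne h y j
  exact Set.disjoint_left.1 (h.disj x i i' e) (h1 hξ) (h2 hξ)

theorem nest (h : KS k) {x y : V} {i j : Col} (hy : y ∈ Far x i) (hx : x ∉ Far y j) :
    k.Sh y j ⊆ k.Sh x i := by
  revert i
  refine tree_ind y (fun w => w ∉ Far y j → ∀ {L}, y ∈ Far w L → k.Sh y j ⊆ k.Sh w L) ?_ ?_ x hx
  · intro _ L a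
    exact absurd a (self_not_far y L)
  · intro z c hc ih hz L hL
    obtain rfl := far_uniq hc hL
    by_cases e : y = mv c z
    · subst e
      refine step h z fun e' => hz ?_
      rw [e']
      exact self_far_mv z c
    · obtain ⟨c', h2⟩ := exists_far e
      have h3 : c' ≠ c := fun e' => (far_back z c y).1 (e' ▸ h2) hc
      refine (ih (fun e' => ?_) h2).trans (step h z h3)
      rcases far_step e' c with e'' | ⟨e1, e2⟩
      · rw [mv_mv] at e''
        exact hz e''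
      · have : z = y := by
          have e3 := congrArg (mv c) e1
          rw [mv_mv, e2, mv_mv] at e3
          exact e3
        exact self_not_far y c (this ▸ hc)

theorem third : ∀ a i : Col, ∃ c, c ≠ a ∧ c ≠ i := by decide

theorem conv (h : KS k) {x y : V} {i j : Col} (hs : k.Sh y j ⊆ k.Sh x i) :
    (y = x ∧ j = i) ∨ (y ∈ Far x i ∧ x ∉ Far y j) := by
  by_cases e : y = x
  · subst e
    exact Or.inl ⟨rfl, eq_of_subset h subset_rfl hs⟩
  · obtain ⟨a, ha⟩ := exists_far e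
    by_cases hx : x ∈ Far y j
    · obtain ⟨c, c1, c2⟩ := third a i
      exact absurd (eq_of_subset h subset_rfl
        ((nest h hx fun b => c1 (far_uniq b ha)).trans hs)) c2
    · exact Or.inr ⟨eq_of_subset h (nest h ha hx) hs ▸ ha, hx⟩

theorem deep (h : KS k) (ξ : K) (N : ℕ) :
    ∃ y j, hd y ≠ some j ∧ N ≤ y.1.length ∧ ξ ∈ k.Sh y j := by
  induction N with
  | zero =>
    obtain ⟨j, hj⟩ := h.cover root ξ
    exact ⟨root, j, by simp [hd_root], Nat.zero_le _, hj⟩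
  | succ N ih =>
    obtain ⟨y, j, h1, h2, h3⟩ := ih
    obtain ⟨j', hj⟩ := h.cover (mv j y) ξ
    refine ⟨mv j y, j', ?_, ?_, hj⟩
    · rw [hd_mv_out h1]
      intro e
      rw [← Option.some.inj e, h.compl] at hj
      exact hj h3
    · rw [mv_out h1, List.length_cons]
      omega

theorem len_mv (x : V) (i : Col) : (mv i x).1.length ≤ x.1.length + 1 := by
  by_cases e : hd x = some i
  · rw [mv_in e, List.length_cons]
    omega
  · rw [mv_out e, List.length_cons]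

theorem dich (h : KS k) {x y : V} (i : Col) {j : Col} (hy : hd y ≠ some j)
    (hl : x.1.length + 1 ≤ y.1.length) : k.Sh y j ⊆ k.Sh x i ∨ k.Sh y j ⊆ (k.Sh x i)ᶜ := by
  by_cases e : y ∈ Far x i
  · exact Or.inl (nest h e (not_far_of_length hy (by omega)))
  · rw [← h.compl]
    exact Or.inr (nest h ((far_back x i y).2 e) (not_far_of_length hy ((len_mv x i).trans hl)))

theorem fin_cover (h : KS k) {C : Set K} (hC : IsClosed C) (P : V → Col → Prop)
    (hP : ∀ η ∈ C, ∃ x i, P x i ∧ η ∈ k.Sh x i) :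
    ∃ N, ∀ η ∈ C, ∃ x i, P x i ∧ x.1.length + 1 ≤ N ∧ η ∈ k.Sh x i := by
  have := h.compact
  obtain ⟨t, ht⟩ := hC.isCompact.elim_finite_subcover
    (fun p : {p : V × Col // P p.1 p.2} => k.Sh p.1.1 p.1.2) (fun p => (h.clopen _ _).isOpen)
    fun η hη => by
      obtain ⟨x, i, a, b⟩ := hP η hη
      exact mem_iUnion.2 ⟨⟨(x, i), a⟩, b⟩
  refine ⟨t.sup (fun p => p.1.1.1.length) + 1, fun η hη => ?_⟩
  obtain ⟨p, hp, b⟩ := mem_iUnion₂.1 (ht hη)
  exact ⟨p.1.1, p.1.2, p.2, Nat.succ_le_succ (Finset.le_sup (f := fun p => p.1.1.1.length) hp), b⟩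

theorem small (h : KS k) (ξ : K) {U : Set K} (hU : U ∈ 𝓝 ξ) :
    ∃ N, ∀ y j, hd y ≠ some j → N ≤ y.1.length → ξ ∈ k.Sh y j → k.Sh y j ⊆ U := by
  obtain ⟨N, hN⟩ := fin_cover h (C := (interior U)ᶜ) isOpen_interior.isClosed_compl
    (fun x i => ξ ∉ k.Sh x i) fun η hη => by
      obtain ⟨x, i, a, b⟩ := h.sep η ξ fun e => hη (e ▸ mem_interior_iff_mem_nhds.2 hU)
      exact ⟨x, i, b, a⟩
  refine ⟨N, fun y j h1 h2 h3 η hη => ?_⟩
  by_contra e
  obtain ⟨x, i, a, b, c⟩ := hN η fun m => e (interior_subset m)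
  exact (dich h i h1 (b.trans h2)).elim (fun s => a (s h3)) fun s => s hη c

theorem clop (h : KS k) {U : Set K} (hU : IsClopen U) :
    ∃ N, ∀ y j, hd y ≠ some j → N ≤ y.1.length → k.Sh y j ⊆ U ∨ k.Sh y j ⊆ Uᶜ := by
  obtain ⟨N, hN⟩ := fin_cover h isClosed_univ (fun x i => k.Sh x i ⊆ U ∨ k.Sh x i ⊆ Uᶜ)
    fun η _ => by
      by_cases e : η ∈ U
      · obtain ⟨M, hM⟩ := small h η (hU.isOpen.mem_nhds e)
        obtain ⟨y, j, a, b, c⟩ := deep h η M
        exact ⟨y, j, Or.inl (hM y j a b c), c⟩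
      · obtain ⟨M, hM⟩ := small h η (hU.compl.isOpen.mem_nhds e)
        obtain ⟨y, j, a, b, c⟩ := deep h η M
        exact ⟨y, j, Or.inr (hM y j a b c), c⟩
  refine ⟨N, fun y j h1 h2 => ?_⟩
  obtain ⟨η, hη⟩ := ne h y j
  obtain ⟨x, i, a, b, c⟩ := hN η (mem_univ _)
  have s := (dich h i h1 (b.trans h2)).resolve_right fun s => s hη c
  exact a.imp s.trans s.trans

end KFAR

theorem KFAR : S_KFAR := fun _ _ _ h =>
  ⟨fun _ _ _ _ => KFAR.nest h, fun _ _ _ _ => KFAR.conv h, KFAR.deep h,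
    fun ξ _ => KFAR.small h ξ, fun _ => KFAR.clop h⟩

end Pool.Agent.P.MP_318c20_al.UB
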