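import Pool.Agent.P.MP_318c20_al.UB.Iface

/-!
The boundary of the metric tree with its shadows satisfies the abstract axioms.
-/

namespace Pool.Agent.P.MP_318c20_al.UB

open Set Filter Topology

namespace KSM

theorem not_bd {X : Type} [MetricSpace X] {o p : X} {A : Set X} (h : A ⊆ {p}) (c : Bd o) :
    c ∉ bd o A := by
  rintro ⟨D, hD⟩
  obtain ⟨s, hs, a, ha, h1⟩ := hD (max 0 (dist o p + D + 1))
  have e : a = p := h ha
  subst e
  have h2 := c.dist_o ((le_max_left _ _).trans hs)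
  have h3 := (le_max_right _ _).trans hs
  have h4 := dist_triangle_right o (c.pt s) a
  linarith

variable {l : Len} {T : Type} [MetricSpace T] (τ : TT l T)

theorem pc_sub (x : V) : τ.S.Pc x ⊆ {τ.vx x} := by
  rintro _ ⟨a, rfl⟩; rfl

theorem mr_sub (x : V) (i : Col) : τ.S.Mr x i ⊆ {τ.vx x} :=
  (τ.S.Mr_subset_Pc x i).trans (pc_sub τ x)

theorem r_near {x : V} {i : Col} (h : hd x ≠ some i) : τ.r ∈ τ.S.Near x i :=
  τ.S.Pc_subset_Near (root_not_far h) ⟨(), rfl⟩

variable [Good T]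

theorem compl' (x : V) (i : Col) :
    bd τ.r (τ.S.Side (mv i x) i) = (bd τ.r (τ.S.Side x i))ᶜ := by
  ext c
  constructor
  · intro h h'
    have : c ∈ bd τ.r (τ.S.Mr x i) := τ.S.bd_side_inter_side τ.r x i ▸ ⟨h', h⟩
    exact not_bd (mr_sub τ x i) c this
  · intro h
    exact (bd_union (τ.S.side_union_side x i) c).resolve_left h

theorem cover' (x : V) (c : Bd τ.r) : ∃ i, c ∈ bd τ.r (τ.S.Side x i) :=
  (τ.S.bd_pc_or_side τ.r x c).resolve_left (not_bd (pc_sub τ x) c)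

theorem deep (c : Bd τ.r) (n : ℕ) : ∃ x i, hd x ≠ some i ∧ c ∈ bd τ.r (τ.S.Side x i) ∧
    (n : ℝ) ≤ τ.S.H x τ.r := by
  induction n with
  | zero =>
    obtain ⟨i, hi⟩ := cover' τ root c
    exact ⟨root, i, by simp [hd_root], hi, by simpa using τ.S.H_nonneg _ _⟩
  | succ n ih =>
    obtain ⟨x, i, h1, h2, h3⟩ := ih
    obtain ⟨j, hj⟩ := cover' τ (mv i x) c
    have hij : i ≠ j := by
      rintro rfl
      rw [compl'] at hj
      exact hj h2
    refine ⟨mv i x, j, by rw [hd_mv_out h1]; simpa using hij, hj, ?_⟩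
    rw [(τ.S.step (r_near τ h1)).1, unitGt_e]
    push_cast
    linarith [l.2 i, dist_nonneg (x := τ.S.π x τ.r) (y := (unitGt l).g i (τ.S.π x τ.r))]

theorem pass {x : V} {i : Col} (h : hd x ≠ some i) {c : Bd τ.r}
    (hc : c ∈ bd τ.r (τ.S.Side x i)) : c.pt (τ.S.H x τ.r) = τ.vx x := by
  obtain ⟨t, ht, h1⟩ := (τ.S.cross x i (r_near τ h) hc).resolve_right (not_bd (mr_sub τ x i) c)
  have e : c.pt t = τ.vx x := mr_sub τ x i h1
  have h2 := c.dist_o ht
  rw [e] at h2
  rw [τ.S.H_eq]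
  change c.pt (dist τ.r (τ.vx x)) = _
  rw [h2, e]

end KSM

theorem KSM : S_KSM := by
  intro l T _ _ τ
  refine ⟨inferInstance, inferInstance, fun x i => ?_, KSM.cover' τ, fun x i j hij => ?_,
    KSM.compl' τ, fun ξ ξ' hne => ?_, fun x i j hij => ?_, fun x i j hij => ?_⟩
  · refine ⟨τ.S.isClosed_bd_Side τ.r x i, ?_⟩
    have := τ.S.isClosed_bd_Side τ.r (mv i x) i
    rw [KSM.compl'] at this
    exact isClosed_compl_iff.1 this
  · refine Set.disjoint_left.2 fun c h h' => ?_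
    have : c ∈ bd τ.r (τ.S.Side (mv i x) i) :=
      bd_mono ((τ.S.side_subset_near x hij.symm).trans (τ.S.near_subset_side_mv x i)) h'
    rw [KSM.compl'] at this
    exact this h
  · by_contra hc
    push Not at hc
    refine hne (Bd.ext' fun t ht => ?_)
    obtain ⟨n, hn⟩ := exists_nat_ge t
    obtain ⟨x, i, h1, h2, h3⟩ := KSM.deep τ ξ n
    exact Bd.agree ((KSM.pass τ h1 h2).trans (KSM.pass τ h1 (hc x i h2)).symm) ht (hn.trans h3)
  · change τ.en x i j ∈ bd τ.r (τ.S.Side x i)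
    rw [τ.en_eq x hij]
    exact cls_mem_bd _ (τ.lam_side x i j hij)
  · change τ.en (mv i x) j i = τ.en x i j
    rw [τ.en_eq x hij, τ.en_eq _ hij.symm]
    refine cls_eq_cls _ _ (D := l.1 i) fun s => ⟨s, le_rfl, ?_⟩
    rw [τ.lam_sl x hij, (τ.isLine x hij).1, add_sub_cancel_left,
      abs_of_nonneg (zero_le_one.trans (l.2 i))]

end Pool.Agent.P.MP_318c20_al.UB
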