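import Pool.Agent.P.MP_318c20_al.UB.Iface

/-! Topology of the abstract boundary of the tree. -/

namespace Pool.Agent.P.MP_318c20_al.UB

open Set Filter Topology

namespace KTOP

variable {K : Type} [TopologicalSpace K] {k : KD K}

theorem sub (h : KS k) (y : V) {j a : Col} (ha : a ≠ j) : k.Sh (mv j y) a ⊆ k.Sh y j := by
  have := h.disj (mv j y) a j ha
  rw [h.compl] at this
  exact Set.disjoint_compl_right_iff_subset.1 this

theorem small (hF : S_KFAR) (h : KS k) (ξ : K) {U : Set K} (hU : U ∈ 𝓝 ξ) :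
    ∃ y j, k.Sh y j ⊆ U := by
  obtain ⟨-, -, h3, h4, -⟩ := hF K k h
  obtain ⟨N, hN⟩ := h4 ξ U hU
  obtain ⟨y, j, a1, a2, a3⟩ := h3 ξ N
  exact ⟨y, j, hN y j a1 a2 a3⟩

theorem en_ne (h : KS k) (u : V) {a b : Col} (hab : a ≠ b) : k.en u a b ≠ k.en u b a := by
  intro e
  exact Set.disjoint_left.1 (h.disj u a b hab) (h.en_mem u a b hab) (e ▸ h.en_mem u b a hab.symm)

theorem two : ∀ j : Col, j + 1 ≠ j ∧ j + 2 ≠ j ∧ j + 1 ≠ j + 2 := by decide

theorem third : ∀ j j' : Col, ∃ i, i ≠ j ∧ i ≠ j' := by decide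

end KTOP

open KTOP in
theorem KTOP (hF : S_KFAR) : S_KTOP := by
  intro K _ k h
  refine ⟨fun ξ => ?_, ?_, ⟨_, _, en_ne h root (TT.col_ne_succ 0)⟩, ?_⟩
  · refine mem_closure_iff_nhdsWithin_neBot.1 (mem_closure_iff_nhds.2 fun U hU => ?_)
    obtain ⟨y, j, hy⟩ := small hF h ξ hU
    obtain ⟨a1, a2, a3⟩ := two j
    have m1 := hy (sub h y a1 (h.en_mem _ _ _ a3))
    have m2 := hy (sub h y a2 (h.en_mem _ _ _ a3.symm))
    by_cases e : k.en (mv j y) (j + 1) (j + 2) = ξ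
    · exact ⟨_, m2, fun e' => en_ne h _ a3 (e.trans (Eq.symm e'))⟩
    · exact ⟨_, m1, e⟩
  · have : TotallySeparatedSpace K := by
      rw [totallySeparatedSpace_iff_exists_isClopen]
      intro ξ ξ' hne
      obtain ⟨x, i, a1, a2⟩ := h.sep ξ ξ' hne
      exact ⟨_, h.clopen x i, a1, a2⟩
    infer_instance
  · rintro ⟨ξ1, ξ2⟩
    refine mem_closure_iff_nhds.2 fun U hU => ?_
    obtain ⟨U1, h1, U2, h2, hs⟩ := mem_nhds_prod_iff.1 hU
    obtain ⟨y1, j1, hy1⟩ := small hF h ξ1 h1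
    obtain ⟨y2, j2, hy2⟩ := small hF h ξ2 h2
    obtain ⟨i, a1, a2⟩ := third j1 j2
    have hi := TT.col_ne_succ i
    exact ⟨k.en2 (mv j1 y1, mv j2 y2) i (i + 1),
      hs ⟨hy1 (sub h y1 a1 (h.en_mem _ _ _ hi)), hy2 (sub h y2 a2 (h.en_mem _ _ _ hi))⟩,
      _, _, _, hi, rfl⟩

end Pool.Agent.P.MP_318c20_al.UB
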