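import Pool.Agent.P.MP_318c20_al.UB.Iface

namespace Pool.Agent.P.MP_318c20_al.UB

open Set Filter Topology

namespace LIM

theorem ca_an {a b : ℝ} (ha : 0 ≤ a) (hb : 0 ≤ b) (hM : 0 < max a b) :
    ca (an a b) * max a b = a ∧ ca (-an a b) * max a b = b := by
  unfold an
  rcases le_total a b with h | h
  · rw [max_eq_right h] at hM ⊢
    have h1 : 0 ≤ (b - a) / b := div_nonneg (by linarith) hb
    rw [ca_of_nonneg h1 ((div_le_one hM).2 (by linarith)), ca_of_nonpos (by linarith)]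
    constructor
    · field_simp; ring
    · ring
  · rw [max_eq_left h] at hM ⊢
    have h1 : (b - a) / a ≤ 0 := div_nonpos_of_nonpos_of_nonneg (by linarith) ha
    rw [ca_of_nonpos h1, ca_of_nonneg (by linarith) (by
      rw [← neg_div, div_le_one hM]; linarith)]
    constructor
    · ring
    · field_simp; ring

variable {l : Len} (m : Mod l)

theorem J_pt (w : Rw Ln) (ξ : m.K × m.K) (θ : ℝ) {t : ℝ} (ht : 0 ≤ t) :
    (m.J (m.org w) w ξ θ).pt t = m.S.ι w (ξ.1.pt (ca θ * t), ξ.2.pt (ca (-θ) * t)) :=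
  (m.S.jb_pt w _ ht).trans (by rw [JP_pt _ _ _ ht])

theorem continuous_J (o : m.X) (w : Rw Ln) :
    Continuous fun p : (m.K × m.K) × ℝ => m.J o w p.1 p.2 :=
  ((m.S.gemb w).bdm_continuous _ o).comp
    (continuous_JP.comp (f := fun p : (m.K × m.K) × ℝ => (p.1.1, p.1.2, p.2)) (by fun_prop))

end LIM

open LIM in
theorem LIM : S_LIM := by
  intro l m w z η a b ξ θ h hM hη hθ
  have c := ((continuous_J m (m.org w) w).tendsto (ξ, θ)).comp (hη.prodMk_nhds hθ)
  refine tendsto_Bd fun t ht => (((Bd.cont_pt t).tendsto _).comp c).congr' ?_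
  filter_upwards [h, hM.eventually_gt_atTop t] with n hn hn'
  have e := ca_an hn.1 hn.2.1 (ht.trans_lt hn')
  refine Bd.agree (T := max (a n) (b n)) ?_ ht hn'.le
  simp only [Function.comp]
  rw [J_pt m w _ _ (ht.trans hn'.le), e.1, e.2, hn.2.2]

end Pool.Agent.P.MP_318c20_al.UB
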