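import Pool.Agent.P.MP_318c20_al.UB.Iface

/-!
Every slope between the slope of a family of lines and zero is a limit of points of the
neighbouring pieces.
-/

namespace Pool.Agent.P.MP_318c20_al.UB

open Set Filter Topology

namespace LOW

theorem an_swap (a b : ℝ) : an b a = -an a b := by
  unfold an; rw [max_comm b a]; ring

theorem an_cont {h1 h2 : ℝ} (hm : 0 < max h1 h2) (c1 c2 : ℝ) :
    Continuous fun s : ℝ => an (h1 + |s + c1|) (h2 + |s + c2|) := by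
  unfold an
  refine Continuous.div (by fun_prop) (by fun_prop) fun s => ?_
  refine (hm.trans_le (max_le_max ?_ ?_)).ne'
  · linarith [abs_nonneg (s + c1)]
  · linarith [abs_nonneg (s + c2)]

theorem an_small {h1 h2 : ℝ} (p1 : 0 ≤ h1) (c1 c2 : ℝ) {ε : ℝ} (hε : 0 < ε) :
    ∃ s : ℝ, an (h1 + |s + c1|) (h2 + |s + c2|) ≤ ε := by
  set K := |h2 - h1| + |c2 - c1| with hK
  have K0 : 0 ≤ K := add_nonneg (abs_nonneg _) (abs_nonneg _)
  have q0 : 0 ≤ K / ε := div_nonneg K0 hε.le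
  refine ⟨K / ε + 1 - c1, ?_⟩
  have e1 : |K / ε + 1 - c1 + c1| = K / ε + 1 := by
    rw [sub_add_cancel, abs_of_nonneg (by linarith)]
  have e2 : |K / ε + 1 - c1 + c2| ≤ K / ε + 1 + |c2 - c1| := by
    have := abs_add_le (K / ε + 1) (c2 - c1)
    rw [abs_of_nonneg (show 0 ≤ K / ε + 1 by linarith)] at this
    rwa [show K / ε + 1 - c1 + c2 = K / ε + 1 + (c2 - c1) by ring]
  have e3 : ε * (K / ε) = K := by field_simp
  unfold an
  rw [e1]
  have hm : K / ε + 1 ≤ max (h1 + (K / ε + 1)) (h2 + |K / ε + 1 - c1 + c2|) :=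
    le_trans (by linarith) (le_max_left _ _)
  rw [div_le_iff₀ (by linarith)]
  have := mul_le_mul_of_nonneg_left hm hε.le
  have := le_abs_self (h2 - h1)
  linarith

theorem real_le {h1 h2 : ℝ} (p1 : 0 ≤ h1) (h12 : h1 ≤ h2) (p2 : 0 < h2) (c1 c2 : ℝ) {θ ε : ℝ}
    (hθ : θ ∈ uIcc (an h1 h2) 0) (hε : 0 < ε) :
    ∃ s : ℝ, |an (h1 + |s + c1|) (h2 + |s + c2|) - θ| ≤ ε := by
  have a0 : 0 ≤ an h1 h2 := div_nonneg (by linarith) (p1.trans (le_max_left _ _))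
  rw [uIcc_of_ge a0] at hθ
  have hm : 0 < max h1 h2 := p2.trans_le (le_max_right _ _)
  have big : an h1 h2 ≤ an (h1 + |-c1 + c1|) (h2 + |-c1 + c2|) := by
    have d0 := abs_nonneg (-c1 + c2)
    rw [neg_add_cancel, abs_zero, add_zero]
    unfold an
    rw [max_eq_right h12, max_eq_right (by linarith), div_le_div_iff₀ p2 (by linarith)]
    nlinarith [mul_nonneg p1 d0]
  obtain ⟨s1, hs1⟩ := an_small (h2 := h2) p1 c1 c2 hε
  rcases le_total (an (h1 + |s1 + c1|) (h2 + |s1 + c2|)) θ with k | k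
  · obtain ⟨s, hs⟩ := intermediate_value_univ s1 (-c1) (an_cont hm c1 c2)
      (show θ ∈ Icc _ _ from ⟨k, hθ.2.trans big⟩)
    refine ⟨s, ?_⟩
    have hs' : an (h1 + |s + c1|) (h2 + |s + c2|) = θ := hs
    rw [hs', sub_self, abs_zero]
    exact hε.le
  · refine ⟨s1, ?_⟩
    rw [abs_of_nonneg (by linarith)]
    linarith [hθ.1]

theorem real {h1 h2 : ℝ} (p1 : 0 ≤ h1) (p2 : 0 ≤ h2) (hm : 0 < max h1 h2) (c1 c2 : ℝ) {θ ε : ℝ}
    (hθ : θ ∈ uIcc (an h1 h2) 0) (hε : 0 < ε) :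
    ∃ s : ℝ, |an (h1 + |s + c1|) (h2 + |s + c2|) - θ| ≤ ε := by
  rcases le_total h1 h2 with k | k
  · exact real_le p1 k (by rwa [max_eq_right k] at hm) c1 c2 hθ hε
  · have hθ' : -θ ∈ uIcc (an h2 h1) 0 := by
      rw [an_swap h1 h2]
      rw [mem_uIcc] at hθ ⊢
      rcases hθ with h | h
      · exact Or.inr ⟨by linarith [h.2], by linarith [h.1]⟩
      · exact Or.inl ⟨by linarith [h.2], by linarith [h.1]⟩
    obtain ⟨s, hs⟩ := real_le p2 k (by rwa [max_eq_left k] at hm) c2 c1 hθ' hε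
    refine ⟨s, ?_⟩
    rw [an_swap (h1 + |s + c1|), ← abs_neg] at hs
    rwa [show -(-an (h1 + |s + c1|) (h2 + |s + c2|) - -θ) =
      an (h1 + |s + c1|) (h2 + |s + c2|) - θ by ring] at hs

theorem tendsto_or {Z : Type} [TopologicalSpace Z] {f g g' : ℕ → Z} {x : Z}
    (h : ∀ᶠ n in atTop, f n = g n ∨ f n = g' n) (hg : Tendsto g atTop (𝓝 x))
    (hg' : Tendsto g' atTop (𝓝 x)) : Tendsto f atTop (𝓝 x) := by
  rw [tendsto_def] at hg hg' ⊢
  intro U hU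
  filter_upwards [h, hg U hU, hg' U hU] with n h1 h2 h3
  rcases h1 with e | e
  · rw [mem_preimage, e]; exact h2
  · rw [mem_preimage, e]; exact h3

theorem clamp_mem (a θ : ℝ) : max (min a 0) (min θ (max a 0)) ∈ uIcc a 0 :=
  ⟨le_max_left _ _, max_le min_le_max (min_le_right _ _)⟩

theorem clamp_eq {a θ : ℝ} (h : θ ∈ uIcc a 0) : max (min a 0) (min θ (max a 0)) = θ := by
  have h1 : min a 0 ≤ θ := h.1
  have h2 : θ ≤ max a 0 := h.2
  rw [min_eq_left h2, max_eq_right h1]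

theorem on_ray (hT : S_THRU) {l : Len} {T : Type} [MetricSpace T] [Good T] (τ : TT l T) (x : V)
    {i j : Col} (h : i ≠ j) (hi : hd x ≠ some i) (hj : hd x ≠ some j) (s : ℝ) :
    ∃ η : Bd τ.r, (η = τ.en x i j ∨ η = τ.en x j i) ∧ τ.lam x i j s = η.pt (ht l.1 x + |s|) := by
  rcases le_total 0 s with k | k
  · exact ⟨_, Or.inl rfl, by rw [abs_of_nonneg k, (hT l T τ).1 x i j h hi s k]⟩
  · refine ⟨_, Or.inr rfl, ?_⟩
    rw [abs_of_nonpos k, (hT l T τ).1 x j i h.symm hj (-s) (by linarith), τ.lam_flip x i j h,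
      neg_neg]

theorem step (hI : S_INTER) (hT : S_THRU) {l : Len} (m : Mod l) (w u : Rw Ln) (p : V × V)
    {i j : Col} (h : i ≠ j) (hu : u ≠ w)
    (hs : m.Pr (m.org w) w (ln p i j h) ⊆ m.Pb (m.org w) u)
    (h1 : hd p.1 ≠ some i ∧ hd p.1 ≠ some j) (h2 : hd p.2 ≠ some i ∧ hd p.2 ≠ some j) :
    ∃ c1 c2 : ℝ, ∀ s : ℝ, ∃ z ∈ m.Pb (m.org w) u, ∃ η : m.K × m.K,
      (η.1 = (m.k.en2 p i j).1 ∨ η.1 = (m.k.en2 p j i).1) ∧
      (η.2 = (m.k.en2 p i j).2 ∨ η.2 = (m.k.en2 p j i).2) ∧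
      z.pt (max (ht l.1 p.1 + |s + c1|) (ht l.1 p.2 + |s + c2|)) =
        m.S.ι w (η.1.pt (ht l.1 p.1 + |s + c1|), η.2.pt (ht l.1 p.2 + |s + c2|)) := by
  obtain ⟨hD, hP⟩ := hI l m
  obtain ⟨L', hL'⟩ := exists_far hu
  have sub : m.Pr (m.org w) w (ln p i j h) ⊆ m.Pr (m.org w) w L' := fun c hc =>
    m.S.bd_Pc_inter (m.org w) hL' ⟨m.S.bd_Mr_subset _ w _ hc, hs hc⟩
  have eq : m.Pr (m.org w) w (ln p i j h) = m.Pr (m.org w) w L' := by
    by_contra hne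
    obtain ⟨c, hc1, hc2⟩ := pair_sdiff (m.S.pair_Mr hD (m.org w) w (ln p i j h))
      (m.S.pair_Mr hD (m.org w) w L') hne
    exact hc2 (sub hc1)
  obtain ⟨y, a, b, hab, hy, he⟩ : ∃ y a b hab, L' = ln y a b hab ∧
      m.J (m.org w) w (m.k.en2 p i j) 0 = m.J (m.org w) w (m.k.en2 y a b) 0 := by
    obtain ⟨y, a, b, hab, hy⟩ := exists_ln L'
    have hm : m.J (m.org w) w (m.k.en2 p i j) 0 ∈ m.Pr (m.org w) w (ln p i j h) := by
      rw [hP]; exact Or.inl rfl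
    rw [eq, hy, hP] at hm
    rcases hm with e | e
    · exact ⟨y, a, b, hab, hy, e⟩
    · exact ⟨y, b, a, hab.symm, hy.trans (ln_sw y a b hab).symm, e⟩
  have he' := JP_zero_inj ((m.S.gemb w).bdm_injective (m.τ.r, m.τ.r) (m.org w) he)
  obtain ⟨c1, hc1⟩ := (hT l m.T m.τ).2 p.1 i j y.1 a b h hab he'.1
  obtain ⟨c2, hc2⟩ := (hT l m.T m.τ).2 p.2 i j y.2 a b h hab he'.2
  refine ⟨c1, c2, fun s => ?_⟩
  obtain ⟨z, hz, t, ht0, hzt⟩ := m.S.exit_Pc hD (m.τ.isLine_dg y hab)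
    (show range (m.τ.dg y a b) = m.D.M L' by rw [hy, m.diag]) (m.S.ι_mem_Near w L' (m.τ.r, m.τ.r))
    hL' (fun c hc => hs (by rw [eq]; exact hc)) s
  obtain ⟨η1, e1, f1⟩ := on_ray hT m.τ p.1 h h1.1 h1.2 (s + c1)
  obtain ⟨η2, e2, f2⟩ := on_ray hT m.τ p.2 h h2.1 h2.2 (s + c2)
  have hdg : m.τ.dg y a b s =
      (η1.pt (ht l.1 p.1 + |s + c1|), η2.pt (ht l.1 p.2 + |s + c2|)) := by
    rw [← f1, ← f2, ← hc1, ← hc2]; rfl
  rw [hdg] at hzt
  have n1 : 0 ≤ ht l.1 p.1 + |s + c1| := add_nonneg (ht_nonneg l _) (abs_nonneg _)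
  have n2 : 0 ≤ ht l.1 p.2 + |s + c2| := add_nonneg (ht_nonneg l _) (abs_nonneg _)
  have et : t = max (ht l.1 p.1 + |s + c1|) (ht l.1 p.2 + |s + c2|) := by
    have d := z.dist_o ht0
    rw [hzt, m.S.dist_ι, Prod.dist_eq] at d
    simp only [η1.dist_o n1, η2.dist_o n2] at d
    exact d.symm
  exact ⟨z, hz, (η1, η2), e1, e2, by rw [← et]; exact hzt⟩

end LOW

theorem LOW (hI : S_INTER) (hT : S_THRU) (hL : S_LIM) : S_LOW := by
  intro l m o w p i j h ξ θ0 hF u hu θ hθ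
  have hs : ∀ n, m.Pr (m.org w) w (ln (p n) i j h) ⊆ m.Pb (m.org w) (u n) := fun n c hc =>
    (chg_mem_bd (m.org w) o c _).1 ((hu n).2 ((chg_mem_bd (m.org w) o c _).2 hc))
  set A : ℕ → ℝ := fun n => an (ht l.1 (p n).1) (ht l.1 (p n).2) with hA
  set θ' : ℕ → ℝ := fun n => max (min (A n) 0) (min θ (max (A n) 0)) with hθ'
  let Gd : ℕ → Prop := fun n => ((hd (p n).1 ≠ some i ∧ hd (p n).1 ≠ some j) ∧
    (hd (p n).2 ≠ some i ∧ hd (p n).2 ≠ some j)) ∧ 0 < max (ht l.1 (p n).1) (ht l.1 (p n).2)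
  have hG : ∀ᶠ n in atTop, Gd n := hF.hang.and (hF.far.eventually_gt_atTop 0)
  have key : ∀ n, ∃ (z : Bd (m.org w)) (η : m.K × m.K) (a b : ℝ), z ∈ m.Pb (m.org w) (u n) ∧
      (Gd n → (η.1 = (m.k.en2 (p n) i j).1 ∨ η.1 = (m.k.en2 (p n) j i).1) ∧
        (η.2 = (m.k.en2 (p n) i j).2 ∨ η.2 = (m.k.en2 (p n) j i).2) ∧
        ht l.1 (p n).1 ≤ a ∧ ht l.1 (p n).2 ≤ b ∧
        z.pt (max a b) = m.S.ι w (η.1.pt a, η.2.pt b) ∧ |an a b - θ' n| ≤ 1 / ((n : ℝ) + 1)) := by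
    intro n
    by_cases g : Gd n
    · obtain ⟨c1, c2, hc⟩ := LOW.step hI hT m w (u n) (p n) h (hu n).1 (hs n) g.1.1 g.1.2
      obtain ⟨s, hs'⟩ := LOW.real (ht_nonneg l (p n).1) (ht_nonneg l (p n).2) g.2 c1 c2
        (LOW.clamp_mem (A n) θ) (Nat.one_div_pos_of_nat (n := n))
      obtain ⟨z, hz, η, e1, e2, e3⟩ := hc s
      exact ⟨z, η, _, _, hz, fun _ => ⟨e1, e2, le_add_of_nonneg_right (abs_nonneg _),
        le_add_of_nonneg_right (abs_nonneg _), e3, hs'⟩⟩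
    · refine ⟨m.J (m.org w) w (m.k.en2 (p n) i j) 0, ξ, 0, 0, hs n ?_, fun g' => absurd g' g⟩
      rw [(hI l m).2]; exact Or.inl rfl
  choose z η a b hz hk using key
  have t1 : Tendsto (fun n => max (a n) (b n)) atTop atTop :=
    tendsto_atTop_mono' atTop (hG.mono fun n g => max_le_max (hk n g).2.2.1 (hk n g).2.2.2.1) hF.far
  have t2 : Tendsto η atTop (𝓝 ξ) := by
    have k1 : Tendsto (fun n => (η n).1) atTop (𝓝 ξ.1) :=
      LOW.tendsto_or (hG.mono fun n g => (hk n g).1) ((continuous_fst.tendsto ξ).comp hF.pos)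
        ((continuous_fst.tendsto ξ).comp hF.neg)
    have k2 : Tendsto (fun n => (η n).2) atTop (𝓝 ξ.2) :=
      LOW.tendsto_or (hG.mono fun n g => (hk n g).2.1) ((continuous_snd.tendsto ξ).comp hF.pos)
        ((continuous_snd.tendsto ξ).comp hF.neg)
    exact k1.prodMk_nhds k2
  have t3 : Tendsto θ' atTop (𝓝 θ) := by
    have k : Tendsto θ' atTop (𝓝 (max (min θ0 0) (min θ (max θ0 0)))) :=
      (hF.ang.min tendsto_const_nhds).max (tendsto_const_nhds.min (hF.ang.max tendsto_const_nhds))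
    rwa [LOW.clamp_eq hθ] at k
  have t4 : Tendsto (fun n => an (a n) (b n)) atTop (𝓝 θ) := by
    have k : Tendsto (fun n => an (a n) (b n) - θ' n) atTop (𝓝 0) :=
      squeeze_zero_norm' (hG.mono fun n g => (hk n g).2.2.2.2.2)
        tendsto_one_div_add_atTop_nhds_zero_nat
    simpa using k.add t3
  have t5 := hL l m w z η a b ξ θ (hG.mono fun n g =>
    ⟨(ht_nonneg l _).trans (hk n g).2.2.1, (ht_nonneg l _).trans (hk n g).2.2.2.1,
      (hk n g).2.2.2.2.1⟩) t1 t2 t4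
  refine ⟨fun n => chg (m.org w) o (z n), fun n => (chg_mem_bd (m.org w) o _ _).2 (hz n), ?_⟩
  have e : chg (m.org w) o (m.J (m.org w) w ξ θ) = m.J o w ξ θ :=
    (m.S.gemb w).chg_bdm (m.τ.r, m.τ.r) (m.org w) o (JP ξ.1 ξ.2 θ)
  rw [← e]
  exact ((chg (m.org w) o).continuous.tendsto _).comp t5

end Pool.Agent.P.MP_318c20_al.UB
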