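import Pool.Agent.P.MP_318c20_al.UB.Iface

namespace Pool.Agent.P.MP_318c20_al.UB

open Set Filter Topology

namespace MONO

theorem an_mem {a b : ℝ} (ha : 0 ≤ a) (hb : 0 ≤ b) : an a b ∈ Icc (-1 : ℝ) 1 := by
  unfold an
  have h1 := le_max_left a b
  have h2 := le_max_right a b
  rcases (ha.trans h1).eq_or_lt with h | h
  · rw [← h]; simp
  · exact ⟨by rw [le_div_iff₀ h]; linarith, by rw [div_le_iff₀ h]; linarith⟩

theorem fam_mem {K : Type} [TopologicalSpace K] {l : Len} {k : KD K} {p : ℕ → V × V} {i j : Col}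
    {ξ : K × K} {θ : ℝ} (h : Fam l.1 k p i j ξ θ) : θ ∈ Icc (-1 : ℝ) 1 :=
  isClosed_Icc.mem_of_tendsto h.ang
    (Eventually.of_forall fun _ => an_mem (ht_nonneg _ _) (ht_nonneg _ _))

theorem step (hI : S_INTER) (hLow : S_LOW) (hUp : S_UP) {l l' : Len} (m : Mod l) (m' : Mod l')
    {o : m.X} {o' : m'.X} (φ : Bd o ≃ₜ Bd o') {w w' : Rw Ln} (hφ : φ '' m.Pb o w = m'.Pb o' w')
    {p p' : ℕ → V × V} {i j i' j' : Col} {h : i ≠ j} {h' : i' ≠ j'} {ξ : m.K × m.K}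
    {ξ' : m'.K × m'.K} {θp θp' : ℝ} (F : Fam l.1 m.k p i j ξ θp) (F' : Fam l'.1 m'.k p' i' j' ξ' θp')
    (e : ∀ n, φ '' m.Pr o w (ln (p n) i j h) = m'.Pr o' w' (ln (p' n) i' j' h'))
    {θ' : ℝ} (hθ : θ' ∈ uIcc θp' 0) :
    ∃ θ ∈ uIcc θp 0, φ.symm (m'.J o' w' ξ' θ') = m.J o w ξ θ := by
  choose u hu using fun n : ℕ =>
    m.S.image_piece m'.S (hI l m).1 (hI l' m').1 φ (mv (ln (p n) i j h) w)
  obtain ⟨z, hz, hl⟩ := hLow l' m' o' w' p' i' j' h' ξ' θp' F' u (fun n => ⟨fun hn => by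
    have h1 := hu n
    rw [hn] at h1
    have h2 : φ '' bd o (m.S.Pc (mv (ln (p n) i j h) w)) = φ '' bd o (m.S.Pc w) := h1.trans hφ.symm
    exact mv_ne _ _ (m.S.bd_Pc_injective (hI l m).1 o (φ.injective.image_injective h2)), by
    rw [← e n]
    exact (image_mono (m.S.bd_Mr_subset_mv o w _)).trans (hu n).subset⟩) θ' hθ
  refine hUp l m o w p i j h ξ θp F (fun n => φ.symm (z n)) _ (fun n => ?_)
    ((φ.symm.continuous.tendsto _).comp hl)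
  obtain ⟨c, hc, e'⟩ := (hu n).symm.subset (hz n)
  rw [← e', φ.symm_apply_apply]
  exact bd_mono (m.S.Pc_subset_Side (mv_far _ _)) hc

theorem symm_img {Z Z' : Type} [TopologicalSpace Z] [TopologicalSpace Z'] (φ : Z ≃ₜ Z') {A : Set Z}
    {B : Set Z'} (h : φ '' A = B) : φ.symm '' B = A := by
  rw [← h, image_image]; simp

end MONO

theorem MONO (hI : S_INTER) (hLow : S_LOW) (hUp : S_UP) : S_MONO := by
  intro l l' m m' o o' φ w w' hφ p q p' q' i j i' j' h h' ξ ξ' θp θq θp' θq' Fp Fq Fp' Fq' ep eq hθ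
  obtain ⟨θ, h1, e1⟩ := MONO.step hI hLow hUp m m' φ hφ Fp Fp' ep left_mem_uIcc
  obtain ⟨θ', h2, e2⟩ := MONO.step hI hLow hUp m' m φ.symm (MONO.symm_img φ hφ) Fq' Fq
    (fun n => MONO.symm_img φ (eq n)) (uIcc_subset_uIcc hθ right_mem_uIcc h1)
  rw [← e1, Homeomorph.symm_symm, φ.apply_symm_apply] at e2
  have h3 : θ' ∈ Icc (-1 : ℝ) 1 :=
    ordConnected_Icc.uIcc_subset (MONO.fam_mem Fq') (by norm_num) h2
  have := (JP_inj (MONO.fam_mem Fp') h3 ((m'.S.gemb w').bdm_injective _ o' e2)).1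
  rwa [this]

end Pool.Agent.P.MP_318c20_al.UB
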