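import Pool.Agent.P.MP_318c20_al.UB.Iface

/-! A homeomorphism of boundaries of pieces is a product map on the diagonal level. -/

namespace Pool.Agent.P.MP_318c20_al.UB

open Set Filter Topology

namespace PROD1

variable {l l' : Len} (m : Mod l) (m' : Mod l') {o : m.X} {o' : m'.X}

theorem emb (o : m.X) (w : Rw Ln) : IsClosedEmbedding (m.S.jb w o (a0 := (m.τ.r, m.τ.r))) :=
  (m.S.gemb w).bdm_closedEmbedding _ o

theorem lev (hI : S_INTER) (hK : S_KSM) (hT : S_KTOP) (φ : Bd o ≃ₜ Bd o') {w w' : Rw Ln}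
    (hφ : φ '' m.Pb o w ⊆ m'.Pb o' w') (ξ : m.K × m.K) :
    φ (m.J o w ξ 0) ∈ m'.S.jb w' o' '' Lev m'.τ.r m'.τ.r := by
  have hd := (hT m.K m.k (hK l m.T m.τ)).2.2.2
  have hc : Continuous fun ξ : m.K × m.K => φ (m.J o w ξ 0) :=
    φ.continuous.comp ((emb m o w).continuous.comp continuous_JP_zero)
  have hcl := (((emb m' o' w').isClosedMap _ isClosed_lev).preimage hc)
  refine hcl.closure_subset_iff.2 ?_ (hd ξ)
  rintro _ ⟨p, i, j, h, rfl⟩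
  have h1 := (m.S.cutP_Mr (hI l m).1 o w (ln p i j h)).image φ
  obtain ⟨L, hL⟩ := m'.S.cutP_subset (hI l' m').1 h1
    ((image_mono (m.S.bd_Mr_subset o w _)).trans hφ)
  obtain ⟨p', i', j', h', rfl⟩ := exists_ln L
  have h2 : φ (m.J o w (m.k.en2 p i j) 0) ∈ m'.Pr o' w' (ln p' i' j' h') := by
    rw [Mod.Pr, ← hL]
    refine mem_image_of_mem _ ?_
    have h3 := (hI l m).2 o w p i j h
    rw [Mod.Pr] at h3
    rw [h3]
    exact Or.inl rfl
  rw [(hI l' m').2] at h2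
  rcases h2 with h2 | h2
  · exact ⟨_, ⟨_, rfl⟩, h2.symm⟩
  · exact ⟨_, ⟨_, rfl⟩, h2.symm⟩

end PROD1

open PROD1 in
theorem PROD1 (hI : S_INTER) (hK : S_KSM) (hT : S_KTOP) : S_PROD1 := by
  intro l l' m m' o o' φ w w' hφ
  obtain ⟨-, d1, n1, -⟩ := hT m.K m.k (hK l m.T m.τ)
  obtain ⟨-, d2, -, -⟩ := hT m'.K m'.k (hK l' m'.T m'.τ)
  obtain ⟨h, hh⟩ := restrict_homeo (emb m o w).isEmbedding (emb m' o' w').isEmbedding φ
    (by rw [m.S.range_jb, m'.S.range_jb]; exact hφ)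
  have hφ' : φ.symm '' m'.Pb o' w' ⊆ m.Pb o w := by
    rw [← hφ, image_image]
    simp
  have hl : h '' Lev m.τ.r m.τ.r = Lev m'.τ.r m'.τ.r := by
    refine subset_antisymm ?_ ?_
    · rintro _ ⟨_, ⟨ξ, rfl⟩, rfl⟩
      obtain ⟨c, hc, e⟩ := lev m m' hI hK hT φ hφ.subset ξ
      rwa [(emb m' o' w').injective ((hh _).trans e.symm)]
    · rintro _ ⟨ξ, rfl⟩
      obtain ⟨c, hc, e⟩ := lev m' m hI hK hT φ.symm hφ' ξ
      refine ⟨c, hc, (emb m' o' w').injective ?_⟩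
      rw [hh, e, φ.apply_symm_apply]
      rfl
  rcases prod_of_homeo h hl with ⟨u, v, e⟩ | ⟨u, v, e⟩
  · exact ⟨u, v, false, fun ξ => (hh _).symm.trans (congrArg _ (e ξ.1 ξ.2))⟩
  · exact ⟨u, v, true, fun ξ => (hh _).symm.trans (congrArg _ (e ξ.1 ξ.2))⟩

end Pool.Agent.P.MP_318c20_al.UB
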