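import Pool.Agent.P.MP_318c20_al.UB.Iface

/-! The two factor maps are induced by tree isomorphisms with the same colour permutation. -/

namespace Pool.Agent.P.MP_318c20_al.UB

open Set Filter Topology

namespace PROD2

theorem J_inj {l : Len} (m : Mod l) (o : m.X) (w : Rw Ln) {ξ η : m.K × m.K}
    (h : m.J o w ξ 0 = m.J o w η 0) : ξ = η := by
  have := JP_zero_inj ((m.S.gemb w).bdm_injective (m.τ.r, m.τ.r) o h)
  exact Prod.ext this.1 this.2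

theorem en_ne {K : Type} [TopologicalSpace K] {k : KD K} (ks : KS k) (x : V) {i j : Col}
    (h : i ≠ j) : k.en x i j ≠ k.en x j i := fun e =>
  disjoint_left.1 (ks.disj x i j h) (ks.en_mem x i j h) (e ▸ ks.en_mem x j i h.symm)

theorem lemA (hI : S_INTER) (hK : S_KSM) {l l' : Len} (m : Mod l) (m' : Mod l') {o : m.X}
    {o' : m'.X} (φ : Bd o ≃ₜ Bd o') {w w' : Rw Ln} (hφ : φ '' m.Pb o w = m'.Pb o' w')
    (f : m.K × m.K → m'.K × m'.K) (hf : ∀ ξ, φ (m.J o w ξ 0) = m'.J o' w' (f ξ) 0)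
    (p : V × V) {i j : Col} (h : i ≠ j) : ∃ y a c, a ≠ c ∧
      f (m.k.en2 p i j) = m'.k.en2 y a c ∧ f (m.k.en2 p j i) = m'.k.en2 y c a := by
  have c1 := (m.S.cutP_Mr (hI l m).1 o w (ln p i j h)).image φ
  obtain ⟨L, hL⟩ := m'.S.cutP_subset (hI l' m').1 c1 (w := w')
    ((image_mono (m.S.bd_Mr_subset o w _)).trans hφ.subset)
  obtain ⟨y, a, c, hac, rfl⟩ := exists_ln L
  change φ '' m.Pr o w _ = m'.Pr o' w' _ at hL
  rw [(hI l m).2, (hI l' m').2, image_pair, hf, hf] at hL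
  rcases pair_eq_pair_iff.1 hL with ⟨h1, h2⟩ | ⟨h1, h2⟩
  · exact ⟨y, a, c, hac, J_inj m' o' w' h1, J_inj m' o' w' h2⟩
  · exact ⟨y, c, a, hac.symm, J_inj m' o' w' h1, J_inj m' o' w' h2⟩

theorem sw_sw {α : Type} (b : Bool) (p : α × α) : sw b (sw b p) = p := by cases b <;> rfl

theorem sw_diag {α : Type} (b : Bool) (x : α) : sw b (x, x) = (x, x) := by cases b <;> rfl

theorem sw_en2 {K : Type} (k : KD K) (b : Bool) (p : V × V) (i j : Col) :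
    sw b (k.en2 p i j) = k.en2 (sw b p) i j := by cases b <;> rfl

theorem col_two : ∀ i : Col, i ≠ i + 1 ∧ i ≠ i + 2 ∧ i + 1 ≠ i + 2 := by decide

end PROD2

open PROD2 in
theorem PROD2 (hI : S_INTER) (hK : S_KSM) (hU : S_UNIQ) (hT : S_TREEISO) : S_PROD2 := by
  intro l l' m m' o o' φ w w' hφ ψ₁ ψ₂ b hψ
  have ks : KS m.k := hK l m.T m.τ
  have ks' : KS m'.k := hK l' m'.T m'.τ
  have B1 : ∀ x i j, i ≠ j → ∃ (y : V × V) (a c : Col), a ≠ c ∧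
      (ψ₁ (m.k.en x i j) = m'.k.en y.1 a c ∧ ψ₂ (m.k.en x i j) = m'.k.en y.2 a c) ∧
      ψ₁ (m.k.en x j i) = m'.k.en y.1 c a ∧ ψ₂ (m.k.en x j i) = m'.k.en y.2 c a := by
    intro x i j h
    obtain ⟨y, a, c, hac, h1, h2⟩ := lemA hI hK m m' φ hφ _ hψ (x, x) h
    have h3 := congrArg (sw b) h1
    have h4 := congrArg (sw b) h2
    rw [sw_sw, sw_en2] at h3 h4
    exact ⟨sw b y, a, c, hac, Prod.ext_iff.1 h3, Prod.ext_iff.1 h4⟩
  have B2 : ∀ x i j, i ≠ j → ∃ (y : V × V) (a c : Col), a ≠ c ∧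
      (ψ₁.symm (m'.k.en x i j) = m.k.en y.1 a c ∧ ψ₂.symm (m'.k.en x i j) = m.k.en y.2 a c) ∧
      ψ₁.symm (m'.k.en x j i) = m.k.en y.1 c a ∧ ψ₂.symm (m'.k.en x j i) = m.k.en y.2 c a := by
    intro x i j h
    obtain ⟨y, a, c, hac, h1, h2⟩ := lemA hI hK m' m φ.symm (w := w') (w' := w)
      (by rw [← hφ, ← image_comp]; simp) (fun ζ => (ψ₁.symm (sw b ζ).1, ψ₂.symm (sw b ζ).2))
      (fun ζ => by
        rw [Homeomorph.symm_apply_eq, hψ]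
        simp only [Homeomorph.apply_symm_apply, Prod.mk.eta, sw_sw]) (x, x) h
    simp only [sw_en2, sw_diag] at h1 h2
    exact ⟨y, a, c, hac, Prod.ext_iff.1 h1, Prod.ext_iff.1 h2⟩
  obtain ⟨Ψ₁, σ₁, t1⟩ := hT _ _ m.k m'.k ks ks' ψ₁ fun ξ η => ⟨by
    rintro ⟨x, i, j, h, rfl, rfl⟩
    obtain ⟨y, a, c, hac, h1, h2⟩ := B1 x i j h
    exact ⟨y.1, a, c, hac, h1.1, h2.1⟩, by
    rintro ⟨x, i, j, h, e1, e2⟩
    obtain ⟨y, a, c, hac, h1, h2⟩ := B2 x i j h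
    rw [← e1, ← e2] at *
    exact ⟨y.1, a, c, hac, by simpa using h1.1, by simpa using h2.1⟩⟩
  obtain ⟨Ψ₂, σ₂, t2⟩ := hT _ _ m.k m'.k ks ks' ψ₂ fun ξ η => ⟨by
    rintro ⟨x, i, j, h, rfl, rfl⟩
    obtain ⟨y, a, c, hac, h1, h2⟩ := B1 x i j h
    exact ⟨y.2, a, c, hac, h1.2, h2.2⟩, by
    rintro ⟨x, i, j, h, e1, e2⟩
    obtain ⟨y, a, c, hac, h1, h2⟩ := B2 x i j h
    rw [← e1, ← e2] at *
    exact ⟨y.2, a, c, hac, by simpa using h1.2, by simpa using h2.2⟩⟩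
  have key : ∀ i j, i ≠ j → σ₁ i ≠ σ₂ i → σ₁ i = σ₂ j := by
    intro i j h hne
    obtain ⟨y, a, c, hac, ⟨h1, h2⟩, -⟩ := B1 root i j h
    rw [t1.2 root i j h] at h1
    rw [t2.2 root i j h] at h2
    have u1 := ((hU _ m'.k ks').2.1 _ _ _ _ _ _ (σ₁.injective.ne h) hac h1).2
    have u2 := ((hU _ m'.k ks').2.1 _ _ _ _ _ _ (σ₂.injective.ne h) hac h2).2
    rcases u1 with ⟨a1, -⟩ | ⟨a1, -⟩ <;> rcases u2 with ⟨b1, b2⟩ | ⟨b1, b2⟩
    · exact absurd (a1.trans b1.symm) hne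
    · exact a1.trans b2.symm
    · exact a1.trans b2.symm
    · exact absurd (a1.trans b1.symm) hne
  obtain rfl : σ₁ = σ₂ := Equiv.ext fun i => by
    by_contra hne
    exact (col_two i).2.2 (σ₂.injective
      ((key i _ (col_two i).1 hne).symm.trans (key i _ (col_two i).2.1 hne)))
  exact ⟨Ψ₁, Ψ₂, σ₁, t1, t2⟩

end Pool.Agent.P.MP_318c20_al.UB
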