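import Pool.Agent.P.MP_318c20_al.UB.Iface

/-! Rays from the root to the ends of the bicoloured lines. -/

namespace Pool.Agent.P.MP_318c20_al.UB

open Set Filter Topology

namespace THRU

variable {l : Len} {T : Type} [MetricSpace T] (τ : TT l T)

theorem r_near {x : V} {i : Col} (h : hd x ≠ some i) : τ.r ∈ τ.S.Near x i :=
  τ.S.Pc_subset_Near (root_not_far h) ⟨(), rfl⟩

theorem dist_r (x : V) : dist τ.r (τ.vx x) = ht l.1 x := by
  refine root_ind (fun x => dist τ.r (τ.vx x) = ht l.1 x) ?_ ?_ x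
  · simp only [TT.r, dist_self, ht_root]
  · intro w i h ih
    have h1 := τ.S.dist_E (r_near τ h) (m := ()) (mem_univ _) ((unitGt l).e_mem i)
    rw [τ.S.E_top w i (mem_univ _)] at h1
    rw [ht_mv_out _ h, ← ih]
    exact h1

theorem sl_iter (n : ℕ) : ∀ (x : V) (i j : Col), i ≠ j →
    (Sl^[n] (x, i, j)).2.1 ≠ (Sl^[n] (x, i, j)).2.2 ∧ ∃ c, ∀ s,
      τ.lam (Sl^[n] (x, i, j)).1 (Sl^[n] (x, i, j)).2.1 (Sl^[n] (x, i, j)).2.2 s
        = τ.lam x i j (s + c) := by
  induction n with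
  | zero => exact fun x i j h => ⟨h, 0, fun s => by simp⟩
  | succ n ih =>
    intro x i j h
    rw [Function.iterate_succ_apply]
    obtain ⟨h1, c, hc⟩ := ih (mv i x) j i h.symm
    refine ⟨h1, c + l.1 i, fun s => ?_⟩
    rw [← add_assoc, ← τ.lam_sl x h]
    exact hc s

end THRU

theorem THRU (hK : S_KSM) (hU : S_UNIQ) : S_THRU := by
  intro l T _ _ τ
  constructor
  · intro x i j h hx s hs
    have hm : τ.en x i j ∈ bd τ.r (τ.S.Side x i) := (hK l T τ).en_mem x i j h
    have hc := cross_or (τ.S.gated_Near x i) (τ.S.gated_Side x i) (τ.S.near_union_side x i)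
      (THRU.r_near τ hx) hm
    rw [τ.S.near_inter_side] at hc
    have hpt : ∀ y ∈ τ.S.Mr x i, y = τ.vx x := by
      rintro _ ⟨u, -, rfl⟩
      rfl
    rcases hc with ⟨t, ht0, h1⟩ | ⟨D, hD⟩
    · have h2 := hpt _ h1
      have h3 : t = ht l.1 x := by
        rw [← THRU.dist_r τ x, ← h2, Bd.dist_o _ ht0]
      rw [← τ.lam_zero x h, τ.en_eq x h] at h2
      have h4 := follow_line (τ.isLine x h) ht0 h2 hs
      rw [τ.en_eq x h, ← h3, add_comm, h4, add_zero]
    · exfalso
      obtain ⟨u, hu, a, ha, h1⟩ := hD (max 0 (D + dist τ.r (τ.vx x) + 1))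
      rw [hpt a ha] at h1
      have h2 := (τ.en x i j).dist_o ((le_max_left _ _).trans hu)
      have h3 := dist_triangle_right τ.r ((τ.en x i j).pt u) (τ.vx x)
      have h4 := (le_max_right _ _).trans hu
      linarith
  · intro x i j y a b h h' e
    obtain ⟨n, n', hn⟩ := (hU _ τ.kd (hK l T τ)).1 x i j y a b h h' e
    obtain ⟨-, c, hc⟩ := THRU.sl_iter τ n x i j h
    obtain ⟨-, c', hc'⟩ := THRU.sl_iter τ n' y a b h'
    refine ⟨c - c', fun s => ?_⟩
    have h1 := hc (s - c')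
    have h2 := hc' (s - c')
    rw [hn] at h1
    rw [h1, sub_add_cancel] at h2
    rw [← h2]
    congr 1
    ring

end Pool.Agent.P.MP_318c20_al.UB
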