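import Pool.Agent.P.MP_318c20_al.UB.Iface

namespace Pool.Agent.P.MP_318c20_al.UB

open Set

namespace TRAY

variable {l : Len} {T : Type} [MetricSpace T] (S : TS (unitGt l) T)

/-- The ray that starts along colour `i` and then alternates. -/
noncomputable def R (x : V) (i j : Col) (t : ℝ) : T :=
  if _h : t ≤ l.1 i then S.E x i () t else R (mv i x) j i (t - l.1 i)
termination_by Nat.ceil t
decreasing_by
  have h1 := l.2 i
  rw [not_le] at _h
  have h2 := Nat.ceil_lt_add_one (a := t - l.1 i) (by linarith)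
  exact Nat.lt_ceil.2 (by linarith)

theorem R_le (x : V) {i : Col} (j : Col) {t : ℝ} (h : t ≤ l.1 i) : R S x i j t = S.E x i () t := by
  rw [R, dif_pos h]

theorem R_zero (x : V) (i j : Col) : R S x i j 0 = S.ι x () := by
  rw [R_le S x j (zero_le_one.trans (l.2 i))]
  exact S.E_zero x i () (mem_univ _)

theorem R_ge (x : V) {i : Col} (j : Col) {t : ℝ} (h : l.1 i ≤ t) :
    R S x i j t = R S (mv i x) j i (t - l.1 i) := by
  rcases h.eq_or_lt with e | h
  · rw [← e, sub_self, R_zero, R_le S x j le_rfl]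
    exact S.E_top x i (mem_univ _)
  · rw [R, dif_neg (not_le.2 h)]

theorem back {x : V} {i : Col} {p : T} (hp : p ∈ S.Near (mv i x) i) :
    S.H x p = S.H (mv i x) p + l.1 i := by
  have := (S.step hp).1
  rw [mv_mv] at this
  simpa [unitGt_e] using this

theorem R_spec (n : ℕ) : ∀ (x : V) (i j : Col) (t : ℝ), i ≠ j → 0 ≤ t → t < n →
    R S x i j t ∈ S.Side x i ∧ S.H x (R S x i j t) = t := by
  induction n with
  | zero => intro x i j t _ h0 h1; simp at h1; linarith
  | succ n ih =>
    intro x i j t hij h0 h1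
    rcases le_total t (l.1 i) with h | h
    · rw [R_le S x j h]
      exact ⟨S.Cyl_subset_Side x i (S.E_mem_Cyl x (mem_univ _) ⟨h0, h⟩),
        S.H_E x (mem_univ _) ⟨h0, h⟩⟩
    · rw [R_ge S x j h]
      obtain ⟨a, b⟩ := ih (mv i x) j i (t - l.1 i) hij.symm (by linarith)
        (by push_cast at h1; linarith [l.2 i])
      refine ⟨S.side_mv_subset_side x hij.symm a, ?_⟩
      rw [back S (S.side_subset_near _ hij.symm a), b]
      ring

theorem R_side (x : V) {i j : Col} (hij : i ≠ j) {t : ℝ} (h : 0 ≤ t) :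
    R S x i j t ∈ S.Side x i ∧ S.H x (R S x i j t) = t := by
  obtain ⟨n, hn⟩ := exists_nat_gt t
  exact R_spec S n x i j t hij h hn

theorem dist_R {x : V} {i j : Col} (hij : i ≠ j) {t : ℝ} (h : 0 ≤ t) {p : T}
    (hp : p ∈ S.Near x i) : dist p (R S x i j t) = S.H x p + t := by
  rw [S.add hp (R_side S x hij h).1, (R_side S x hij h).2]
  simp

/-- The bicoloured line. -/
noncomputable def lam (x : V) (i j : Col) (s : ℝ) : T :=
  if 0 ≤ s then R S x i j s else R S x j i (-s)

theorem lam_pos (x : V) (i j : Col) {s : ℝ} (h : 0 ≤ s) : lam S x i j s = R S x i j s := if_pos h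

theorem lam_neg (x : V) (i j : Col) {s : ℝ} (h : s ≤ 0) : lam S x i j s = R S x j i (-s) := by
  rcases h.eq_or_lt with rfl | h
  · rw [lam_pos S x i j le_rfl, neg_zero, R_zero, R_zero]
  · exact if_neg (not_le.2 h)

theorem lam_flip (x : V) (i j : Col) (s : ℝ) : lam S x j i s = lam S x i j (-s) := by
  rcases le_total 0 s with h | h
  · rw [lam_pos S x j i h, lam_neg S x i j (by linarith), neg_neg]
  · rw [lam_neg S x j i h, lam_pos S x i j (by linarith)]

theorem lam_mv (x : V) (i j : Col) (s : ℝ) :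
    lam S (mv i x) i j s = lam S x i j (l.1 i - s) := by
  have h1 := l.2 i
  rcases le_total s 0 with h | h
  · rw [lam_neg S _ i j h, lam_pos S x i j (by linarith), R_ge S x j (by linarith)]
    congr 1
    ring
  rcases le_total s (l.1 i) with h' | h'
  · rw [lam_pos S _ i j h, lam_pos S x i j (by linarith), R_le S _ j h',
      R_le S x j (by linarith), ← S.E_flip x i () (mem_univ _) (l.1 i - s)
        ⟨by linarith, by rw [unitGt_e]; linarith⟩, unitGt_e, sub_sub_cancel]
  · rw [lam_pos S _ i j h, lam_neg S x i j (by linarith), R_ge S _ j h', mv_mv, neg_sub]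

/-- The distance to the line has a corner. -/
def Gd (x : V) (i j : Col) (p : T) : Prop :=
  ∃ c s0, ∀ s, dist p (lam S x i j s) = c + |s - s0|

theorem gd_cyl {x : V} {i j : Col} (hij : i ≠ j) {p : T} (hp : p ∈ S.Cyl x i) : Gd S x i j p := by
  obtain ⟨⟨⟩, hm, h, hh, rfl⟩ := hp
  have hc := S.E_mem_Cyl x hm hh
  have h2 : h ≤ l.1 i := hh.2
  refine ⟨0, h, fun s => ?_⟩
  rcases le_total s 0 with a | a
  · rw [lam_neg S x i j a, dist_R S hij.symm (by linarith)
      (S.side_subset_near x hij (S.Cyl_subset_Side x i hc)), S.H_E x hm hh,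
      abs_of_nonpos (by linarith [hh.1])]
    ring
  rcases le_total s (l.1 i) with b | b
  · rw [lam_pos S x i j a, R_le S x j b, S.cyl x i () hm () hm h hh s ⟨a, b⟩, abs_sub_comm]
    simp
  · rw [← S.Cyl_mv] at hc
    rw [lam_pos S x i j a, R_ge S x j b, dist_R S hij.symm (by linarith)
      (S.side_subset_near _ hij (S.Cyl_subset_Side _ i hc)), ← S.E_flip x i () hm h hh,
      S.H_E _ hm ⟨by linarith [hh.2], by linarith [hh.1]⟩, unitGt_e, abs_of_nonneg (by linarith)]
    ring

theorem gd (p : T) (n : ℕ) : ∀ (x : V) (i j : Col), i ≠ j → S.H x p < n → Gd S x i j p := by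
  induction n with
  | zero => intro x i j _ h; simp at h; linarith [S.H_nonneg x p]
  | succ n ih =>
    have key : ∀ (x : V) (i j : Col), i ≠ j → S.H x p < (n + 1 : ℕ) → p ∈ S.Side x i →
        Gd S x i j p := by
      intro x i j hij h hp
      rcases S.side_cases hp with hc | hc
      · exact gd_cyl S hij hc
      · have := back S hc
        obtain ⟨c, s0, h0⟩ := ih (mv i x) i j hij (by push_cast at h; linarith [l.2 i])
        refine ⟨c, l.1 i - s0, fun s => ?_⟩
        have e := h0 (l.1 i - s)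
        rw [lam_mv, sub_sub_cancel] at e
        rw [e, ← abs_neg]
        congr 2
        ring
    intro x i j hij h
    rcases S.near_or_side x i p with a | a
    swap
    · exact key x i j hij h a
    rcases S.near_or_side x j p with b | b
    · refine ⟨S.H x p, 0, fun s => ?_⟩
      rcases le_total 0 s with c | c
      · rw [lam_pos S x i j c, dist_R S hij c a, sub_zero, abs_of_nonneg c]
      · rw [lam_neg S x i j c, dist_R S hij.symm (by linarith) b, sub_zero, abs_of_nonpos c]
    · obtain ⟨c, s0, h0⟩ := key x j i hij.symm h b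
      refine ⟨c, -s0, fun s => ?_⟩
      have e := h0 (-s)
      rw [lam_flip, neg_neg] at e
      rw [e, ← abs_neg]
      congr 2
      ring

end TRAY

open TRAY in
theorem TRAY : S_TRAY := by
  intro l T _ S
  refine ⟨⟨S, lam S, fun x i j _ s hs => ?_, fun x i j _ s => lam_flip S x i j s,
    fun x i j _ s => lam_mv S x i j s, fun x i j h p => ?_, fun x i j h s hs => ?_⟩, rfl⟩
  · rw [lam_pos S x i j hs.1, R_le S x j hs.2]
  · obtain ⟨n, hn⟩ := exists_nat_gt (S.H x p)
    obtain ⟨c, s0, h0⟩ := gd S p n x i j h hn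
    exact ⟨s0, fun s => by rw [h0 s, h0 s0]; simp⟩
  · rw [lam_pos S x i j hs]
    exact (R_side S x h hs).1

end Pool.Agent.P.MP_318c20_al.UB
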