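import Pool.Agent.P.MP_318c20_al.UB.Iface

namespace Pool.Agent.P.MP_318c20_al.UB

open Set Filter Topology

namespace TREEISO

variable {K K' : Type} [TopologicalSpace K] [TopologicalSpace K'] {k : KD K} {k' : KD K'}

theorem sh_ne (hk : KS k) (x : V) (i : Col) : (k.Sh x i).Nonempty :=
  ⟨_, hk.en_mem x i (i + 1) (TT.col_ne_succ i)⟩

theorem image_sh (h3 : S_CUT3) (hk : KS k) (hk' : KS k') (ψ : K ≃ₜ K')
    (h : ∀ ξ η, k.EP ξ η ↔ k'.EP (ψ ξ) (ψ η)) (x : V) (i : Col) :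
    ∃ y a, ψ '' k.Sh x i = k'.Sh y a := by
  have n1 := sh_ne hk x i
  have n2 : (k.Sh x i)ᶜ.Nonempty := hk.compl x i ▸ sh_ne hk (mv i x) i
  have e : k'.cr (ψ '' k.Sh x i) = ψ '' k.cr (k.Sh x i) := by
    ext ξ
    constructor
    · rintro ⟨⟨ξ, h1, rfl⟩, η, h2, h4⟩
      obtain ⟨η, rfl⟩ := ψ.surjective η
      exact ⟨ξ, ⟨h1, η, fun h5 => h2 ⟨η, h5, rfl⟩, (h ξ η).2 h4⟩, rfl⟩
    · rintro ⟨ξ, ⟨h1, η, h2, h4⟩, rfl⟩
      exact ⟨⟨ξ, h1, rfl⟩, ψ η, fun h5 => h2 (ψ.injective.mem_set_image.1 h5), (h ξ η).1 h4⟩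
  refine (h3 K' k' hk' _ ⟨ψ.isClosedMap _ (hk.clopen x i).1, ψ.isOpenMap _ (hk.clopen x i).2⟩
    (n1.image _) ?_).1 ?_
  · rw [← image_compl_eq ψ.bijective]; exact n2.image _
  · rw [e, ψ.injective.encard_image]
    exact (h3 K k hk _ (hk.clopen x i) n1 n2).2 ⟨x, i, rfl⟩

theorem sh_inj (hF : S_KFAR) (hk : KS k) {x y : V} {i j : Col} (e : k.Sh y j = k.Sh x i) :
    y = x ∧ j = i := by
  rcases (hF K k hk).2.1 x i y j e.subset with h | h
  · exact h
  rcases (hF K k hk).2.1 y j x i e.symm.subset with h' | h'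
  · exact ⟨h'.1.symm, h'.2.symm⟩
  · exact absurd h'.1 h.2

theorem far_of_ss (hF : S_KFAR) (hk : KS k) {x y : V} {i j : Col} (e : k.Sh y j ⊂ k.Sh x i) :
    y ∈ Far x i ∧ x ∉ Far y j :=
  ((hF K k hk).2.1 x i y j e.subset).resolve_left fun h => e.ne (by rw [h.1, h.2])

theorem ss_of_far (hF : S_KFAR) (hk : KS k) {x y : V} {i j : Col} (h1 : y ∈ Far x i)
    (h2 : x ∉ Far y j) : k.Sh y j ⊂ k.Sh x i :=
  ssubset_of_subset_of_ne ((hF K k hk).1 x i y j h1 h2) fun e => by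
    rw [(sh_inj hF hk e).1] at h1
    exact self_not_far _ _ h1

theorem child_ss (hF : S_KFAR) (hk : KS k) (x : V) {i j : Col} (h : i ≠ j) :
    k.Sh x j ⊂ k.Sh (mv i x) i :=
  ss_of_far hF hk (self_far_mv x i) fun e => h (far_uniq (mv_far x i) e)

theorem no_between (hF : S_KFAR) (hk : KS k) {x u : V} {i j d : Col} (h1 : k.Sh x j ⊂ k.Sh u d)
    (h2 : k.Sh u d ⊂ k.Sh (mv i x) i) : False := by
  obtain ⟨a1, -⟩ := far_of_ss hF hk h1
  obtain ⟨a2, a3⟩ := far_of_ss hF hk h2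
  rcases far_step a1 i with e | ⟨e, rfl⟩
  · exact a3 e
  · rw [e, mv_mv] at a2
    exact self_not_far _ _ a2

theorem exists_between (hF : S_KFAR) (hk : KS k) {y z : V} {a b : Col}
    (h : k.Sh z b ⊂ k.Sh (mv a y) a) (hne : z ≠ y) :
    ∃ c, k.Sh z b ⊂ k.Sh y c ∧ k.Sh y c ⊂ k.Sh (mv a y) a := by
  obtain ⟨a1, a2⟩ := far_of_ss hF hk h
  obtain ⟨c, hc⟩ := exists_far hne
  have a3 : z ∉ Far y a := (far_back y a z).1 a1
  refine ⟨c, ss_of_far hF hk hc fun e => ?_, child_ss hF hk y fun e => a3 (e ▸ hc)⟩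
  rcases far_step e a with e' | ⟨e', rfl⟩
  · exact a2 e'
  · rw [e'] at a3
    exact a3 (self_far_mv z a)

end TREEISO

open TREEISO in
theorem TREEISO (hF : S_KFAR) (hU : S_UNIQ) (h3 : S_CUT3) : S_TREEISO := by
  intro K K' _ _ k k' hk hk' ψ h
  choose F s hFs using image_sh h3 hk hk' ψ h
  have back := image_sh h3 hk' hk ψ.symm fun ξ η => by
    rw [h, ψ.apply_symm_apply, ψ.apply_symm_apply]
  have hc : ∀ x i, ψ '' k.Sh (mv i x) i = k'.Sh (mv (s x i) (F x i)) (s x i) := fun x i => by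
    rw [hk.compl, hk'.compl, image_compl_eq ψ.bijective, hFs]
  have same : ∀ x i j, i ≠ j → F x j = F x i := by
    intro x i j hij
    by_contra hne
    have h1 := ψ.injective.image_strictMono (child_ss hF hk x hij)
    simp only [hc] at h1
    simp only [hFs] at h1
    obtain ⟨c, c1, c2⟩ := exists_between hF hk' h1 hne
    obtain ⟨u, d, e⟩ := back (F x i) c
    have c3 := ψ.symm.injective.image_strictMono c1
    have c4 := ψ.symm.injective.image_strictMono c2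
    simp only [e] at c3 c4
    have ii : ∀ U : Set K, ψ.symm '' (ψ '' U) = U := ψ.toEquiv.symm_image_image
    rw [← hFs, ii] at c3
    rw [← hc, ii] at c4
    exact no_between hF hk c3 c4
  have hΨ : ∀ x i, F x i = F x 0 := fun x i => by
    by_cases e : 0 = i
    · rw [← e]
    · exact same x 0 i e
  have im : ∀ x i, ψ '' k.Sh x i = k'.Sh (F x 0) (s x i) := fun x i => by rw [hFs, hΨ]
  have sinj : ∀ x, Function.Injective (s x) := by
    intro x i j e
    have : ψ '' k.Sh x i = ψ '' k.Sh x j := by rw [im, im, e]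
    exact (sh_inj hF hk (ψ.injective.image_injective this)).2
  have step : ∀ x i, F (mv i x) 0 = mv (s x i) (F x 0) ∧ s (mv i x) i = s x i := fun x i =>
    sh_inj hF hk' (by rw [← im, hc, hΨ])
  have hen : ∀ x i j, i ≠ j → ψ (k.en x i j) = k'.en (F x 0) (s x i) (s x j) := fun x i j hij =>
    ((hU K' k' hk').2.2 _ _ _ _ (ψ (k.en x j i)) ((sinj x).ne hij)
      ((h _ _).1 ⟨x, i, j, hij, rfl, rfl⟩)
      (im x i ▸ mem_image_of_mem _ (hk.en_mem x i j hij))
      (im x j ▸ mem_image_of_mem _ (hk.en_mem x j i hij.symm))).1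
  have const : ∀ x, s x = s root := by
    refine mv_ind root (fun x => s x = s root) rfl fun x i ih => funext fun j => ?_
    rw [← ih]
    by_cases e : i = j
    · rw [← e, (step x i).2]
    · by_contra hne
      have m1 : ψ (k.en x i j) ∈ k'.Sh (F (mv i x) 0) (s (mv i x) j) := by
        rw [← im, ← hk.en_mv x i j e]
        exact mem_image_of_mem _ (hk.en_mem _ _ _ (Ne.symm e))
      have m2 : ψ (k.en x i j) ∈ k'.Sh (F (mv i x) 0) (s x j) := by
        rw [hen x i j e, ← hk'.en_mv _ _ _ ((sinj x).ne e), (step x i).1]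
        exact hk'.en_mem _ _ _ ((sinj x).ne (Ne.symm e))
      exact disjoint_left.1 (hk'.disj _ _ _ hne) m1 m2
  refine ⟨fun x => F x 0, Equiv.ofBijective (s root) (Finite.injective_iff_bijective.1 (sinj root)),
    fun i x => ?_, fun x i j hij => ?_⟩
  · exact (step x i).1.trans (by rw [const]; rfl)
  · rw [hen x i j hij, const]; rfl

end Pool.Agent.P.MP_318c20_al.UB
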