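import Pool.Agent.P.MP_318c20_al.UB.Iface

/-!
A bicoloured line is determined by one of its ends, and by the shadows that contain its two ends.
-/

namespace Pool.Agent.P.MP_318c20_al.UB

open Set Filter Topology

namespace UNIQ

variable {K : Type} [TopologicalSpace K] {k : KD K}

theorem en_back (hk : KS k) (x : V) {i j : Col} (h : i ≠ j) :
    k.en (mv i x) i j = k.en x j i := by
  have := hk.en_mv (mv i x) i j h
  rw [mv_mv] at this
  exact this.symm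

/-- Invariants of one step along a line. -/
def Inv (k : KD K) (d d' : V × Col × Col) : Prop :=
  d'.2.1 ≠ d'.2.2 ∧ k.en d'.1 d'.2.1 d'.2.2 = k.en d.1 d.2.1 d.2.2 ∧
    k.en d'.1 d'.2.2 d'.2.1 = k.en d.1 d.2.2 d.2.1 ∧
    ((d'.2.1 = d.2.1 ∧ d'.2.2 = d.2.2) ∨ (d'.2.1 = d.2.2 ∧ d'.2.2 = d.2.1))

theorem inv_iter (hk : KS k) (d : V × Col × Col) (h : d.2.1 ≠ d.2.2) (n : ℕ) :
    Inv k d (Sl^[n] d) := by
  induction n with
  | zero => exact ⟨h, rfl, rfl, Or.inl ⟨rfl, rfl⟩⟩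
  | succ n ih =>
    rw [Function.iterate_succ_apply']
    obtain ⟨h1, h2, h3, h4⟩ := ih
    refine ⟨h1.symm, (hk.en_mv _ _ _ h1).trans h2, (en_back hk _ h1).trans h3, ?_⟩
    rcases h4 with ⟨a, b⟩ | ⟨a, b⟩
    · exact Or.inr ⟨b, a⟩
    · exact Or.inl ⟨b, a⟩

theorem col_uniq (hk : KS k) {x : V} {i j : Col} {ξ : K} (hi : ξ ∈ k.Sh x i)
    (hj : ξ ∈ k.Sh x j) : i = j := by
  by_contra h
  exact Set.disjoint_left.1 (hk.disj x i j h) hi hj

theorem merge (hk : KS k) {ξ : K} {dir : V → Col} (hdir : ∀ z, ξ ∈ k.Sh z (dir z)) (z : V) :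
    ∀ z', ∃ n n' : ℕ, (fun u => mv (dir u) u)^[n] z = (fun u => mv (dir u) u)^[n'] z' := by
  refine mv_ind z _ ⟨0, 0, rfl⟩ ?_
  rintro z' c ⟨n, n', h⟩
  by_cases e : dir z' = c
  · refine ⟨n + 1, n', ?_⟩
    rw [Function.iterate_succ_apply', h, ← Function.iterate_succ_apply' (fun u => mv (dir u) u),
      Function.iterate_succ_apply, e]
  · have h1 : ξ ∈ k.Sh (mv c z') c := by
      rw [hk.compl]
      exact fun h2 => e (col_uniq hk (hdir z') h2)
    have h2 : dir (mv c z') = c := col_uniq hk (hdir _) h1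
    refine ⟨n, n' + 1, ?_⟩
    rw [Function.iterate_succ_apply, h, h2, mv_mv]

theorem part1 (hk : KS k) (x : V) (i j : Col) (y : V) (a b : Col) (hij : i ≠ j) (hab : a ≠ b)
    (h : k.en x i j = k.en y a b) : ∃ n n', Sl^[n] (x, i, j) = Sl^[n'] (y, a, b) := by
  set ξ := k.en x i j with hξ
  choose dir hdir using fun z => hk.cover z ξ
  have first : ∀ d : V × Col × Col, d.2.1 ≠ d.2.2 → k.en d.1 d.2.1 d.2.2 = ξ →
      d.2.1 = dir d.1 := fun d h1 h2 =>
    col_uniq hk (h2 ▸ hk.en_mem _ _ _ h1) (hdir _)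
  have vert : ∀ d : V × Col × Col, d.2.1 ≠ d.2.2 → k.en d.1 d.2.1 d.2.2 = ξ → ∀ n : ℕ,
      (Sl^[n] d).1 = (fun u => mv (dir u) u)^[n] d.1 := by
    intro d h1 h2 n
    induction n with
    | zero => rfl
    | succ n ih =>
      obtain ⟨i1, i2, -⟩ := inv_iter hk d h1 n
      rw [Function.iterate_succ_apply', Function.iterate_succ_apply', ← ih,
        ← first _ i1 (i2.trans h2)]
      rfl
  have det : ∀ d d' : V × Col × Col, d.2.1 ≠ d.2.2 → k.en d.1 d.2.1 d.2.2 = ξ →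
      d'.2.1 ≠ d'.2.2 → k.en d'.1 d'.2.1 d'.2.2 = ξ → d.1 = d'.1 → d = d' := by
    intro d d' h1 h2 h1' h2' e
    have e1 : d.2.1 = d'.2.1 := by rw [first d h1 h2, first d' h1' h2', e]
    have s1 := first (Sl d) h1.symm ((hk.en_mv _ _ _ h1).trans h2)
    have s2 := first (Sl d') h1'.symm ((hk.en_mv _ _ _ h1').trans h2')
    have e3 : (Sl d).1 = (Sl d').1 := by
      show mv d.2.1 d.1 = mv d'.2.1 d'.1
      rw [e, e1]
    have e2 : d.2.2 = d'.2.2 := by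
      show (Sl d).2.1 = (Sl d').2.1
      rw [s1, s2, e3]
    exact Prod.ext e (Prod.ext e1 e2)
  obtain ⟨n, n', hn⟩ := merge hk hdir x y
  obtain ⟨i1, i2, -⟩ := inv_iter hk (x, i, j) hij n
  obtain ⟨j1, j2, -⟩ := inv_iter hk (y, a, b) hab n'
  refine ⟨n, n', det _ _ i1 i2 j1 (j2.trans h.symm) ?_⟩
  rw [vert (x, i, j) hij rfl n, vert (y, a, b) hab h.symm n']
  exact hn

theorem part2 (hk : KS k) (x : V) (i j : Col) (y : V) (a b : Col) (hij : i ≠ j) (hab : a ≠ b)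
    (h : k.en x i j = k.en y a b) :
    k.en x j i = k.en y b a ∧ ((i = a ∧ j = b) ∨ (i = b ∧ j = a)) := by
  obtain ⟨n, n', hn⟩ := part1 hk x i j y a b hij hab h
  obtain ⟨-, -, i3, i4⟩ := inv_iter hk (x, i, j) hij n
  obtain ⟨-, -, j3, j4⟩ := inv_iter hk (y, a, b) hab n'
  rw [hn] at i3 i4
  refine ⟨i3.symm.trans j3, ?_⟩
  rcases i4 with ⟨p, q⟩ | ⟨p, q⟩ <;> rcases j4 with ⟨p', q'⟩ | ⟨p', q'⟩
  · exact Or.inl ⟨p.symm.trans p', q.symm.trans q'⟩
  · exact Or.inr ⟨p.symm.trans p', q.symm.trans q'⟩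
  · exact Or.inr ⟨q.symm.trans q', p.symm.trans p'⟩
  · exact Or.inl ⟨q.symm.trans q', p.symm.trans p'⟩

theorem part3 (hk : KS k)
    (hsub : ∀ x i y j, y ∈ Far x i → x ∉ Far y j → k.Sh y j ⊆ k.Sh x i)
    (x : V) (i j : Col) (hij : i ≠ j) : ∀ (y : V) (a b : Col), a ≠ b →
    k.en y a b ∈ k.Sh x i → k.en y b a ∈ k.Sh x j →
    k.en y a b = k.en x i j ∧ k.en y b a = k.en x j i := by
  refine tree_ind x _ ?_ ?_
  · intro a b hab h1 h2
    obtain rfl := col_uniq hk h1 (hk.en_mem _ _ _ hab)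
    obtain rfl := col_uniq hk h2 (hk.en_mem _ _ _ hab.symm)
    exact ⟨rfl, rfl⟩
  · intro y c hc ih a b hab h1 h2
    by_cases ea : c = a
    · subst ea
      rw [← hk.en_mv y c b hab] at h1 ⊢
      rw [← en_back hk y hab] at h2 ⊢
      exact ih b c hab.symm h1 h2
    by_cases eb : c = b
    · subst eb
      rw [← hk.en_mv y c a hab.symm] at h2 ⊢
      rw [← en_back hk y hab.symm] at h1 ⊢
      exact ih c a hab.symm h1 h2
    have hne : y ≠ x := fun e => self_not_far y c (e ▸ hc)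
    obtain ⟨d, hd⟩ := exists_far hne
    have s1 := hsub x d y a hd (fun e => ea (far_uniq hc e)) (hk.en_mem _ _ _ hab)
    have s2 := hsub x d y b hd (fun e => eb (far_uniq hc e)) (hk.en_mem _ _ _ hab.symm)
    exact absurd ((col_uniq hk h1 s1).trans (col_uniq hk s2 h2)) hij

end UNIQ

theorem UNIQ (hF : S_KFAR) : S_UNIQ := by
  intro K _ k hk
  refine ⟨UNIQ.part1 hk, UNIQ.part2 hk, ?_⟩
  rintro x i j ξ η hij ⟨y, a, b, hab, rfl, rfl⟩ h1 h2
  exact UNIQ.part3 hk (hF K k hk).1 x i j hij y a b hab h1 h2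

end Pool.Agent.P.MP_318c20_al.UB
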