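import Pool.Agent.P.MP_318c20_al.UB.Iface

namespace Pool.Agent.P.MP_318c20_al.UB

open Set Filter Topology

namespace UP

theorem an_add {a b u : ℝ} (hM : 0 < max a b) (hu : 0 ≤ u) :
    an (a + u) (b + u) ∈ uIcc (an a b) 0 := by
  unfold an
  rw [max_add_add_right, add_sub_add_right_eq_sub]
  rcases le_total 0 (b - a) with h | h
  · exact mem_uIcc_of_ge (div_nonneg h (by linarith))
      (div_le_div_of_nonneg_left h hM (by linarith))
  · refine mem_uIcc_of_le ?_ (div_nonpos_of_nonpos_of_nonneg h (by linarith))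
    have := div_le_div_of_nonneg_left (neg_nonneg.2 h) hM (le_add_of_nonneg_right hu)
    rw [neg_div, neg_div] at this
    linarith

theorem an_mem {a b : ℝ} (ha : 0 ≤ a) (hb : 0 ≤ b) : an a b ∈ Icc (-1 : ℝ) 1 := by
  rw [mem_Icc, ← abs_le, an, abs_div, abs_of_nonneg (ha.trans (le_max_left a b))]
  refine div_le_one_of_le₀ ?_ (ha.trans (le_max_left a b))
  rw [abs_le]
  constructor <;> linarith [le_max_left a b, le_max_right a b]

variable {l : Len} (m : Mod l)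

theorem chg_J (o o' : m.X) (w : Rw Ln) (ξ : m.K × m.K) (θ : ℝ) :
    chg o o' (m.J o w ξ θ) = m.J o' w ξ θ := (m.S.gemb w).chg_bdm _ o o' _

theorem through (hI : S_INTER) (hT : S_THRU) (w : Rw Ln) (p : V × V) {i j : Col} (h : i ≠ j)
    (h1 : hd p.1 ≠ some i ∧ hd p.1 ≠ some j) (h2 : hd p.2 ≠ some i ∧ hd p.2 ≠ some j)
    (hM : 0 < max (ht l.1 p.1) (ht l.1 p.2)) {z : Bd (m.org w)}
    (hz : z ∈ m.Sd (m.org w) w (ln p i j h)) :
    ∃ (η : m.K × m.K) (a b : ℝ), (0 ≤ a ∧ 0 ≤ b ∧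
      z.pt (max a b) = m.S.ι w (η.1.pt a, η.2.pt b)) ∧ (η = m.k.en2 p i j ∨ η = m.k.en2 p j i) ∧
      max (ht l.1 p.1) (ht l.1 p.2) ≤ max a b ∧
      an a b ∈ uIcc (an (ht l.1 p.1) (ht l.1 p.2)) 0 := by
  rcases m.S.cross w _ (o := m.org w) (m.S.ι_mem_Near w _ _) hz with ⟨t, ht0, x, hx, e⟩ | hp
  · rw [m.diag] at hx
    obtain ⟨s, rfl⟩ := hx
    obtain ⟨η, hη, e'⟩ : ∃ η : m.K × m.K, (η = m.k.en2 p i j ∨ η = m.k.en2 p j i) ∧
        m.τ.dg p i j s = (η.1.pt (ht l.1 p.1 + |s|), η.2.pt (ht l.1 p.2 + |s|)) := by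
      rcases le_total 0 s with hs | hs
      · refine ⟨_, Or.inl rfl, ?_⟩
        rw [abs_of_nonneg hs]
        exact Prod.ext ((hT l m.T m.τ).1 _ i j h h1.1 s hs).symm
          ((hT l m.T m.τ).1 _ i j h h2.1 s hs).symm
      · refine ⟨_, Or.inr rfl, ?_⟩
        rw [abs_of_nonpos hs]
        refine Prod.ext ?_ ?_
        · refine Eq.trans ?_ ((hT l m.T m.τ).1 _ j i h.symm h1.2 (-s) (by linarith)).symm
          rw [m.τ.lam_flip _ i j h, neg_neg]; rfl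
        · refine Eq.trans ?_ ((hT l m.T m.τ).1 _ j i h.symm h2.2 (-s) (by linarith)).symm
          rw [m.τ.lam_flip _ i j h, neg_neg]; rfl
    have a0 : 0 ≤ ht l.1 p.1 + |s| := add_nonneg (ht_nonneg l _) (abs_nonneg s)
    have b0 : 0 ≤ ht l.1 p.2 + |s| := add_nonneg (ht_nonneg l _) (abs_nonneg s)
    refine ⟨η, _, _, ⟨a0, b0, ?_⟩, hη, ?_, an_add hM (abs_nonneg s)⟩
    · have d := z.dist_o ht0
      have d2 : dist (m.org w) (m.S.ι w (m.τ.dg p i j s))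
          = max (ht l.1 p.1 + |s|) (ht l.1 p.2 + |s|) := by
        rw [e', Mod.org, m.S.dist_ι, Prod.dist_eq, η.1.dist_o a0, η.2.dist_o b0]
      rw [← d2, e, d, ← e, e']
    · exact max_le_max (le_add_of_nonneg_right (abs_nonneg s))
        (le_add_of_nonneg_right (abs_nonneg s))
  · have e := (hI l m).2 (m.org w) w p i j h
    obtain ⟨η, hη, rfl⟩ : ∃ η : m.K × m.K, (η = m.k.en2 p i j ∨ η = m.k.en2 p j i) ∧
        z = m.J (m.org w) w η 0 := by
      rw [Mod.Pr] at e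
      rw [e] at hp
      rcases hp with hp | hp
      · exact ⟨_, Or.inl rfl, hp⟩
      · exact ⟨_, Or.inr rfl, hp⟩
    refine ⟨η, _, _, ⟨hM.le, hM.le, ?_⟩, hη, le_max_left _ _, ?_⟩
    · rw [max_self]
      exact (m.S.jb_pt w _ hM.le).trans (by rw [JP_pt_zero _ _ hM.le])
    · have : ∀ x : ℝ, an x x = 0 := fun x => by rw [an, sub_self, zero_div]
      rw [this]
      exact right_mem_uIcc

end UP

open UP in
theorem UP (hI : S_INTER) (hT : S_THRU) (hL : S_LIM) : S_UP := by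
  intro l m o w p i j h ξ θ0 hF z z0 hz hz0
  have key : ∀ n, ∃ (η : m.K × m.K) (a b : ℝ), (0 ≤ a ∧ 0 ≤ b) ∧
      ((((hd (p n).1 ≠ some i ∧ hd (p n).1 ≠ some j) ∧
        (hd (p n).2 ≠ some i ∧ hd (p n).2 ≠ some j)) ∧ 0 < max (ht l.1 (p n).1) (ht l.1 (p n).2)) →
      (0 ≤ a ∧ 0 ≤ b ∧ (chg o (m.org w) (z n)).pt (max a b) = m.S.ι w (η.1.pt a, η.2.pt b)) ∧
      (η = m.k.en2 (p n) i j ∨ η = m.k.en2 (p n) j i) ∧
      max (ht l.1 (p n).1) (ht l.1 (p n).2) ≤ max a b ∧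
      an a b ∈ uIcc (an (ht l.1 (p n).1) (ht l.1 (p n).2)) 0) := by
    intro n
    by_cases g : ((hd (p n).1 ≠ some i ∧ hd (p n).1 ≠ some j) ∧
        (hd (p n).2 ≠ some i ∧ hd (p n).2 ≠ some j)) ∧ 0 < max (ht l.1 (p n).1) (ht l.1 (p n).2)
    · obtain ⟨η, a, b, H⟩ := through m hI hT w (p n) h g.1.1 g.1.2 g.2
        ((chg_mem_bd o (m.org w) (z n) _).2 (hz n))
      exact ⟨η, a, b, ⟨H.1.1, H.1.2.1⟩, fun _ => H⟩
    · exact ⟨ξ, 0, 0, ⟨le_rfl, le_rfl⟩, fun g' => absurd g' g⟩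
  choose η a b h0 H using key
  have ev := (hF.hang.and (hF.far.eventually_gt_atTop 0)).mono H
  obtain ⟨θ, -, φ, hφ, hθ⟩ := isCompact_Icc.tendsto_subseq fun n => an_mem (h0 n).1 (h0 n).2
  have t := hφ.tendsto_atTop
  have hη : Tendsto η atTop (𝓝 ξ) := by
    refine tendsto_def.2 fun U hU => ?_
    filter_upwards [ev, tendsto_def.1 hF.pos U hU, tendsto_def.1 hF.neg U hU] with n h1 h2 h3
    rcases h1.2.1 with e | e
    · rwa [mem_preimage, e]
    · rwa [mem_preimage, e]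
  have lim := hL l m w (fun n => chg o (m.org w) (z (φ n))) (η ∘ φ) (a ∘ φ) (b ∘ φ) ξ θ
    (t.eventually (ev.mono fun n hn => hn.1))
    ((tendsto_atTop_mono' _ (ev.mono fun n hn => hn.2.2.1) hF.far).comp t) (hη.comp t) hθ
  refine ⟨θ, ⟨?_, ?_⟩, (chg o (m.org w)).injective ?_⟩
  · exact le_of_tendsto_of_tendsto ((hF.ang.min tendsto_const_nhds).comp t) hθ
      (t.eventually (ev.mono fun n hn => hn.2.2.2.1))
  · exact le_of_tendsto_of_tendsto hθ ((hF.ang.max tendsto_const_nhds).comp t)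
      (t.eventually (ev.mono fun n hn => hn.2.2.2.2))
  · rw [chg_J]
    exact tendsto_nhds_unique ((((chg o (m.org w)).continuous.tendsto _).comp hz0).comp t) lim

end Pool.Agent.P.MP_318c20_al.UB
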