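import Pool.Agent.P.MP_318c20_al.UB.Iface

namespace Pool.Agent.P.MP_318c20_al.UB

open Set Filter Topology

namespace WORDS

/-- Iterated double steps. -/
noncomputable def ds (i j : Col) (n : ℕ) (y : V) : V := (fun y => mv j (mv i y))^[n] y

theorem ds_zero (i j : Col) (y : V) : ds i j 0 y = y := rfl

theorem ds_succ (i j : Col) (n : ℕ) (y : V) : ds i j (n + 1) y = mv j (mv i (ds i j n y)) :=
  Function.iterate_succ_apply' _ _ _

theorem ds_add (i j : Col) (a b : ℕ) (y : V) : ds i j (a + b) y = ds i j a (ds i j b y) :=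
  Function.iterate_add_apply _ _ _ _

theorem hd2 {i j : Col} (h : i ≠ j) {y : V} (hy : hd y ≠ some i) : hd (mv i y) ≠ some j := by
  rw [hd_mv_out hy]; exact fun e => h (Option.some.inj e)

theorem ds_hd {i j : Col} (h : i ≠ j) {y : V} (hy : hd y ≠ some i) (n : ℕ) :
    hd (ds i j n y) ≠ some i := by
  induction n with
  | zero => exact hy
  | succ n ih => rw [ds_succ, hd_mv_out (hd2 h ih)]; exact fun e => h (Option.some.inj e).symm

theorem ds_hd_succ {i j : Col} (h : i ≠ j) {y : V} (hy : hd y ≠ some i) (n : ℕ) :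
    hd (ds i j (n + 1) y) = some j := by
  rw [ds_succ, hd_mv_out (hd2 h (ds_hd h hy n))]

theorem ds_list {i j : Col} (h : i ≠ j) {y : V} (hy : hd y ≠ some i) (n : ℕ) :
    (ds i j (n + 1) y).1 = j :: i :: (ds i j n y).1 := by
  rw [ds_succ, mv_out (hd2 h (ds_hd h hy n)), mv_out (ds_hd h hy n)]

theorem ds_suffix {i j : Col} (h : i ≠ j) {y : V} (hy : hd y ≠ some i) (n : ℕ) :
    y.1 <:+ (ds i j n y).1 := by
  induction n with
  | zero => exact List.suffix_refl _
  | succ n ih =>
    rw [ds_list h hy]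
    exact (ih.trans (List.suffix_cons _ _)).trans (List.suffix_cons _ _)

theorem ds_len {i j : Col} (h : i ≠ j) {y : V} (hy : hd y ≠ some i) (n : ℕ) :
    (ds i j n y).1.length = y.1.length + 2 * n := by
  induction n with
  | zero => rfl
  | succ n ih => rw [ds_list h hy]; simp only [List.length_cons, ih]; ring

theorem ds_ht (l : Col → ℝ) {i j : Col} (h : i ≠ j) {y : V} (hy : hd y ≠ some i) (n : ℕ) :
    ht l (ds i j n y) = ht l y + n * (l i + l j) := by
  induction n with
  | zero => simp [ds_zero]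
  | succ n ih =>
    rw [ds_succ, ht_mv_out l (hd2 h (ds_hd h hy n)), ht_mv_out l (ds_hd h hy n), ih]
    push_cast; ring

theorem ds_en {K : Type} [TopologicalSpace K] {k : KD K} (hk : KS k) {i j : Col} (h : i ≠ j) (y : V)
    (n : ℕ) : k.en (ds i j n y) i j = k.en y i j := by
  induction n with
  | zero => rfl
  | succ n ih => rw [ds_succ, hk.en_mv _ j i h.symm, hk.en_mv _ i j h, ih]

theorem rt (i : Col) : hd (root : V) ≠ some i := by rw [hd_root]; simp

end WORDS

open WORDS in
theorem WORDS (hF : S_KFAR) : S_WORDS := by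
  intro K _ k hk i j c e hij hic hie hje hce α β hα
  obtain ⟨F1, -, -, F4, -⟩ := hF K k hk
  have ha : ∀ n, hd (ds i j n root) ≠ some i := ds_hd hij (rt i)
  set x : ℕ → V := fun n => ds i c (β * n) (ds i j (α * n) root) with hx
  have hh : ∀ n, 1 ≤ n → hd (x n) = some j ∨ hd (x n) = some c := by
    intro n hn
    rcases Nat.eq_zero_or_pos (β * n) with h0 | h0
    · left
      obtain ⟨a, ha'⟩ : ∃ a, α * n = a + 1 := ⟨α * n - 1, by have := Nat.mul_pos hα hn; omega⟩
      simp only [hx, h0, ds_zero, ha']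
      exact ds_hd_succ hij (rt i) a
    · right
      obtain ⟨a, ha'⟩ : ∃ a, β * n = a + 1 := ⟨β * n - 1, by omega⟩
      simp only [hx, ha']
      exact ds_hd_succ hic (ha _) a
  have hl : ∀ n, 2 * n ≤ (x n).1.length := by
    intro n
    simp only [hx]
    rw [ds_len hic (ha _), ds_len hij (rt i)]
    have : n ≤ α * n := Nat.le_mul_of_pos_left n hα
    omega
  have key : ∀ f : Col, f ≠ j → f ≠ c → ∀ U ∈ 𝓝 (k.en root i j), ∀ᶠ n in atTop, k.Sh (x n) f ⊆ U := by
    intro f hfj hfc U hU
    obtain ⟨N, hN⟩ := F4 _ U hU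
    filter_upwards [eventually_ge_atTop (N + 1)] with n hn
    have h1 : k.Sh (ds i j N root) i ⊆ U := hN _ i (ha N)
      (by rw [ds_len hij (rt i)]; omega) (ds_en hk hij root N ▸ hk.en_mem _ i j hij)
    refine (F1 _ i _ f (far_of_child ?_) (not_far_of_length ?_ ?_)).trans h1
    · have h2 : N + 1 ≤ α * n := hn.trans (Nat.le_mul_of_pos_left n hα)
      obtain ⟨b, hb⟩ : ∃ b, α * n = b + (N + 1) := ⟨α * n - (N + 1), by omega⟩
      refine List.IsSuffix.trans ?_ (ds_suffix hic (ha _) _)
      rw [hb, ds_add]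
      refine List.IsSuffix.trans ?_ (ds_suffix hij (ha _) _)
      rw [ds_list hij (rt i)]
      exact List.suffix_cons _ _
    · rcases hh n (by omega) with h | h <;> rw [h]
      · exact fun e' => hfj (Option.some.inj e').symm
      · exact fun e' => hfc (Option.some.inj e').symm
    · have := hl n
      rw [ds_len hij (rt i)]
      simp only [root, List.length_nil]
      omega
  refine ⟨x, hh, fun n => by have := hl n; omega, fun l n => ?_, fun U hU => ?_, fun U hU => ?_⟩
  · simp only [hx]
    rw [ds_ht l hic (ha _), ds_ht l hij (rt i), ht_root]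
    push_cast; ring
  · exact (key i hij hic U hU).mono fun n hn => hn (hk.en_mem _ i e hie)
  · exact (key e hje.symm hce.symm U hU).mono fun n hn => hn (hk.en_mem _ e i hie.symm)

end Pool.Agent.P.MP_318c20_al.UB
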