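import Pool.Agent.P.MP_318c20_al.UB.Asm
import Pool.Agent.P.MP_318c20_al.UB.Tray
import Pool.Agent.P.MP_318c20_al.UB.Diag
import Pool.Agent.P.MP_318c20_al.UB.Ksm
import Pool.Agent.P.MP_318c20_al.UB.Thru
import Pool.Agent.P.MP_318c20_al.UB.Inter
import Pool.Agent.P.MP_318c20_al.UB.Kfar
import Pool.Agent.P.MP_318c20_al.UB.Ktop
import Pool.Agent.P.MP_318c20_al.UB.Uniq
import Pool.Agent.P.MP_318c20_al.UB.Cut3
import Pool.Agent.P.MP_318c20_al.UB.TreeIso
import Pool.Agent.P.MP_318c20_al.UB.Psi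
import Pool.Agent.P.MP_318c20_al.UB.Wds
import Pool.Agent.P.MP_318c20_al.UB.Lim
import Pool.Agent.P.MP_318c20_al.UB.Low
import Pool.Agent.P.MP_318c20_al.UB.Up
import Pool.Agent.P.MP_318c20_al.UB.Mono
import Pool.Agent.P.MP_318c20_al.UB.ProdA
import Pool.Agent.P.MP_318c20_al.UB.ProdB
import Pool.Agent.P.MP_318c20_al.UB.Final

namespace Pool.Agent.P.MP_318c20_al.UB

theorem main :
    ∃ (G : Type) (_ : Group G) (X : ℝ → Type) (_ : ∀ t, MetricSpace (X t))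
      (_ : ∀ t, MulAction G (X t)),
      (∀ t, Admissible (X t) ∧ Geometric G (X t) ∧
        ∃ σ : X t → X t → ℝ → X t, IsConvexBicombing σ) ∧
      ∀ s t, s ≠ t → ∀ (σ : X s → X s → ℝ → X s) (τ : X t → X t → ℝ → X t),
        IsConvexBicombing σ → IsConvexBicombing τ → ∀ (o : X s) (o' : X t),
          IsEmpty (Boundary σ o ≃ₜ Boundary τ o') :=
  have hU := UNIQ KFAR
  have hK := KTOP KFAR
  have hI := INTER KSM hK
  have hT := THRU KSM hU
  main_of (MOD TRAY (DIAG FIN))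
    (FINAL hI KSM (MONO hI (LOW hI hT LIM) (UP hI hT LIM)) (PROD1 hI KSM hK)
      (PROD2 hI KSM hU (TREEISO KFAR hU (CUT3 KFAR hU))) PSI (WORDS KFAR)) ARITH

end Pool.Agent.P.MP_318c20_al.UB
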