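import Pool.Agent.P.MP_318c20_al.UB.Exit

namespace Pool.Agent.P.MP_318c20_al.UB

open Set Filter Topology

variable {A Λ X : Type} [MetricSpace A] [MetricSpace X]

/-- the gated sets are lines, the boundary of `A` is hard to disconnect, and the lines have at
least two different pairs of ends -/
structure LnD [Good A] (D : Gt A Λ) (a : A) : Prop where
  line : ∀ L, ∃ l, IsLine l ∧ range l = D.M L
  conn : ∀ F : Set (Bd a), F.Finite → IsPreconnected Fᶜ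
  two : ∃ L L', bd a (D.M L) ≠ bd a (D.M L')

theorem bd_subset_of_near {o : X} {U V : Set X} {C : ℝ} (h : ∀ x ∈ U, ∃ y ∈ V, dist x y ≤ C) :
    bd o U ⊆ bd o V := by
  rintro c ⟨E, hE⟩
  refine ⟨E + C, fun T => ?_⟩
  obtain ⟨s, hs, x, hx, h1⟩ := hE T
  obtain ⟨y, hy, h2⟩ := h x hx
  exact ⟨s, hs, y, hy, by linarith [dist_triangle (c.pt s) x y]⟩

theorem sep_closed {Z : Type} [TopologicalSpace Z] {E F K : Set Z} (hE : IsClosed E)
    (hF : IsClosed F) (hU : ∀ z, z ∈ E ∨ z ∈ F) (hK : IsPreconnected K) (hd : K ⊆ (E ∩ F)ᶜ)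
    {a b : Z} (ha : a ∈ K) (hb : b ∈ K) (haE : a ∈ E) (hbF : b ∈ F) : False := by
  obtain ⟨z, hz, h⟩ := isPreconnected_closed_iff.1 hK E F hE hF (fun z _ => hU z) ⟨a, ha, haE⟩
    ⟨b, hb, hbF⟩
  exact hd hz h

theorem pair_sdiff {Z : Type} {π ρ : Set Z} (hπ : ∃ x y, x ≠ y ∧ π = {x, y})
    (hρ : ∃ x y, x ≠ y ∧ ρ = {x, y}) (h : π ≠ ρ) : (π \ ρ).Nonempty := by
  obtain ⟨x, y, hxy, rfl⟩ := hπ
  obtain ⟨u, v, huv, rfl⟩ := hρ
  by_contra hc
  rw [not_nonempty_iff_eq_empty, sdiff_eq_empty] at hc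
  exact h (eq_of_subset_of_ncard_le hc (by rw [ncard_pair hxy, ncard_pair huv]) (toFinite _))

namespace TS

variable {D : Gt A Λ} (S : TS D X)

theorem bd_Mr_mv (o : X) (w : Rw Λ) (L : Λ) : bd o (S.Mr (mv L w) L) = bd o (S.Mr w L) := by
  have B : ∀ w, bd o (S.Mr w L) ⊆ bd o (S.Mr (mv L w) L) := fun w =>
    bd_subset_of_near (C := D.e L) (by
      rintro _ ⟨m, hm, rfl⟩
      refine ⟨_, ⟨m, hm, rfl⟩, ?_⟩
      rw [← S.E_top w L hm, S.dist_E (S.ι_mem_Near w L m) hm (D.e_mem L), dist_self, zero_add])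
  exact subset_antisymm (by simpa only [mv_mv] using B (mv L w)) (B w)

theorem bd_Cyl (o : X) (w : Rw Λ) (L : Λ) : bd o (S.Cyl w L) = bd o (S.Mr w L) := by
  refine subset_antisymm (bd_subset_of_near (C := D.e L) ?_) (bd_mono (S.Mr_subset_Cyl w L))
  rintro _ ⟨m, hm, h, hh, rfl⟩
  refine ⟨_, ⟨m, hm, rfl⟩, ?_⟩
  rw [dist_comm, S.dist_E (S.ι_mem_Near w L m) hm hh, dist_self, zero_add]
  exact hh.2

theorem bd_Side (o : X) (w : Rw Λ) (L : Λ) : bd o (S.Side w L) = bd o (S.Near (mv L w) L) := by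
  refine subset_antisymm (bd_subset_of_near (C := D.e L) fun x hx => ?_)
    (bd_mono (S.near_mv_subset_side w L))
  rcases S.side_cases hx with hx | hx
  · rw [← S.Cyl_mv] at hx
    obtain ⟨m, hm, h, hh, rfl⟩ := hx
    refine ⟨_, S.ι_mem_Near _ L m, ?_⟩
    rw [dist_comm, S.dist_E (S.ι_mem_Near _ L m) hm hh, dist_self, zero_add]
    exact hh.2
  · exact ⟨x, hx, by rw [dist_self]; exact (D.e_pos L).le⟩

theorem bd_Mr_subset (o : X) (w : Rw Λ) (L : Λ) : bd o (S.Mr w L) ⊆ bd o (S.Pc w) :=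
  bd_mono (S.Mr_subset_Pc w L)

theorem bd_Mr_subset_mv (o : X) (w : Rw Λ) (L : Λ) : bd o (S.Mr w L) ⊆ bd o (S.Pc (mv L w)) :=
  S.bd_Mr_mv o w L ▸ S.bd_Mr_subset o (mv L w) L

theorem bd_near_or_side (o : X) (w : Rw Λ) (L : Λ) (c : Bd o) :
    c ∈ bd o (S.Near w L) ∨ c ∈ bd o (S.Side w L) := bd_union (S.near_union_side w L) c

variable [Good X]

theorem isClosed_bd_Near (o : X) (w : Rw Λ) (L : Λ) : IsClosed (bd o (S.Near w L)) :=
  isClosed_bd (S.gated_Near w L).cvx ((S.gated_Near w L).nonempty o)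

theorem isClosed_bd_Side (o : X) (w : Rw Λ) (L : Λ) : IsClosed (bd o (S.Side w L)) :=
  isClosed_bd (S.gated_Side w L).cvx ((S.gated_Side w L).nonempty o)

theorem isClosed_bd_Pc (o : X) (w : Rw Λ) : IsClosed (bd o (S.Pc w)) :=
  isClosed_bd (S.gated_Pc w).cvx ((S.gated_Pc w).nonempty o)

theorem bd_near_inter_side (o : X) (w : Rw Λ) (L : Λ) :
    bd o (S.Near w L) ∩ bd o (S.Side w L) = bd o (S.Mr w L) := by
  rw [bd_inter (S.gated_Near w L) (S.gated_Side w L) (S.near_union_side w L), near_inter_side]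

theorem bd_side_inter_side (o : X) (w : Rw Λ) (L : Λ) :
    bd o (S.Side w L) ∩ bd o (S.Side (mv L w) L) = bd o (S.Mr w L) := by
  rw [S.bd_Side o (mv L w), mv_mv, inter_comm, bd_near_inter_side]

/-- two pieces meet at infinity only in the ends of the first wall between them -/
theorem bd_Pc_inter (o : X) {w u : Rw Λ} {L : Λ} (h : u ∈ Far w L) :
    bd o (S.Pc w) ∩ bd o (S.Pc u) ⊆ bd o (S.Mr w L) := by
  rw [← bd_near_inter_side]
  exact inter_subset_inter (bd_mono (S.Pc_subset_Near (self_not_far w L)))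
    (bd_mono (S.Pc_subset_Side h))

/-- no connected set missing the ends of a wall meets both sides -/
theorem sep_wall (o : X) (w : Rw Λ) (L : Λ) {K : Set (Bd o)} (hK : IsPreconnected K)
    (hd : K ⊆ (bd o (S.Mr w L))ᶜ) {a b : Bd o} (ha : a ∈ K) (hb : b ∈ K)
    (haE : a ∈ bd o (S.Near w L)) (hbF : b ∈ bd o (S.Side w L)) : False :=
  sep_closed (S.isClosed_bd_Near o w L) (S.isClosed_bd_Side o w L) (S.bd_near_or_side o w L) hK
    (by rwa [bd_near_inter_side]) ha hb haE hbF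

theorem bd_pc_or_side (o : X) (w : Rw Λ) (c : Bd o) :
    c ∈ bd o (S.Pc w) ∨ ∃ L, c ∈ bd o (S.Side w L) := by
  set o' := S.ι w (S.π w o) with ho'
  simp only [← chg_mem_bd o o' c]
  generalize chg o o' c = c'
  by_cases h : ∀ t, 0 ≤ t → c'.pt t ∈ S.Pc w
  · left
    rw [← cls_self c']
    exact cls_mem_bd _ h
  · push Not at h
    obtain ⟨t, ht, h⟩ := h
    obtain ⟨L, hL⟩ := (S.pc_or_side w _).resolve_left h
    refine Or.inr ⟨L, 0, fun T => ⟨max T t, le_max_left _ _, _, ?_, (dist_self _).le⟩⟩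
    refine (S.near_or_side w L _).resolve_left fun hn => h (S.Mr_subset_Pc w L ?_)
    rw [← near_inter_side]
    refine ⟨(S.gated_Near w L).between (S.ι_mem_Near w L (S.π w o)) hn ?_, hL⟩
    have m := le_max_right T t
    rw [← ho', c'.dist_o ht, c'.dist_o (ht.trans m), c'.ray.1 _ _ ht (ht.trans m),
      abs_of_nonpos (by linarith)]
    linarith

theorem cross (w : Rw Λ) (L : Λ) {o : X} (ho : o ∈ S.Near w L) {c : Bd o}
    (hc : c ∈ bd o (S.Side w L)) : (∃ t, 0 ≤ t ∧ c.pt t ∈ S.Mr w L) ∨ c ∈ bd o (S.Mr w L) := by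
  have := cross_or (S.gated_Near w L) (S.gated_Side w L) (S.near_union_side w L) ho hc
  rwa [near_inter_side] at this

omit [Good X] in
theorem Mr_eq_range (w : Rw Λ) {L : Λ} {l : ℝ → A} (hl : range l = D.M L) :
    S.Mr w L = range fun s => S.ι w (l s) := by
  rw [Mr, ← hl, ← range_comp]; rfl

theorem bd_Mr_eq (o : X) (w : Rw Λ) {L : Λ} {l : ℝ → A} (h : IsLine l) (hl : range l = D.M L) :
    bd o (S.Mr w L) = {cls o (S.isLine_ι w h).pos, cls o (S.isLine_ι w h).rev.pos} := by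
  rw [S.Mr_eq_range w hl, (S.isLine_ι w h).bd_range]

/-- the exit lemma -/
theorem exit (w : Rw Λ) {L : Λ} {l : ℝ → A} (h : IsLine l) (hl : range l = D.M L) {o : X}
    (ho : o ∈ S.Near w L) {B : Set (Bd o)} (hB : IsPreconnected B) (hBF : B ⊆ bd o (S.Side w L))
    (hBl : bd o (S.Mr w L) ⊆ B) (s : ℝ) : ∃ c ∈ B, ∃ t, 0 ≤ t ∧ c.pt t = S.ι w (l s) :=
  exit_gen (S.gated_Near w L) (S.gated_Side w L) (S.near_union_side w L) (S.isLine_ι w h)
    (by rw [near_inter_side, S.Mr_eq_range w hl]) ho hB hBF (by rwa [← S.Mr_eq_range w hl]) s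

variable [Good A] {a : A}

theorem range_jb (o : X) (w : Rw Λ) (a : A) : range (S.jb w o (a0 := a)) = bd o (S.Pc w) :=
  (S.gemb w).range_bdm a o

theorem image_jb (o : X) (w : Rw Λ) (a : A) (L : Λ) :
    S.jb w o '' bd a (D.M L) = bd o (S.Mr w L) := (S.gemb w).image_bdm a o _

theorem pair_Mr (hD : LnD D a) (o : X) (w : Rw Λ) (L : Λ) :
    ∃ x y, x ≠ y ∧ bd o (S.Mr w L) = {x, y} := by
  obtain ⟨l, h, hl⟩ := hD.line L
  exact ⟨_, _, (S.isLine_ι w h).ends_ne o, S.bd_Mr_eq o w h hl⟩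

theorem preconn_Pc (hD : LnD D a) (o : X) (w : Rw Λ) {F : Set (Bd o)} (hF : F.Finite) :
    IsPreconnected (bd o (S.Pc w) \ F) := by
  have := (hD.conn _ (hF.preimage ((S.gemb w).bdm_injective a o).injOn)).image _
    ((S.gemb w).bdm_continuous a o).continuousOn
  rwa [← preimage_compl, image_preimage_eq_range_inter, (S.gemb w).range_bdm] at this

theorem two_Mr (hD : LnD D a) (o : X) (w : Rw Λ) :
    ∃ L L', bd o (S.Mr w L) ≠ bd o (S.Mr w L') := by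
  obtain ⟨L, L', h⟩ := hD.two
  refine ⟨L, L', fun e => h ?_⟩
  rw [← S.image_jb o w a, ← S.image_jb o w a] at e
  exact ((S.gemb w).bdm_injective a o).image_injective e

theorem Pc_sdiff_nonempty (hD : LnD D a) (o : X) (w : Rw Λ) {ρ : Set (Bd o)}
    (hρ : ∃ x y, x ≠ y ∧ ρ = {x, y}) : (bd o (S.Pc w) \ ρ).Nonempty := by
  obtain ⟨L, L', h⟩ := S.two_Mr hD o w
  by_cases e : bd o (S.Mr w L) = ρ
  · exact (pair_sdiff (S.pair_Mr hD o w L') hρ fun e' => h (e.trans e'.symm)).mono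
      (sdiff_subset_sdiff_left (S.bd_Mr_subset o w L'))
  · exact (pair_sdiff (S.pair_Mr hD o w L) hρ e).mono
      (sdiff_subset_sdiff_left (S.bd_Mr_subset o w L))

theorem bd_Pc_injective (hD : LnD D a) (o : X) {w u : Rw Λ}
    (h : bd o (S.Pc w) = bd o (S.Pc u)) : w = u := by
  by_contra hne
  obtain ⟨L, hL⟩ := exists_far (Ne.symm hne)
  obtain ⟨c, h1, h2⟩ := S.Pc_sdiff_nonempty hD o w (S.pair_Mr hD o w L)
  exact h2 (S.bd_Pc_inter o hL ⟨h1, h ▸ h1⟩)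

/-- the exit lemma for a piece beyond the wall that contains both ends of the wall -/
theorem exit_Pc (hD : LnD D a) {w u : Rw Λ} {L : Λ} {l : ℝ → A} (h : IsLine l)
    (hl : range l = D.M L) {o : X} (ho : o ∈ S.Near w L) (hu : u ∈ Far w L)
    (hB : bd o (S.Mr w L) ⊆ bd o (S.Pc u)) (s : ℝ) :
    ∃ c ∈ bd o (S.Pc u), ∃ t, 0 ≤ t ∧ c.pt t = S.ι w (l s) :=
  S.exit w h hl ho (by simpa using S.preconn_Pc hD o u finite_empty)
    (bd_mono (S.Pc_subset_Side hu)) hB s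

theorem dense_pieces_aux (hD : LnD D a) {o : X} (ho : o = S.ι root a) (c : Bd o) :
    c ∈ closure (⋃ w, bd o (S.Pc w)) := by
  by_cases hc : ∃ w, c ∈ bd o (S.Pc w)
  · exact subset_closure (mem_iUnion.2 hc)
  push Not at hc
  obtain ⟨ε, hε, he⟩ := D.lo
  have key : ∀ n : ℕ, ∃ w L, o ∈ S.Near w L ∧ n * ε ≤ S.H w o ∧ c ∈ bd o (S.Side w L) := by
    intro n
    induction n with
    | zero =>
      obtain ⟨L, hL⟩ := (S.bd_pc_or_side o root c).resolve_left (hc _)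
      exact ⟨root, L, ho ▸ S.ι_mem_Near _ _ _, by simpa using S.H_nonneg _ _, hL⟩
    | succ n ih =>
      obtain ⟨w, L, h1, h2, h3⟩ := ih
      obtain ⟨L', hL'⟩ := (S.bd_pc_or_side o (mv L w) c).resolve_left (hc _)
      have hne : L ≠ L' := by
        rintro rfl
        rw [S.bd_Side, mv_mv] at hL'
        exact hc w (S.bd_Mr_subset o w L (S.bd_near_inter_side o w L ▸ ⟨hL', h3⟩))
      refine ⟨mv L w, L', S.near_subset_near_mv w hne h1, ?_, hL'⟩
      rw [(S.step h1).1]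
      push_cast
      linarith [he L, dist_nonneg (x := S.π w o) (y := D.g L (S.π w o))]
  have key2 : ∀ n : ℕ, ∃ c' ∈ ⋃ w, bd o (S.Pc w), ∀ t, 0 ≤ t → t ≤ n * ε → c'.pt t = c.pt t := by
    intro n
    obtain ⟨w, L, h1, h2, h3⟩ := key n
    obtain ⟨t, ht, h4⟩ := (S.cross w L h1 h3).resolve_right fun h => hc w (S.bd_Mr_subset o w L h)
    obtain ⟨l, h, hl⟩ := hD.line L
    rw [S.Mr_eq_range w hl] at h4
    obtain ⟨s, hs⟩ := h4
    obtain ⟨c', h5, t', ht', h6⟩ := S.exit_Pc hD h hl h1 (mv_far w L) (S.bd_Mr_subset_mv o w L) s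
    have e1 := c.dist_o ht
    have e2 := c'.dist_o ht'
    rw [← hs] at e1
    rw [h6] at e2
    have e3 : t' = t := e2.symm.trans e1
    have e4 := S.H_le w o (l s)
    refine ⟨c', mem_iUnion.2 ⟨_, h5⟩, fun u hu hu' => Bd.agree (T := t) ?_ hu ?_⟩
    · rw [← hs, ← e3, h6]
    · simp only at e1; linarith
  choose f hf hf' using key2
  refine mem_closure_of_tendsto (f := f) (b := atTop) (tendsto_Bd fun t ht => ?_)
    (Eventually.of_forall hf)
  refine tendsto_const_nhds.congr' ?_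
  filter_upwards [(tendsto_natCast_atTop_atTop (R := ℝ)).eventually_ge_atTop (t / ε)] with n hn
  exact (hf' n t ht (by rwa [div_le_iff₀ hε] at hn)).symm

theorem dense_pieces (hD : LnD D a) (o : X) : Dense (⋃ w, bd o (S.Pc w)) := by
  intro c
  have := S.dense_pieces_aux hD rfl (chg o (S.ι root a) c)
  simp only [← chg_image_bd o (S.ι root a), ← image_iUnion, ← Homeomorph.image_closure] at this
  exact ((chg o _).injective.mem_set_image).1 this

theorem cutP_Mr (hD : LnD D a) (o : X) (w : Rw Λ) (L : Λ) : CutP (bd o (S.Mr w L)) := by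
  refine ⟨S.pair_Mr hD o w L, fun h => ?_⟩
  obtain ⟨x, h1, h2⟩ := S.Pc_sdiff_nonempty hD o w (S.pair_Mr hD o w L)
  obtain ⟨y, h3, h4⟩ := S.Pc_sdiff_nonempty hD o (mv L w) (S.pair_Mr hD o w L)
  exact S.sep_wall o w L h Subset.rfl h2 h4 (bd_mono (S.Pc_subset_Near (self_not_far w L)) h1)
    (bd_mono (S.Pc_subset_Side (mv_far w L)) h3)

theorem cutP_imp (hD : LnD D a) {o : X} {π : Set (Bd o)} (h : CutP π) :
    ∃ w L, π = bd o (S.Mr w L) := by
  by_contra hc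
  push Not at hc
  have hfin : π.Finite := by
    obtain ⟨x, y, -, rfl⟩ := h.1
    exact toFinite _
  obtain ⟨x, hx⟩ := S.Pc_sdiff_nonempty hD o root h.1
  have A : ∀ w, bd o (S.Pc w) \ π ⊆ connectedComponentIn πᶜ x := by
    refine mv_ind root _ ((S.preconn_Pc hD o root hfin).subset_connectedComponentIn hx
      fun _ hz => hz.2) fun w L ih => ?_
    obtain ⟨y, h1, h2⟩ := pair_sdiff (S.pair_Mr hD o w L) h.1 (hc w L).symm
    rw [connectedComponentIn_eq (ih ⟨S.bd_Mr_subset o w L h1, h2⟩)]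
    exact (S.preconn_Pc hD o _ hfin).subset_connectedComponentIn
      ⟨S.bd_Mr_subset_mv o w L h1, h2⟩ fun _ hz => hz.2
  refine h.2 (isPreconnected_connectedComponentIn (F := πᶜ) (x := x) |>.subset_closure
    (connectedComponentIn_subset _ _) fun z hz => ?_)
  have := (S.dense_pieces hD o).open_subset_closure_inter hfin.isClosed.isOpen_compl hz
  refine closure_mono ?_ this
  rintro y ⟨h1, h2⟩
  obtain ⟨w, hw⟩ := mem_iUnion.1 h2
  exact A w ⟨hw, h1⟩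

/-- the cut pairs inside the boundary of a piece are the end pairs of its walls -/
theorem cutP_subset (hD : LnD D a) {o : X} {π : Set (Bd o)} (h : CutP π) {w : Rw Λ}
    (hw : π ⊆ bd o (S.Pc w)) : ∃ L, π = bd o (S.Mr w L) := by
  obtain ⟨u, L, rfl⟩ := S.cutP_imp hD h
  by_cases e : u = w
  · exact ⟨L, by rw [e]⟩
  · obtain ⟨L', hL'⟩ := exists_far e
    refine ⟨L', ?_⟩
    by_contra hne
    obtain ⟨y, h1, h2⟩ := pair_sdiff h.1 (S.pair_Mr hD o w L') hne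
    exact h2 (S.bd_Pc_inter o hL' ⟨hw h1, S.bd_Mr_subset o u L h1⟩)

end TS

/-- no cut pair separates the set -/
def NSep {Z : Type} [TopologicalSpace Z] (P : Set Z) : Prop :=
  ∀ ρ, CutP ρ → ∃ K, IsPreconnected K ∧ K ⊆ ρᶜ ∧ P \ ρ ⊆ K

theorem NSep.image {Z Z' : Type} [TopologicalSpace Z] [TopologicalSpace Z'] (h : Z ≃ₜ Z')
    {P : Set Z} (H : NSep P) : NSep (h '' P) := by
  intro ρ hρ
  obtain ⟨K, h1, h2, h3⟩ := H _ (hρ.image h.symm)
  refine ⟨h '' K, h1.image _ h.continuous.continuousOn, ?_, ?_⟩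
  · rintro _ ⟨z, hz, rfl⟩ hm
    exact h2 hz ⟨_, hm, h.symm_apply_apply z⟩
  · rintro _ ⟨⟨z, hz, rfl⟩, hm⟩
    refine ⟨z, h3 ⟨hz, ?_⟩, rfl⟩
    rintro ⟨y, hy, rfl⟩
    exact hm (by simpa using hy)

namespace TS

variable {D : Gt A Λ} (S : TS D X) [Good X] [Good A] {a : A}

theorem nsep_Pc (hD : LnD D a) (o : X) (w : Rw Λ) : NSep (bd o (S.Pc w)) := by
  intro ρ hρ
  refine ⟨_, S.preconn_Pc hD o w (F := ρ) ?_, fun _ hz => hz.2, Subset.rfl⟩
  obtain ⟨x, y, -, rfl⟩ := hρ.1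
  exact toFinite _

theorem common_piece (hD : LnD D a) {o : X} {P π π' : Set (Bd o)} (hP : NSep P) (h : CutP π)
    (h' : CutP π') (s : π ⊆ P) (s' : π' ⊆ P) : ∃ w, π ⊆ bd o (S.Pc w) ∧ π' ⊆ bd o (S.Pc w) := by
  obtain ⟨u, L, e⟩ := S.cutP_imp hD h
  obtain ⟨u', L', e'⟩ := S.cutP_imp hD h'
  have b : π ⊆ bd o (S.Pc u) := e ▸ S.bd_Mr_subset o u L
  have b' : π' ⊆ bd o (S.Pc u') := e' ▸ S.bd_Mr_subset o u' L'
  refine tree_ind u' (fun u => π ⊆ bd o (S.Pc u) → ∃ w, π ⊆ bd o (S.Pc w) ∧ π' ⊆ bd o (S.Pc w))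
    (fun b => ⟨u', b, b'⟩) ?_ u b
  intro w K hK ih b
  by_cases e1 : π = bd o (S.Mr w K)
  · exact ih (e1 ▸ S.bd_Mr_subset_mv o w K)
  by_cases e2 : π' = bd o (S.Mr w K)
  · exact ⟨w, b, e2 ▸ S.bd_Mr_subset o w K⟩
  obtain ⟨x, x1, x2⟩ := pair_sdiff h.1 (S.pair_Mr hD o w K) e1
  obtain ⟨y, y1, y2⟩ := pair_sdiff h'.1 (S.pair_Mr hD o w K) e2
  obtain ⟨C, c1, c2, c3⟩ := hP _ (S.cutP_Mr hD o w K)
  exact (S.sep_wall o w K c1 c2 (c3 ⟨s x1, x2⟩) (c3 ⟨s' y1, y2⟩)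
    (bd_mono (S.Pc_subset_Near (self_not_far w K)) (b x1))
    (bd_mono (S.Pc_subset_Side hK) (b' y1))).elim

theorem subset_piece (hD : LnD D a) {o : X} {P π π' : Set (Bd o)} (hP : NSep P) (h : CutP π)
    (h' : CutP π') (hne : π ≠ π') (s : π ⊆ P) (s' : π' ⊆ P) {w : Rw Λ} (b : π ⊆ bd o (S.Pc w))
    (b' : π' ⊆ bd o (S.Pc w)) : P ⊆ bd o (S.Pc w) := by
  intro z hz
  by_contra hc
  obtain ⟨L, hL⟩ := (S.bd_pc_or_side o w z).resolve_left hc
  obtain ⟨C, c1, c2, c3⟩ := hP _ (S.cutP_Mr hD o w L)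
  obtain ⟨x, x1, x2, x3⟩ : ∃ x ∈ P, x ∈ bd o (S.Pc w) ∧ x ∉ bd o (S.Mr w L) := by
    by_cases e : π = bd o (S.Mr w L)
    · obtain ⟨y, y1, y2⟩ := pair_sdiff h'.1 h.1 hne.symm
      exact ⟨y, s' y1, b' y1, e ▸ y2⟩
    · obtain ⟨y, y1, y2⟩ := pair_sdiff h.1 (S.pair_Mr hD o w L) e
      exact ⟨y, s y1, b y1, y2⟩
  exact S.sep_wall o w L c1 c2 (c3 ⟨x1, x3⟩) (c3 ⟨hz, fun e => hc (S.bd_Mr_subset o w L e)⟩)
    (bd_mono (S.Pc_subset_Near (self_not_far w L)) x2) hL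

/-- a homeomorphism of boundaries carries boundaries of pieces to boundaries of pieces -/
theorem image_piece {A' Λ' X' : Type} [MetricSpace A'] [MetricSpace X'] [Good A'] [Good X']
    {D' : Gt A' Λ'} (S' : TS D' X') {a' : A'} (hD : LnD D a) (hD' : LnD D' a') {o : X} {o' : X'}
    (h : Bd o ≃ₜ Bd o') (w : Rw Λ) : ∃ w', h '' bd o (S.Pc w) = bd o' (S'.Pc w') := by
  obtain ⟨L, L', hne⟩ := S.two_Mr hD o w
  have c1 := S.cutP_Mr hD o w L
  have c2 := S.cutP_Mr hD o w L'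
  have s1 := S.bd_Mr_subset o w L
  have s2 := S.bd_Mr_subset o w L'
  have hP := (S.nsep_Pc hD o w).image h
  obtain ⟨w', b, b'⟩ := S'.common_piece hD' hP (c1.image h) (c2.image h) (image_mono s1)
    (image_mono s2)
  refine ⟨w', subset_antisymm (S'.subset_piece hD' hP (c1.image h) (c2.image h)
    (fun e => hne (h.injective.image_injective e)) (image_mono s1) (image_mono s2) b b') ?_⟩
  have := S.subset_piece hD ((S'.nsep_Pc hD' o' w').image h.symm) c1 c2 hne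
    (fun z hz => ⟨h z, b ⟨z, hz, rfl⟩, h.symm_apply_apply z⟩)
    (fun z hz => ⟨h z, b' ⟨z, hz, rfl⟩, h.symm_apply_apply z⟩) s1 s2
  intro z hz
  exact ⟨h.symm z, this ⟨z, hz, rfl⟩, h.apply_symm_apply z⟩

end TS

end Pool.Agent.P.MP_318c20_al.UB
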