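import Pool.Agent.P.MP_318c20_al.UB.Rook
import Pool.Agent.P.MP_318c20_al.UB.Pieces

/-!
The model: the coloured tree, diagonal lines in its square, the group, and the abstract data on
the boundary of the tree.
-/

namespace Pool.Agent.P.MP_318c20_al.UB

open Set Filter Topology

noncomputable section

abbrev Col : Type := Fin 4

instance : MulAction Unit Col where
  smul _ i := i
  one_smul _ := rfl
  mul_smul _ _ _ := rfl

theorem unit_smul (u : Unit) (i : Col) : u • i = i := rfl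

/-- Vertices of the coloured tree. -/
abbrev V : Type := Rw Col

/-- Colour preserving automorphisms of the tree. -/
abbrev W : Type := Gp Unit Col

theorem W_mv (g : W) (i : Col) (x : V) : g.1.2 (mv i x) = mv i (g.1.2 x) := g.2 i x

/-- Height of a vertex for the edge lengths `l`. -/
def ht (l : Col → ℝ) (x : V) : ℝ := (x.1.map l).sum

theorem ht_root (l : Col → ℝ) : ht l root = 0 := rfl

theorem ht_mv_out (l : Col → ℝ) {x : V} {i : Col} (h : hd x ≠ some i) :
    ht l (mv i x) = ht l x + l i := by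
  simp [ht, mv_out h, add_comm]

def Len : Type := {l : Col → ℝ // ∀ i, 1 ≤ l i}

theorem ht_ge (l : Len) (x : V) : (x.1.length : ℝ) ≤ ht l.1 x := by
  unfold ht
  induction x.1 with
  | nil => simp
  | cons a u ih => simp only [List.length_cons, List.map_cons, List.sum_cons]; push_cast; linarith [l.2 a]

theorem ht_nonneg (l : Len) (x : V) : 0 ≤ ht l.1 x := (Nat.cast_nonneg _).trans (ht_ge l x)

def unitGt (l : Len) : Gt Unit Col where
  M _ := univ
  g _ a := a
  e := l.1
  g_mem _ _ := mem_univ _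
  gate _ _ _ _ := by simp
  four _ _ _ _ _ _ _ _ _ := by simp
  lo := ⟨1, one_pos, l.2⟩
  hi := ⟨∑ i, l.1 i, fun i =>
    Finset.single_le_sum (fun j _ => zero_le_one.trans (l.2 j)) (Finset.mem_univ i)⟩
  lf _ _ := toFinite _

theorem unitGt_e (l : Len) : (unitGt l).e = l.1 := rfl
theorem unitGt_M (l : Len) (i : Col) : (unitGt l).M i = univ := rfl

/-- The one parameter family of edge lengths. -/
def len (t : ℝ) : Len :=
  ⟨fun i => if i = 3 then 1 + Real.exp t else 1, fun i => by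
    dsimp only; split_ifs
    · linarith [Real.exp_pos t]
    · exact le_rfl⟩

/-! ### Diagonal lines and the group -/

def LnP : Type := {d : (V × V) × Col × Col // d.2.1 ≠ d.2.2}

def mv2 (i : Col) (p : V × V) : V × V := (mv i p.1, mv i p.2)

inductive LnR : LnP → LnP → Prop
  | mv (p : V × V) (i j : Col) (h : i ≠ j) : LnR ⟨(p, i, j), h⟩ ⟨(mv2 i p, i, j), h⟩
  | sw (p : V × V) (i j : Col) (h : i ≠ j) : LnR ⟨(p, i, j), h⟩ ⟨(p, j, i), h.symm⟩

/-- Diagonal bicoloured lines. -/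
def Ln : Type := Quot LnR

def ln (p : V × V) (i j : Col) (h : i ≠ j) : Ln := Quot.mk _ ⟨(p, i, j), h⟩

theorem ln_mv (p : V × V) (i j : Col) (h : i ≠ j) : ln (mv2 i p) i j h = ln p i j h :=
  (Quot.sound (LnR.mv p i j h)).symm

theorem ln_sw (p : V × V) (i j : Col) (h : i ≠ j) : ln p j i h.symm = ln p i j h :=
  (Quot.sound (LnR.sw p i j h)).symm

theorem exists_ln (L : Ln) : ∃ p i j h, L = ln p i j h := by
  obtain ⟨⟨⟨p, i, j⟩, h⟩, rfl⟩ := Quot.exists_rep L
  exact ⟨p, i, j, h, rfl⟩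

instance : Countable LnP := by unfold LnP; infer_instance

instance : Countable Ln := (Quot.mk_surjective (r := LnR)).countable

def W2 : Type := W × W

instance : Group W2 := inferInstanceAs (Group (W × W))

def W2.act (g : W2) (p : V × V) : V × V := (g.1.1.2 p.1, g.2.1.2 p.2)

theorem W2.act_mv (g : W2) (i : Col) (p : V × V) : g.act (mv2 i p) = mv2 i (g.act p) :=
  Prod.ext (W_mv _ _ _) (W_mv _ _ _)

def W2.onLn (g : W2) : Ln → Ln :=
  Quot.lift (fun d : LnP => ln (g.act d.1.1) d.1.2.1 d.1.2.2 d.2) (by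
    rintro _ _ (⟨p, i, j, h⟩ | ⟨p, i, j, h⟩)
    · simp only [W2.act_mv, ln_mv]
    · exact (ln_sw _ _ _ h).symm)

instance : MulAction W2 Ln where
  smul := W2.onLn
  one_smul L := by obtain ⟨p, i, j, h, rfl⟩ := exists_ln L; rfl
  mul_smul g g' L := by obtain ⟨p, i, j, h, rfl⟩ := exists_ln L; rfl

theorem smul_ln (g : W2) (p : V × V) (i j : Col) (h : i ≠ j) :
    g • ln p i j h = ln (g.act p) i j h := rfl

instance {T : Type} [MulAction W T] : MulAction W2 (T × T) where
  smul g a := (g.1 • a.1, g.2 • a.2)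
  one_smul a := Prod.ext (one_smul W a.1) (one_smul W a.2)
  mul_smul g g' a := Prod.ext (mul_smul g.1 g'.1 a.1) (mul_smul g.2 g'.2 a.2)

theorem W2.smul_def {T : Type} [MulAction W T] (g : W2) (a : T × T) :
    g • a = (g.1 • a.1, g.2 • a.2) := rfl

/-- The group. -/
abbrev G : Type := Gp W2 Ln

/-! ### Abstract boundary of the tree -/

/-- Shadows of directed edges and ends of bicoloured lines. -/
structure KD (K : Type) where
  Sh : V → Col → Set K
  en : V → Col → Col → K

structure KS {K : Type} [TopologicalSpace K] (k : KD K) : Prop where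
  compact : CompactSpace K
  t2 : T2Space K
  clopen : ∀ x i, IsClopen (k.Sh x i)
  cover : ∀ x ξ, ∃ i, ξ ∈ k.Sh x i
  disj : ∀ x i j, i ≠ j → Disjoint (k.Sh x i) (k.Sh x j)
  compl : ∀ x i, k.Sh (mv i x) i = (k.Sh x i)ᶜ
  sep : ∀ ξ ξ', ξ ≠ ξ' → ∃ x i, ξ ∈ k.Sh x i ∧ ξ' ∉ k.Sh x i
  en_mem : ∀ x i j, i ≠ j → k.en x i j ∈ k.Sh x i
  en_mv : ∀ x i j, i ≠ j → k.en (mv i x) j i = k.en x i j

def KD.en2 {K : Type} (k : KD K) (p : V × V) (i j : Col) : K × K := (k.en p.1 i j, k.en p.2 i j)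

/-- The two ends of a bicoloured line. -/
def KD.EP {K : Type} (k : KD K) (ξ η : K) : Prop :=
  ∃ x i j, i ≠ j ∧ ξ = k.en x i j ∧ η = k.en x j i

/-- Ends in `U` of lines that cross from `U` to its complement. -/
def KD.cr {K : Type} (k : KD K) (U : Set K) : Set K := {ξ | ξ ∈ U ∧ ∃ η, η ∉ U ∧ k.EP ξ η}

/-- One step forward along a bicoloured line. -/
def Sl (d : V × Col × Col) : V × Col × Col := (mv d.2.1 d.1, d.2.2, d.2.1)

/-- `ψ` is induced by the tree isomorphism `Ψ` with colour permutation `σ`. -/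
def TI {K K' : Type} (k : KD K) (k' : KD K') (Ψ : V → V) (σ : Equiv.Perm Col) (ψ : K → K') : Prop :=
  (∀ i x, Ψ (mv i x) = mv (σ i) (Ψ x)) ∧
    ∀ x i j, i ≠ j → ψ (k.en x i j) = k'.en (Ψ x) (σ i) (σ j)

/-- The join parameter of the direction `(a, b)`. -/
def an (a b : ℝ) : ℝ := (b - a) / max a b

/-- A family of lines of colours `i, j` hanging at the vertex pairs `p n`, with ends tending to `ξ`
and join parameter tending to `θ`. -/
structure Fam {K : Type} [TopologicalSpace K] (l : Col → ℝ) (k : KD K) (p : ℕ → V × V) (i j : Col)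
    (ξ : K × K) (θ : ℝ) : Prop where
  hang : ∀ᶠ n in atTop, (hd (p n).1 ≠ some i ∧ hd (p n).1 ≠ some j) ∧
    (hd (p n).2 ≠ some i ∧ hd (p n).2 ≠ some j)
  pos : Tendsto (fun n => k.en2 (p n) i j) atTop (𝓝 ξ)
  neg : Tendsto (fun n => k.en2 (p n) j i) atTop (𝓝 ξ)
  far : Tendsto (fun n => max (ht l (p n).1) (ht l (p n).2)) atTop atTop
  ang : Tendsto (fun n => an (ht l (p n).1) (ht l (p n).2)) atTop (𝓝 θ)

def sw {α : Type} (b : Bool) (p : α × α) : α × α := cond b p.swap p

/-- The comparison of edge lengths that a homeomorphism of boundaries forces. -/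
def Rel (l l' : Col → ℝ) : Prop :=
  ∀ i j c, i ≠ j → i ≠ c → j ≠ c → ∀ p q : ℕ,
    p * (l i + l j) ≤ q * (l i + l c) → p * (l' i + l' j) ≤ q * (l' i + l' c)

/-! ### The metric tree -/

/-- The metric tree with its bicoloured lines. -/
structure TT (l : Len) (T : Type) [MetricSpace T] where
  S : TS (unitGt l) T
  lam : V → Col → Col → ℝ → T
  lam_edge : ∀ x i j, i ≠ j → ∀ s ∈ Icc 0 (l.1 i), lam x i j s = S.E x i () s
  lam_flip : ∀ x i j, i ≠ j → ∀ s, lam x j i s = lam x i j (-s)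
  lam_mv : ∀ x i j, i ≠ j → ∀ s, lam (mv i x) i j s = lam x i j (l.1 i - s)
  lam_gate : ∀ x i j, i ≠ j → ∀ p, ∃ s0, ∀ s,
    dist p (lam x i j s) = dist p (lam x i j s0) + |s - s0|
  lam_side : ∀ x i j, i ≠ j → ∀ s, 0 ≤ s → lam x i j s ∈ S.Side x i

namespace TT
variable {l : Len} {T : Type} [MetricSpace T] (τ : TT l T)

def vx (x : V) : T := τ.S.ι x ()
def r : T := τ.vx root

theorem isLine (x : V) {i j : Col} (h : i ≠ j) : IsLine (τ.lam x i j) :=
  isLine_of_gate (τ.lam_gate x i j h)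

theorem lam_zero (x : V) {i j : Col} (h : i ≠ j) : τ.lam x i j 0 = τ.vx x := by
  rw [τ.lam_edge x i j h 0 ⟨le_rfl, zero_le_one.trans (l.2 i)⟩]
  exact τ.S.E_zero x i () (mem_univ _)

theorem lam_sl (x : V) {i j : Col} (h : i ≠ j) (s : ℝ) :
    τ.lam (mv i x) j i s = τ.lam x i j (s + l.1 i) := by
  rw [τ.lam_flip _ i j h, τ.lam_mv x i j h]; congr 1; ring

/-- The diagonal line. -/
def dg (p : V × V) (i j : Col) (s : ℝ) : T × T := (τ.lam p.1 i j s, τ.lam p.2 i j s)

theorem isLine_dg (p : V × V) {i j : Col} (h : i ≠ j) : IsLine (τ.dg p i j) :=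
  ⟨fun s t => by
    rw [Prod.dist_eq]
    simp only [dg, (τ.isLine _ h).1, max_self],
   fun z => ((τ.isLine p.1 h).2 z.1).sup ((τ.isLine p.2 h).2 z.2)⟩

theorem col_ne_succ : ∀ i : Col, i ≠ i + 1 := by decide

variable [Good T]

def en (x : V) (i j : Col) : Bd τ.r :=
  if h : i ≠ j then cls τ.r (τ.isLine x h).pos else cls τ.r (τ.isLine x (col_ne_succ i)).pos

theorem en_eq (x : V) {i j : Col} (h : i ≠ j) : τ.en x i j = cls τ.r (τ.isLine x h).pos :=
  dif_pos h

def kd : KD (Bd τ.r) := ⟨fun x i => bd τ.r (τ.S.Side x i), τ.en⟩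

end TT

def IsDiag {l : Len} {T : Type} [MetricSpace T] (τ : TT l T) (D : Gt (T × T) Ln) : Prop :=
  ∀ p i j h, D.M (ln p i j h) = range (τ.dg p i j)

/-- The tree, its square, and the tree of copies of the square. -/
structure Mod (l : Len) : Type 1 where
  T : Type
  mT : MetricSpace T
  gT : Good T
  τ : TT l T
  D : Gt (T × T) Ln
  diag : IsDiag τ D
  X : Type
  mX : MetricSpace X
  gX : Good X
  S : TS D X

attribute [instance] Mod.mT Mod.gT Mod.mX Mod.gX

namespace Mod
variable {l : Len} (m : Mod l)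

/-- Boundary of the tree. -/
abbrev K : Type := Bd m.τ.r
abbrev k : KD m.K := m.τ.kd
/-- Boundary of a piece, of a side, of a line. -/
def Pb (o : m.X) (w : Rw Ln) : Set (Bd o) := bd o (m.S.Pc w)
def Sd (o : m.X) (w : Rw Ln) (L : Ln) : Set (Bd o) := bd o (m.S.Side w L)
def Pr (o : m.X) (w : Rw Ln) (L : Ln) : Set (Bd o) := bd o (m.S.Mr w L)
/-- The join parametrisation of the boundary of a piece. -/
def J (o : m.X) (w : Rw Ln) (ξ : m.K × m.K) (θ : ℝ) : Bd o := m.S.jb w o (JP ξ.1 ξ.2 θ)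
/-- The origin of a piece. -/
def org (w : Rw Ln) : m.X := m.S.ι w (m.τ.r, m.τ.r)

end Mod

end

end Pool.Agent.P.MP_318c20_al.UB
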