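import Pool.Agent.P.MP_318c20_al.UB.Base

namespace Pool.Agent.P.MP_318c20_al.UB

open Set Filter Topology

variable {T₁ T₂ : Type} [MetricSpace T₁] [MetricSpace T₂]

theorem helly_prod (h₁ : Helly T₁) (h₂ : Helly T₂) : Helly (T₁ × T₂) := by
  intro ι x r h
  obtain ⟨a, ha⟩ := h₁ ι (fun i => (x i).1) r fun i j => (le_max_left _ _).trans (h i j)
  obtain ⟨b, hb⟩ := h₂ ι (fun i => (x i).2) r fun i j => (le_max_right _ _).trans (h i j)
  exact ⟨(a, b), fun i => max_le (ha i) (hb i)⟩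

theorem li_prod (h₁ : LI T₁) (h₂ : LI T₂) : LI (T₁ × T₂) := by
  intro x0 y0
  obtain ⟨δ₁, hδ₁, k₁⟩ := h₁ x0.1 y0.1
  obtain ⟨δ₂, hδ₂, k₂⟩ := h₂ x0.2 y0.2
  set a := dist x0.1 y0.1 with ha
  set b := dist x0.2 y0.2 with hb
  obtain ⟨δ, hδ, e1, e2, e3⟩ : ∃ δ > 0, δ ≤ δ₁ ∧ δ ≤ δ₂ ∧ (a ≠ b → 4 * δ ≤ |a - b|) := by
    by_cases hab : a = b
    · exact ⟨min δ₁ δ₂, lt_min hδ₁ hδ₂, min_le_left _ _, min_le_right _ _, fun h => absurd hab h⟩
    · have : 0 < |a - b| := abs_pos.2 (sub_ne_zero.2 hab)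
      refine ⟨min (min δ₁ δ₂) (|a - b| / 4), lt_min (lt_min hδ₁ hδ₂) (by linarith),
        (min_le_left _ _).trans (min_le_left _ _), (min_le_left _ _).trans (min_le_right _ _),
        fun _ => ?_⟩
      linarith [min_le_right (min δ₁ δ₂) (|a - b| / 4)]
  refine ⟨δ, hδ, fun x y hx hy => ?_⟩
  have x1 : dist x.1 x0.1 < δ := (le_max_left _ _).trans_lt hx
  have x2 : dist x.2 x0.2 < δ := (le_max_right _ _).trans_lt hx
  have y1 : dist y.1 y0.1 < δ := (le_max_left _ _).trans_lt hy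
  have y2 : dist y.2 y0.2 < δ := (le_max_right _ _).trans_lt hy
  have q1 := k₁ x.1 y.1 (by linarith) (by linarith)
  have q2 := k₂ x.2 y.2 (by linarith) (by linarith)
  have p1 : dist x0.1 y.1 ≤ dist x0 y := le_max_left _ _
  have p2 : dist x0.2 y.2 ≤ dist x0 y := le_max_right _ _
  have p3 : dist x.1 y0.1 ≤ dist x y0 := le_max_left _ _
  have p4 : dist x.2 y0.2 ≤ dist x y0 := le_max_right _ _
  have t1 := dist_triangle4 x.1 x0.1 y0.1 y.1
  have t2 := dist_triangle4 x.2 x0.2 y0.2 y.2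
  have t3 := dist_triangle4 x0.1 x.1 y.1 y0.1
  have t4 := dist_triangle4 x0.2 x.2 y.2 y0.2
  rw [dist_comm y0.1] at t1
  rw [dist_comm y0.2] at t2
  rw [dist_comm x0.1 x.1] at t3
  rw [dist_comm x0.2 x.2] at t4
  rw [Prod.dist_eq (x := x0) (y := y0), Prod.dist_eq (x := x) (y := y), ← ha, ← hb]
  rcases lt_trichotomy a b with h | h | h
  · have := e3 h.ne
    rw [abs_of_neg (by linarith)] at this
    rw [max_eq_right h.le, max_eq_right (by linarith)]; linarith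
  · rw [h, max_self]
    rcases le_total (dist x.1 y.1) (dist x.2 y.2) with h' | h'
    · rw [max_eq_right h']; linarith
    · rw [max_eq_left h']; linarith
  · have := e3 h.ne'
    rw [abs_of_pos (by linarith)] at this
    rw [max_eq_left h.le, max_eq_left (by linarith)]; linarith

instance good_prod [h₁ : Good T₁] [h₂ : Good T₂] : Good (T₁ × T₂) :=
  ⟨inferInstance, helly_prod h₁.helly h₂.helly, li_prod h₁.li h₂.li⟩

theorem Str.prod {I : Set ℝ} {α : ℝ → T₁} {β : ℝ → T₂} (hα : Str I α) (hβ : Str I β) :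
    Str I fun t => (α t, β t) :=
  ⟨hα.1.prodMk hβ.1, fun z => (hα.2 z.1).sup (hβ.2 z.2)⟩

theorem Bd.cont_pt2 {o : T₁} : Continuous fun p : Bd o × ℝ => p.1.pt p.2 := by
  unfold Bd.pt
  fun_prop

theorem str_speed {r : ℝ → T₁} (hr : IsRay r) {a : ℝ} (ha : 0 ≤ a) :
    Str (Ici 0) fun t => r (a * t) := by
  have := hr.2.affine (J := Ici 0) a 0 (convex_Ici 0) (by
    intro t ht; rw [add_zero]; exact mul_nonneg ha ht)
  simpa using this

theorem isRay_prod {r : ℝ → T₁} {r' : ℝ → T₂} (hr : IsRay r) (hr' : IsRay r') {a b : ℝ}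
    (ha : 0 ≤ a) (hb : 0 ≤ b) (hab : max a b = 1) : IsRay fun t => (r (a * t), r' (b * t)) := by
  refine ⟨fun s t hs ht => ?_, Str.prod (str_speed hr ha) (str_speed hr' hb)⟩
  rw [Prod.dist_eq, hr.1 _ _ (mul_nonneg ha hs) (mul_nonneg ha ht),
    hr'.1 _ _ (mul_nonneg hb hs) (mul_nonneg hb ht), ← mul_sub, ← mul_sub, abs_mul, abs_mul,
    abs_of_nonneg ha, abs_of_nonneg hb, ← max_mul_of_nonneg _ _ (abs_nonneg _), hab, one_mul]

/-- speed of the first coordinate at the parameter `θ ∈ [-1,1]` -/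
noncomputable def ca (θ : ℝ) : ℝ := max 0 (min 1 (1 - θ))

theorem ca_nonneg (θ : ℝ) : 0 ≤ ca θ := le_max_left _ _

theorem ca_of_nonpos {θ : ℝ} (h : θ ≤ 0) : ca θ = 1 := by
  rw [ca, min_eq_left (by linarith), max_eq_right zero_le_one]

theorem ca_of_nonneg {θ : ℝ} (h : 0 ≤ θ) (h1 : θ ≤ 1) : ca θ = 1 - θ := by
  rw [ca, min_eq_right (by linarith), max_eq_right (by linarith)]

theorem ca_le_one (θ : ℝ) : ca θ ≤ 1 := max_le zero_le_one (min_le_left _ _)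

theorem ca_max (θ : ℝ) : max (ca θ) (ca (-θ)) = 1 := by
  rcases le_total θ 0 with h | h
  · rw [ca_of_nonpos h, max_eq_left (ca_le_one _)]
  · rw [ca_of_nonpos (θ := -θ) (by linarith), max_eq_right (ca_le_one _)]

theorem ca_pos {θ : ℝ} (h : θ < 1) : 0 < ca θ :=
  lt_max_of_lt_right (lt_min one_pos (by linarith))

theorem ca_sub {θ : ℝ} (h : θ ∈ Icc (-1 : ℝ) 1) : ca (-θ) - ca θ = θ := by
  rcases le_total θ 0 with h0 | h0
  · rw [ca_of_nonpos h0, ca_of_nonneg (by linarith) (by linarith [h.1])]; ring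
  · rw [ca_of_nonpos (θ := -θ) (by linarith), ca_of_nonneg h0 h.2]; ring

theorem continuous_ca : Continuous ca := by unfold ca; fun_prop

variable {r₁ : T₁} {r₂ : T₂}

/-- the join parametrisation of the boundary of a product: `θ = -1` is the pole `ξ`, `θ = 1` the
pole `η`, `θ = 0` the diagonal ray -/
noncomputable def JP (ξ : Bd r₁) (η : Bd r₂) (θ : ℝ) : Bd (r₁, r₂) :=
  mkBd (fun t => (ξ.pt (ca θ * t), η.pt (ca (-θ) * t)))
    (isRay_prod ξ.ray η.ray (ca_nonneg _) (ca_nonneg _) (ca_max θ)) (by simp [Bd.zero])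

theorem JP_pt (ξ : Bd r₁) (η : Bd r₂) (θ : ℝ) {t : ℝ} (ht : 0 ≤ t) :
    (JP ξ η θ).pt t = (ξ.pt (ca θ * t), η.pt (ca (-θ) * t)) := mkBd_pt _ _ _ ht

theorem JP_pt_zero (ξ : Bd r₁) (η : Bd r₂) {t : ℝ} (ht : 0 ≤ t) :
    (JP ξ η 0).pt t = (ξ.pt t, η.pt t) := by
  rw [JP_pt _ _ _ ht, neg_zero, ca_of_nonpos le_rfl, one_mul]

theorem JP_pt_fst (ξ : Bd r₁) (η : Bd r₂) {v : ℝ} (hv : v ∈ Icc (0 : ℝ) 1) {t : ℝ} (ht : 0 ≤ t) :
    (JP ξ η (1 - v)).pt t = (ξ.pt (v * t), η.pt t) := by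
  rw [JP_pt _ _ _ ht, ca_of_nonneg (by linarith [hv.2]) (by linarith [hv.1]),
    ca_of_nonpos (by linarith [hv.2]), one_mul, sub_sub_cancel]

theorem JP_pt_snd (ξ : Bd r₁) (η : Bd r₂) {v : ℝ} (hv : v ∈ Icc (0 : ℝ) 1) {t : ℝ} (ht : 0 ≤ t) :
    (JP ξ η (v - 1)).pt t = (ξ.pt t, η.pt (v * t)) := by
  rw [JP_pt _ _ _ ht, ca_of_nonpos (by linarith [hv.2]),
    ca_of_nonneg (by linarith [hv.2]) (by linarith [hv.1]), one_mul]
  congr 2; ring

theorem JP_one (ξ ξ' : Bd r₁) (η : Bd r₂) : JP ξ η 1 = JP ξ' η 1 :=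
  Bd.ext' fun t ht => by
    rw [JP_pt _ _ _ ht, JP_pt _ _ _ ht, ca_of_nonneg zero_le_one le_rfl]; simp [Bd.zero]

theorem JP_neg_one (ξ : Bd r₁) (η η' : Bd r₂) : JP ξ η (-1) = JP ξ η' (-1) :=
  Bd.ext' fun t ht => by
    rw [JP_pt _ _ _ ht, JP_pt _ _ _ ht, neg_neg, ca_of_nonneg zero_le_one le_rfl]; simp [Bd.zero]

/-- the join parameter of a boundary point -/
noncomputable def ang (c : Bd (r₁, r₂)) : ℝ := dist r₂ (c.pt 1).2 - dist r₁ (c.pt 1).1

theorem continuous_ang : Continuous (ang : Bd (r₁, r₂) → ℝ) :=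
  (continuous_const.dist (Bd.cont_pt 1).snd).sub (continuous_const.dist (Bd.cont_pt 1).fst)

theorem ang_JP (ξ : Bd r₁) (η : Bd r₂) {θ : ℝ} (h : θ ∈ Icc (-1 : ℝ) 1) : ang (JP ξ η θ) = θ := by
  rw [ang, JP_pt _ _ _ zero_le_one, mul_one, mul_one, ξ.dist_o (ca_nonneg _),
    η.dist_o (ca_nonneg _), ca_sub h]

theorem JP_inj {ξ ξ' : Bd r₁} {η η' : Bd r₂} {θ θ' : ℝ} (h : θ ∈ Icc (-1 : ℝ) 1)
    (h' : θ' ∈ Icc (-1 : ℝ) 1) (he : JP ξ η θ = JP ξ' η' θ') :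
    θ = θ' ∧ (θ < 1 → ξ = ξ') ∧ (-1 < θ → η = η') := by
  have e : θ = θ' := by rw [← ang_JP ξ η h, he, ang_JP _ _ h']
  subst e
  refine ⟨rfl, fun h1 => Bd.ext' fun t ht => ?_, fun h1 => Bd.ext' fun t ht => ?_⟩
  · have hp := ca_pos h1
    have := congrArg (fun c : Bd (r₁, r₂) => (c.pt (t / ca θ)).1) he
    simp only [JP_pt _ _ _ (div_nonneg ht hp.le)] at this
    rwa [mul_div_cancel₀ _ hp.ne'] at this
  · have hp := ca_pos (θ := -θ) (by linarith)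
    have := congrArg (fun c : Bd (r₁, r₂) => (c.pt (t / ca (-θ))).2) he
    simp only [JP_pt _ _ _ (div_nonneg ht hp.le)] at this
    rwa [mul_div_cancel₀ _ hp.ne'] at this

theorem JP_zero_inj {ξ ξ' : Bd r₁} {η η' : Bd r₂} (he : JP ξ η 0 = JP ξ' η' 0) : ξ = ξ' ∧ η = η' := by
  have := JP_inj (θ := 0) (θ' := 0) (by norm_num) (by norm_num) he
  exact ⟨this.2.1 one_pos, this.2.2 (by norm_num)⟩

variable [Good T₁] [Good T₂]

theorem geo_prod (x y : T₁ × T₂) {t : ℝ} (ht : t ∈ Icc (0 : ℝ) 1) :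
    geo x y t = (geo x.1 y.1 t, geo x.2 y.2 t) :=
  Str.uniq (Good.li (X := T₁ × T₂)) (geo_str _ _) (Str.prod (geo_str _ _) (geo_str _ _))
    (by simp [geo_zero]) (by simp [geo_one]) ht

theorem continuous_JP : Continuous fun p : Bd r₁ × Bd r₂ × ℝ => JP p.1 p.2.1 p.2.2 := by
  refine continuous_iff_continuousAt.2 fun p => tendsto_Bd fun t ht => ?_
  simp only [JP_pt _ _ _ ht]
  refine Continuous.tendsto (f := fun p : Bd r₁ × Bd r₂ × ℝ =>
    (p.1.pt (ca p.2.2 * t), p.2.1.pt (ca (-p.2.2) * t))) (Continuous.prodMk ?_ ?_) p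
  · exact Bd.cont_pt2.comp (continuous_fst.prodMk
      ((continuous_ca.comp continuous_snd.snd).mul continuous_const))
  · exact Bd.cont_pt2.comp (continuous_snd.fst.prodMk
      ((continuous_ca.comp continuous_snd.snd.neg).mul continuous_const))

omit [Good T₂] in
/-- a curve that follows the straight segments from its origin is a ray run at constant speed -/
theorem exists_speed {γ : ℝ → T₁} (ξ₀ : Bd r₁)
    (h : ∀ T, 0 ≤ T → ∀ s ∈ Icc (0 : ℝ) 1, γ (T * s) = geo r₁ (γ T) s) :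
    ∃ ξ : Bd r₁, ∀ t, 0 ≤ t → γ t = ξ.pt (dist r₁ (γ 1) * t) := by
  set a := dist r₁ (γ 1) with ha
  have a0 : 0 ≤ a := dist_nonneg
  have key : ∀ T, 0 < T → ∀ s ∈ Icc 0 T, ∀ t ∈ Icc 0 T,
      T * dist (γ s) (γ t) = |s - t| * dist r₁ (γ T) := by
    intro T hT s hs t ht
    have m : ∀ u ∈ Icc 0 T, u / T ∈ Icc (0 : ℝ) 1 := fun u hu =>
      ⟨div_nonneg hu.1 hT.le, (div_le_one hT).2 hu.2⟩
    have e1 := h T hT.le _ (m s hs)
    have e2 := h T hT.le _ (m t ht)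
    rw [mul_div_cancel₀ _ hT.ne'] at e1 e2
    rw [e1, e2, geo_dist _ _ _ (m s hs) _ (m t ht), ← sub_div, abs_div, abs_of_pos hT]
    field_simp
  have g0 : γ 0 = r₁ := by
    have := h 0 le_rfl 0 ⟨le_rfl, zero_le_one⟩
    rwa [geo_zero, mul_zero] at this
  have hd : ∀ s t, 0 ≤ s → 0 ≤ t → dist (γ s) (γ t) = a * |s - t| := by
    intro s t hs ht
    set T := max (max s t) 1 with hT
    have T1 : 1 ≤ T := le_max_right _ _
    have k1 := key T (by linarith) s ⟨hs, (le_max_left _ _).trans (le_max_left _ _)⟩ t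
      ⟨ht, (le_max_right _ _).trans (le_max_left _ _)⟩
    have k2 := key T (by linarith) 0 ⟨le_rfl, by linarith⟩ 1 ⟨zero_le_one, T1⟩
    rw [g0, ← ha] at k2
    norm_num at k2
    rw [← k2] at k1
    have : T * dist (γ s) (γ t) = T * (a * |s - t|) := by rw [k1]; ring
    exact mul_left_cancel₀ (by linarith) this
  rcases a0.eq_or_lt with h0 | h0
  · refine ⟨ξ₀, fun t ht => ?_⟩
    have := hd 0 t le_rfl ht
    rw [← h0, zero_mul, g0, dist_eq_zero] at this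
    rw [← h0, zero_mul, Bd.zero, this]
  · have hr : IsRay fun t => γ (t / a) := by
      refine isRay_of (fun s t hs ht => ?_) fun z => ⟨convex_Ici 0, ?_⟩
      · rw [hd _ _ (div_nonneg hs a0) (div_nonneg ht a0), ← sub_div, abs_div, abs_of_pos h0]
        field_simp
      · intro s hs t ht p q hp hq hpq
        have hs' : 0 ≤ s := hs
        have ht' : 0 ≤ t := ht
        set T := max s t + 1 with hT
        have T0 : 0 < T := by linarith [le_max_left s t]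
        have m : ∀ u, 0 ≤ u → u ≤ T → u / T ∈ Icc (0 : ℝ) 1 := fun u h1 h2 =>
          ⟨div_nonneg h1 T0.le, (div_le_one T0).2 h2⟩
        have ms := m s hs' (by linarith [le_max_left s t])
        have mt := m t ht' (by linarith [le_max_right s t])
        have e : ∀ u, u / T ∈ Icc (0 : ℝ) 1 → γ (u / a) = geo r₁ (γ (T / a)) (u / T) := by
          intro u hu
          rw [← h (T / a) (div_nonneg T0.le a0) _ hu]
          congr 1; field_simp
        have c := ((geo_str r₁ (γ (T / a))).2 z).2 ms mt hp hq hpq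
        have e3 : p • (s / T) + q • (t / T) = (p • s + q • t) / T := by
          simp only [smul_eq_mul]; ring
        have mm : (p • s + q • t) / T ∈ Icc (0 : ℝ) 1 := by
          rw [← e3]; exact convex_Icc 0 1 ms mt hp hq hpq
        simp only [e s ms, e t mt, e _ mm]
        rwa [e3] at c
    refine ⟨mkBd _ hr (by simp [g0]), fun t ht => ?_⟩
    rw [mkBd_pt _ _ _ (mul_nonneg a0 ht), mul_div_cancel_left₀ _ h0.ne']

theorem exists_JP (ξ₀ : Bd r₁) (η₀ : Bd r₂) (c : Bd (r₁, r₂)) :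
    ∃ ξ η, ∃ θ ∈ Icc (-1 : ℝ) 1, c = JP ξ η θ := by
  obtain ⟨ξ, hξ⟩ := exists_speed (γ := fun t => (c.pt t).1) ξ₀ fun T hT s hs => by
    rw [Bd.pt_eq_geo c hT hs, geo_prod _ _ hs]
  obtain ⟨η, hη⟩ := exists_speed (γ := fun t => (c.pt t).2) η₀ fun T hT s hs => by
    rw [Bd.pt_eq_geo c hT hs, geo_prod _ _ hs]
  set a := dist r₁ (c.pt 1).1 with ha
  set b := dist r₂ (c.pt 1).2 with hb
  have a0 : 0 ≤ a := dist_nonneg
  have b0 : 0 ≤ b := dist_nonneg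
  have hm : max a b = 1 := c.dist_o zero_le_one
  have a1 : a ≤ 1 := hm ▸ le_max_left _ _
  have b1 : b ≤ 1 := hm ▸ le_max_right _ _
  refine ⟨ξ, η, b - a, ⟨by linarith, by linarith⟩, Bd.ext' fun t ht => ?_⟩
  have e : ca (b - a) = a ∧ ca (-(b - a)) = b := by
    rcases le_total a b with h | h
    · rw [max_eq_right h] at hm
      rw [ca_of_nonneg (by linarith) (by linarith), ca_of_nonpos (by linarith)]
      constructor <;> linarith
    · rw [max_eq_left h] at hm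
      rw [ca_of_nonpos (by linarith), ca_of_nonneg (by linarith) (by linarith)]
      constructor <;> linarith
  rw [JP_pt _ _ _ ht, e.1, e.2, ← hξ t ht, ← hη t ht]

theorem continuous_JP_ang (ξ : Bd r₁) (η : Bd r₂) : Continuous (JP ξ η) :=
  continuous_JP.comp (f := fun θ : ℝ => (ξ, η, θ)) (by fun_prop)

theorem continuous_JP_zero : Continuous fun p : Bd r₁ × Bd r₂ => JP p.1 p.2 0 :=
  continuous_JP.comp (f := fun p : Bd r₁ × Bd r₂ => (p.1, p.2, (0 : ℝ))) (by fun_prop)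

/-- the boundary of a product of spaces with perfect boundaries stays connected when finitely
many points are removed -/
theorem preconnected_compl_finite (ξ₀ : Bd r₁) (η₀ : Bd r₂)
    (p₁ : ∀ ξ : Bd r₁, (𝓝[≠] ξ).NeBot) (p₂ : ∀ η : Bd r₂, (𝓝[≠] η).NeBot)
    {F : Set (Bd (r₁, r₂))} (hF : F.Finite) : IsPreconnected Fᶜ := by
  choose f g θ hθ hfg using exists_JP ξ₀ η₀
  have d1 : Dense (univ \ f '' F) := dense_univ.sdiff_finite (hF.image f)
  have d2 : Dense (univ \ g '' F) := dense_univ.sdiff_finite (hF.image g)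
  have : Nonempty (Bd r₁) := ⟨ξ₀⟩
  have : Nonempty (Bd r₂) := ⟨η₀⟩
  obtain ⟨ξ₁, hξ₁⟩ := d1.nonempty
  obtain ⟨η₁, hη₁⟩ := d2.nonempty
  let arc : Bd r₁ → Bd r₂ → Set (Bd (r₁, r₂)) := fun ξ η => JP ξ η '' Icc (-1) 1
  have harc : ∀ ξ η, IsPreconnected (arc ξ η) := fun ξ η =>
    isPreconnected_Icc.image _ (continuous_JP_ang ξ η).continuousOn
  let G : Set (Bd (r₁, r₂)) := (fun p : Bd r₁ × Bd r₂ × ℝ => JP p.1 p.2.1 p.2.2) ''
    ((univ \ f '' F) ×ˢ (univ \ g '' F) ×ˢ Icc (-1) 1)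
  have hsub : ∀ ξ ∈ univ \ f '' F, ∀ η ∈ univ \ g '' F, arc ξ η ⊆ G := by
    rintro ξ hξ η hη _ ⟨t, ht, rfl⟩
    exact ⟨(ξ, η, t), ⟨hξ, hη, ht⟩, rfl⟩
  have hG : IsPreconnected G := by
    refine isPreconnected_of_forall (JP ξ₁ η₁ (-1)) ?_
    rintro _ ⟨⟨ξ, η, t⟩, ⟨hξ, hη, ht⟩, rfl⟩
    refine ⟨arc ξ η ∪ arc ξ₁ η, union_subset (hsub ξ hξ η hη) (hsub ξ₁ hξ₁ η hη), ?_, ?_, ?_⟩
    · exact Or.inr ⟨-1, ⟨le_rfl, by norm_num⟩, JP_neg_one _ _ _⟩
    · exact Or.inl ⟨t, ht, rfl⟩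
    · exact (harc ξ η).union (JP ξ η 1) ⟨1, ⟨by norm_num, le_rfl⟩, rfl⟩
        ⟨1, ⟨by norm_num, le_rfl⟩, JP_one _ _ _⟩ (harc ξ₁ η)
  refine hG.subset_closure ?_ ?_
  · rintro _ ⟨⟨ξ, η, t⟩, ⟨hξ, hη, ht⟩, rfl⟩ hc
    have := JP_inj ht (hθ _) (hfg (JP ξ η t))
    rcases lt_or_ge t 1 with h | h
    · exact hξ.2 ⟨_, hc, (this.2.1 h).symm⟩
    · exact hη.2 ⟨_, hc, (this.2.2 (by linarith)).symm⟩
  · intro c _
    rw [hfg c]
    refine image_closure_subset_closure_image continuous_JP ⟨(f c, g c, θ c), ?_, rfl⟩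
    rw [closure_prod_eq, closure_prod_eq]
    exact ⟨d1 _, d2 _, subset_closure (hθ c)⟩

end Pool.Agent.P.MP_318c20_al.UB
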