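import Pool.Agent.P.MP_318c20_al.UB.Iface

/-!
Tree isomorphisms respect last letters and heights far from the root; the arithmetic step.
-/

namespace Pool.Agent.P.MP_318c20_al.UB

open Set

namespace PSI

theorem onto (Ψ : V → V) (σ : Equiv.Perm Col) (h : ∀ i x, Ψ (mv i x) = mv (σ i) (Ψ x)) :
    ∀ y, ∃ x, Ψ x = y := by
  refine mv_ind (Ψ root) (fun y => ∃ x, Ψ x = y) ⟨root, rfl⟩ ?_
  rintro _ L ⟨x, rfl⟩
  exact ⟨mv (σ.symm L) x, by rw [h, Equiv.apply_symm_apply]⟩

theorem exists_hd {x : V} (hx : 1 ≤ x.1.length) : ∃ i, hd x = some i := by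
  obtain ⟨w, hw⟩ := x
  cases w with
  | nil => simp at hx
  | cons a u => exact ⟨a, rfl⟩

theorem heads (Ψ : V → V) (σ : Equiv.Perm Col) (h : ∀ i x, Ψ (mv i x) = mv (σ i) (Ψ x)) :
    ∃ N, 1 ≤ N ∧ ∀ x : V, N ≤ x.1.length → hd (Ψ x) = (hd x).map σ := by
  obtain ⟨z, hz⟩ := onto Ψ σ h root
  refine ⟨z.1.length + 1, by omega, fun x hx => ?_⟩
  obtain ⟨i, hi⟩ := exists_hd (x := x) (by omega)
  have h1 : z ∈ Far x i := (far_in hi).2 fun e => by have := e.length_le; omega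
  have h2 := equi_far σ.injective h h1
  rw [hz] at h2
  rw [hi, Option.map_some]
  by_contra e
  exact root_not_far e h2

theorem small (N : ℕ) : {x : V | x.1.length < N}.Finite :=
  (List.finite_length_lt Col N).preimage (f := fun x : V => x.1) Subtype.val_injective.injOn

theorem ratio {a b a' b' : ℝ} (ha : 0 < a) (hb : 0 < b) (ha' : 0 < a')
    (h : ∀ p q : ℕ, p * a ≤ q * b → p * a' ≤ q * b') : b * a' ≤ a * b' := by
  by_contra e
  push Not at e
  have h1 : max (b' / a') 0 < b / a := by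
    refine max_lt ?_ (div_pos hb ha)
    rw [div_lt_div_iff₀ ha' ha]; linarith
  obtain ⟨r, hr1, hr2⟩ := exists_rat_btwn h1
  have hr0 : (0 : ℝ) < r := (le_max_right _ _).trans_lt hr1
  have hr0' : 0 < r := by exact_mod_cast hr0
  have hn : 0 ≤ r.num := (Rat.num_pos.2 hr0').le
  have hd0 : (0 : ℝ) < r.den := by exact_mod_cast r.den_pos
  have hc : ((r.num.toNat : ℕ) : ℝ) = r * r.den := by
    have : ((r.num.toNat : ℕ) : ℤ) = r.num := Int.toNat_of_nonneg hn
    have h2 : ((r.num.toNat : ℕ) : ℝ) = (r.num : ℝ) := by exact_mod_cast this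
    rw [h2, Rat.cast_def]; field_simp
  have h3 := h r.num.toNat r.den (by
    rw [hc]
    rw [lt_div_iff₀ ha] at hr2
    nlinarith)
  rw [hc] at h3
  have h4 : b' / a' < r := (le_max_left _ _).trans_lt hr1
  rw [div_lt_iff₀ ha'] at h4
  nlinarith

end PSI

theorem PSI : S_PSI := by
  intro Ψ σ h
  obtain ⟨N, hN1, hN⟩ := PSI.heads Ψ σ h
  refine ⟨⟨N, hN⟩, fun l => ?_⟩
  obtain ⟨C, hC⟩ := ((PSI.small N).image fun x => |ht l (Ψ x) - ht (l ∘ σ) x|).bddAbove
  refine ⟨C, root_ind _ (hC ⟨root, by simp only [mem_ofPred_eq, root]; simp; omega, rfl⟩) ?_⟩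
  intro w L hL ih
  by_cases e : (mv L w).1.length < N
  · exact hC ⟨_, e, rfl⟩
  · have h1 := hN (mv L w) (by omega)
    rw [hd_mv_out hL, Option.map_some] at h1
    have h2 := hd_mv_in h1
    rw [h, mv_mv] at h2
    rw [h, ht_mv_out l h2, ht_mv_out _ hL]
    simpa using ih

theorem ARITH : S_ARITH := by
  intro t t' σ h
  have hp : ∀ i, 0 < (len t).1 i := fun i => one_pos.trans_le ((len t).2 i)
  have hp' : ∀ i, 0 < (len t').1 i := fun i => one_pos.trans_le ((len t').2 i)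
  have key : ∀ i j c, i ≠ j → i ≠ c → j ≠ c →
      ((len t).1 i + (len t).1 c) * ((len t').1 (σ i) + (len t').1 (σ j)) =
      ((len t).1 i + (len t).1 j) * ((len t').1 (σ i) + (len t').1 (σ c)) := by
    intro i j c h1 h2 h3
    have a1 := PSI.ratio (add_pos (hp i) (hp j)) (add_pos (hp i) (hp c))
      (add_pos (hp' (σ i)) (hp' (σ j))) (h i j c h1 h2 h3)
    have a2 := PSI.ratio (add_pos (hp i) (hp c)) (add_pos (hp i) (hp j))
      (add_pos (hp' (σ i)) (hp' (σ c))) (h i c j h2 h1 h3.symm)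
    simp only [Function.comp] at a1 a2
    linarith
  have l1 : ∀ s (i : Col), i ≠ 3 → (len s).1 i = 1 := fun s i hi => if_neg hi
  have l3 : ∀ s, (len s).1 3 = 1 + Real.exp s := fun s => by simp [len]
  obtain ⟨m, hm⟩ := σ.surjective 3
  have hs : ∀ i, i ≠ m → σ i ≠ 3 := fun i hi e => hi (σ.injective (e.trans hm.symm))
  by_cases e : m = 3
  · subst e
    have := key 0 3 1 (by decide) (by decide) (by decide)
    rw [hm, l3, l3, l1 t 0 (by decide), l1 t 1 (by decide), l1 t' _ (hs 0 (by decide)),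
      l1 t' _ (hs 1 (by decide))] at this
    exact Real.exp_injective (by linarith)
  · exfalso
    have ex : ∀ m : Col, ∃ i c : Col, i ≠ m ∧ c ≠ m ∧ i ≠ 3 ∧ c ≠ 3 ∧ i ≠ c := by decide
    obtain ⟨i, c, h1, h2, h3, h4, h5⟩ := ex m
    have := key i m c h1 h5 h2.symm
    rw [hm, l3, l1 t i h3, l1 t c h4, l1 t m e, l1 t' _ (hs i h1), l1 t' _ (hs c h2)] at this
    linarith [Real.exp_pos t']

end Pool.Agent.P.MP_318c20_al.UB
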