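import Pool.Agent.P.MP_318c20_al.UB.Prod

namespace Pool.Agent.P.MP_318c20_al.UB

open Set Filter Topology

section Rook

variable {α β α' β' : Type}

theorem rook_line {ι : Type} (p : ι → α' × β')
    (h : ∀ i j, (p i).1 = (p j).1 ∨ (p i).2 = (p j).2) :
    (∀ i j, (p i).1 = (p j).1) ∨ ∀ i j, (p i).2 = (p j).2 := by
  by_contra hc
  push Not at hc
  obtain ⟨⟨i, j, hij⟩, k, l, hkl⟩ := hc
  have e1 : (p i).2 = (p j).2 := (h i j).resolve_left hij
  have e2 : (p k).1 = (p l).1 := (h k l).resolve_right hkl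
  -- one of k, l has second coordinate different from that of i and j
  have aux : ∀ m, (p m).2 ≠ (p i).2 → False := fun m hm =>
    hij (((h m i).resolve_right hm).symm.trans ((h m j).resolve_right (by rwa [← e1])))
  by_cases hk : (p k).2 = (p i).2
  · exact aux l fun hl => hkl (hk.trans hl.symm)
  · exact aux k hk

/-- a bijection of products preserving the relation of sharing a coordinate is a product map,
up to exchanging the factors -/
theorem rook [Nontrivial α] [Nontrivial β] (f : α × β ≃ α' × β')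
    (h : ∀ p q, (p.1 = q.1 ∨ p.2 = q.2) ↔ ((f p).1 = (f q).1 ∨ (f p).2 = (f q).2)) :
    ((∀ a b b', (f (a, b)).1 = (f (a, b')).1) ∧ ∀ a a' b, (f (a, b)).2 = (f (a', b)).2) ∨
    ((∀ a b b', (f (a, b)).2 = (f (a, b')).2) ∧ ∀ a a' b, (f (a, b)).1 = (f (a', b)).1) := by
  have row : ∀ a, (∀ b b', (f (a, b)).1 = (f (a, b')).1) ∨ ∀ b b', (f (a, b)).2 = (f (a, b')).2 :=
    fun a => rook_line (fun b => f (a, b)) fun b b' => (h (a, b) (a, b')).1 (Or.inl rfl)
  have col : ∀ b, (∀ a a', (f (a, b)).1 = (f (a', b)).1) ∨ ∀ a a', (f (a, b)).2 = (f (a', b)).2 :=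
    fun b => rook_line (fun a => f (a, b)) fun a a' => (h (a, b) (a', b)).1 (Or.inr rfl)
  have n1 : ∀ a b, (∀ b b', (f (a, b)).1 = (f (a, b')).1) →
      (∀ a a', (f (a, b)).1 = (f (a', b)).1) → False := by
    intro a b h1 h2
    obtain ⟨a', ha⟩ := exists_ne a
    obtain ⟨b', hb⟩ := exists_ne b
    rcases (h (a', b) (a, b')).2 (Or.inl ((h2 a' a).trans (h1 b b'))) with e | e
    · exact ha e
    · exact hb e.symm
  have n2 : ∀ a b, (∀ b b', (f (a, b)).2 = (f (a, b')).2) →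
      (∀ a a', (f (a, b)).2 = (f (a', b)).2) → False := by
    intro a b h1 h2
    obtain ⟨a', ha⟩ := exists_ne a
    obtain ⟨b', hb⟩ := exists_ne b
    rcases (h (a', b) (a, b')).2 (Or.inr ((h2 a' a).trans (h1 b b'))) with e | e
    · exact ha e
    · exact hb e.symm
  obtain ⟨a0, -⟩ := exists_pair_ne α
  obtain ⟨b0, -⟩ := exists_pair_ne β
  rcases row a0 with r | r
  · have c : ∀ b a a', (f (a, b)).2 = (f (a', b)).2 := fun b =>
      (col b).resolve_left (n1 a0 b r)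
    exact Or.inl ⟨fun a => (row a).resolve_right fun r' => n2 a b0 r' (c b0),
      fun a a' b => c b a a'⟩
  · have c : ∀ b a a', (f (a, b)).1 = (f (a', b)).1 := fun b =>
      (col b).resolve_right (n2 a0 b r)
    exact Or.inr ⟨fun a => (row a).resolve_left fun r' => n1 a b0 r' (c b0),
      fun a a' b => c b a a'⟩

variable [TopologicalSpace α] [TopologicalSpace β] [TopologicalSpace α'] [TopologicalSpace β']

theorem split_homeo [Nonempty α] [Nonempty β] [CompactSpace α] [CompactSpace β] [T2Space α']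
    [T2Space β'] (f : α × β ≃ₜ α' × β') (h1 : ∀ a b b', (f (a, b)).1 = (f (a, b')).1)
    (h2 : ∀ a a' b, (f (a, b)).2 = (f (a', b)).2) :
    ∃ (u : α ≃ₜ α') (v : β ≃ₜ β'), ∀ a b, f (a, b) = (u a, v b) := by
  obtain ⟨a0⟩ := ‹Nonempty α›
  obtain ⟨b0⟩ := ‹Nonempty β›
  have e : ∀ a b, f (a, b) = ((f (a, b0)).1, (f (a0, b)).2) := fun a b =>
    Prod.ext (h1 a b b0) (h2 a a0 b)
  have c1 : Continuous fun a => (f (a, b0)).1 := by fun_prop
  have c2 : Continuous fun b => (f (a0, b)).2 := by fun_prop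
  have i1 : Function.Bijective fun a => (f (a, b0)).1 := by
    refine ⟨fun a a' ha => (Prod.ext_iff.1 (f.injective (Prod.ext ha (h2 a a' b0)))).1,
      fun x => ?_⟩
    obtain ⟨⟨a, b⟩, hp⟩ := f.surjective (x, (f (a0, b0)).2)
    exact ⟨a, by rw [e] at hp; exact (Prod.ext_iff.1 hp).1⟩
  have i2 : Function.Bijective fun b => (f (a0, b)).2 := by
    refine ⟨fun b b' hb => (Prod.ext_iff.1 (f.injective (Prod.ext (h1 a0 b b') hb))).2,
      fun x => ?_⟩
    obtain ⟨⟨a, b⟩, hp⟩ := f.surjective ((f (a0, b0)).1, x)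
    exact ⟨b, by rw [e] at hp; exact (Prod.ext_iff.1 hp).2⟩
  exact ⟨(Equiv.ofBijective _ i1).toHomeomorphOfContinuousClosed c1 c1.isClosedMap,
    (Equiv.ofBijective _ i2).toHomeomorphOfContinuousClosed c2 c2.isClosedMap, e⟩

/-- a homeomorphism carrying one embedded subspace onto another restricts to them -/
theorem restrict_homeo {Y Y' Z Z' : Type} [TopologicalSpace Y] [TopologicalSpace Y']
    [TopologicalSpace Z] [TopologicalSpace Z'] {i : Y → Z} {i' : Y' → Z'} (hi : IsEmbedding i)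
    (hi' : IsEmbedding i') (h : Z ≃ₜ Z') (hr : h '' range i = range i') :
    ∃ k : Y ≃ₜ Y', ∀ y, i' (k y) = h (i y) := by
  refine ⟨hi.toHomeomorph.trans (((h.image (range i)).trans (Homeomorph.setCongr hr)).trans
    hi'.toHomeomorph.symm), fun y => ?_⟩
  have : ∀ z : range i', i' (hi'.toHomeomorph.symm z) = z := fun z =>
    congrArg Subtype.val (hi'.toHomeomorph.apply_symm_apply z)
  simp only [Homeomorph.trans_apply, this]
  rfl

end Rook

variable {T₁ T₂ : Type} [MetricSpace T₁] [MetricSpace T₂] [Good T₁] [Good T₂]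
  {r₁ : T₁} {r₂ : T₂}

/-- the diagonal level of the join -/
def Lev (r₁ : T₁) (r₂ : T₂) : Set (Bd (r₁, r₂)) := range fun p : Bd r₁ × Bd r₂ => JP p.1 p.2 0

theorem lev_embedding : IsClosedEmbedding fun p : Bd r₁ × Bd r₂ => JP p.1 p.2 0 :=
  continuous_JP_zero.isClosedEmbedding fun _ _ e => Prod.ext (JP_zero_inj e).1 (JP_zero_inj e).2

theorem isClosed_lev : IsClosed (Lev r₁ r₂) := lev_embedding.isClosed_range

omit [Good T₁] [Good T₂] in
theorem JP_mem_lev {ξ : Bd r₁} {η : Bd r₂} {θ : ℝ} (h : θ ∈ Icc (-1 : ℝ) 1) :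
    JP ξ η θ ∈ Lev r₁ r₂ ↔ θ = 0 := by
  constructor
  · rintro ⟨p, hp⟩
    exact (JP_inj h (by norm_num) hp.symm).1
  · rintro rfl
    exact ⟨(ξ, η), rfl⟩

/-- two points are aligned if they lie in the closure of a connected set missing `S` -/
def Aligned {Z : Type} [TopologicalSpace Z] (S : Set Z) (a b : Z) : Prop :=
  ∃ C, IsPreconnected C ∧ C ⊆ Sᶜ ∧ a ∈ closure C ∧ b ∈ closure C

theorem Aligned.image {Z Z' : Type} [TopologicalSpace Z] [TopologicalSpace Z'] (h : Z ≃ₜ Z')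
    {S : Set Z} {a b : Z} (H : Aligned S a b) : Aligned (h '' S) (h a) (h b) := by
  obtain ⟨C, h1, h2, h3, h4⟩ := H
  refine ⟨h '' C, h1.image _ h.continuous.continuousOn, ?_, ?_, ?_⟩
  · rw [← image_compl_eq h.bijective]; exact image_mono h2
  · rw [← h.image_closure]; exact mem_image_of_mem _ h3
  · rw [← h.image_closure]; exact mem_image_of_mem _ h4

theorem aligned_fst (ξ : Bd r₁) (η η' : Bd r₂) : Aligned (Lev r₁ r₂) (JP ξ η 0) (JP ξ η' 0) := by
  have cl : ∀ η : Bd r₂, JP ξ η 0 ∈ closure (JP ξ η '' Ico (-1) 0) := fun η =>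
    image_closure_subset_closure_image (continuous_JP_ang ξ η)
      ⟨0, by rw [closure_Ico (by norm_num)]; norm_num, rfl⟩
  have pc : ∀ η : Bd r₂, IsPreconnected (JP ξ η '' Ico (-1) 0) := fun η =>
    isPreconnected_Ico.image _ (continuous_JP_ang ξ η).continuousOn
  have sub : ∀ η : Bd r₂, JP ξ η '' Ico (-1) 0 ⊆ (Lev r₁ r₂)ᶜ := by
    rintro η _ ⟨t, ht, rfl⟩ hl
    exact ht.2.ne ((JP_mem_lev ⟨ht.1, by linarith [ht.2]⟩).1 hl)
  exact ⟨JP ξ η '' Ico (-1) 0 ∪ JP ξ η' '' Ico (-1) 0, IsPreconnected.union (JP ξ η (-1))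
    ⟨-1, by norm_num, rfl⟩
    ⟨-1, by norm_num, JP_neg_one _ _ _⟩ (pc η) (pc η'), union_subset (sub η) (sub η'),
    closure_mono subset_union_left (cl η), closure_mono subset_union_right (cl η')⟩

theorem aligned_snd (ξ ξ' : Bd r₁) (η : Bd r₂) : Aligned (Lev r₁ r₂) (JP ξ η 0) (JP ξ' η 0) := by
  have cl : ∀ ξ : Bd r₁, JP ξ η 0 ∈ closure (JP ξ η '' Ioc 0 1) := fun ξ =>
    image_closure_subset_closure_image (continuous_JP_ang ξ η)
      ⟨0, by rw [closure_Ioc (by norm_num)]; norm_num, rfl⟩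
  have pc : ∀ ξ : Bd r₁, IsPreconnected (JP ξ η '' Ioc 0 1) := fun ξ =>
    isPreconnected_Ioc.image _ (continuous_JP_ang ξ η).continuousOn
  have sub : ∀ ξ : Bd r₁, JP ξ η '' Ioc 0 1 ⊆ (Lev r₁ r₂)ᶜ := by
    rintro ξ _ ⟨t, ht, rfl⟩ hl
    exact ht.1.ne' ((JP_mem_lev ⟨by linarith [ht.1], ht.2⟩).1 hl)
  exact ⟨JP ξ η '' Ioc 0 1 ∪ JP ξ' η '' Ioc 0 1, IsPreconnected.union (JP ξ η 1)
    ⟨1, by norm_num, rfl⟩ ⟨1, by norm_num, JP_one _ _ _⟩ (pc ξ) (pc ξ'),
    union_subset (sub ξ) (sub ξ'),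
    closure_mono subset_union_left (cl ξ), closure_mono subset_union_right (cl ξ')⟩

theorem closed_piece {U : Set (Bd r₁)} {V : Set (Bd r₂)} (hU : IsClosed U) (hV : IsClosed V)
    (a b : ℝ) : IsClosed ((fun p : Bd r₁ × Bd r₂ × ℝ => JP p.1 p.2.1 p.2.2) ''
      (U ×ˢ V ×ˢ Icc a b)) :=
  ((hU.isCompact.prod (hV.isCompact.prod isCompact_Icc)).image continuous_JP).isClosed

theorem sub_closed_piece {Z : Type} [TopologicalSpace Z] {C E F : Set Z} (hC : IsPreconnected C)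
    (hE : IsClosed E) (hF : IsClosed F) (hcov : C ⊆ E ∪ F) (hd : ∀ z ∈ E, z ∉ F) {a b : Z}
    (ha : a ∈ closure C) (hb : b ∈ closure C) (haF : a ∉ F) (hbE : b ∉ E) : False := by
  rcases (isPreconnected_iff_subset_of_disjoint_closed.1 hC) E F hE hF hcov
    (eq_empty_of_forall_notMem fun z hz => hd z hz.2.1 hz.2.2) with h | h
  · exact hbE (closure_minimal h hE hb)
  · exact haF (closure_minimal h hF ha)

theorem aligned_iff [TotallyDisconnectedSpace (Bd r₁)] [TotallyDisconnectedSpace (Bd r₂)]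
    (ξ ξ' : Bd r₁) (η η' : Bd r₂) :
    Aligned (Lev r₁ r₂) (JP ξ η 0) (JP ξ' η' 0) ↔ ξ = ξ' ∨ η = η' := by
  refine ⟨?_, ?_⟩
  · rintro ⟨C, hC, hsub, ha, hb⟩
    by_contra hne
    push Not at hne
    obtain ⟨U, hU, hξ, hξ'⟩ := exists_isClopen_of_totally_separated hne.1
    obtain ⟨V, hV, hη, hη'⟩ := exists_isClopen_of_totally_separated hne.2
    have z0 : (0 : ℝ) ∈ Icc (-1 : ℝ) 1 := by norm_num
    have hang : ∀ c ∈ C, ang c ≠ 0 := by
      intro c hc h0
      obtain ⟨x, y, θ, hθ, rfl⟩ := exists_JP ξ η c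
      rw [ang_JP _ _ hθ] at h0
      exact hsub hc ((JP_mem_lev hθ).2 h0)
    rcases hC.subset_or_subset (isOpen_lt continuous_ang continuous_const)
      (isOpen_lt (continuous_const (y := (0 : ℝ))) continuous_ang)
      (disjoint_left.2 fun c (h1 : ang c < 0) (h2 : 0 < ang c) => lt_asymm h1 h2)
      (fun c hc => (hang c hc).lt_or_gt) with h | h
    · refine sub_closed_piece hC (closed_piece hU.isClosed isClosed_univ (-1) 0)
        (closed_piece hU.compl.isClosed isClosed_univ (-1) 0) ?_ ?_ ha hb ?_ ?_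
      · intro c hc
        obtain ⟨x, y, θ, hθ, rfl⟩ := exists_JP ξ η c
        have h1 : ang (JP x y θ) < 0 := h hc
        rw [ang_JP _ _ hθ] at h1
        by_cases hx : x ∈ U
        · exact Or.inl ⟨(x, y, θ), ⟨hx, trivial, hθ.1, h1.le⟩, rfl⟩
        · exact Or.inr ⟨(x, y, θ), ⟨hx, trivial, hθ.1, h1.le⟩, rfl⟩
      · rintro _ ⟨⟨x, y, θ⟩, ⟨hx, -, h1⟩, rfl⟩ ⟨⟨x', y', θ'⟩, ⟨hx', -, h2⟩, e⟩
        have := (JP_inj ⟨h2.1, h2.2.trans zero_le_one⟩ ⟨h1.1, h1.2.trans zero_le_one⟩ e).2.1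
          (h2.2.trans_lt one_pos)
        exact hx' (by rw [show x' = x from this]; exact hx)
      · rintro ⟨⟨x, y, θ⟩, ⟨hx, -, h1⟩, e⟩
        have := (JP_inj z0 ⟨h1.1, h1.2.trans zero_le_one⟩ e.symm).2.1 one_pos
        exact hx (by rw [show x = ξ from this.symm]; exact hξ)
      · rintro ⟨⟨x, y, θ⟩, ⟨hx, -, h1⟩, e⟩
        have := (JP_inj z0 ⟨h1.1, h1.2.trans zero_le_one⟩ e.symm).2.1 one_pos
        exact hξ' (by rw [show ξ' = x from this]; exact hx)
    · have m1 : (-1 : ℝ) ≤ 0 := by norm_num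
      have m2 : (-1 : ℝ) < 0 := by norm_num
      refine sub_closed_piece hC (closed_piece isClosed_univ hV.isClosed 0 1)
        (closed_piece isClosed_univ hV.compl.isClosed 0 1) ?_ ?_ ha hb ?_ ?_
      · intro c hc
        obtain ⟨x, y, θ, hθ, rfl⟩ := exists_JP ξ η c
        have h1 : 0 < ang (JP x y θ) := h hc
        rw [ang_JP _ _ hθ] at h1
        by_cases hy : y ∈ V
        · exact Or.inl ⟨(x, y, θ), ⟨trivial, hy, h1.le, hθ.2⟩, rfl⟩
        · exact Or.inr ⟨(x, y, θ), ⟨trivial, hy, h1.le, hθ.2⟩, rfl⟩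
      · rintro _ ⟨⟨x, y, θ⟩, ⟨-, hy, h1⟩, rfl⟩ ⟨⟨x', y', θ'⟩, ⟨-, hy', h2⟩, e⟩
        have := (JP_inj ⟨m1.trans h2.1, h2.2⟩ ⟨m1.trans h1.1, h1.2⟩ e).2.2 (m2.trans_le h2.1)
        exact hy' (by rw [show y' = y from this]; exact hy)
      · rintro ⟨⟨x, y, θ⟩, ⟨-, hy, h1⟩, e⟩
        have := (JP_inj z0 ⟨m1.trans h1.1, h1.2⟩ e.symm).2.2 m2
        exact hy (by rw [show y = η from this.symm]; exact hη)
      · rintro ⟨⟨x, y, θ⟩, ⟨-, hy, h1⟩, e⟩
        have := (JP_inj z0 ⟨m1.trans h1.1, h1.2⟩ e.symm).2.2 m2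
        exact hη' (by rw [show η' = y from this]; exact hy)
  · rintro (rfl | rfl)
    · exact aligned_fst _ _ _
    · exact aligned_snd _ _ _

variable {S₁ S₂ : Type} [MetricSpace S₁] [MetricSpace S₂] [Good S₁] [Good S₂]
  {s₁ : S₁} {s₂ : S₂}

/-- a homeomorphism of joins preserving the diagonal level is a product map on that level -/
theorem prod_of_homeo [TotallyDisconnectedSpace (Bd r₁)] [TotallyDisconnectedSpace (Bd r₂)]
    [TotallyDisconnectedSpace (Bd s₁)] [TotallyDisconnectedSpace (Bd s₂)]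
    [Nontrivial (Bd r₁)] [Nontrivial (Bd r₂)] (h : Bd (r₁, r₂) ≃ₜ Bd (s₁, s₂))
    (hl : h '' Lev r₁ r₂ = Lev s₁ s₂) :
    (∃ (u : Bd r₁ ≃ₜ Bd s₁) (v : Bd r₂ ≃ₜ Bd s₂), ∀ ξ η, h (JP ξ η 0) = JP (u ξ) (v η) 0) ∨
    ∃ (u : Bd r₁ ≃ₜ Bd s₂) (v : Bd r₂ ≃ₜ Bd s₁), ∀ ξ η, h (JP ξ η 0) = JP (v η) (u ξ) 0 := by
  obtain ⟨k, hk⟩ := restrict_homeo lev_embedding.isEmbedding lev_embedding.isEmbedding h hl
  have hl' : h.symm '' Lev s₁ s₂ = Lev r₁ r₂ := by
    rw [← hl, image_image]; simp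
  have key : ∀ p q : Bd r₁ × Bd r₂,
      (p.1 = q.1 ∨ p.2 = q.2) ↔ ((k p).1 = (k q).1 ∨ (k p).2 = (k q).2) := by
    intro p q
    rw [← aligned_iff, ← aligned_iff, hk, hk]
    constructor
    · intro H
      have := H.image h
      rwa [hl] at this
    · intro H
      have := H.image h.symm
      rwa [hl', h.symm_apply_apply, h.symm_apply_apply] at this
  rcases rook k.toEquiv key with ⟨a, b⟩ | ⟨a, b⟩
  · obtain ⟨u, v, e⟩ := split_homeo k a b
    exact Or.inl ⟨u, v, fun ξ η => by rw [← hk (ξ, η), e]⟩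
  · obtain ⟨u, v, e⟩ := split_homeo (k.trans (Homeomorph.prodComm _ _)) a b
    refine Or.inr ⟨u, v, fun ξ η => ?_⟩
    have e1 : (k (ξ, η)).2 = u ξ := (Prod.ext_iff.1 (e ξ η)).1
    have e2 : (k (ξ, η)).1 = v η := (Prod.ext_iff.1 (e ξ η)).2
    rw [← hk (ξ, η), e1, e2]

end Pool.Agent.P.MP_318c20_al.UB
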