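import Pool.Agent.P.MP_318c20_al.UB.Core

namespace Pool.Agent.P.MP_318c20_al.UB

open Set Filter Topology

variable {A Λ X : Type} [MetricSpace A] [MetricSpace X]

namespace TS

variable {D : Gt A Λ} (S : TS D X)

/-- the gate to a cylinder -/
theorem cyl_gate (w : Rw Λ) (L : Λ) (x : X) : ∃ q ∈ D.M L, ∃ h ∈ Icc 0 (D.e L), ∃ G : ℝ,
    (∀ m ∈ D.M L, ∀ k ∈ Icc 0 (D.e L), dist x (S.E w L m k) = G + dist q m + |h - k|) ∧
    ((x ∈ S.Near w L ∧ h = 0) ∨ x = S.E w L q h ∨ (x ∈ S.Near (mv L w) L ∧ h = D.e L)) := by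
  rcases S.trichotomy w L x with hx | ⟨q, hq, h, hh, rfl⟩ | hx
  · refine ⟨_, D.g_mem L (S.π w x), 0, D.zero_mem L, S.H w x + dist (S.π w x) (D.g L (S.π w x)),
      fun m hm k hk => ?_, Or.inl ⟨hx, rfl⟩⟩
    rw [S.dist_E hx hm hk, S.gate, D.gate L _ m hm, zero_sub, abs_neg, abs_of_nonneg hk.1]; ring
  · exact ⟨q, hq, h, hh, 0, fun m hm k hk => by rw [S.cyl w L q hq m hm h hh k hk, zero_add],
      Or.inr (Or.inl rfl)⟩
  · refine ⟨_, D.g_mem L (S.π (mv L w) x), _, D.e_mem L,
      S.H (mv L w) x + dist (S.π (mv L w) x) (D.g L (S.π (mv L w) x)),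
      fun m hm k hk => ?_, Or.inr (Or.inr ⟨hx, rfl⟩)⟩
    rw [← S.E_flip w L m hm k hk, S.dist_E hx hm ⟨by linarith [hk.2], by linarith [hk.1]⟩, S.gate,
      D.gate L _ m hm, abs_of_nonneg (by linarith [hk.2])]; ring

theorem far_near (x : X) : ∃ N : ℕ, ∀ w L, hd w ≠ some L → N ≤ w.1.length → x ∈ S.Near w L := by
  rcases S.cover x with ⟨u, hu⟩ | ⟨u, K, hu⟩
  · exact ⟨_, fun w L h1 h2 => S.Pc_subset_Near (not_far_of_length h1 h2) hu⟩
  · exact ⟨max u.1.length (mv K u).1.length, fun w L h1 h2 => S.Cyl_subset_Near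
      (not_far_of_length h1 ((le_max_left _ _).trans h2))
      (not_far_of_length h1 ((le_max_right _ _).trans h2)) hu⟩

variable {ι : Type} (p : ι → X) (r : ι → ℝ)

/-- two balls behind the wall whose traces on the piece do not meet -/
def Bad (w : Rw Λ) (L : Λ) : Prop :=
  ∃ i j, p i ∈ S.Side w L ∧ p j ∈ S.Side w L ∧
    r i - S.H w (p i) + (r j - S.H w (p j)) < dist (S.π w (p i)) (S.π w (p j))

theorem helly_piece (hA : Helly A) (h : ∀ i j, dist (p i) (p j) ≤ r i + r j) (w : Rw Λ)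
    (hw : ∀ L, ¬ S.Bad p r w L) : ∃ z, ∀ i, dist z (p i) ≤ r i := by
  obtain ⟨z, hz⟩ := hA ι (fun i => S.π w (p i)) (fun i => r i - S.H w (p i)) (by
    intro i j
    have hij := h i j
    rcases S.pc_or_side w (p i) with ⟨a, ha⟩ | ⟨L, hL⟩
    · rw [← ha, dist_comm, S.gate, dist_comm] at hij
      simp only [← ha, S.H_ι, S.π_ι]; linarith
    rcases S.pc_or_side w (p j) with ⟨a, ha⟩ | ⟨L', hL'⟩
    · rw [← ha, S.gate] at hij
      simp only [← ha, S.H_ι, S.π_ι]; linarith
    by_cases e : L = L'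
    · subst e
      by_contra hc
      exact hw L ⟨i, j, hL, hL', not_le.1 hc⟩
    · rw [S.add (S.side_subset_near w e hL) hL'] at hij
      linarith)
  refine ⟨S.ι w z, fun i => ?_⟩
  have := hz i
  rw [dist_comm, S.gate, dist_comm]; linarith

theorem bad_near (h : ∀ i j, dist (p i) (p j) ≤ r i + r j) {w : Rw Λ} {L : Λ}
    (hb : S.Bad p r w L) {i j : ι} (hi : p i ∈ S.Near w L) (hj : p j ∈ S.Near w L) {a b : A}
    (ha : a ∈ D.M L) (hb' : b ∈ D.M L) {G G' : ℝ}
    (e : ∀ m ∈ D.M L, dist (p i) (S.ι w m) = G + dist a m)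
    (e' : ∀ m ∈ D.M L, dist (p j) (S.ι w m) = G' + dist b m) :
    dist a b ≤ r i - G + (r j - G') := by
  obtain ⟨k, l, hk, hl, hlt⟩ := hb
  have h1 := h i k
  have h2 := h i l
  have h3 := h j k
  have h4 := h j l
  rw [S.sep' hi hk, e _ (S.π_mem hk)] at h1
  rw [S.sep' hi hl, e _ (S.π_mem hl)] at h2
  rw [S.sep' hj hk, e' _ (S.π_mem hk)] at h3
  rw [S.sep' hj hl, e' _ (S.π_mem hl)] at h4
  have := D.four L a ha b hb' _ (S.π_mem hk) _ (S.π_mem hl)
  rcases le_max_iff.1 this with t | t <;> linarith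

theorem helly_cyl [Finite ι] [Nonempty ι] (hA : Helly A) (h : ∀ i j, dist (p i) (p j) ≤ r i + r j)
    {w : Rw Λ} {L : Λ} (b1 : S.Bad p r w L) (b2 : S.Bad p r (mv L w) L) :
    ∃ z, ∀ i, dist z (p i) ≤ r i := by
  choose q hq t ht G hG hc using fun i => S.cyl_gate w L (p i)
  have bot : ∀ i, ∀ m ∈ D.M L, dist (p i) (S.ι w m) = G i + t i + dist (q i) m := by
    intro i m hm
    rw [← S.E_zero w L m hm, hG i m hm 0 (D.zero_mem L), sub_zero, abs_of_nonneg (ht i).1]; ring
  have top : ∀ i, ∀ m ∈ D.M L,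
      dist (p i) (S.ι (mv L w) m) = G i + (D.e L - t i) + dist (q i) m := by
    intro i m hm
    rw [← S.E_top w L hm, hG i m hm _ (D.e_mem L), abs_of_nonpos (by linarith [(ht i).2])]; ring
  have mid : ∀ i j, p j = S.E w L (q j) (t j) →
      dist (q i) (q j) + |t i - t j| ≤ r i - G i + (r j - G j) := by
    intro i j e
    have h0 := hG j _ (hq j) _ (ht j)
    rw [← e, dist_self, dist_self, sub_self, abs_zero] at h0
    have h1 := hG i _ (hq j) _ (ht j)
    rw [← e] at h1
    linarith [h i j]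
  have opp : ∀ i j, p i ∈ S.Near w L → t i = 0 → p j ∈ S.Near (mv L w) L → t j = D.e L →
      dist (q i) (q j) + |t i - t j| ≤ r i - G i + (r j - G j) := by
    intro i j n1 e1 n2 e2
    have s2 := S.near_mv_subset_side w L n2
    have h1 := h i j
    rw [S.sep' n1 s2, bot i _ (S.π_mem s2), S.H_eq, bot j _ (S.π_mem s2)] at h1
    rw [e1, e2, zero_sub, abs_neg, abs_of_pos (D.e_pos L)]
    linarith [dist_triangle_right (q i) (q j) (S.π w (p j))]
  have key : ∀ i j, dist (q i) (q j) + |t i - t j| ≤ r i - G i + (r j - G j) := by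
    intro i j
    rcases hc j with ⟨n2, e2⟩ | e2 | ⟨n2, e2⟩
    · rcases hc i with ⟨n1, e1⟩ | e1 | ⟨n1, e1⟩
      · have := S.bad_near p r h b1 n1 n2 (hq i) (hq j) (bot i) (bot j)
        rw [e1, e2] at this ⊢
        simpa using this
      · have := mid j i e1
        rw [dist_comm, abs_sub_comm]; linarith
      · have := opp j i n2 e2 n1 e1
        rw [dist_comm, abs_sub_comm]; linarith
    · exact mid i j e2
    · rcases hc i with ⟨n1, e1⟩ | e1 | ⟨n1, e1⟩
      · exact opp i j n1 e1 n2 e2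
      · have := mid j i e1
        rw [dist_comm, abs_sub_comm]; linarith
      · have := S.bad_near p r h b2 n1 n2 (hq i) (hq j) (top i) (top j)
        rw [e1, e2] at this ⊢
        simpa using this
  obtain ⟨⟨i, j⟩, hm⟩ := Finite.exists_max fun u : ι × ι =>
    t u.1 + t u.2 - (r u.1 - G u.1 + (r u.2 - G u.2) - dist (q u.1) (q u.2))
  set lo := (t i + t j - (r i - G i + (r j - G j) - dist (q i) (q j))) / 2 with hlo
  have k0 : 0 ≤ max 0 lo := le_max_left _ _
  have k1 : max 0 lo ≤ D.e L := by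
    refine max_le (D.e_pos L).le ?_
    have := key i j
    have := neg_abs_le (t i - t j)
    have := (ht i).2
    rw [hlo]; linarith
  obtain ⟨z, hz⟩ := hA ι q (fun k => r k - G k - |t k - max 0 lo|) (by
    intro k l
    have a1 := hm (k, l)
    have a2 : 2 * max 0 lo ≤ t k + t l + (r k - G k + (r l - G l) - dist (q k) (q l)) := by
      rcases le_total 0 lo with c | c
      · rw [max_eq_right c, hlo]
        have f := D.four L _ (hq i) _ (hq j) _ (hq k) _ (hq l)
        have := key i k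
        have := key j l
        have := key i l
        have := key j k
        have := le_abs_self (t i - t k)
        have := le_abs_self (t j - t l)
        have := le_abs_self (t i - t l)
        have := le_abs_self (t j - t k)
        rcases le_max_iff.1 f with c' | c' <;> linarith
      · rw [max_eq_left c]
        have := key k l
        have := abs_nonneg (t k - t l)
        have := (ht k).1
        have := (ht l).1
        linarith
    have a3 := le_max_right 0 lo
    have a4 := key k l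
    have a5 := le_abs_self (t k - t l)
    have a6 := neg_abs_le (t k - t l)
    simp only at a1
    rcases abs_cases (t k - max 0 lo) with ⟨c1, -⟩ | ⟨c1, -⟩ <;>
      rcases abs_cases (t l - max 0 lo) with ⟨c2, -⟩ | ⟨c2, -⟩ <;> rw [c1, c2] <;> linarith)
  refine ⟨S.E w L (D.g L z) (max 0 lo), fun k => ?_⟩
  have a1 := hz k
  have a2 := D.gate L z _ (hq k)
  have a3 := dist_nonneg (x := z) (y := D.g L z)
  rw [dist_comm, hG k _ (D.g_mem L z) _ ⟨k0, k1⟩, dist_comm]
  linarith

include S in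
theorem helly_finite [Finite ι] [Nonempty ι] (hA : Helly A)
    (h : ∀ i j, dist (p i) (p j) ≤ r i + r j) : ∃ z, ∀ i, dist z (p i) ≤ r i := by
  by_contra hc
  have all : ∀ w, ∃ L, S.Bad p r w L := fun w => by
    by_contra hw
    exact hc (S.helly_piece p r hA h w fun L hL => hw ⟨L, hL⟩)
  have long : ∀ n : ℕ, ∃ w L, hd w ≠ some L ∧ w.1.length = n ∧ S.Bad p r w L := by
    intro n
    induction n with
    | zero =>
      obtain ⟨L, hL⟩ := all root
      exact ⟨root, L, by simp [hd_root], rfl, hL⟩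
    | succ n ih =>
      obtain ⟨w, L, h1, h2, h3⟩ := ih
      obtain ⟨L', hL'⟩ := all (mv L w)
      refine ⟨mv L w, L', fun e => ?_, by rw [mv_out h1, List.length_cons, h2], hL'⟩
      rw [hd_mv_out h1, Option.some.injEq] at e
      subst e
      exact hc (S.helly_cyl p r hA h h3 hL')
  choose N hN using fun i => S.far_near (p i)
  obtain ⟨i0, hi0⟩ := Finite.exists_max N
  obtain ⟨w, L, h1, h2, i, j, hi, hj, hlt⟩ := long (N i0)
  have n := hN i w L h1 (h2 ▸ hi0 i)
  have := h i j
  rw [S.add n hj] at this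
  linarith

include S in
theorem helly [ProperSpace X] (hA : Helly A) : Helly X := by
  classical
  intro ι p r h
  rcases isEmpty_or_nonempty ι with hι | ⟨⟨i0⟩⟩
  · obtain ⟨a, -⟩ := hA Empty Empty.elim Empty.elim fun i => i.elim
    exact ⟨S.ι root a, fun i => isEmptyElim i⟩
  obtain ⟨z, -, hz⟩ := (isCompact_closedBall (p i0) (r i0)).inter_iInter_nonempty
    (fun i => Metric.closedBall (p i) (r i)) (fun i => Metric.isClosed_closedBall) (fun u => by
      have : Nonempty (insert i0 u : Finset ι) := ⟨⟨i0, Finset.mem_insert_self _ _⟩⟩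
      obtain ⟨z, hz⟩ := S.helly_finite (ι := (insert i0 u : Finset ι)) (fun i => p i)
        (fun i => r i) hA fun i j => h i j
      refine ⟨z, hz ⟨i0, Finset.mem_insert_self _ _⟩, ?_⟩
      simp only [mem_iInter]
      exact fun i hi => hz ⟨i, Finset.mem_insert_of_mem hi⟩)
  exact ⟨z, fun i => mem_iInter.1 hz i⟩

end TS

end Pool.Agent.P.MP_318c20_al.UB
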