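import Mathlib

/-!
Reduced words in a set of involutions: the tree of pieces and its automorphism groups.
-/

namespace Pool.Agent.P.MP_318c20_al.UB

open Set

variable {Λ : Type}

/-- Reduced words; the head of the list is the last letter read from the root. -/
def Rw (Λ : Type) : Type := {w : List Λ // w.IsChain (· ≠ ·)}

instance [Countable Λ] : Countable (Rw Λ) := by unfold Rw; infer_instance

def root : Rw Λ := ⟨[], List.isChain_nil⟩

def hd (w : Rw Λ) : Option Λ := w.1.head?

open Classical in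
/-- The neighbour of `w` across the letter `L`. -/
noncomputable def mv (L : Λ) (w : Rw Λ) : Rw Λ :=
  if h : hd w = some L then ⟨w.1.tail, w.2.tail⟩
  else ⟨L :: w.1, w.2.cons fun y hy e => h (by rw [e]; exact hy)⟩

open Classical in
/-- The words on the far side of the edge from `w` to `mv L w`. -/
def Far (w : Rw Λ) (L : Λ) : Set (Rw Λ) :=
  {x | if hd w = some L then ¬ w.1 <:+ x.1 else L :: w.1 <:+ x.1}

theorem hd_root : hd (root : Rw Λ) = none := rfl

theorem mv_out {w : Rw Λ} {L : Λ} (h : hd w ≠ some L) : (mv L w).1 = L :: w.1 := by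
  simp [mv, h]

theorem mv_in {w : Rw Λ} {L : Λ} (h : hd w = some L) : w.1 = L :: (mv L w).1 := by
  simp only [mv, h, dif_pos]
  obtain ⟨w, hw⟩ := w
  cases w with
  | nil => simp [hd] at h
  | cons a u => simp only [hd, List.head?_cons, Option.some.injEq] at h; simp [h]

theorem far_out {w x : Rw Λ} {L : Λ} (h : hd w ≠ some L) : x ∈ Far w L ↔ L :: w.1 <:+ x.1 := by
  simp [Far, h]

theorem far_in {w x : Rw Λ} {L : Λ} (h : hd w = some L) : x ∈ Far w L ↔ ¬ w.1 <:+ x.1 := by
  simp [Far, h]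

theorem hd_mv_out {w : Rw Λ} {L : Λ} (h : hd w ≠ some L) : hd (mv L w) = some L := by
  simp [hd, mv_out h]

theorem hd_mv_in {w : Rw Λ} {L : Λ} (h : hd w = some L) : hd (mv L w) ≠ some L := by
  have h1 := w.2
  rw [mv_in h, List.isChain_cons] at h1
  intro e
  exact h1.1 L e rfl

theorem mv_mv (L : Λ) (w : Rw Λ) : mv L (mv L w) = w := by
  by_cases h : hd w = some L
  · exact Subtype.ext ((mv_out (hd_mv_in h)).trans (mv_in h).symm)
  · have := mv_in (hd_mv_out h)
    rw [mv_out h] at this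
    exact Subtype.ext (List.cons.inj this).2.symm

theorem mv_ne (L : Λ) (w : Rw Λ) : mv L w ≠ w := by
  intro e
  by_cases h : hd w = some L
  · exact hd_mv_in h (by rw [e]; exact h)
  · exact h (by rw [← e]; exact hd_mv_out h)

theorem far_back (w : Rw Λ) (L : Λ) (x : Rw Λ) : x ∈ Far (mv L w) L ↔ x ∉ Far w L := by
  by_cases h : hd w = some L
  · rw [far_out (hd_mv_in h), far_in h, ← mv_in h, not_not]
  · rw [far_in (hd_mv_out h), far_out h, mv_out h]

theorem self_not_far (w : Rw Λ) (L : Λ) : w ∉ Far w L := by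
  by_cases h : hd w = some L
  · rw [far_in h]; simp
  · rw [far_out h]; intro e; have := e.length_le; simp at this

theorem mv_far (w : Rw Λ) (L : Λ) : mv L w ∈ Far w L := by
  by_contra h
  exact self_not_far _ _ ((far_back w L _).2 h)

theorem self_far_mv (w : Rw Λ) (L : Λ) : w ∈ Far (mv L w) L :=
  (far_back w L w).2 (self_not_far w L)

theorem far_uniq {w x : Rw Λ} {L L' : Λ} (h : x ∈ Far w L) (h' : x ∈ Far w L') : L = L' := by
  by_cases a : hd w = some L <;> by_cases b : hd w = some L'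
  · exact Option.some.inj (a.symm.trans b)
  · exact absurd ((List.suffix_cons _ _).trans ((far_out b).1 h')) ((far_in a).1 h)
  · exact absurd ((List.suffix_cons _ _).trans ((far_out a).1 h)) ((far_in b).1 h')
  · have := (List.suffix_of_suffix_length_le ((far_out a).1 h) ((far_out b).1 h')
      (by simp)).eq_of_length (by simp)
    simpa using this

theorem mv_inj {w : Rw Λ} {L L' : Λ} (h : mv L w = mv L' w) : L = L' :=
  far_uniq (mv_far w L) (h ▸ mv_far w L')

theorem exists_child {w x : List Λ} (h : w <:+ x) (hne : x ≠ w) : ∃ a, a :: w <:+ x := by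
  induction x with
  | nil => exact absurd (List.suffix_nil.1 h).symm hne
  | cons b x ih =>
    rcases List.suffix_cons_iff.1 h with h' | h'
    · exact absurd h'.symm hne
    · by_cases e : x = w
      · exact ⟨b, e ▸ List.suffix_refl _⟩
      · obtain ⟨a, ha⟩ := ih h' e
        exact ⟨a, ha.trans (List.suffix_cons _ _)⟩

theorem hd_ne_of_child {w x : Rw Λ} {a : Λ} (h : a :: w.1 <:+ x.1) : hd w ≠ some a := by
  have := x.2.suffix h
  rw [List.isChain_cons] at this
  exact fun e => this.1 a e rfl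

theorem far_of_child {w x : Rw Λ} {a : Λ} (h : a :: w.1 <:+ x.1) : x ∈ Far w a :=
  (far_out (hd_ne_of_child h)).2 h

theorem far_of_not_suffix {w x : Rw Λ} (h : ¬ w.1 <:+ x.1) : ∃ L, hd w = some L ∧ x ∈ Far w L := by
  obtain ⟨w, hw⟩ := w
  cases w with
  | nil => exact absurd List.nil_suffix h
  | cons a u => exact ⟨a, rfl, (far_in (w := ⟨a :: u, hw⟩) rfl).2 h⟩

theorem exists_far {w x : Rw Λ} (h : x ≠ w) : ∃ L, x ∈ Far w L := by
  by_cases hs : w.1 <:+ x.1
  · obtain ⟨a, ha⟩ := exists_child hs (fun e => h (Subtype.ext e))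
    exact ⟨a, far_of_child ha⟩
  · obtain ⟨L, -, hL⟩ := far_of_not_suffix hs
    exact ⟨L, hL⟩

theorem far_step {w x : Rw Λ} {L : Λ} (h : x ∈ Far w L) (L' : Λ) :
    mv L' x ∈ Far w L ∨ (x = mv L w ∧ L' = L) := by
  by_cases a : hd w = some L <;> by_cases b : hd x = some L'
  · left
    rw [far_in a] at h ⊢
    intro e
    apply h
    rw [mv_in b]; exact e.trans (List.suffix_cons _ _)
  · rw [far_in a] at h ⊢
    by_cases e : w.1 <:+ (mv L' x).1
    · right
      rw [mv_out b] at e
      rcases List.suffix_cons_iff.1 e with e | e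
      · rw [mv_in a] at e
        exact ⟨Subtype.ext (List.cons.inj e).2.symm, (List.cons.inj e).1.symm⟩
      · exact absurd e h
    · exact Or.inl e
  · rw [far_out a] at h ⊢
    rw [mv_in b] at h
    rcases List.suffix_cons_iff.1 h with e | e
    · right
      refine ⟨Subtype.ext ?_, (List.cons.inj e).1.symm⟩
      rw [mv_in b, mv_out a, e]
    · exact Or.inl e
  · left
    rw [far_out a] at h ⊢
    rw [mv_out b]; exact h.trans (List.suffix_cons _ _)

/-- Crossing an edge other than `(w, L)` does not change the side. -/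
theorem far_mv_iff {w x : Rw Λ} {L L' : Λ} (h1 : ¬ (x = w ∧ L' = L)) (h2 : ¬ (x = mv L w ∧ L' = L)) :
    mv L' x ∈ Far w L ↔ x ∈ Far w L := by
  constructor
  · intro h
    rcases far_step h L' with h | ⟨h, rfl⟩
    · rwa [mv_mv] at h
    · exact absurd ⟨by rw [← mv_mv L' x, h, mv_mv], rfl⟩ h1
  · exact fun h => (far_step h L').resolve_right h2

theorem far_nest {w x : Rw Λ} {L L' : Λ} (hL : L' ≠ L) (h : x ∈ Far (mv L w) L') : x ∈ Far w L := by
  by_contra e
  exact hL (far_uniq h ((far_back w L x).2 e))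

theorem not_far_of_length {w x : Rw Λ} {L : Λ} (h : hd w ≠ some L)
    (hx : x.1.length ≤ w.1.length) : x ∉ Far w L := by
  rw [far_out h]
  intro e
  have := e.length_le
  simp at this; omega

theorem root_not_far {w : Rw Λ} {L : Λ} (h : hd w ≠ some L) : root ∉ Far w L :=
  not_far_of_length h (Nat.zero_le _)

/-- Induction from the root. -/
theorem root_ind (Q : Rw Λ → Prop) (h0 : Q root)
    (hs : ∀ w L, hd w ≠ some L → Q w → Q (mv L w)) : ∀ w, Q w := by
  have B : ∀ n, ∀ w : Rw Λ, w.1.length = n → Q w := by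
    intro n
    induction n with
    | zero =>
      intro w hw
      have : w = root := Subtype.ext (List.length_eq_zero_iff.1 hw)
      exact this ▸ h0
    | succ n ih =>
      intro w hw
      obtain ⟨L, hL, -⟩ := far_of_not_suffix (w := w) (x := root) (by
        intro e; have := e.length_le; simp [root] at this; simp [this] at hw)
      have := hs _ L (hd_mv_in hL) (ih _ (by have := mv_in hL; rw [this] at hw; simpa using hw))
      rwa [mv_mv] at this
  exact fun w => B _ w rfl

/-- Induction away from `g`. -/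
theorem tree_ind (g : Rw Λ) (Q : Rw Λ → Prop) (h0 : Q g)
    (hs : ∀ w L, g ∈ Far w L → Q (mv L w) → Q w) : ∀ w, Q w := by
  have A : ∀ n, ∀ w : Rw Λ, w.1 <:+ g.1 → g.1.length - w.1.length = n → Q w := by
    intro n
    induction n with
    | zero =>
      intro w hw hn
      have : w = g := Subtype.ext (hw.eq_of_length (by have := hw.length_le; omega))
      exact this ▸ h0
    | succ n ih =>
      intro w hw hn
      obtain ⟨a, ha⟩ := exists_child hw (fun e => by rw [e] at hn; omega)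
      have b2 := mv_out (hd_ne_of_child ha)
      exact hs w a (far_of_child ha) (ih _ (b2 ▸ ha) (by rw [b2]; simp; omega))
  refine root_ind Q (A _ root List.nil_suffix rfl) fun w L hL ih => ?_
  by_cases e : (mv L w).1 <:+ g.1
  · exact A _ _ e rfl
  · exact hs _ L ((far_in (hd_mv_out hL)).2 e) (by rwa [mv_mv])

/-- Any property stable under all moves spreads from any word. -/
theorem mv_ind (g : Rw Λ) (Q : Rw Λ → Prop) (h0 : Q g) (hs : ∀ w L, Q w → Q (mv L w)) :
    ∀ w, Q w :=
  tree_ind g Q h0 fun w L _ ih => by simpa only [mv_mv] using hs _ L ih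

theorem wf_toward (g : Rw Λ) : WellFounded fun w' w : Rw Λ => ∃ L, g ∈ Far w L ∧ w' = mv L w := by
  refine ⟨tree_ind g _ ⟨_, ?_⟩ ?_⟩
  · rintro _ ⟨L, hL, -⟩; exact absurd hL (self_not_far g L)
  · intro w L hL ih
    refine ⟨_, ?_⟩
    rintro _ ⟨L', hL', rfl⟩
    rwa [far_uniq hL' hL]

/-! ### Equivariant maps and the group -/

/-- The map that sends the root to `y` and intertwines the moves through `σ`. -/
noncomputable def dev {Λ' : Type} (σ : Λ → Λ') (y : Rw Λ') (w : Rw Λ) : Rw Λ' :=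
  w.1.foldr (fun L u => mv (σ L) u) y

theorem dev_root {Λ' : Type} (σ : Λ → Λ') (y : Rw Λ') : dev σ y root = y := rfl

theorem dev_mv {Λ' : Type} (σ : Λ → Λ') (y : Rw Λ') (L : Λ) (w : Rw Λ) :
    dev σ y (mv L w) = mv (σ L) (dev σ y w) := by
  by_cases h : hd w = some L
  · conv_rhs => rw [dev, mv_in h, List.foldr_cons, mv_mv]
    rfl
  · rw [dev, mv_out h]; rfl

theorem equi_ext {Λ' : Type} {σ : Λ → Λ'} {f f' : Rw Λ → Rw Λ'}
    (hf : ∀ L w, f (mv L w) = mv (σ L) (f w)) (hf' : ∀ L w, f' (mv L w) = mv (σ L) (f' w))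
    {w : Rw Λ} (h : f w = f' w) : f = f' :=
  funext (mv_ind w _ h fun u L ih => by rw [hf, hf', ih])

theorem exists_equi {Λ' : Type} (σ : Λ → Λ') (w : Rw Λ) :
    ∀ y : Rw Λ', ∃ f : Rw Λ → Rw Λ', (∀ L u, f (mv L u) = mv (σ L) (f u)) ∧ f w = y := by
  refine mv_ind root (fun w => ∀ y : Rw Λ', ∃ f : Rw Λ → Rw Λ',
    (∀ L u, f (mv L u) = mv (σ L) (f u)) ∧ f w = y) (fun y => ⟨_, dev_mv σ y, rfl⟩) ?_ w
  intro u L ih y
  obtain ⟨f, hf, e⟩ := ih (mv (σ L) y)
  exact ⟨f, hf, by rw [hf, e, mv_mv]⟩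

/-- An equivariant map for an injective `σ` respects the far sides. -/
theorem equi_far {Λ' : Type} {σ : Λ → Λ'} (hσ : Function.Injective σ) {f : Rw Λ → Rw Λ'}
    (hf : ∀ L w, f (mv L w) = mv (σ L) (f w)) {w x : Rw Λ} {L : Λ} (h : x ∈ Far w L) :
    f x ∈ Far (f w) (σ L) := by
  revert L
  refine tree_ind x (fun w => ∀ {L}, x ∈ Far w L → f x ∈ Far (f w) (σ L)) ?_ ?_ w
  · intro L h; exact absurd h (self_not_far x L)
  · intro u L hL ih L' hL'
    obtain rfl := far_uniq hL hL'
    by_cases e : x = mv L u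
    · rw [e, hf]; exact mv_far _ _
    · obtain ⟨L'', h2⟩ := exists_far e
      have h3 : L'' ≠ L := fun e' => (far_back u L x).1 (e' ▸ h2) hL
      have := ih h2
      rw [hf] at this
      exact far_nest (hσ.ne h3) this

variable (Γ Λ : Type) [Group Γ] [MulAction Γ Λ]

/-- Pairs of an element of `Γ` and a permutation of the words that intertwine the moves. -/
def Gp : Subgroup (Γ × Equiv.Perm (Rw Λ)) where
  carrier := {g | ∀ L w, g.2 (mv L w) = mv (g.1 • L) (g.2 w)}
  mul_mem' := fun {a b} ha hb L w => by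
    simp only [Prod.snd_mul, Prod.fst_mul, Equiv.Perm.mul_apply]
    rw [hb, ha, mul_smul]
  one_mem' := fun L w => by simp
  inv_mem' := fun {a} ha L w => a.2.injective (by
    rw [ha]; simp)

variable {Γ Λ}

theorem Gp_mv (g : Gp Γ Λ) (L : Λ) (w : Rw Λ) : g.1.2 (mv L w) = mv (g.1.1 • L) (g.1.2 w) :=
  g.2 L w

theorem Gp_ext {g g' : Gp Γ Λ} (h1 : g.1.1 = g'.1.1) {w : Rw Λ} (h2 : g.1.2 w = g'.1.2 w) :
    g = g' :=
  Subtype.ext (Prod.ext h1 (Equiv.ext (congrFun
    (equi_ext (σ := fun L => g.1.1 • L) g.2 (fun L u => by rw [h1]; exact g'.2 L u) h2))))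

theorem exists_Gp (γ : Γ) (w w' : Rw Λ) : ∃ g : Gp Γ Λ, g.1.1 = γ ∧ g.1.2 w = w' := by
  obtain ⟨f, hf, e⟩ := exists_equi (fun L : Λ => γ • L) w w'
  obtain ⟨f', hf', e'⟩ := exists_equi (fun L : Λ => γ⁻¹ • L) w' w
  have h1 : f' ∘ f = id := equi_ext (σ := id) (w := w)
    (fun L u => by simp [hf, hf']) (fun _ _ => rfl) (by simp [e, e'])
  have h2 : f ∘ f' = id := equi_ext (σ := id) (w := w')
    (fun L u => by simp [hf, hf']) (fun _ _ => rfl) (by simp [e, e'])
  exact ⟨⟨(γ, ⟨f, f', fun x => congrFun h1 x, fun x => congrFun h2 x⟩), hf⟩, rfl, e⟩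

theorem Gp_far (g : Gp Γ Λ) {w x : Rw Λ} {L : Λ} :
    g.1.2 x ∈ Far (g.1.2 w) (g.1.1 • L) ↔ x ∈ Far w L := by
  refine ⟨fun h => ?_, equi_far (MulAction.injective g.1.1) g.2⟩
  by_contra e
  have := equi_far (MulAction.injective g.1.1) g.2 ((far_back w L x).2 e)
  rw [Gp_mv] at this
  exact (far_back _ _ _).1 this h

end Pool.Agent.P.MP_318c20_al.UB
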